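import Pool.Agent.Lib.MP_d3cc86_co.RG.A1a

section

set_option autoImplicit false

open Finset Pointwise

namespace RG

variable {G : Type*} [AddCommGroup G] [Fintype G] {ι : Type*} [Fintype ι]

lemma R_mono (c : ι → G) (f a : ι → ℕ) (h : ∀ k, f k ≤ a k) : R c f 0 ⊆ R c a 0 := by
  intro t ht
  rw [mem_R] at ht ⊢
  obtain ⟨j, h1, h2, -⟩ := ht
  exact ⟨j, fun k => (h1 k).trans (h k), h2, Nat.zero_le _⟩

private lemma pos_add (c : ι → G) (i j : ι → ℕ) : pos c (i + j) = pos c i + pos c j := by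
  unfold pos
  rw [← Finset.sum_add_distrib]
  exact Finset.sum_congr rfl fun k _ => by rw [Pi.add_apply, add_smul]

/-- `gain (f + g) (j + j') ≥ gain f j`. -/
lemma R_add_sub [DecidableEq G] (c : ι → G) (f g : ι → ℕ) (v : ℕ) :
    R c f v + R c g 0 ⊆ R c (f + g) v := by
  intro t ht
  obtain ⟨t1, ht1, t2, ht2, rfl⟩ := Finset.mem_add.1 ht
  rw [mem_R] at ht1 ht2 ⊢
  obtain ⟨i, h1, h2, h3⟩ := ht1
  obtain ⟨j, k1, k2, -⟩ := ht2
  refine ⟨i + j, fun k => Nat.add_le_add (h1 k) (k1 k), by rw [pos_add, h2, k2], h3.trans ?_⟩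
  unfold gain
  refine Finset.sum_le_sum fun k _ => ?_
  rw [Pi.add_apply, Pi.add_apply]
  have e1 := h1 k
  have e2 := k1 k
  exact Nat.mul_le_mul (Nat.le_add_right _ _) (by omega)

/-- every `j ≤ f + g` is `j1 + j2`, `j1 ≤ f`, `j2 ≤ g`. -/
lemma R_add_eq [DecidableEq G] (c : ι → G) (f g : ι → ℕ) :
    R c (f + g) 0 = R c f 0 + R c g 0 := by
  refine Finset.Subset.antisymm ?_ (R_add_sub c f g 0)
  intro t ht
  rw [mem_R] at ht
  obtain ⟨j, h1, h2, -⟩ := ht
  refine Finset.mem_add.2 ⟨pos c (fun k => min (j k) (f k)), ?_,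
    pos c (fun k => j k - min (j k) (f k)), ?_, ?_⟩
  · rw [mem_R]
    exact ⟨_, fun k => min_le_right _ _, rfl, Nat.zero_le _⟩
  · rw [mem_R]
    refine ⟨_, fun k => ?_, rfl, Nat.zero_le _⟩
    have := h1 k
    rw [Pi.add_apply] at this
    omega
  · rw [← pos_add, ← h2]
    congr 1
    funext k
    rw [Pi.add_apply]
    have := min_le_left (j k) (f k)
    omega

/-- For `v ≤ Gam d`: `R c (d + g) v` contains the translate of `R c g 0` by `pos c (d / 2)`
(`R_add_sub` and `R_nonempty`). -/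
lemma R_shift (c : ι → G) (d g : ι → ℕ) (v : ℕ) (hv : v ≤ Gam d) :
    (R c g 0).card ≤ (R c (d + g) v).card := by
  classical
  obtain ⟨b, hb⟩ := R_nonempty c d hv
  have h1 : (R c g 0).image (fun t => b + t) ⊆ R c (d + g) v := by
    intro t ht
    obtain ⟨u, hu, rfl⟩ := Finset.mem_image.1 ht
    exact R_add_sub c d g v (Finset.add_mem_add hb hu)
  have h2 := Finset.card_le_card h1
  rwa [Finset.card_image_of_injective _ (add_right_injective b)] at h2

/-- The stabilizer of a summand is contained in the stabilizer of the sum (`R_add_eq`, `a = f + (a - f)`). -/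
lemma stb_le (c : ι → G) (f a : ι → ℕ) (h : ∀ k, f k ≤ a k) :
    stb (R c f 0) ≤ stb (R c a 0) := by
  classical
  have ha : a = f + fun k => a k - f k := by
    funext k
    have := h k
    rw [Pi.add_apply]
    omega
  have key : ∀ g ∈ stb (R c f 0), ∀ x, x ∈ R c a 0 → x + g ∈ R c a 0 := by
    intro g hg x hx
    rw [ha, R_add_eq] at hx ⊢
    obtain ⟨u, hu, y, hy, rfl⟩ := Finset.mem_add.1 hx
    refine Finset.mem_add.2 ⟨u + g, ?_, y, hy, by abel⟩
    exact ((mem_stb _ _).1 hg u).2 hu
  intro g hg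
  rw [mem_stb]
  intro x
  refine ⟨fun hx => ?_, key g hg x⟩
  have := key (-g) (neg_mem hg) _ hx
  rwa [add_neg_cancel_right] at this

/-- translates have the same stabilizer -/
lemma stb_translate [DecidableEq G] (X : Finset G) (b : G) : stb (X.image (fun t => b + t)) = stb X := by
  have hmem : ∀ x, x ∈ X.image (fun t => b + t) ↔ x - b ∈ X := by
    intro x
    rw [Finset.mem_image]
    constructor
    · rintro ⟨u, hu, rfl⟩
      rwa [add_sub_cancel_left]
    · intro hx
      exact ⟨x - b, hx, by abel⟩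
  ext g
  rw [mem_stb, mem_stb]
  constructor
  · intro h x
    have := h (b + x)
    rw [hmem, hmem, add_sub_cancel_left] at this
    rwa [show b + x + g - b = x + g by abel] at this
  · intro h x
    rw [hmem, hmem, show x + g - b = x - b + g by abel]
    exact h (x - b)

end RG
end

section

set_option autoImplicit false

open Finset Pointwise

namespace RG

section KNg

variable {G : Type*} [AddCommGroup G] [DecidableEq G]

/-- `C` is periodic for a subgroup `K` with `N ≤ |C| + |K|`. -/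
private def Good (N : ℕ) (C : Finset G) : Prop :=
  ∃ K : AddSubgroup G, (∀ x ∈ C, ∀ g ∈ K, x + g ∈ C) ∧ N ≤ C.card + Nat.card K

private theorem fin_of_per {C : Finset G} (hC : C.Nonempty) {K : AddSubgroup G}
    (h : ∀ x ∈ C, ∀ g ∈ K, x + g ∈ C) : (K : Set G).Finite := by
  obtain ⟨x, hx⟩ := hC
  have h1 : Set.MapsTo (fun g => x + g) (K : Set G) (C : Set G) := fun g hg => h x hx g hg
  exact Set.Finite.of_injOn h1 (fun a _ b _ hab => add_left_cancel hab) C.finite_toSet

private theorem arith {h0 X X' Y Y' A B : ℕ} (hp : 0 < h0) (hX : h0 ≤ X) (hX' : h0 ≤ X')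
    (hY : h0 ≤ Y) (hY' : h0 ≤ Y') (h1 : X * Y' ≤ h0 * A) (h2 : Y * X' ≤ h0 * B) :
    X + X' ≤ A + h0 ∨ Y + Y' ≤ B + h0 := by
  by_contra hc
  rw [not_or] at hc
  obtain ⟨hc1, hc2⟩ := hc
  obtain ⟨p, rfl⟩ := Nat.exists_eq_add_of_le hX
  obtain ⟨q, rfl⟩ := Nat.exists_eq_add_of_le hX'
  obtain ⟨r, rfl⟩ := Nat.exists_eq_add_of_le hY
  obtain ⟨s, rfl⟩ := Nat.exists_eq_add_of_le hY'
  have e1 : A < h0 + p + q := by omega
  have e2 : B < h0 + r + s := by omega
  have e3 : h0 * A < h0 * (h0 + p + q) := Nat.mul_lt_mul_of_pos_left e1 hp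
  have e4 : h0 * B < h0 * (h0 + r + s) := Nat.mul_lt_mul_of_pos_left e2 hp
  have e5 : h0 * s + p * s < h0 * q := by nlinarith
  have e6 : h0 * q + r * q < h0 * s := by nlinarith
  have e7 : 0 ≤ p * s := Nat.zero_le _
  have e8 : 0 ≤ r * q := Nat.zero_le _
  omega

private theorem count (C1 C2 F1 F2 F0 : Finset G) (K1 K2 : AddSubgroup G)
    (hF1 : ∀ g, g ∈ F1 ↔ g ∈ K1) (hF2 : ∀ g, g ∈ F2 ↔ g ∈ K2) (hF0 : ∀ g, g ∈ F0 ↔ g ∈ K1 ∧ g ∈ K2)
    (h1 : ∀ x ∈ C1, ∀ g ∈ K1, x + g ∈ C1) (h2 : ∀ x ∈ C2, ∀ g ∈ K2, x + g ∈ C2) (d : G) :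
    (F1.filter fun x => d + x ∈ C2).card * (F2.filter fun y => d + y ∉ C1).card ≤
      F0.card * (C2 \ C1).card := by
  rw [← Finset.card_product]
  refine Finset.card_le_mul_card_image_of_maps_to (f := fun p : G × G => d + p.1 + p.2) ?_ _ ?_
  · rintro ⟨x, y⟩ hxy
    simp only [Finset.mem_product, Finset.mem_filter] at hxy
    obtain ⟨⟨hx1, hx2⟩, hy1, hy2⟩ := hxy
    rw [Finset.mem_sdiff]
    refine ⟨h2 _ hx2 _ ((hF2 y).1 hy1), fun hc => hy2 ?_⟩
    have := h1 _ hc (-x) (K1.neg_mem ((hF1 x).1 hx1))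
    have e : d + x + y + -x = d + y := by abel
    simpa only [e] using this
  · intro z _
    by_cases hne : (((F1.filter fun x => d + x ∈ C2) ×ˢ (F2.filter fun y => d + y ∉ C1)).filter
        fun p : G × G => d + p.1 + p.2 = z).Nonempty
    · obtain ⟨⟨x0, y0⟩, h0⟩ := hne
      simp only [Finset.mem_filter, Finset.mem_product] at h0
      obtain ⟨⟨⟨hx1, _⟩, hy1, _⟩, hz⟩ := h0
      refine Finset.card_le_card_of_injOn (fun p : G × G => p.1 - x0) ?_ ?_
      · rintro ⟨x, y⟩ hxy
        simp only [Finset.coe_filter, Finset.mem_product, Finset.mem_filter, Set.mem_setOf_eq] at hxy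
        obtain ⟨⟨⟨hx3, _⟩, hy3, _⟩, hz'⟩ := hxy
        simp only [Finset.mem_coe]
        rw [hF0]
        refine ⟨K1.sub_mem ((hF1 x).1 hx3) ((hF1 x0).1 hx1), ?_⟩
        have e : x - x0 = y0 - y := by
          have e1 : d + x + y = d + x0 + y0 := hz'.trans hz.symm
          have e2 : x + y = x0 + y0 := by
            have : d + (x + y) = d + (x0 + y0) := by
              rw [← add_assoc, ← add_assoc]
              exact e1
            exact add_left_cancel this
          have e3 : x - x0 - (y0 - y) = (x + y) - (x0 + y0) := by abel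
          rw [← sub_eq_zero, e3, e2, sub_self]
        rw [e]
        exact K2.sub_mem ((hF2 y0).1 hy1) ((hF2 y).1 hy3)
      · rintro ⟨x, y⟩ hxy ⟨x', y'⟩ hxy' heq
        simp only [Finset.coe_filter, Set.mem_setOf_eq] at hxy hxy'
        have e1 : x = x' := sub_left_injective heq
        subst e1
        have e2 : d + x + y = d + x + y' := hxy.2.trans hxy'.2.symm
        rw [add_left_cancel e2]
    · rw [Finset.not_nonempty_iff_eq_empty] at hne
      rw [hne, Finset.card_empty]
      exact Nat.zero_le _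

private theorem ge_card (C F1 F0 : Finset G) (K1 K2 : AddSubgroup G)
    (hF1 : ∀ g, g ∈ F1 ↔ g ∈ K1) (hF0 : ∀ g ∈ F0, g ∈ K1 ∧ g ∈ K2)
    (h : ∀ x, x ∈ C → ∀ g ∈ K2, x + g ∈ C) (d : G) :
    ((F1.filter fun x => d + x ∈ C).Nonempty → F0.card ≤ (F1.filter fun x => d + x ∈ C).card) ∧
    ((F1.filter fun x => d + x ∉ C).Nonempty → F0.card ≤ (F1.filter fun x => d + x ∉ C).card) := by
  constructor
  · rintro ⟨x0, hx0⟩
    rw [Finset.mem_filter] at hx0
    refine Finset.card_le_card_of_injOn (fun g => x0 + g) ?_ (fun a _ b _ hab => add_left_cancel hab)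
    intro g hg
    obtain ⟨g1, g2⟩ := hF0 g hg
    simp only [Finset.coe_filter, Set.mem_setOf_eq]
    refine ⟨(hF1 _).2 (K1.add_mem ((hF1 _).1 hx0.1) g1), ?_⟩
    rw [← add_assoc]
    exact h _ hx0.2 _ g2
  · rintro ⟨x0, hx0⟩
    rw [Finset.mem_filter] at hx0
    refine Finset.card_le_card_of_injOn (fun g => x0 + g) ?_ (fun a _ b _ hab => add_left_cancel hab)
    intro g hg
    obtain ⟨g1, g2⟩ := hF0 g hg
    simp only [Finset.coe_filter, Set.mem_setOf_eq]
    refine ⟨(hF1 _).2 (K1.add_mem ((hF1 _).1 hx0.1) g1), fun hc => hx0.2 ?_⟩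
    have := h _ hc (-g) (K2.neg_mem g2)
    have e : d + (x0 + g) + -g = d + x0 := by abel
    simpa only [e] using this

private theorem union_good {N : ℕ} {C1 C2 : Finset G} (ne1 : C1.Nonempty) (ne2 : C2.Nonempty)
    (g1 : Good N C1) (g2 : Good N C2) : Good N (C1 ∪ C2) := by
  by_cases s1 : C1 ⊆ C2
  · rwa [Finset.union_eq_right.2 s1]
  by_cases s2 : C2 ⊆ C1
  · rwa [Finset.union_eq_left.2 s2]
  obtain ⟨K1, p1, n1⟩ := g1
  obtain ⟨K2, p2, n2⟩ := g2
  obtain ⟨c1, hc1, hc1'⟩ := Finset.not_subset.1 s1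
  obtain ⟨c2, hc2, hc2'⟩ := Finset.not_subset.1 s2
  have f1 := fin_of_per ne1 p1
  have f2 := fin_of_per ne2 p2
  have f0 : ((K1 ⊓ K2 : AddSubgroup G) : Set G).Finite := f1.subset fun g hg => hg.1
  obtain ⟨F1, hF1⟩ : ∃ F1 : Finset G, F1 = f1.toFinset := ⟨_, rfl⟩
  obtain ⟨F2, hF2⟩ : ∃ F2 : Finset G, F2 = f2.toFinset := ⟨_, rfl⟩
  obtain ⟨F0, hF0⟩ : ∃ F0 : Finset G, F0 = f0.toFinset := ⟨_, rfl⟩
  have m1 : ∀ g, g ∈ F1 ↔ g ∈ K1 := by
    intro g
    rw [hF1, Set.Finite.mem_toFinset]
    rfl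
  have m2 : ∀ g, g ∈ F2 ↔ g ∈ K2 := by
    intro g
    rw [hF2, Set.Finite.mem_toFinset]
    rfl
  have m0 : ∀ g, g ∈ F0 ↔ g ∈ K1 ∧ g ∈ K2 := by
    intro g
    rw [hF0, Set.Finite.mem_toFinset]
    exact AddSubgroup.mem_inf
  have c1' : Nat.card K1 = F1.card := by
    rw [hF1]
    exact Nat.card_eq_card_finite_toFinset f1
  have c2' : Nat.card K2 = F2.card := by
    rw [hF2]
    exact Nat.card_eq_card_finite_toFinset f2
  have c0' : Nat.card (K1 ⊓ K2 : AddSubgroup G) = F0.card := by
    rw [hF0]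
    exact Nat.card_eq_card_finite_toFinset f0
  have hp : 0 < F0.card := Finset.card_pos.2 ⟨0, (m0 0).2 ⟨K1.zero_mem, K2.zero_mem⟩⟩
  have m0' : ∀ g, g ∈ F0 ↔ g ∈ K2 ∧ g ∈ K1 := fun g => (m0 g).trans and_comm
  -- the main alternative
  have key : F1.card ≤ (C2 \ C1).card + F0.card ∨ F2.card ≤ (C1 \ C2).card + F0.card := by
    have gen : ∀ d : G,
        (F1.filter fun x => d + x ∈ C2).card * (F2.filter fun y => d + y ∉ C1).card ≤
          F0.card * (C2 \ C1).card ∧
        (F2.filter fun x => d + x ∈ C1).card * (F1.filter fun y => d + y ∉ C2).card ≤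
          F0.card * (C1 \ C2).card ∧
        (F1.filter fun x => d + x ∈ C2).card + (F1.filter fun x => d + x ∉ C2).card = F1.card ∧
        (F2.filter fun x => d + x ∈ C1).card + (F2.filter fun x => d + x ∉ C1).card = F2.card := by
      intro d
      exact ⟨count C1 C2 F1 F2 F0 K1 K2 m1 m2 m0 p1 p2 d, count C2 C1 F2 F1 F0 K2 K1 m2 m1 m0' p2 p1 d,
        Finset.card_filter_add_card_filter_not _, Finset.card_filter_add_card_filter_not _⟩
    have alt : ∀ d : G,
        F0.card ≤ (F1.filter fun x => d + x ∈ C2).card → F0.card ≤ (F1.filter fun x => d + x ∉ C2).card →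
        F0.card ≤ (F2.filter fun x => d + x ∈ C1).card → F0.card ≤ (F2.filter fun x => d + x ∉ C1).card →
        F1.card ≤ (C2 \ C1).card + F0.card ∨ F2.card ≤ (C1 \ C2).card + F0.card := by
      intro d q1 q2 q3 q4
      obtain ⟨r1, r2, r3, r4⟩ := gen d
      have := arith hp q1 q2 q3 q4 r1 r2
      rw [r3, r4] at this
      exact this
    have mono : ∀ {a b c : ℕ}, a * F0.card ≤ F0.card * b → c ≤ a → c ≤ b := by
      intro a b c h h'
      rw [mul_comm] at h
      exact h'.trans (Nat.le_of_mul_le_mul_left h hp)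
    -- at `c2`
    have A2 : (F1.card ≤ (C2 \ C1).card + F0.card ∨ F2.card ≤ (C1 \ C2).card + F0.card) ∨
        F2.card ≤ (C2 \ C1).card := by
      obtain ⟨r1, r2, r3, r4⟩ := gen c2
      have u1 := (ge_card C2 F1 F0 K1 K2 m1 (fun g hg => (m0 g).1 hg) p2 c2)
      have u2 := (ge_card C1 F2 F0 K2 K1 m2 (fun g hg => (m0' g).1 hg) p1 c2)
      have v1 := u1.1 ⟨0, Finset.mem_filter.2 ⟨(m1 0).2 K1.zero_mem, by rwa [add_zero]⟩⟩
      have v2 := u2.2 ⟨0, Finset.mem_filter.2 ⟨(m2 0).2 K2.zero_mem, by rwa [add_zero]⟩⟩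
      by_cases w1 : (F1.filter fun x => c2 + x ∉ C2).Nonempty
      · by_cases w2 : (F2.filter fun x => c2 + x ∈ C1).Nonempty
        · exact Or.inl (alt c2 v1 (u1.2 w1) (u2.1 w2) v2)
        · right
          rw [Finset.not_nonempty_iff_eq_empty] at w2
          rw [w2, Finset.card_empty, zero_add] at r4
          rw [r4] at r1
          have : F2.card * F0.card ≤ F0.card * (C2 \ C1).card := by
            refine le_trans ?_ r1
            rw [mul_comm]
            exact Nat.mul_le_mul_right _ v1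
          exact mono this le_rfl
      · left
        left
        rw [Finset.not_nonempty_iff_eq_empty] at w1
        rw [w1, Finset.card_empty, add_zero] at r3
        rw [r3] at r1
        have : F1.card * F0.card ≤ F0.card * (C2 \ C1).card :=
          le_trans (Nat.mul_le_mul_left _ v2) r1
        exact (mono this le_rfl).trans (Nat.le_add_right _ _)
    -- at `c1`
    have A1 : (F1.card ≤ (C2 \ C1).card + F0.card ∨ F2.card ≤ (C1 \ C2).card + F0.card) ∨
        F1.card ≤ (C1 \ C2).card := by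
      obtain ⟨r1, r2, r3, r4⟩ := gen c1
      have u1 := (ge_card C2 F1 F0 K1 K2 m1 (fun g hg => (m0 g).1 hg) p2 c1)
      have u2 := (ge_card C1 F2 F0 K2 K1 m2 (fun g hg => (m0' g).1 hg) p1 c1)
      have v1 := u1.2 ⟨0, Finset.mem_filter.2 ⟨(m1 0).2 K1.zero_mem, by rwa [add_zero]⟩⟩
      have v2 := u2.1 ⟨0, Finset.mem_filter.2 ⟨(m2 0).2 K2.zero_mem, by rwa [add_zero]⟩⟩
      by_cases w1 : (F1.filter fun x => c1 + x ∈ C2).Nonempty
      · by_cases w2 : (F2.filter fun x => c1 + x ∉ C1).Nonempty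
        · exact Or.inl (alt c1 (u1.1 w1) v1 v2 (u2.2 w2))
        · left
          right
          rw [Finset.not_nonempty_iff_eq_empty] at w2
          rw [w2, Finset.card_empty, add_zero] at r4
          rw [r4] at r2
          have : F2.card * F0.card ≤ F0.card * (C1 \ C2).card :=
            le_trans (Nat.mul_le_mul_left _ v1) r2
          exact (mono this le_rfl).trans (Nat.le_add_right _ _)
      · right
        rw [Finset.not_nonempty_iff_eq_empty] at w1
        rw [w1, Finset.card_empty, zero_add] at r3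
        rw [r3] at r2
        have : F1.card * F0.card ≤ F0.card * (C1 \ C2).card := by
          refine le_trans ?_ r2
          rw [mul_comm]
          exact Nat.mul_le_mul_right _ v2
        exact mono this le_rfl
    rcases A1 with h | h
    · exact h
    rcases A2 with h' | h'
    · exact h'
    rcases le_total F1.card F2.card with h'' | h''
    · left
      omega
    · right
      omega
  refine ⟨K1 ⊓ K2, ?_, ?_⟩
  · intro x hx g hg
    rw [AddSubgroup.mem_inf] at hg
    rw [Finset.mem_union] at hx ⊢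
    exact hx.imp (fun h => p1 x h g hg.1) (fun h => p2 x h g hg.2)
  · rw [c0']
    rcases key with h | h
    · have e : (C1 ∪ C2).card = C1.card + (C2 \ C1).card := by
        rw [← Finset.union_sdiff_self_eq_union, Finset.card_union_of_disjoint Finset.disjoint_sdiff]
      omega
    · have e : (C1 ∪ C2).card = C2.card + (C1 \ C2).card := by
        rw [Finset.union_comm, ← Finset.union_sdiff_self_eq_union,
          Finset.card_union_of_disjoint Finset.disjoint_sdiff]
      omega

/-- the stabilizer -/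
private def stab (A : Finset G) : AddSubgroup G where
  carrier := {g | ∀ x, x + g ∈ A ↔ x ∈ A}
  add_mem' := by
    intro a b ha hb x
    rw [← add_assoc]
    exact (hb _).trans (ha _)
  zero_mem' := by
    intro x
    rw [add_zero]
  neg_mem' := by
    intro a ha x
    have := ha (x + -a)
    rw [add_assoc, neg_add_cancel, add_zero] at this
    exact this.symm

/-- a periodic subset through the point `a + b` (Dyson transforms) -/
private theorem exists_sub (A B : Finset G) {a b : G} (ha : a ∈ A) (hb : b ∈ B) :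
    ∃ C : Finset G, a + b ∈ C ∧ C ⊆ A + B ∧ Good (A.card + B.card) C := by
  have hbd : ∀ n : ℕ, (∃ A' B' : Finset G, a ∈ A' ∧ b ∈ B' ∧ A' + B' ⊆ A + B ∧
      A'.card + B'.card = A.card + B.card ∧ A'.card = n) → n ≤ (A + B).card := by
    rintro n ⟨A', B', _, hb', hs, _, rfl⟩
    refine Finset.card_le_card_of_injOn (fun x => x + b) ?_ (fun x _ y _ h => add_right_cancel h)
    intro x hx
    exact hs (Finset.add_mem_add hx hb')
  classical
  have hex : ∃ n : ℕ, (∃ A' B' : Finset G, a ∈ A' ∧ b ∈ B' ∧ A' + B' ⊆ A + B ∧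
      A'.card + B'.card = A.card + B.card ∧ A'.card = n) := ⟨A.card, A, B, ha, hb, subset_rfl, rfl, rfl⟩
  obtain ⟨A', B', ha', hb', hs, hc, hn⟩ := Nat.findGreatest_spec (P := fun n => ∃ A' B' : Finset G,
    a ∈ A' ∧ b ∈ B' ∧ A' + B' ⊆ A + B ∧ A'.card + B'.card = A.card + B.card ∧ A'.card = n)
    (hbd _ hex.choose_spec) hex.choose_spec
  have hmax : ∀ A'' B'' : Finset G, a ∈ A'' → b ∈ B'' → A'' + B'' ⊆ A + B →
      A''.card + B''.card = A.card + B.card → A''.card ≤ A'.card := by
    intro A'' B'' h1 h2 h3 h4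
    rw [hn]
    exact Nat.le_findGreatest (hbd _ ⟨A'', B'', h1, h2, h3, h4, rfl⟩) ⟨A'', B'', h1, h2, h3, h4, rfl⟩
  have hsub : ∀ a' ∈ A', ∀ y ∈ B', y + (a' - b) ∈ A' := by
    intro a' ha'' y hy
    obtain ⟨D, hD⟩ : ∃ D : Finset G, D = B'.image fun y => y + (a' - b) := ⟨_, rfl⟩
    have hDc : D.card = B'.card := by
      rw [hD]
      exact Finset.card_image_of_injective _ (add_left_injective _)
    have hD' : ∀ z, z ∈ D ↔ ∃ y ∈ B', y + (a' - b) = z := by
      intro z
      rw [hD]
      exact Finset.mem_image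
    have h1 := hmax (A' ∪ D) (B'.filter fun y => y + (a' - b) ∈ A')
      (Finset.mem_union_left _ ha')
      (Finset.mem_filter.2 ⟨hb', by
        have : b + (a' - b) = a' := by abel
        rwa [this]⟩) ?_ ?_
    · have h2 : A' = A' ∪ D := Finset.eq_of_subset_of_card_le Finset.subset_union_left h1
      rw [h2]
      exact Finset.mem_union_right _ ((hD' _).2 ⟨y, hy, rfl⟩)
    · intro z hz
      obtain ⟨u, hu, v, hv, rfl⟩ := Finset.mem_add.1 hz
      rw [Finset.mem_filter] at hv
      apply hs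
      rcases Finset.mem_union.1 hu with hu | hu
      · exact Finset.add_mem_add hu hv.1
      · obtain ⟨y', hy', rfl⟩ := (hD' _).1 hu
        have : y' + (a' - b) + v = (v + (a' - b)) + y' := by abel
        rw [this]
        exact Finset.add_mem_add hv.2 hy'
    · have h2 : (B'.filter fun y => y + (a' - b) ∈ A').card = (A' ∩ D).card := by
        refine Finset.card_bij (fun y _ => y + (a' - b)) ?_ ?_ ?_
        · intro y hy
          rw [Finset.mem_filter] at hy
          exact Finset.mem_inter.2 ⟨hy.2, (hD' _).2 ⟨y, hy.1, rfl⟩⟩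
        · intro y _ y' _ h
          exact add_right_cancel h
        · intro z hz
          rw [Finset.mem_inter] at hz
          obtain ⟨y, hy, rfl⟩ := (hD' _).1 hz.2
          exact ⟨y, Finset.mem_filter.2 ⟨hy, hz.1⟩, rfl⟩
      rw [h2, Finset.card_union_add_card_inter, hDc, hc]
  have hst : ∀ y ∈ B', y - b ∈ stab A' := by
    intro y hy
    have h1 : (A'.image fun x => x + (y - b)) = A' := by
      refine Finset.eq_of_subset_of_card_le ?_ ?_
      · intro z hz
        obtain ⟨x, hx, rfl⟩ := Finset.mem_image.1 hz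
        have := hsub x hx y hy
        have e : y + (x - b) = x + (y - b) := by abel
        rwa [e] at this
      · rw [Finset.card_image_of_injective _ (add_left_injective _)]
    intro x
    constructor
    · intro h
      rw [← h1] at h
      obtain ⟨x', hx', h2⟩ := Finset.mem_image.1 h
      have := add_right_cancel h2
      rwa [← this]
    · intro h
      rw [← h1]
      exact Finset.mem_image_of_mem _ h
  have hper : ∀ x ∈ A', ∀ g ∈ stab A', x + g ∈ A' := fun x hx g hg => (hg x).2 hx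
  have hfin := fin_of_per ⟨a, ha'⟩ hper
  have hcard : B'.card ≤ Nat.card (stab A') := by
    have h1 : Nat.card (stab A') = hfin.toFinset.card := Nat.card_eq_card_finite_toFinset hfin
    rw [h1]
    refine Finset.card_le_card_of_injOn (fun y => y - b) ?_ (fun x _ y _ h => sub_left_injective h)
    intro y hy
    rw [Set.Finite.coe_toFinset]
    exact hst y hy
  refine ⟨A'.image fun x => x + b, Finset.mem_image_of_mem _ ha', ?_, stab A', ?_, ?_⟩
  · intro z hz
    obtain ⟨x, hx, rfl⟩ := Finset.mem_image.1 hz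
    exact hs (Finset.add_mem_add hx hb')
  · intro x hx g hg
    obtain ⟨x', hx', rfl⟩ := Finset.mem_image.1 hx
    have e : x' + b + g = x' + g + b := by abel
    rw [e]
    exact Finset.mem_image_of_mem _ (hper x' hx' g hg)
  · rw [Finset.card_image_of_injective _ (add_left_injective _), ← hc]
    exact Nat.add_le_add_left hcard _

private theorem biUnion_good {N : ℕ} {ι : Type*} [DecidableEq ι] (s : Finset ι) (hs : s.Nonempty)
    (C : ι → Finset G) (hne : ∀ i ∈ s, (C i).Nonempty) (hg : ∀ i ∈ s, Good N (C i)) :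
    Good N (s.biUnion C) ∧ (s.biUnion C).Nonempty := by
  induction hs using Finset.Nonempty.cons_induction with
  | singleton i =>
    rw [Finset.singleton_biUnion]
    exact ⟨hg i (Finset.mem_singleton_self i), hne i (Finset.mem_singleton_self i)⟩
  | cons i s hi hs ih =>
    have e : (Finset.cons i s hi).biUnion C = C i ∪ s.biUnion C := by
      rw [Finset.cons_eq_insert, Finset.biUnion_insert]
    rw [e]
    have h1 := ih (fun j hj => hne j (Finset.mem_cons_of_mem hj))
      (fun j hj => hg j (Finset.mem_cons_of_mem hj))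
    have h2 := hne i (Finset.mem_cons_self i s)
    exact ⟨union_good h2 h1.2 (hg i (Finset.mem_cons_self i s)) h1.1,
      h2.mono Finset.subset_union_left⟩

end KNg

/-- **Kneser's theorem**, general form.  For finite nonempty `X, Y` in an abelian group there is a
subgroup `K` with `X + Y + K = X + Y` and `|X + Y| ≥ |X| + |Y| - |K|`.

Proof (M. DeVos, A short proof of Kneser's addition theorem; or the proof in Nathanson's book / in the
library LeanCamCombi).  Induction; take a counterexample `(A, B)` with `|A + B|` minimal, then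
`|A| + |B|` maximal, then `|A|` minimal.  If `|A| = 1` it is trivial.  If `b + a' - a ∈ B` for all
`a, a' ∈ A`, `b ∈ B` then `a' - a` stabilizes `B` ... (easy case).  Otherwise after a translation of `B`
one has `∅ ≠ A ∩ B ≠ A`.  Call `C ⊆ A + B` convergent, with `K = stab C`, if
`|C| + |K| ≥ |A ∩ B| + |(A ∪ B) + K|`.  `C0 = (A ∩ B) + (A ∪ B)` is convergent by induction.
Take a convergent `C` with `|stab C|` minimal; if `stab C = 0` one is done
(`|A + B| ≥ |A ∩ B| + |A ∪ B| - 1 = |A| + |B| - 1`); otherwise choose `a ∈ A`, `b ∈ B` with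
`a + b + K ⊄ A + B` and consider `A1 = A ∩ (a + K)`, `A2 = A ∩ (b + K)`, `B1 = B ∩ (b + K)`,
`B2 = B ∩ (a + K)` and the sets `C ∪ (A1 + B1)`, `C ∪ (A2 + B2)`; one of them is convergent with a
smaller stabilizer.  Any other proof is fine. -/
theorem kneser_general {G : Type*} [AddCommGroup G] [DecidableEq G] (X Y : Finset G)
    (hX : X.Nonempty) (hY : Y.Nonempty) :
    ∃ K : AddSubgroup G, (∀ x, x ∈ X + Y → ∀ g ∈ K, x + g ∈ X + Y) ∧
      X.card + Y.card ≤ (X + Y).card + Nat.card K := by
  have h1 : ∀ c : G, ∃ C : Finset G, c ∈ X + Y → (c ∈ C ∧ C ⊆ X + Y ∧ Good (X.card + Y.card) C) := by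
    intro c
    by_cases hc : c ∈ X + Y
    · obtain ⟨a, ha, b, hb, rfl⟩ := Finset.mem_add.1 hc
      obtain ⟨C, hC⟩ := exists_sub X Y ha hb
      exact ⟨C, fun _ => hC⟩
    · exact ⟨∅, fun h => absurd h hc⟩
  choose C hC using h1
  obtain ⟨h2, -⟩ := biUnion_good (N := X.card + Y.card) (X + Y) (hX.add hY) C
    (fun c hc => ⟨c, (hC c hc).1⟩) (fun c hc => (hC c hc).2.2)
  have h3 : (X + Y).biUnion C = X + Y := by
    apply Finset.Subset.antisymm
    · exact Finset.biUnion_subset.2 fun c hc => (hC c hc).2.1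
    · intro c hc
      exact Finset.mem_biUnion.2 ⟨c, hc, (hC c hc).1⟩
  rw [h3] at h2
  exact h2

end RG
end
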