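import Pool.Agent.Lib.MP_d3cc86_co.RG.Defs

section

set_option autoImplicit false

open Finset

namespace RG

open SPR (T two_T T_succ le_T T_mono T_zero eight_T)

lemma gg_zero (u : ℕ) : gg u 0 = 1 := by
  simp [gg, T_zero]

/-- `t = Q u + r`: the increment is `Q + 1` (also for `r = u - 1`). -/
lemma gg_succ (u t : ℕ) (hu : 1 ≤ u) : gg u (t + 1) = gg u t + (t / u + 1) := by
  have hu0 : 0 < u := by omega
  have h1 := Nat.div_add_mod t u
  have h2 := Nat.mod_lt t hu0
  unfold gg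
  set Q := t / u with hQ
  set r := t % u with hr
  rcases lt_or_ge (r + 1) u with h | h
  · have e1 : (t + 1) / u = Q := by
      rw [← h1, add_assoc, Nat.mul_add_div hu0, Nat.div_eq_of_lt h, add_zero]
    have e2 : (t + 1) % u = r + 1 := by
      rw [← h1, add_assoc, Nat.mul_add_mod, Nat.mod_eq_of_lt h]
    rw [e1, e2]
    ring
  · have hr1 : r + 1 = u := by omega
    have e0 : t + 1 = u * (Q + 1) := by
      rw [← h1, add_assoc, hr1]
      ring
    have e1 : (t + 1) / u = Q + 1 := by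
      rw [e0, Nat.mul_div_cancel_left _ hu0]
    have e2 : (t + 1) % u = 0 := by
      rw [e0, Nat.mul_mod_right]
    rw [e1, e2, T_succ]
    have hr2 : u = r + 1 := hr1.symm
    rw [hr2]
    ring

/-- by `gg_succ` -/
lemma gg_mono (u : ℕ) (hu : 1 ≤ u) {t t' : ℕ} (h : t ≤ t') : gg u t ≤ gg u t' := by
  induction h with
  | refl => exact le_rfl
  | step _ ih =>
    rw [Nat.succ_eq_add_one, gg_succ u _ hu]
    exact le_trans ih (Nat.le_add_right _ _)

/-- `gg` is decreasing in `u` (`t / u' ≤ t / u`). -/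
lemma gg_anti (t : ℕ) {u u' : ℕ} (hu : 1 ≤ u) (h : u ≤ u') : gg u' t ≤ gg u t := by
  induction t with
  | zero => rw [gg_zero, gg_zero]
  | succ t ih =>
    rw [gg_succ u t hu, gg_succ u' t (by omega)]
    have h3 : t / u' ≤ t / u := Nat.div_le_div_left h (by omega)
    exact Nat.add_le_add ih (Nat.add_le_add_right h3 1)

lemma gg_ge (u t : ℕ) (hu : 1 ≤ u) : 1 + t ≤ gg u t := by
  induction t with
  | zero => rw [gg_zero]
  | succ t ih =>
    rw [gg_succ u t hu, ← add_assoc]
    exact Nat.add_le_add ih (Nat.le_add_left 1 _)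

/-- `g_u(t) ≥ 1 + (t^2/u + t)/2`. -/
lemma gg_quad (u t : ℕ) (hu : 1 ≤ u) : t * t + u * t + 2 * u ≤ 2 * u * gg u t := by
  have hu0 : 0 < u := by omega
  have h1 := Nat.div_add_mod t u
  have h2 := Nat.mod_lt t hu0
  have hT := two_T (t / u)
  unfold gg
  set Q := t / u with hQ
  set r := t % u with hr
  obtain ⟨d, hd⟩ : ∃ d, u = r + d := ⟨u - r, by omega⟩
  rw [← h1]
  have e : 2 * u * (1 + u * T Q + r * (Q + 1))
      = 2 * u + u * u * (2 * T Q) + 2 * u * r * (Q + 1) := by ring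
  rw [e, hT]
  have key : 2 * u + u * u * (Q * (Q + 1)) + 2 * u * r * (Q + 1)
      = (u * Q + r) * (u * Q + r) + u * (u * Q + r) + 2 * u + r * d := by
    rw [hd]
    ring
  rw [key]
  exact Nat.le_add_right _ _

lemma gg_one (t : ℕ) : gg 1 t = 1 + T t := by
  unfold gg
  simp [Nat.mod_one]

end RG
end

section

set_option autoImplicit false

open Finset Pointwise

namespace RG

variable {G : Type*} [AddCommGroup G] [Fintype G] {ι : Type*} [Fintype ι]

lemma mem_R {c : ι → G} {a : ι → ℕ} {v : ℕ} {t : G} :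
    t ∈ R c a v ↔ ∃ j : ι → ℕ, (∀ k, j k ≤ a k) ∧ pos c j = t ∧ v ≤ gain a j := by
  classical
  simp [R]

lemma R_anti (c : ι → G) (a : ι → ℕ) {v w : ℕ} (h : v ≤ w) : R c a w ⊆ R c a v := by
  intro t ht
  rw [mem_R] at ht ⊢
  obtain ⟨j, h1, h2, h3⟩ := ht
  exact ⟨j, h1, h2, h.trans h3⟩

lemma zero_mem_R (c : ι → G) (a : ι → ℕ) : (0 : G) ∈ R c a 0 := by
  rw [mem_R]
  exact ⟨fun _ => 0, fun _ => Nat.zero_le _, by simp [pos], Nat.zero_le _⟩

private lemma aux_mul_le (a j : ℕ) : j * (a - j) ≤ a ^ 2 / 4 := by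
  rw [Nat.le_div_iff_mul_le (by norm_num)]
  rcases le_total j a with h | h
  · obtain ⟨k, rfl⟩ := Nat.exists_eq_add_of_le h
    rw [Nat.add_sub_cancel_left]
    have h1 : j * k * 4 ≤ (j + k) ^ 2 := by
      have h2 : ((j * k * 4 : ℕ) : ℤ) ≤ (((j + k) ^ 2 : ℕ) : ℤ) := by
        push_cast
        nlinarith [sq_nonneg ((j : ℤ) - k)]
      exact_mod_cast h2
    exact h1
  · rw [Nat.sub_eq_zero_of_le h]
    simp

/-- `j (a - j) ≤ a^2 / 4`. -/
lemma gain_le (a j : ι → ℕ) : gain a j ≤ Gam a := by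
  unfold gain Gam
  exact Finset.sum_le_sum fun i _ => aux_mul_le _ _

lemma R_empty (c : ι → G) (a : ι → ℕ) {v : ℕ} (h : Gam a < v) : R c a v = ∅ := by
  rw [Finset.eq_empty_iff_forall_notMem]
  intro t ht
  rw [mem_R] at ht
  obtain ⟨j, _, _, h3⟩ := ht
  exact absurd (h3.trans (gain_le a j)) (not_le.mpr h)

private lemma aux_half (a : ℕ) : a / 2 * (a - a / 2) = a ^ 2 / 4 := by
  rcases Nat.even_or_odd' a with ⟨k, rfl | rfl⟩
  · have h1 : 2 * k / 2 = k := by omega
    have h2 : 2 * k - k = k := by omega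
    rw [h1, h2]
    have h3 : (2 * k) ^ 2 = 4 * (k * k) := by ring
    rw [h3, Nat.mul_div_cancel_left _ (by norm_num)]
  · have h1 : (2 * k + 1) / 2 = k := by omega
    have h2 : 2 * k + 1 - k = k + 1 := by omega
    rw [h1, h2]
    have h3 : (2 * k + 1) ^ 2 = 1 + 4 * (k * (k + 1)) := by ring
    rw [h3, Nat.add_mul_div_left _ _ (by norm_num)]
    simp

/-- the balanced choice `j_k = a_k / 2` has gain `Gam a`. -/
lemma R_nonempty (c : ι → G) (a : ι → ℕ) {v : ℕ} (h : v ≤ Gam a) : (R c a v).Nonempty := by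
  refine ⟨pos c (fun i => a i / 2), ?_⟩
  rw [mem_R]
  refine ⟨fun i => a i / 2, fun i => Nat.div_le_self _ _, rfl, ?_⟩
  refine h.trans (le_of_eq ?_)
  unfold gain Gam
  exact Finset.sum_congr rfl fun i _ => (aux_half (a i)).symm

private lemma lift_aux (c : ι → G) (a f : ι → ℕ) (h1 : ∀ k, f k ≤ a k)
    (h2 : ∀ k, a k % 2 = f k % 2) (v : ℕ) (t : G) (ht' : t ∈ R c f v) :
    pos c (fun i => (a i - f i) / 2) + t ∈ R c a (v + (Gam a - Gam f)) := by
  classical
  set g : ι → ℕ := fun i => (a i - f i) / 2 with hg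
  have ha : ∀ i, a i = f i + 2 * g i := by
    intro i
    have := h1 i
    have := h2 i
    simp only [hg]
    omega
  rw [mem_R] at ht'
  obtain ⟨j, hj1, hj2, hj3⟩ := ht'
  rw [mem_R]
  refine ⟨fun i => j i + g i, ?_, ?_, ?_⟩
  · intro i
    have := hj1 i
    have := ha i
    show j i + g i ≤ a i
    omega
  · rw [← hj2]
    unfold pos
    rw [← Finset.sum_add_distrib]
    refine Finset.sum_congr rfl fun i _ => ?_
    rw [add_smul, add_comm]
  · have hG : Gam a = Gam f + ∑ i, (f i * g i + g i * g i) := by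
      unfold Gam
      rw [← Finset.sum_add_distrib]
      refine Finset.sum_congr rfl fun i hi => ?_
      rw [ha i]
      have h3 : (f i + 2 * g i) ^ 2 = f i ^ 2 + 4 * (f i * g i + g i * g i) := by ring
      rw [h3, Nat.add_mul_div_left _ _ (by norm_num)]
    have hga : gain a (fun i => j i + g i) = gain f j + ∑ i, (f i * g i + g i * g i) := by
      unfold gain
      rw [← Finset.sum_add_distrib]
      refine Finset.sum_congr rfl fun i hi => ?_
      have hji := hj1 i
      obtain ⟨k, hk⟩ := Nat.exists_eq_add_of_le hji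
      rw [ha i, hk]
      have e1 : j i + k + 2 * g i - (j i + g i) = k + g i := by omega
      have e2 : j i + k - j i = k := by omega
      rw [e1, e2]
      ring
    rw [hG, hga, Nat.add_sub_cancel_left]
    exact Nat.add_le_add_right hj3 _

/-- Lift (compare `SPR.lift`).  If `f ≤ a` and `f ≡ a (mod 2)`, then with `g = (a - f)/2` and
`j' = j + g` one has `j'(a - j') = j (f - j) + (a^2/4 - f^2/4)`. -/
lemma lift (c : ι → G) (a f : ι → ℕ) (h1 : ∀ k, f k ≤ a k) (h2 : ∀ k, a k % 2 = f k % 2) (v : ℕ) :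
    (R c f v).card ≤ (R c a (v + (Gam a - Gam f))).card := by
  classical
  refine Finset.card_le_card_of_injOn (fun t => pos c (fun i => (a i - f i) / 2) + t) ?_ ?_
  · intro t ht
    exact lift_aux c a f h1 h2 v t ht
  · intro x _ y _ hxy
    exact add_left_cancel hxy

/-- more precisely, `R c a (v + (Gam a - Gam f))` contains a translate of `R c f v`. -/
lemma lift_sub (c : ι → G) (a f : ι → ℕ) (h1 : ∀ k, f k ≤ a k) (h2 : ∀ k, a k % 2 = f k % 2)
    (v : ℕ) : ∃ b : G, ∀ t ∈ R c f v, b + t ∈ R c a (v + (Gam a - Gam f)) :=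
  ⟨_, fun t ht => lift_aux c a f h1 h2 v t ht⟩

end RG
end
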