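import Pool.Agent.Lib.MP_d3cc86_co.RG.A1a

section

set_option autoImplicit false

open Finset

namespace RG

open SPR (T two_T T_succ le_T T_mono T_zero eight_T)

/-- Submultiplicativity.  Induction on `y` with `gg_succ`: one needs
`(x + y) / u + 1 ≤ gg u x (y / u + 1)`.  `x = 0`: equality.  `x ≥ 1`, `u ≥ 2`:
`(x + y)/u ≤ x/u + y/u + 1` and `gg u x ≥ 1 + x`, `x - 1 ≥ x / u`.  `u = 1`: `gg 1 x ≥ 1 + x`. -/
lemma gg_mul (u x y : ℕ) (hu : 1 ≤ u) : gg u (x + y) ≤ gg u x * gg u y := by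
  have key : ∀ y : ℕ, (x + y) / u + 1 ≤ gg u x * (y / u + 1) := by
    intro y
    have h1 := gg_ge u x hu
    rcases Nat.eq_zero_or_pos x with hx | hx
    · subst hx
      rw [gg_zero, zero_add, one_mul]
    · have h2 : (1 + x) * (y / u + 1) ≤ gg u x * (y / u + 1) := Nat.mul_le_mul_right _ h1
      refine le_trans ?_ h2
      have hy := Nat.div_add_mod y u
      have hym := Nat.mod_lt y (show 0 < u by omega)
      set q := y / u
      set r := y % u
      -- `x + y < u * ((1 + x) * (q + 1))`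
      have h3 : (x + y) / u < (1 + x) * (q + 1) := by
        rw [Nat.div_lt_iff_lt_mul (by omega)]
        nlinarith [Nat.zero_le (x * q * u)]
      omega
  induction y with
  | zero => rw [gg_zero, mul_one, add_zero]
  | succ y ih =>
    rw [← add_assoc, gg_succ u (x + y) hu, gg_succ u y hu, Nat.mul_add]
    exact Nat.add_le_add ih (key y)

/-- Tangent lines: `T(s) ≥ (Q + 1) s - T(Q)` (because `(s - Q)(s - Q - 1) ≥ 0`), so
`g_u(t) ≥ 1 + (Q+1) t - u T(Q)` for every integer `Q ≥ -1`; here `B = Q + 1 ≥ 0` and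
`T(Q) = B (B - 1) / 2`. -/
lemma gg_tangent (u t : ℕ) (hu : 1 ≤ u) (B : ℤ) (hB : 0 ≤ B) :
    2 + 2 * B * t - u * (B * (B - 1)) ≤ 2 * (gg u t : ℤ) := by
  have hT : (2 * T (t / u) : ℤ) = (t / u : ℕ) * ((t / u : ℕ) + 1) := by
    exact_mod_cast two_T (t / u)
  have ht := Nat.div_add_mod t u
  have hr := Nat.mod_lt t (show 0 < u by omega)
  have hg : (gg u t : ℤ) = 1 + u * T (t / u) + (t % u : ℕ) * ((t / u : ℕ) + 1) := by
    unfold gg
    push_cast
    ring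
  rw [hg]
  set Q : ℕ := t / u with hQ
  set r : ℕ := t % u with hrr
  have ht' : (t : ℤ) = u * Q + r := by exact_mod_cast ht.symm
  have hr' : (r : ℤ) < u := by exact_mod_cast hr
  have hr0 : (0 : ℤ) ≤ r := Int.natCast_nonneg r
  have h1 : 0 ≤ (B - Q) * (B - Q - 1) := by
    rcases le_or_gt B Q with h | h
    · exact mul_nonneg_of_nonpos_of_nonpos (by linarith) (by linarith)
    · exact mul_nonneg (by linarith) (by omega)
  have h2 : 0 ≤ (B - Q - 1) * (B - Q - 2) := by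
    rcases le_or_gt B (Q + 1) with h | h
    · exact mul_nonneg_of_nonpos_of_nonpos (by linarith) (by linarith)
    · exact mul_nonneg (by linarith) (by omega)
  have h3 : 0 ≤ ((u : ℤ) - r) * ((B - Q) * (B - Q - 1)) := mul_nonneg (by linarith) h1
  have h4 : 0 ≤ (r : ℤ) * ((B - Q - 1) * (B - Q - 2)) := mul_nonneg hr0 h2
  rw [ht']
  nlinarith [h3, h4, hT]

/-- `g_w(∑ s) ≤ 1 + ∑ T(s_l)`: with `t = ∑ s = Q w + r`, add the tangent inequalities
`T(s_l) ≥ (Q + 1) s_l - T(Q)`. -/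
lemma gg_parts (w : ℕ) (hw : 1 ≤ w) (s : Fin w → ℕ) :
    gg w (∑ l, s l) ≤ 1 + ∑ l, T (s l) := by
  set t := ∑ l, s l with ht
  have hT : (2 * T (t / w) : ℤ) = (t / w : ℕ) * ((t / w : ℕ) + 1) := by
    exact_mod_cast two_T (t / w)
  have hg : (gg w t : ℤ) = 1 + w * T (t / w) + (t % w : ℕ) * ((t / w : ℕ) + 1) := by
    unfold gg
    push_cast
    ring
  have hdm := Nat.div_add_mod t w
  set Q : ℕ := t / w with hQ
  set r : ℕ := t % w with hrr
  have ht' : (t : ℤ) = w * Q + r := by exact_mod_cast hdm.symm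
  have hterm : ∀ l : Fin w, 2 * ((Q : ℤ) + 1) * s l - Q * (Q + 1) ≤ 2 * (T (s l) : ℤ) := by
    intro l
    have h1 : (2 * T (s l) : ℤ) = (s l : ℤ) * (s l + 1) := by exact_mod_cast two_T (s l)
    have h2 : 0 ≤ ((s l : ℤ) - Q) * ((s l : ℤ) - Q - 1) := by
      rcases le_or_gt (s l : ℤ) Q with h | h
      · exact mul_nonneg_of_nonpos_of_nonpos (by linarith) (by linarith)
      · exact mul_nonneg (by linarith) (by omega)
    nlinarith
  have hsum : ∑ l : Fin w, (2 * ((Q : ℤ) + 1) * s l - Q * (Q + 1)) ≤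
      ∑ l : Fin w, 2 * (T (s l) : ℤ) := Finset.sum_le_sum fun l _ => hterm l
  rw [Finset.sum_sub_distrib, ← Finset.mul_sum, ← Finset.mul_sum, Finset.sum_const,
    Finset.card_univ, Fintype.card_fin, nsmul_eq_mul] at hsum
  have hts : (∑ l : Fin w, (s l : ℤ)) = t := by
    rw [ht]
    push_cast
    rfl
  rw [hts] at hsum
  have hsum2 : ∑ l : Fin w, 2 * (T (s l) : ℤ) = 2 * ∑ l : Fin w, (T (s l) : ℤ) :=
    (Finset.mul_sum _ _ _).symm
  rw [hsum2] at hsum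
  have hw2 : (w : ℤ) * (2 * T Q) = w * (Q * (Q + 1)) := by rw [hT]
  have hfin : 2 * (gg w t : ℤ) ≤ 2 * (1 + ∑ l : Fin w, (T (s l) : ℤ)) := by
    rw [hg]
    rw [ht'] at hsum
    nlinarith
  have hfin' : (gg w t : ℤ) ≤ ((1 + ∑ l : Fin w, T (s l) : ℕ) : ℤ) := by
    push_cast
    linarith
  exact_mod_cast hfin'

/-- `∑ s ≤ ∑ T(s)`. -/
lemma sum_le_sum_T {w : ℕ} (s : Fin w → ℕ) : ∑ l, s l ≤ ∑ l, T (s l) :=
  Finset.sum_le_sum (fun l _ => le_T (s l))

end RG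
end

section

set_option autoImplicit false

open Finset

namespace RG

open SPR (T two_T T_succ le_T T_mono T_zero eight_T)

/-- `w = 1`: this is `SPR.phi`. -/
lemma ph_one_eq (h m : ℕ) : ph 1 h m = SPR.phi h m := by
  unfold ph gg SPR.phi
  simp only [one_mul]

lemma ph_mono (w h : ℕ) (hw : 1 ≤ w) (hh : 1 ≤ h) {m m' : ℕ} (hm : m ≤ m') :
    ph w h m ≤ ph w h m' := by
  have h0 : 1 ≤ w * h := Nat.one_le_iff_ne_zero.2 (Nat.mul_ne_zero (by omega) (by omega))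
  exact Nat.mul_le_mul_left _ (gg_mono (w * h) h0 (Nat.sub_le_sub_right hm _))

lemma ph_ge (w h m : ℕ) (hw : 1 ≤ w) (hh : 1 ≤ h) : h ≤ ph w h m := by
  have h0 : 1 ≤ w * h := Nat.one_le_iff_ne_zero.2 (Nat.mul_ne_zero (by omega) (by omega))
  have h1 := gg_ge (w * h) (m - w * ((h - 1) / 2)) h0
  unfold ph
  calc h = h * 1 := (mul_one h).symm
    _ ≤ _ := Nat.mul_le_mul_left _ (by omega)

/-- `m ≤ w (h-1)/2`. -/
lemma ph_small (w h m : ℕ) (hm : m ≤ w * ((h - 1) / 2)) : ph w h m = h := by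
  unfold ph
  rw [Nat.sub_eq_zero_of_le hm, gg_zero, mul_one]

lemma ph_h_one (w m : ℕ) : ph w 1 m = gg w m := by
  unfold ph
  simp

/-- One step, crude: the increment is `0` or `h (t / (w h) + 1)`, `t = m - w (h-1)/2 ≥ 0`, so `w` times
the increment is `≤ t + w h = m + w (h+1)/2 ≤ 2 m + 2 + w` (as `m ≥ w (h-1)/2`). -/
lemma ph_step (w h m : ℕ) (hw : 1 ≤ w) (hodd : h % 2 = 1) :
    w * ph w h (m + 1) ≤ w * ph w h m + (2 * (m + 1) + w) := by
  have h0 : 1 ≤ w * h := Nat.one_le_iff_ne_zero.2 (Nat.mul_ne_zero (by omega) (by omega))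
  obtain ⟨c, hc⟩ : ∃ c, c = w * ((h - 1) / 2) := ⟨_, rfl⟩
  have hwh : w * h = 2 * c + w := by
    have e : h = 2 * ((h - 1) / 2) + 1 := by omega
    calc w * h = w * (2 * ((h - 1) / 2) + 1) := by rw [← e]
      _ = 2 * c + w := by rw [hc]; ring
  rcases le_or_gt (m + 1) c with h1 | h1
  · rw [ph_small w h (m + 1) (by rw [← hc]; exact h1), ph_small w h m (by rw [← hc]; omega)]
    exact Nat.le_add_right _ _
  · unfold ph
    rw [← hc]
    have e1 : m + 1 - c = (m - c) + 1 := by omega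
    rw [e1, gg_succ (w * h) (m - c) h0]
    have e2 : w * (h * (gg (w * h) (m - c) + ((m - c) / (w * h) + 1)))
        = w * (h * gg (w * h) (m - c)) + (w * h * ((m - c) / (w * h)) + w * h) := by ring
    rw [e2]
    have h3 := Nat.mul_div_le (m - c) (w * h)
    omega

/-- Submultiplicativity (`gg_mul`, `gg_mono`). -/
lemma ph_mul (w h m u : ℕ) (hw : 1 ≤ w) (hh : 1 ≤ h) :
    ph w h (m + u) ≤ ph w h m * gg (w * h) u := by
  have h0 : 1 ≤ w * h := Nat.one_le_iff_ne_zero.2 (Nat.mul_ne_zero (by omega) (by omega))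
  unfold ph
  rw [mul_assoc]
  refine Nat.mul_le_mul_left _ ?_
  refine le_trans (gg_mono (w * h) h0 ?_) (gg_mul (w * h) (m - w * ((h - 1) / 2)) u h0)
  omega

/-- `q φ_h^{(wq)}(σ) ≥ φ_{qh}^{(w)}(m)` if `m ≤ σ + w (q-1)/2`, `q, h` odd:
`(q h - 1)/2 = (q-1)/2 + q (h-1)/2`. -/
lemma ph_scale (w q h σ m : ℕ) (hw : 1 ≤ w) (hq : q % 2 = 1) (hh : h % 2 = 1)
    (hm : m ≤ σ + w * ((q - 1) / 2)) : ph w (q * h) m ≤ q * ph (w * q) h σ := by
  have h0 : 1 ≤ w * (q * h) :=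
    Nat.one_le_iff_ne_zero.2 (Nat.mul_ne_zero (by omega) (Nat.mul_ne_zero (by omega) (by omega)))
  unfold ph
  have e1 : (q * h - 1) / 2 = (q - 1) / 2 + q * ((h - 1) / 2) := by
    obtain ⟨a, ha⟩ : ∃ a, q = 2 * a + 1 := ⟨q / 2, by omega⟩
    obtain ⟨b, hb⟩ : ∃ b, h = 2 * b + 1 := ⟨h / 2, by omega⟩
    subst ha hb
    have e2 : (2 * a + 1) * (2 * b + 1) - 1 = 2 * (a + (2 * a + 1) * b) := by
      have : (2 * a + 1) * (2 * b + 1) = 2 * (a + (2 * a + 1) * b) + 1 := by ring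
      omega
    have e3 : (2 * a + 1 - 1) / 2 = a := by omega
    have e4 : (2 * b + 1 - 1) / 2 = b := by omega
    rw [e2, e3, e4]
    omega
  have e5 : w * q * h = w * (q * h) := mul_assoc w q h
  rw [e5, ← mul_assoc q h]
  refine Nat.mul_le_mul_left _ (gg_mono _ h0 ?_)
  rw [e1, Nat.mul_add, ← mul_assoc w q]
  omega

/-- Tangent lines for `φ`: for every `β ≥ 0`, `8 φ_h(o) ≥ 8 h + 4 β h ((2 o + w) - β w h)`
(`gg_tangent` with `B = β`; natural subtraction only increases). -/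
lemma ph_low (w h o : ℕ) (hw : 1 ≤ w) (hodd : h % 2 = 1) (β : ℤ) (hβ : 0 ≤ β) :
    8 * (h : ℤ) + 4 * β * h * (2 * o + w - β * w * h) ≤ 8 * (ph w h o : ℤ) := by
  have h0 : 1 ≤ w * h := Nat.one_le_iff_ne_zero.2 (Nat.mul_ne_zero (by omega) (by omega))
  obtain ⟨a, ha⟩ : ∃ a, h = 2 * a + 1 := ⟨h / 2, by omega⟩
  have e1 : (h - 1) / 2 = a := by omega
  unfold ph
  rw [e1]
  obtain ⟨t, ht⟩ : ∃ t, t = o - w * a := ⟨_, rfl⟩
  rw [← ht]
  have h1 := gg_tangent (w * h) t h0 β hβ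
  have h2 : (o : ℤ) - w * a ≤ t := by
    rw [ht]
    have : (o : ℤ) ≤ ((o - w * a : ℕ) : ℤ) + ((w * a : ℕ) : ℤ) := by
      exact_mod_cast (by omega : o ≤ (o - w * a) + w * a)
    push_cast at this ⊢
    linarith
  push_cast at h1 ⊢
  have hh : (0 : ℤ) ≤ h := Int.natCast_nonneg h
  have h3 : 4 * (h : ℤ) * (2 + 2 * β * t - w * h * (β * (β - 1))) ≤ 4 * h * (2 * (gg (w * h) t : ℤ)) :=
    mul_le_mul_of_nonneg_left h1 (by linarith)
  have h4 : 8 * (h : ℤ) * β * ((o : ℤ) - w * a) ≤ 8 * h * β * t :=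
    mul_le_mul_of_nonneg_left h2 (by positivity)
  have ha' : (h : ℤ) = 2 * a + 1 := by exact_mod_cast ha
  have key : 8 * (h : ℤ) + 4 * β * h * (2 * o + w - β * w * h)
      = 4 * h * (2 + 2 * β * t - w * h * (β * (β - 1)))
        - (8 * h * β * t - 8 * h * β * ((o : ℤ) - w * a)) := by
    have e : (2 * (a : ℤ)) = h - 1 := by linarith
    have e2 : 8 * (h : ℤ) * β * ((o : ℤ) - w * a) = 4 * h * β * (2 * o - w * (2 * a)) := by ring
    rw [e2, e]
    ring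
  rw [key]
  linarith

end RG
end
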