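import Pool.Agent.Lib.MP_d3cc86_co.RG.KNg
import Pool.Agent.Lib.MP_d3cc86_co.RG.N2a

section

set_option autoImplicit false

open Finset Pointwise

namespace RG

open SPR (T two_T T_succ le_T T_mono T_zero eight_T)

/-- Cauchy - Davenport in `ℤ/n`: `cauchy_davenport_minOrder_add` and `ZMod.minOrder` (`n = 1` is
trivial). -/
lemma cdn (n : ℕ) [NeZero n] (X Y : Finset (ZMod n)) (hX : X.Nonempty) (hY : Y.Nonempty) :
    min n.minFac (X.card + Y.card - 1) ≤ (X + Y).card := by
  by_cases h1 : n = 1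
  · have h2 : n.minFac = 1 := by rw [h1, Nat.minFac_one]
    have h3 : 0 < (X + Y).card := Finset.card_pos.2 (hX.add hY)
    rw [h2]
    exact (min_le_left _ _).trans h3
  · have h := cauchy_davenport_minOrder_add hX hY
    rw [ZMod.minOrder (NeZero.ne n) h1, min_le_iff] at h
    rcases h with h | h
    · exact (min_le_left _ _).trans (by exact_mod_cast h)
    · exact (min_le_right _ _).trans (by exact_mod_cast h)

/-- Many summands. -/
lemma cdn_multi (n : ℕ) [NeZero n] {κ : Type*} [DecidableEq κ] (s : Finset κ)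
    (X : κ → Finset (ZMod n)) (h : ∀ i ∈ s, (X i).Nonempty) :
    min n.minFac (1 + ∑ i ∈ s, ((X i).card - 1)) ≤ (∑ i ∈ s, X i).card := by
  have key : ∀ s : Finset κ, (∀ i ∈ s, (X i).Nonempty) → (∑ i ∈ s, X i).Nonempty ∧
      min n.minFac (1 + ∑ i ∈ s, ((X i).card - 1)) ≤ (∑ i ∈ s, X i).card := by
    intro s
    induction s using Finset.induction_on with
    | empty =>
      intro _
      rw [Finset.sum_empty, Finset.sum_empty]
      refine ⟨Finset.zero_nonempty, ?_⟩
      rw [add_zero, Finset.card_zero]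
      exact min_le_right _ _
    | insert i s hi ih =>
      intro h
      obtain ⟨h1, h2⟩ := ih fun j hj => h j (Finset.mem_insert_of_mem hj)
      have hXi := h i (Finset.mem_insert_self i s)
      rw [Finset.sum_insert hi, Finset.sum_insert hi]
      refine ⟨hXi.add h1, ?_⟩
      have h3 := cdn n (X i) (∑ i ∈ s, X i) hXi h1
      refine le_trans ?_ h3
      have h4 : 0 < (X i).card := Finset.card_pos.2 hXi
      have h5 : 0 < n.minFac := Nat.minFac_pos n
      omega
  exact (key s h).2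

private lemma multi_card (n : ℕ) [NeZero n] (c : ZMod n) (hc : c ≠ 0) (f : ℕ) :
    min n.minFac (f + 1) ≤ ((Finset.range (f + 1)).image (fun j : ℕ => j • c)).card := by
  have h1 : addOrderOf c ∣ n := by
    have := addOrderOf_dvd_natCard c
    rwa [Nat.card_zmod] at this
  have h2 : addOrderOf c ≠ 1 := by
    rw [Ne, AddMonoid.addOrderOf_eq_one_iff]
    exact hc
  have h3 : 0 < addOrderOf c := Nat.pos_of_dvd_of_pos h1 (NeZero.pos n)
  have h4 : n.minFac ≤ addOrderOf c := Nat.minFac_le_of_dvd (by omega) h1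
  have h5 : ((Finset.range (min n.minFac (f + 1))).image (fun j : ℕ => j • c)).card = min n.minFac (f + 1) := by
    rw [Finset.card_image_of_injOn, Finset.card_range]
    intro i hi j hj hij
    rw [Finset.coe_range, Set.mem_Iio] at hi hj
    have hi' : i < addOrderOf c := lt_of_lt_of_le (lt_of_lt_of_le hi (min_le_left _ _)) h4
    have hj' : j < addOrderOf c := lt_of_lt_of_le (lt_of_lt_of_le hj (min_le_left _ _)) h4
    exact nsmul_injOn_Iio_addOrderOf hi' hj' hij
  rw [← h5]
  apply Finset.card_le_card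
  apply Finset.image_subset_image
  intro j hj
  rw [Finset.mem_range] at hj ⊢
  exact lt_of_lt_of_le hj (min_le_right _ _)

/-- `|R_0(f)| ≥ min (p0, 1 + ∑ f)`: each entry contributes `{0, c, ..., f c}`, which has at least
`min p0 (f + 1)` elements because `c ≠ 0` has order `≥ p0`. -/
lemma R_ge_sum (n : ℕ) [NeZero n] {ι : Type*} [Fintype ι] (c : ι → ZMod n) (hc : ∀ k, c k ≠ 0)
    (f : ι → ℕ) : min n.minFac (1 + ∑ k, f k) ≤ (R c f 0).card := by
  classical
  set X : ι → Finset (ZMod n) := fun k => (Finset.range (f k + 1)).image (fun j : ℕ => j • c k) with hX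
  have h1 : ∀ k, min n.minFac (f k + 1) ≤ (X k).card := fun k => multi_card n (c k) (hc k) (f k)
  have h2 := cdn_multi n Finset.univ X fun k _ => ⟨0, by
    rw [hX]
    simp only [Finset.mem_image, Finset.mem_range]
    exact ⟨0, Nat.succ_pos _, zero_smul _ _⟩⟩
  have h3 : ∑ k, X k ⊆ R c f 0 := by
    intro t ht
    have ht' : t ∈ ((∑ k, X k : Finset (ZMod n)) : Set (ZMod n)) := ht
    rw [Finset.coe_sum, Set.mem_finsetSum] at ht'
    obtain ⟨g, hg, rfl⟩ := ht'
    have hg' : ∀ k, ∃ j : ℕ, j ≤ f k ∧ j • c k = g k := by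
      intro k
      have := @hg k (Finset.mem_univ k)
      rw [Finset.mem_coe] at this
      simp only [hX, Finset.mem_image, Finset.mem_range] at this
      obtain ⟨j, hj, hjk⟩ := this
      exact ⟨j, by omega, hjk⟩
    choose j hj1 hj2 using hg'
    rw [mem_R]
    refine ⟨j, hj1, ?_, Nat.zero_le _⟩
    unfold pos
    exact Finset.sum_congr rfl fun k _ => hj2 k
  refine le_trans ?_ (h2.trans (Finset.card_le_card h3))
  by_cases hbig : ∃ k, n.minFac ≤ (X k).card
  · obtain ⟨k, hk⟩ := hbig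
    have h4 : (X k).card - 1 ≤ ∑ i, ((X i).card - 1) :=
      Finset.single_le_sum (f := fun i => (X i).card - 1) (fun _ _ => Nat.zero_le _) (Finset.mem_univ k)
    omega
  · push Not at hbig
    have h4 : ∑ k, f k ≤ ∑ i, ((X i).card - 1) := by
      refine Finset.sum_le_sum fun k _ => ?_
      have := h1 k
      have := hbig k
      omega
    omega

lemma rough_dvd {n h : ℕ} (hn : Rough n) (hh : h ∣ n) : Rough h :=
  ⟨Nat.pos_of_dvd_of_pos hh hn.1, fun r hr hrh => hn.2 r hr (hrh.trans hh)⟩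

lemma rough_odd {n : ℕ} (hn : Rough n) : n % 2 = 1 := by
  by_contra h
  have h2 : 2 ∣ n := by omega
  have := hn.2 2 Nat.prime_two h2
  omega

lemma rough_minFac {n : ℕ} (hn : Rough n) (h1 : 1 < n) : 10000 ≤ n.minFac :=
  hn.2 _ (Nat.minFac_prime (by omega)) (Nat.minFac_dvd n)

lemma rough_ge {n : ℕ} (hn : Rough n) (h1 : 1 < n) : 10000 ≤ n :=
  (rough_minFac hn h1).trans (Nat.minFac_le hn.1)

/-- a proper divisor is at most `n / 10000` -/
lemma rough_proper {n h : ℕ} (hn : Rough n) (hh : h ∣ n) (hlt : h < n) : 10000 * h ≤ n := by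
  obtain ⟨k, rfl⟩ := hh
  have hk1 : 1 < k := by
    by_contra hcon
    have : k = 0 ∨ k = 1 := by omega
    rcases this with rfl | rfl
    · omega
    · omega
  have hk := rough_ge (rough_dvd hn (Dvd.intro_left h rfl)) hk1
  calc 10000 * h = h * 10000 := by ring
    _ ≤ h * k := Nat.mul_le_mul_left h hk

lemma card_sub_dvd {n : ℕ} [NeZero n] (K : AddSubgroup (ZMod n)) : Nat.card K ∣ n := by
  have h := AddSubgroup.card_addSubgroup_dvd_card K
  rwa [Nat.card_zmod] at h

end RG
end

section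

set_option autoImplicit false

open Finset Pointwise

namespace RG

/-- Aperiodic case (the `K` of `kneser_general` is contained in the stabilizer, hence trivial). -/
theorem kneser {G : Type*} [AddCommGroup G] [Fintype G] [DecidableEq G] (X Y : Finset G)
    (hX : X.Nonempty) (hY : Y.Nonempty) (h : stb (X + Y) = ⊥) :
    X.card + Y.card ≤ (X + Y).card + 1 := by
  obtain ⟨K, hK, hc⟩ := kneser_general X Y hX hY
  have h1 : K ≤ stb (X + Y) := by
    intro g hg
    rw [mem_stb]
    intro x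
    refine ⟨fun hx => ?_, fun hx => hK x hx g hg⟩
    have h2 := hK (x + g) hx (-g) (K.neg_mem hg)
    rwa [add_neg_cancel_right] at h2
  have h3 : K = ⊥ := le_bot_iff.1 (h ▸ h1)
  have h4 : Nat.card K = 1 := by
    rw [h3]
    exact AddSubgroup.card_bot
  omega

end RG
end

section

set_option autoImplicit false

open Finset

namespace RG

open SPR (T two_T T_succ le_T T_mono T_zero eight_T)

/-- entries `≤ C` in a full system: every class `± x`, `x ≠ 0`, has `w` entries; the class of `0` is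
empty. -/
lemma full_bdd {G : Type*} [AddCommGroup G] {ι : Type*} [Fintype ι] {w : ℕ} (C : ℕ) (c : ι → G)
    (hF : Full w c) (f : ι → ℕ) (hf : ∀ k, f k ≤ C) : Bdd (w * C) c f := by
  classical
  refine ⟨hF.1, fun x => ?_⟩
  rcases eq_or_ne x 0 with hx | hx
  · have h0 : cls c x = ∅ := by
      unfold cls
      rw [Finset.filter_eq_empty_iff]
      intro k _ hk
      rw [hx, neg_zero, or_self] at hk
      exact hF.1 k hk
    rw [h0, Finset.sum_empty]
    exact Nat.zero_le _
  · calc ∑ k ∈ cls c x, f k ≤ (cls c x).card • C := Finset.sum_le_card_nsmul _ _ _ fun k _ => hf k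
      _ = w * C := by rw [hF.2 x hx, smul_eq_mul]

/-- `t = Q u + r`: `2 u gg u t = 2 u + t^2 + u t + r (u - r)` and `4 r (u - r) ≤ u^2`. -/
lemma gg_upper (u t : ℕ) (hu : 1 ≤ u) : 8 * u * gg u t ≤ 8 * u + (2 * t + u) ^ 2 := by
  have hu0 : 0 < u := by omega
  have h1 := Nat.div_add_mod t u
  have h2 := Nat.mod_lt t hu0
  have hT := two_T (t / u)
  unfold gg
  set Q := t / u with hQ
  set r := t % u with hr
  obtain ⟨d, hd⟩ : ∃ d, u = r + d := ⟨u - r, by omega⟩
  have e : 8 * u * (1 + u * T Q + r * (Q + 1))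
      = 8 * u + 4 * (u * u) * (2 * T Q) + 8 * u * r * (Q + 1) := by ring
  rw [e, hT, ← h1]
  have key : 8 * u + 4 * (u * u) * (Q * (Q + 1)) + 8 * u * r * (Q + 1) + u * u
      = 8 * u + (2 * (u * Q + r) + u) ^ 2 + 4 * (r * d) := by
    rw [hd]
    ring
  have h4 : 4 * (r * d) ≤ u * u := by
    rw [hd]
    nlinarith [sq_nonneg ((r : ℤ) - d), Nat.zero_le r, Nat.zero_le d, mul_self_nonneg ((r : ℤ) - d),
      (by exact_mod_cast four_mul_le_sq_add r d : 4 * r * d ≤ (r + d) ^ 2)]
  omega

/-- from `gg_upper`, `t = m - (q-1)/2`, `2 t + q = 2 m + 1`. -/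
lemma ph_upper (q m : ℕ) (hq : q % 2 = 1) : 8 * ph 1 q m ≤ 8 * q + (2 * m + 1) ^ 2 := by
  unfold ph
  rw [one_mul, one_mul]
  rcases le_or_gt ((q - 1) / 2) m with h | h
  · have h1 := gg_upper q (m - (q - 1) / 2) (by omega)
    have e : 2 * (m - (q - 1) / 2) + q = 2 * m + 1 := by omega
    rw [e, mul_assoc] at h1
    exact h1
  · rw [Nat.sub_eq_zero_of_le h.le, gg_zero, mul_one]
    exact Nat.le_add_right _ _

/-- `φ_{qh}^{(1)}(m) ≤ q φ_h^{(9)}(t)` for `h ≥ q`: `gg (9 h) ≥ gg (q h)` (`gg_anti`), and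
`m - (q h - 1)/2 ≤ t - 9 (h-1)/2` because `2 (q-1) + 9 (h-1)/2 ≤ (q h - 1)/2`. -/
lemma ph9 (q h t m : ℕ) (hq : 10000 ≤ q) (hqo : q % 2 = 1) (hh : q ≤ h) (hho : h % 2 = 1)
    (hm : m ≤ t + 2 * (q - 1)) : ph 1 (q * h) m ≤ q * ph 9 h t := by
  unfold ph
  rw [one_mul, one_mul, mul_assoc]
  refine Nat.mul_le_mul_left _ (Nat.mul_le_mul_left _ ?_)
  refine le_trans (gg_anti _ (by omega) (Nat.mul_le_mul_right h (by omega : 9 ≤ q))) ?_
  refine gg_mono _ (by omega) ?_
  obtain ⟨a, ha⟩ : ∃ a, h = 2 * a + 1 := ⟨h / 2, by omega⟩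
  obtain ⟨b, hb⟩ : ∃ b, q = 2 * b + 1 := ⟨q / 2, by omega⟩
  subst ha hb
  have e2 : (2 * b + 1) * (2 * a + 1) - 1 = 2 * (b + (2 * b + 1) * a) := by
    have : (2 * b + 1) * (2 * a + 1) = 2 * (b + (2 * b + 1) * a) + 1 := by ring
    omega
  have e3 : (2 * a + 1 - 1) / 2 = a := by omega
  rw [e2, e3, Nat.mul_div_cancel_left _ (by norm_num : 0 < 2)]
  have h5 : 3 * b + 8 * a ≤ 2 * b * a := by
    have h6 : 10000 * a ≤ 2 * b * a + 2 * a := by nlinarith
    omega
  have h7 : (2 * b + 1) * a = 2 * b * a + a := by ring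
  rw [h7]
  omega

/-- `φ_q^{(1)}(m) ≤ q gg 9 t` for `t ≥ q`, `m ≤ t + 2 (q-1)`: by `gg_quad` `gg 9 t ≥ 1 + t/2 + t^2/18`, by
`gg_upper` `gg q x ≤ 1 + (2 x + q)^2/(8 q)` with `2 x + q ≤ 2 m + 1 ≤ 6 t`. -/
lemma ph9' (q t m : ℕ) (hq : 10000 ≤ q) (hqo : q % 2 = 1) (ht : q ≤ t)
    (hm : m ≤ t + 2 * (q - 1)) : ph 1 q m ≤ q * ph 9 1 t := by
  rw [ph_h_one]
  have h1 := ph_upper q m hqo
  have h2 := gg_quad 9 t (by norm_num)
  have h3 : 2 * m + 1 ≤ 6 * t := by omega
  have h4 : (2 * m + 1) ^ 2 ≤ 36 * (t * t) := by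
    calc (2 * m + 1) ^ 2 ≤ (6 * t) ^ 2 := Nat.pow_le_pow_left h3 2
      _ = 36 * (t * t) := by ring
  have h5 := Nat.mul_le_mul_left (8 * q) h2
  have h6 : 10000 * (t * t) ≤ q * (t * t) := Nat.mul_le_mul_right _ hq
  have h7 : 8 * q * (2 * 9 * gg 9 t) = 144 * (q * gg 9 t) := by ring
  have h8 : 8 * q * (t * t + 9 * t + 2 * 9) = 8 * (q * (t * t)) + 72 * (q * t) + 144 * q := by ring
  rw [h7, h8] at h5
  omega

end RG
end

section

section

set_option autoImplicit false

open Finset

namespace RG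

open SPR (T two_T T_succ le_T T_mono T_zero eight_T)

variable {G : Type*} [AddCommGroup G] [Fintype G] {ι : Type*} [Fintype ι]

private lemma a2a_sum_Icc (f : ℕ → ℕ) (n : ℕ) :
    ∑ v ∈ Finset.Icc 1 n, f v = ∑ v ∈ Finset.range n, f (v + 1) := by
  induction n with
  | zero => simp
  | succ n ih => rw [Finset.sum_Icc_succ_top (by omega), ih, Finset.sum_range_succ]

private lemma a2a_sq (b : ℕ) : (b + 2) ^ 2 / 4 = b ^ 2 / 4 + (b + 1) := by
  have h : (b + 2) ^ 2 = b ^ 2 + (b + 1) * 4 := by ring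
  rw [h, Nat.add_mul_div_right _ _ (by norm_num)]

/-- Peeling (compare `SPR.peel`): `Gam` drops by `a k - 1`; use `lift`, `R_anti`. -/
lemma peel [DecidableEq ι] (c : ι → G) (a : ι → ℕ) (k : ι) (h2 : 2 ≤ a k) :
    EE c (Function.update a k (a k - 2)) + (a k - 1) * (R c (Function.update a k (a k - 2)) 0).card
      ≤ EE c a := by
  obtain ⟨b, hb⟩ : ∃ b, a k = b + 2 := ⟨a k - 2, by omega⟩
  have hb1 : a k - 1 = b + 1 := by omega
  have hb2 : a k - 2 = b := by omega
  rw [hb1, hb2]
  set a' := Function.update a k b with ha'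
  have ha'i : a' k = b := by rw [ha', Function.update_self]
  have ha'k : ∀ l, l ≠ k → a' l = a l := fun l hl => by rw [ha', Function.update_of_ne hl]
  have h1 : ∀ l, a' l ≤ a l := by
    intro l
    by_cases hl : l = k
    · subst hl; omega
    · rw [ha'k l hl]
  have h2' : ∀ l, a l % 2 = a' l % 2 := by
    intro l
    by_cases hl : l = k
    · subst hl; omega
    · rw [ha'k l hl]
  have hG : Gam a = (b + 1) + Gam a' := by
    unfold Gam
    rw [← Finset.add_sum_erase Finset.univ (fun l => a l ^ 2 / 4) (Finset.mem_univ k),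
      ← Finset.add_sum_erase Finset.univ (fun l => a' l ^ 2 / 4) (Finset.mem_univ k)]
    have e1 : ∑ l ∈ Finset.univ.erase k, a' l ^ 2 / 4 = ∑ l ∈ Finset.univ.erase k, a l ^ 2 / 4 := by
      refine Finset.sum_congr rfl fun l hl => ?_
      rw [ha'k l (Finset.ne_of_mem_erase hl)]
    rw [e1, ha'i, hb, a2a_sq]
    ring
  have hd : Gam a - Gam a' = b + 1 := by omega
  have hl : ∀ v, (R c a' v).card ≤ (R c a (v + (b + 1))).card := by
    intro v
    have := lift c a a' h1 h2' v
    rwa [hd] at this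
  unfold EE
  rw [hG, a2a_sum_Icc, a2a_sum_Icc, Finset.sum_range_add]
  have h3 : (b + 1) * (R c a' 0).card ≤ ∑ x ∈ Finset.range (b + 1), (R c a (x + 1)).card := by
    have : ∑ _x ∈ Finset.range (b + 1), (R c a' 0).card = (b + 1) * (R c a' 0).card := by
      rw [Finset.sum_const, Finset.card_range, smul_eq_mul]
    rw [← this]
    refine Finset.sum_le_sum fun x hx => ?_
    refine (hl 0).trans (Finset.card_le_card (R_anti c a ?_))
    rw [Finset.mem_range] at hx
    omega
  have h4 : ∑ v ∈ Finset.range (Gam a'), (R c a' (v + 1)).card ≤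
      ∑ x ∈ Finset.range (Gam a'), (R c a (b + 1 + x + 1)).card := by
    refine Finset.sum_le_sum fun x _ => ?_
    have := hl (x + 1)
    have e : x + 1 + (b + 1) = b + 1 + x + 1 := by ring
    rwa [e] at this
  omega

/-- `Linf a ≥ Linf a' + (a k - 1) |R a' 0| + (1 + tau)(|R a 0| - |R a' 0|)`; and `R a' 0 ⊆ R a 0`. -/
lemma Linf_peel [DecidableEq ι] (tau : ℕ) (c : ι → G) (a : ι → ℕ) (k : ι) (h2 : 2 ≤ a k) :
    Linf tau c (Function.update a k (a k - 2)) +
        (a k - 1) * (R c (Function.update a k (a k - 2)) 0).card +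
        (1 + tau) * ((R c a 0).card - (R c (Function.update a k (a k - 2)) 0).card)
      ≤ Linf tau c a := by
  have hp := peel c a k h2
  have hm : (R c (Function.update a k (a k - 2)) 0).card ≤ (R c a 0).card := by
    refine Finset.card_le_card (R_mono c _ _ fun l => ?_)
    by_cases hl : l = k
    · subst hl
      rw [Function.update_self]
      omega
    · rw [Function.update_of_ne hl]
  obtain ⟨e, he⟩ := Nat.exists_eq_add_of_le hm
  unfold Linf
  rw [he, Nat.add_sub_cancel_left, Nat.mul_add]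
  omega

lemma Linf_tau (tau s : ℕ) (c : ι → G) (a : ι → ℕ) :
    Linf (tau + s) c a = Linf tau c a + s * (R c a 0).card := by
  unfold Linf; ring

lemma R_le_Linf (tau : ℕ) (c : ι → G) (a : ι → ℕ) : (R c a 0).card ≤ Linf tau c a := by
  unfold Linf
  calc (R c a 0).card = 1 * (R c a 0).card := (one_mul _).symm
    _ ≤ (1 + tau) * (R c a 0).card := Nat.mul_le_mul_right _ (by omega)
    _ ≤ _ := Nat.le_add_right _ _

end RG
end

section

set_option autoImplicit false

open Finset

namespace RG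

open SPR (T two_T T_succ le_T T_mono T_zero eight_T)

variable {G : Type*} [AddCommGroup G] [Fintype G] {ι : Type*} [Fintype ι]

private lemma a2_Icc (f : ℕ → ℕ) (n : ℕ) :
    ∑ v ∈ Finset.Icc 1 n, f v = ∑ v ∈ Finset.range n, f (v + 1) := by
  induction n with
  | zero => simp
  | succ n ih => rw [Finset.sum_Icc_succ_top (by omega), ih, Finset.sum_range_succ]

private lemma a2_full {c : ι → G} {a : ι → ℕ} {w : ℕ} (h : R c a w = univ) {v : ℕ} (hv : v ≤ w) :
    (R c a v).card = Fintype.card G := by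
  have h1 : R c a v = univ := by
    refine Finset.eq_univ_iff_forall.2 fun t => R_anti c a hv ?_
    rw [h]
    exact mem_univ t
  rw [h1, Finset.card_univ]

/-- the full levels and the rest -/
private lemma a2_split {c : ι → G} {a : ι → ℕ} {w r : ℕ} (tau : ℕ) (h : R c a w = univ)
    (hr : Gam a = w + r) :
    Linf tau c a = (1 + tau) * Fintype.card G + w * Fintype.card G +
      ∑ x ∈ Finset.range r, (R c a (w + x + 1)).card := by
  unfold Linf EE
  rw [a2_Icc, hr, Finset.sum_range_add, a2_full h (Nat.zero_le w)]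
  have h1 : ∑ x ∈ Finset.range w, (R c a (x + 1)).card = w * Fintype.card G := by
    rw [Finset.sum_congr rfl fun x hx => a2_full h (v := x + 1) (by
      have := Finset.mem_range.1 hx
      omega), Finset.sum_const, Finset.card_range, smul_eq_mul]
  rw [h1]
  ring

/-- `R_{Γ-e} = G`: the levels `v ≤ Γ - e` are full. (compare `SPR.Linf_univ`) -/
lemma Linf_univ (tau : ℕ) (c : ι → G) (a : ι → ℕ) (e : ℕ) (h : R c a (Gam a - e) = univ) :
    (Fintype.card G : ℤ) * (1 + tau + Gam a - e) ≤ Linf tau c a := by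
  obtain ⟨r, hr⟩ : ∃ r, Gam a = (Gam a - e) + r := ⟨Gam a - (Gam a - e), by omega⟩
  have h1 := a2_split tau h hr
  have h2 : (1 + tau) * Fintype.card G + (Gam a - e) * Fintype.card G ≤ Linf tau c a := by
    rw [h1]
    exact Nat.le_add_right _ _
  have h3 : (Fintype.card G : ℤ) * (1 + tau + Gam a - e)
      ≤ (((1 + tau) * Fintype.card G + (Gam a - e) * Fintype.card G : ℕ) : ℤ) := by
    push_cast
    have h4 : (Gam a : ℤ) - e ≤ ((Gam a - e : ℕ) : ℤ) := by omega
    have h5 : (0 : ℤ) ≤ Fintype.card G := Int.natCast_nonneg _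
    have h6 := mul_le_mul_of_nonneg_left h4 h5
    linarith
  exact h3.trans (by exact_mod_cast h2)

/-- `R_{Γ-1} = G`. (compare `SPR.Linf_univ1`) -/
lemma Linf_univ1 (tau : ℕ) (c : ι → G) (a : ι → ℕ) (h : R c a (Gam a - 1) = univ) :
    Fintype.card G * (tau + Gam a) + (R c a (Gam a)).card ≤ Linf tau c a := by
  rcases Nat.eq_zero_or_pos (Gam a) with h0 | h0
  · rw [h0] at h
    have h1 := a2_split (r := 0) tau h (by rw [h0])
    have h2 := a2_full h (v := 0) (Nat.zero_le _)
    rw [h1, h0, h2]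
    simp
    nlinarith
  · have h1 := a2_split (r := 1) tau h (by omega)
    rw [h1, Finset.sum_range_one]
    have e : Gam a - 1 + 0 + 1 = Gam a := by omega
    rw [e]
    obtain ⟨g, hg⟩ : ∃ g, Gam a = g + 1 := ⟨Gam a - 1, by omega⟩
    have e2 : Fintype.card G * (tau + Gam a) =
        (1 + tau) * Fintype.card G + (Gam a - 1) * Fintype.card G := by
      rw [hg, Nat.add_sub_cancel]
      ring
    omega

/-- `R_{Γ-2} = G`. (compare `SPR.Linf_univ2`) -/
lemma Linf_univ2 (tau : ℕ) (c : ι → G) (a : ι → ℕ) (h : R c a (Gam a - 2) = univ) :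
    (Fintype.card G : ℤ) * (tau + Gam a - 1) + (R c a (Gam a)).card + (R c a (Gam a - 1)).card
      ≤ Linf tau c a := by
  have hp0 : (0 : ℤ) ≤ Fintype.card G := Int.natCast_nonneg _
  rcases Nat.lt_or_ge (Gam a) 2 with h0 | h0
  · have hw : Gam a - 2 = 0 := by omega
    rw [hw] at h
    have hf := a2_full h (v := 0) (Nat.zero_le _)
    have h1 := a2_split (r := Gam a) tau h (by omega)
    rcases Nat.lt_or_ge (Gam a) 1 with h2 | h2
    · have h3 : Gam a = 0 := by omega
      rw [h1, h3]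
      simp only [Nat.zero_sub, hf, Finset.range_zero, Finset.sum_empty]
      push_cast
      nlinarith
    · have h3 : Gam a = 1 := by omega
      rw [h1, h3]
      simp only [Nat.sub_self, hf, Finset.sum_range_one]
      push_cast
      nlinarith
  · have h1 := a2_split (r := 2) tau h (by omega)
    rw [h1, Finset.sum_range_succ, Finset.sum_range_one]
    have e : Gam a - 2 + 0 + 1 = Gam a - 1 := by omega
    have e' : Gam a - 1 + 1 = Gam a := by omega
    rw [e, e']
    obtain ⟨g, hg⟩ : ∃ g, Gam a = g + 2 := ⟨Gam a - 2, by omega⟩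
    rw [hg, Nat.add_sub_cancel]
    push_cast
    nlinarith

/-- No truncation. (compare `SPR.LL_eq_Linf`) -/
lemma LL_eq_Linf (q tau : ℕ) (c : ι → G) (a : ι → ℕ) (h : 1 + tau + Gam a ≤ q) :
    LL q tau c a = Linf tau c a := by
  obtain ⟨r, hr⟩ : ∃ r, q = (1 + tau) + (Gam a + r) := ⟨q - (1 + tau + Gam a), by omega⟩
  unfold LL Linf EE
  rw [hr, Finset.sum_range_add _ (1 + tau) (Gam a + r),
    Finset.sum_range_add _ (Gam a) r, a2_Icc]
  have h1 : ∑ x ∈ Finset.range (1 + tau), (R c a (x - tau)).card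
      = (1 + tau) * (R c a 0).card := by
    rw [Finset.sum_congr rfl (g := fun _ => (R c a 0).card) (fun x hx => by
      have := Finset.mem_range.1 hx
      have e : x - tau = 0 := by omega
      rw [e]), Finset.sum_const, Finset.card_range, smul_eq_mul]
  have h2 : ∑ x ∈ Finset.range (Gam a), (R c a (1 + tau + x - tau)).card
      = ∑ x ∈ Finset.range (Gam a), (R c a (x + 1)).card := by
    refine Finset.sum_congr rfl fun x _ => ?_
    have e : 1 + tau + x - tau = x + 1 := by omega
    rw [e]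
  have h3 : ∑ x ∈ Finset.range r, (R c a (1 + tau + (Gam a + x) - tau)).card = 0 := by
    refine Finset.sum_eq_zero fun x _ => ?_
    rw [R_empty c a (by omega), Finset.card_empty]
  rw [h1, h2, h3, add_zero]

/-- At least `min q (1 + tau + Gam a)` levels are nonempty. -/
lemma LL_ge_min (q tau : ℕ) (c : ι → G) (a : ι → ℕ) : min q (1 + tau + Gam a) ≤ LL q tau c a := by
  unfold LL
  have h1 : ∑ v ∈ Finset.range (min q (1 + tau + Gam a)), 1 ≤
      ∑ v ∈ Finset.range (min q (1 + tau + Gam a)), (R c a (v - tau)).card := by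
    apply Finset.sum_le_sum
    intro v hv
    have hv' := Finset.mem_range.mp hv
    exact Finset.card_pos.mpr (R_nonempty c a (by omega))
  have h2 : ∑ v ∈ Finset.range (min q (1 + tau + Gam a)), (R c a (v - tau)).card ≤
      ∑ v ∈ Finset.range q, (R c a (v - tau)).card :=
    Finset.sum_le_sum_of_subset (Finset.range_subset_range.mpr (min_le_left _ _))
  rw [Finset.sum_const, Finset.card_range, smul_eq_mul, mul_one] at h1
  exact h1.trans h2

/-- The level `v = 0`. -/
lemma R_le_LL (q tau : ℕ) (hq : 1 ≤ q) (c : ι → G) (a : ι → ℕ) :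
    (R c a 0).card ≤ LL q tau c a := by
  unfold LL
  have h1 : (R c a (0 - tau)).card ≤ ∑ v ∈ Finset.range q, (R c a (v - tau)).card :=
    Finset.single_le_sum (f := fun v => (R c a (v - tau)).card) (fun v _ => Nat.zero_le _)
      (Finset.mem_range.2 (by omega))
  rwa [Nat.zero_sub] at h1

/-- All levels `v < q` contain a translate of `R c g 0` (`R_shift`). -/
lemma FQ (q tau : ℕ) (c : ι → G) (d g : ι → ℕ) (hq : q ≤ 1 + tau + Gam d) :
    q * (R c g 0).card ≤ LL q tau c (d + g) := by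
  unfold LL
  have h0 : q * (R c g 0).card = ∑ _v ∈ Finset.range q, (R c g 0).card := by
    rw [Finset.sum_const, Finset.card_range, smul_eq_mul]
  rw [h0]
  refine Finset.sum_le_sum fun v hv => ?_
  rw [Finset.mem_range] at hv
  exact R_shift c d g (v - tau) (by omega)

end RG
end
end
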