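import Pool.Agent.Lib.MP_d3cc86_co.RG.A2
import Pool.Agent.Lib.MP_d3cc86_co.SP.B3b

section

set_option autoImplicit false

open Finset Pointwise

namespace RG

open SPR (T two_T T_succ le_T T_mono T_zero eight_T pr psi)

/-- The chosen half system of `ℤ/Nq ∖ 0`: `x` with `pr x ∈ {1, ..., (N-1)/2}`, or `pr x = 0` and
`x ∈ {1, ..., (Nq-1)/2}`.  For `N q` odd and `x ≠ 0` exactly one of `x, -x` is in it. -/
def InP (N q : ℕ) (x : ZMod (N * q)) : Prop :=
  (0 < (pr N q x).val ∧ (pr N q x).val ≤ (N - 1) / 2) ∨
    (pr N q x = 0 ∧ 0 < x.val ∧ x.val ≤ (N * q - 1) / 2)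

lemma InP_neg (N q : ℕ) (hN : 0 < N) (hq : 0 < q) (hodd : (N * q) % 2 = 1) (x : ZMod (N * q))
    (hx : x ≠ 0) : InP N q x ↔ ¬ InP N q (-x) := by
  haveI : NeZero N := ⟨hN.ne'⟩
  haveI : NeZero (N * q) := ⟨(Nat.mul_pos hN hq).ne'⟩
  have hNodd : N % 2 = 1 := by
    rcases Nat.mod_two_eq_zero_or_one N with h | h
    · rw [Nat.mul_mod, h, zero_mul] at hodd
      norm_num at hodd
    · exact h
  have hneg : pr N q (-x) = -(pr N q x) := map_neg _ _
  unfold InP
  rw [hneg]
  by_cases hy : pr N q x = 0
  · have h1 : (-x).val = N * q - x.val := by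
      rw [ZMod.neg_val, if_neg hx]
    have h2 : 0 < x.val := Nat.pos_of_ne_zero fun h => hx ((ZMod.val_eq_zero x).1 h)
    have h3 : x.val < N * q := ZMod.val_lt x
    rw [hy, h1]
    simp only [neg_zero, ZMod.val_zero, lt_self_iff_false, false_and, true_and, false_or]
    clear h1 hneg
    generalize x.val = v at *
    omega
  · have hy' : -(pr N q x) ≠ 0 := neg_ne_zero.2 hy
    have h1 : (-(pr N q x)).val = N - (pr N q x).val := by
      rw [ZMod.neg_val, if_neg hy]
    have h2 : 0 < (pr N q x).val := Nat.pos_of_ne_zero fun h => hy ((ZMod.val_eq_zero _).1 h)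
    have h3 : (pr N q x).val < N := ZMod.val_lt _
    rw [h1]
    simp only [hy, hy', false_and, or_false]
    omega

end RG
end

section

set_option autoImplicit false

open Finset Pointwise

namespace RG

open SPR (T two_T T_succ le_T T_mono T_zero eight_T pr psi)

section general

variable {G : Type*} [AddCommGroup G] {ι : Type*} [Fintype ι]

open Classical in
/-- The representative of the class of `c k` in the half system `P`. -/
private noncomputable def rep (P : G → Prop) (c : ι → G) (k : ι) : G :=
  if P (c k) then c k else - c k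

private lemma rep_P (P : G → Prop) (hP : ∀ x, x ≠ 0 → (P x ↔ ¬ P (-x))) (c : ι → G) (k : ι)
    (hk : c k ≠ 0) : P (rep P c k) := by
  unfold rep
  split_ifs with h
  · exact h
  · by_contra h'
    exact h ((hP _ hk).2 h')

private lemma mem_cls_iff (P : G → Prop) (hP : ∀ x, x ≠ 0 → (P x ↔ ¬ P (-x))) (c : ι → G) (k : ι)
    (hk : c k ≠ 0) (x : G) (hx : P x) : k ∈ cls c x ↔ rep P c k = x := by
  classical
  unfold cls
  rw [mem_filter]
  simp only [mem_univ, true_and]
  unfold rep
  constructor
  · rintro (h | h)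
    · rw [if_pos (by rw [h]; exact hx), h]
    · have hx0 : x ≠ 0 := by
        rintro rfl
        rw [neg_zero] at h
        exact hk h
      have h1 : ¬ P (c k) := by
        rw [h]
        exact (hP x hx0).1 hx
      rw [if_neg h1, h, neg_neg]
  · intro h
    split_ifs at h with h1
    · exact Or.inl h
    · right
      rw [← h, neg_neg]

private lemma rep_eq_or (P : G → Prop) (c : ι → G) (k : ι) : rep P c k = c k ∨ rep P c k = - c k := by
  unfold rep
  split_ifs
  · exact Or.inl rfl
  · exact Or.inr rfl

open Classical in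
private noncomputable def lev [Fintype G] (P : G → Prop) (c : ι → G) (a : ι → ℕ) (l : ℕ) : Finset G :=
  univ.filter fun x => P x ∧ l < ∑ k ∈ cls c x, a k

private lemma card_fin_lt (w m : ℕ) (h : m ≤ w) : (univ.filter fun l : Fin w => (l : ℕ) < m).card = m := by
  have h1 : (univ.filter fun l : Fin w => (l : ℕ) < m).card = (range m).card := by
    refine card_bij (fun l _ => (l : ℕ)) ?_ ?_ ?_
    · intro l hl
      exact mem_range.2 (mem_filter.1 hl).2
    · intro l _ l' _ h
      exact Fin.ext h
    · intro b hb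
      have := mem_range.1 hb
      exact ⟨⟨b, by omega⟩, mem_filter.2 ⟨mem_univ _, this⟩, rfl⟩
  rw [h1, card_range]

open Classical in
private lemma count_lev [Fintype G] (P : G → Prop) (hP : ∀ x, x ≠ 0 → (P x ↔ ¬ P (-x)))
    (w : ℕ) (c : ι → G) (a : ι → ℕ) (hB : Bdd w c a) (Q : G → Prop) (hQ : ∀ x, Q x ↔ Q (-x)) :
    ∑ l : Fin w, ((lev P c a l).filter Q).card = ∑ k ∈ univ.filter (fun k => Q (c k)), a k := by
  have h1 : ∀ l : Fin w, ((lev P c a l).filter Q).card =
      ∑ x ∈ univ.filter (fun x => P x ∧ Q x), if (l : ℕ) < ∑ k ∈ cls c x, a k then 1 else 0 := by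
    intro l
    rw [← card_filter]
    congr 1
    ext x
    simp only [lev, mem_filter, mem_univ, true_and]
    tauto
  simp only [h1]
  rw [sum_comm]
  have h2 : ∀ x ∈ univ.filter (fun x => P x ∧ Q x),
      (∑ l : Fin w, if (l : ℕ) < ∑ k ∈ cls c x, a k then 1 else 0) =
        ∑ k ∈ univ.filter (fun k => Q (c k)) with rep P c k = x, a k := by
    intro x hx
    have hx' := (mem_filter.1 hx).2
    rw [← card_filter, card_fin_lt w _ (hB.2 x)]
    apply sum_congr _ (fun _ _ => rfl)
    ext k
    rw [mem_cls_iff P hP c k (hB.1 k) x hx'.1]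
    simp only [mem_filter, mem_univ, true_and]
    constructor
    · intro h
      refine ⟨?_, h⟩
      rcases rep_eq_or P c k with h3 | h3
      · rw [← h3, h]; exact hx'.2
      · rw [hQ, ← h3, h]; exact hx'.2
    · exact fun h => h.2
  rw [sum_congr rfl h2]
  apply sum_fiberwise_of_maps_to
  intro k hk
  simp only [mem_filter, mem_univ, true_and] at hk ⊢
  refine ⟨rep_P P hP c k (hB.1 k), ?_⟩
  rcases rep_eq_or P c k with h3 | h3
  · rw [h3]; exact hk
  · rw [h3, ← hQ]; exact hk

private lemma split_le (s : Finset ι) (a : ι → ℕ) (J : ℕ) (h : J ≤ ∑ k ∈ s, a k) :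
    ∃ j : ι → ℕ, (∀ k, j k ≤ a k) ∧ ∑ k ∈ s, j k = J := by
  classical
  induction s using Finset.induction_on generalizing J with
  | empty =>
    refine ⟨0, fun k => Nat.zero_le _, ?_⟩
    simp at h
    simp [h]
  | insert k s hk ih =>
    rw [sum_insert hk] at h
    obtain ⟨j, hj1, hj2⟩ := ih (J - min J (a k)) (by omega)
    refine ⟨fun i => if i = k then min J (a k) else j i, ?_, ?_⟩
    · intro i
      dsimp only
      split_ifs with h1
      · rw [h1]; exact min_le_right _ _
      · exact hj1 i
    · rw [sum_insert hk, if_pos rfl]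
      rw [sum_congr rfl (g := j)]
      · rw [hj2]; omega
      · intro i hi
        rw [if_neg]
        rintro rfl
        exact hk hi

open Classical in
private lemma lev_sub [Fintype G] (P : G → Prop) (hP : ∀ x, x ≠ 0 → (P x ↔ ¬ P (-x)))
    (w : ℕ) (c : ι → G) (a : ι → ℕ) (hB : Bdd w c a) (B : Fin w → Finset G)
    (hBl : ∀ l, B l ⊆ lev P c a l) :
    ∃ j : ι → ℕ, (∀ k, j k ≤ a k) ∧
      pos c j = ∑ l, ∑ x ∈ B l, x + ∑ k, (if P (c k) then 0 else a k • c k) := by
  have hJ : ∀ x, P x → (univ.filter fun l => x ∈ B l).card ≤ ∑ k ∈ cls c x, a k := by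
    intro x _
    refine le_trans (card_le_card ?_) (le_of_eq (card_fin_lt w _ (hB.2 x)))
    intro l hl
    have h1 := hBl l (mem_filter.1 hl).2
    simp only [lev, mem_filter, mem_univ, true_and] at h1 ⊢
    exact h1.2
  have hJ' : ∀ x, ∃ j : ι → ℕ, P x → (∀ k, j k ≤ a k) ∧ ∑ k ∈ cls c x, j k = (univ.filter fun l => x ∈ B l).card := by
    intro x
    by_cases hx : P x
    · obtain ⟨j, hj⟩ := split_le (cls c x) a _ (hJ x hx)
      exact ⟨j, fun _ => hj⟩
    · exact ⟨0, fun h => absurd h hx⟩
  choose jx hjx using hJ'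
  have hrep : ∀ k, P (rep P c k) := fun k => rep_P P hP c k (hB.1 k)
  set j' : ι → ℕ := fun k => jx (rep P c k) k with hj'
  have hj'a : ∀ k, j' k ≤ a k := fun k => (hjx _ (hrep k)).1 k
  have hsum : ∑ k, j' k • rep P c k = ∑ l, ∑ x ∈ B l, x := by
    have h1 : ∑ l, ∑ x ∈ B l, x = ∑ x ∈ univ.filter P, (univ.filter fun l => x ∈ B l).card • x := by
      have h2 : ∀ l, ∑ x ∈ B l, x = ∑ x ∈ univ.filter P, if x ∈ B l then x else 0 := by
        intro l
        rw [← sum_filter]
        apply sum_congr _ (fun _ _ => rfl)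
        ext x
        simp only [mem_filter, mem_univ, true_and]
        constructor
        · intro h
          have := hBl l h
          simp only [lev, mem_filter, mem_univ, true_and] at this
          exact ⟨this.1, h⟩
        · exact fun h => h.2
      simp only [h2]
      rw [sum_comm]
      apply sum_congr rfl
      intro x _
      rw [← sum_filter, sum_const]
    rw [h1]
    rw [← sum_fiberwise_of_maps_to (t := univ.filter P) (g := rep P c)
      (fun k _ => mem_filter.2 ⟨mem_univ _, hrep k⟩)]
    apply sum_congr rfl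
    intro x hx
    have hx' := (mem_filter.1 hx).2
    have h3 := (hjx x hx').2
    rw [← h3, sum_smul]
    have h4 : (univ.filter fun k => rep P c k = x) = cls c x := by
      ext k
      rw [mem_cls_iff P hP c k (hB.1 k) x hx']
      simp
    rw [h4]
    apply sum_congr rfl
    intro k hk
    have h5 : rep P c k = x := (mem_cls_iff P hP c k (hB.1 k) x hx').1 hk
    simp only [hj', h5]
  refine ⟨fun k => if P (c k) then j' k else a k - j' k, ?_, ?_⟩
  · intro k
    dsimp only
    split_ifs
    · exact hj'a k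
    · exact Nat.sub_le _ _
  · rw [← hsum, ← sum_add_distrib]
    unfold pos
    apply sum_congr rfl
    intro k _
    have h6 := hj'a k
    by_cases hk : P (c k)
    · simp only [if_pos hk, rep, add_zero]
    · simp only [if_neg hk, rep]
      have h7 : a k • c k = (a k - j' k) • c k + j' k • c k := by
        rw [← add_nsmul, Nat.sub_add_cancel h6]
      rw [h7, smul_neg]
      abel

private lemma lev_card [Fintype G] [DecidableEq G] (P : G → Prop) (hP : ∀ x, x ≠ 0 → (P x ↔ ¬ P (-x)))
    (w : ℕ) (c : ι → G) (a : ι → ℕ) (hB : Bdd w c a) :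
    (∑ l : Fin w, (lev P c a l).subsetSum).card ≤ (R c a 0).card := by
  classical
  set D : G := ∑ k, (if P (c k) then 0 else a k • c k) with hD
  refine card_le_card_of_injOn (fun y => y + D) ?_ ?_
  · intro y hy
    rw [Finset.coe_sum, Set.mem_fintype_sum] at hy
    obtain ⟨g, hg, rfl⟩ := hy
    have hg' : ∀ l : Fin w, ∃ B ⊆ lev P c a l, ∑ x ∈ B, x = g l := by
      intro l
      have := hg l
      rw [mem_coe, mem_subsetSum_iff] at this
      exact this
    choose B hB1 hB2 using hg'
    obtain ⟨j, hj1, hj2⟩ := lev_sub P hP w c a hB B hB1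
    rw [mem_coe]
    unfold R
    rw [mem_filter]
    refine ⟨mem_univ _, j, hj1, ?_, Nat.zero_le _⟩
    rw [hj2]
    simp only [hB2]
    rw [hD]
  · intro y _ y' _ h
    exact add_right_cancel h

end general

/-- Normal form of a `w`-bounded sequence in `ℤ/Nq`: level sets `A_l` in the half system, with
`|∑_l Σ(A_l)| ≤ |R c a 0|`.

Proof.  For `x` with `InP x` let `μ(x) = ∑_{k ∈ cls c x} a k ≤ w` and `A_l = {x : InP x, l < μ(x)}`.
Every `k` lies in the class of exactly one `x` with `InP x` (`x = ± c k`), so
`∑_l |A_l| = ∑_x μ(x) = ∑ a`; the same count restricted to the `x` with `pr x ∈ K'` gives the last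
statement.  Let `ε_k = ±1` with `InP (ε_k c_k)`.  The set `{∑ j_k ε_k c_k : j ≤ a}` is a translate of
`R c a 0` (replace `j_k` by `a_k - j_k` for `ε_k = -1`), it equals `{∑_x J_x x : J_x ≤ μ(x)}`, which
contains every `∑_l ∑_{x ∈ B_l} x`, `B_l ⊆ A_l` (`J_x = #{l : x ∈ B_l}`). -/
theorem normal_form (N q w : ℕ) [NeZero (N * q)] (hN : 0 < N) (hq : 0 < q)
    (hodd : (N * q) % 2 = 1) {ι : Type} [Fintype ι] [DecidableEq ι] (c : ι → ZMod (N * q))
    (a : ι → ℕ) (hB : Bdd w c a) :
    ∃ A : Fin w → Finset (ZMod (N * q)),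
      (∀ l, ∀ x ∈ A l, x ≠ 0 ∧ InP N q x) ∧
      ∑ l, (A l).card = ∑ k, a k ∧
      (∑ l, (A l).subsetSum).card ≤ (R c a 0).card ∧
      ∀ K : AddSubgroup (ZMod N),
        ∑ l, (Set.ncard {x | x ∈ A l ∧ pr N q x ∈ K}) = ins (K.comap (pr N q).toAddMonoidHom) c a := by
  classical
  have hP : ∀ x, x ≠ 0 → (InP N q x ↔ ¬ InP N q (-x)) := fun x hx => InP_neg N q hN hq hodd x hx
  refine ⟨fun l => lev (InP N q) c a l, ?_, ?_, lev_card (InP N q) hP w c a hB, ?_⟩
  · intro l x hx
    simp only [lev, mem_filter, mem_univ, true_and] at hx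
    refine ⟨?_, hx.1⟩
    rintro rfl
    have h := hx.1
    unfold InP at h
    simp at h
  · have h := count_lev (InP N q) hP w c a hB (fun _ => True) (fun _ => Iff.rfl)
    simpa using h
  · intro K
    have h := count_lev (InP N q) hP w c a hB (fun x => pr N q x ∈ K) (fun x => by
      rw [map_neg, neg_mem_iff])
    unfold ins
    have h1 : ∀ l : Fin w, Set.ncard {x | x ∈ lev (InP N q) c a l ∧ pr N q x ∈ K} =
        ((lev (InP N q) c a l).filter (fun x => pr N q x ∈ K)).card := by
      intro l
      rw [← Set.ncard_coe_finset]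
      congr 1
      ext x
      simp
    simp only [h1]
    rw [h]
    apply sum_congr _ (fun _ _ => rfl)
    ext k
    simp

end RG
end

section

set_option autoImplicit false

open Finset Pointwise

namespace RG

open SPR (T two_T T_succ le_T T_mono T_zero eight_T pr psi)

/-- Indices of the quotient system: representatives `u` of the classes `± u ≠ 0` of `ℤ/N`, `w` copies of
each. -/
def IX (N w : ℕ) : Type := {u : ZMod N // 0 < u.val ∧ u.val ≤ (N - 1) / 2} × Fin w

noncomputable instance (N w : ℕ) [NeZero N] : Fintype (IX N w) := by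
  unfold IX
  classical
  infer_instance

instance (N w : ℕ) : DecidableEq (IX N w) := by
  unfold IX
  infer_instance

/-- positions -/
def cX (N w : ℕ) (k : IX N w) : ZMod N := k.1.1

/-- sizes `a_{(u, l)} = #{x ∈ A_l : pr x = u}` -/
noncomputable def aX {N q w : ℕ} (A : Fin w → Finset (ZMod (N * q))) (k : IX N w) : ℕ :=
  ((A k.2).filter (fun x => pr N q x = k.1.1)).card

/-- zero part `s_l = #{x ∈ A_l : pr x = 0}` -/
noncomputable def sX {N q w : ℕ} (A : Fin w → Finset (ZMod (N * q))) (l : Fin w) : ℕ :=
  ((A l).filter (fun x => pr N q x = 0)).card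

private lemma g2_mem_cls {G : Type*} [AddCommGroup G] {ι : Type*} [Fintype ι] (c : ι → G) (x : G)
    (k : ι) : k ∈ cls c x ↔ (c k = x ∨ c k = -x) := by
  classical
  have h := @Finset.mem_filter ι (fun k => c k = x ∨ c k = -x) (fun _ => Classical.propDecidable _)
    Finset.univ k
  constructor
  · intro hk
    have hk' : k ∈ @Finset.filter ι (fun k => c k = x ∨ c k = -x) (fun _ => Classical.propDecidable _)
        Finset.univ := by
      unfold cls at hk
      convert hk
    exact (h.1 hk').2
  · intro hk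
    have hk' := h.2 ⟨Finset.mem_univ _, hk⟩
    unfold cls
    convert hk'

/-- The copies of the class `u`. -/
private def g2_emb (N w : ℕ) (u : ZMod N) (hu : 0 < u.val ∧ u.val ≤ (N - 1) / 2) : Fin w → IX N w :=
  fun l => (⟨u, hu⟩, l)

private lemma g2_emb_inj (N w : ℕ) (u : ZMod N) (hu : 0 < u.val ∧ u.val ≤ (N - 1) / 2) :
    Function.Injective (g2_emb N w u hu) := fun _ _ h => congrArg Prod.snd h

/-- `N` odd: a full system. -/
lemma full_cX (N w : ℕ) [NeZero N] (hN : N % 2 = 1) : Full w (cX N w) := by
  classical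
  have hNpos : 0 < N := Nat.pos_of_ne_zero (NeZero.ne N)
  constructor
  · intro k hk
    have h1 : 0 < (k.1.1 : ZMod N).val := k.1.2.1
    have h2 : (k.1.1 : ZMod N) = 0 := hk
    rw [h2, ZMod.val_zero] at h1
    exact absurd h1 (lt_irrefl 0)
  · intro x hx
    have hcard : ∀ u : ZMod N, (hu : 0 < u.val ∧ u.val ≤ (N - 1) / 2) →
        (x = u ∨ x = -u) → (cls (cX N w) x).card = w := by
      intro u hu hxu
      have hEq : cls (cX N w) x = (Finset.univ : Finset (Fin w)).image (g2_emb N w u hu) := by
        ext k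
        rw [g2_mem_cls, Finset.mem_image]
        constructor
        · intro hk
          refine ⟨k.2, Finset.mem_univ _, ?_⟩
          have hku : (k.1.1 : ZMod N) = u := by
            have hk1 : (k.1.1 : ZMod N) = u ∨ (k.1.1 : ZMod N) = -u := by
              rcases hxu with rfl | rfl
              · exact hk
              · rcases hk with hk | hk
                · exact Or.inr hk
                · left
                  have : cX N w k = - -u := hk
                  rw [neg_neg] at this
                  exact this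
            rcases hk1 with h | h
            · exact h
            · exfalso
              have h1 : (k.1.1 : ZMod N).val ≤ (N - 1) / 2 := k.1.2.2
              have hu0 : u ≠ 0 := by
                intro h0
                rw [h0, ZMod.val_zero] at hu
                exact absurd hu.1 (lt_irrefl 0)
              rw [h, ZMod.neg_val, if_neg hu0] at h1
              have h2 := hu.2
              have h3 : u.val < N := ZMod.val_lt u
              omega
          exact Prod.ext (Subtype.ext hku.symm) rfl
        · rintro ⟨l, -, rfl⟩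
          rcases hxu with rfl | rfl
          · exact Or.inl rfl
          · right
            rw [neg_neg]
            rfl
      rw [hEq, Finset.card_image_of_injective _ (g2_emb_inj N w u hu), Finset.card_univ,
        Fintype.card_fin]
    have hv : 0 < x.val := by
      rcases Nat.eq_zero_or_pos x.val with h | h
      · exact absurd ((ZMod.val_eq_zero x).1 h) hx
      · exact h
    have hvN : x.val < N := ZMod.val_lt x
    by_cases hle : x.val ≤ (N - 1) / 2
    · exact hcard x ⟨hv, hle⟩ (Or.inl rfl)
    · refine hcard (-x) ?_ (Or.inr (neg_neg x).symm)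
      rw [ZMod.neg_val, if_neg hx]
      constructor <;> omega

private lemma g2_half {N q : ℕ} {x : ZMod (N * q)} (h : InP N q x) :
    pr N q x = 0 ∨ (0 < (pr N q x).val ∧ (pr N q x).val ≤ (N - 1) / 2) := by
  rcases h with h | h
  · exact Or.inr h
  · exact Or.inl h.1

private lemma g2_key (N q w : ℕ) [NeZero N] (A : Fin w → Finset (ZMod (N * q)))
    (hA : ∀ l, ∀ x ∈ A l, x ≠ 0 ∧ InP N q x) (P : ZMod N → Prop) [DecidablePred P] (hP : P 0)
    (l : Fin w) :
    ((A l).filter (fun x => P (pr N q x))).card = sX A l +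
      ∑ u : {u : ZMod N // 0 < u.val ∧ u.val ≤ (N - 1) / 2},
        if P u.1 then ((A l).filter (fun x => pr N q x = u.1)).card else 0 := by
  classical
  rw [← Finset.card_filter_add_card_filter_not (s := (A l).filter (fun x => P (pr N q x)))
    (fun x => pr N q x = 0)]
  congr 1
  · unfold sX
    congr 1
    ext x
    simp only [Finset.mem_filter]
    constructor
    · rintro ⟨⟨h1, -⟩, h3⟩
      exact ⟨h1, h3⟩
    · rintro ⟨h1, h3⟩
      exact ⟨⟨h1, by rw [h3]; exact hP⟩, h3⟩
  · have hmap : ∀ x ∈ ((A l).filter (fun x => P (pr N q x))).filter (fun x => ¬ pr N q x = 0),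
        pr N q x ∈ (Finset.univ : Finset (ZMod N)).filter
          (fun u => 0 < u.val ∧ u.val ≤ (N - 1) / 2) := by
      intro x hx
      rw [Finset.mem_filter, Finset.mem_filter] at hx
      refine Finset.mem_filter.2 ⟨Finset.mem_univ _, ?_⟩
      rcases g2_half (hA l x hx.1.1).2 with h | h
      · exact absurd h hx.2
      · exact h
    rw [Finset.card_eq_sum_card_fiberwise hmap]
    rw [Finset.sum_subtype (p := fun u : ZMod N => 0 < u.val ∧ u.val ≤ (N - 1) / 2)
      (Finset.univ.filter (fun u : ZMod N => 0 < u.val ∧ u.val ≤ (N - 1) / 2))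
      (fun u => by simp)]
    refine Finset.sum_congr rfl fun u _ => ?_
    have hu0 : (u.1 : ZMod N) ≠ 0 := by
      intro h
      have h1 := u.2.1
      rw [h, ZMod.val_zero] at h1
      exact absurd h1 (lt_irrefl 0)
    by_cases hPu : P u.1
    · rw [if_pos hPu]
      congr 1
      ext x
      simp only [Finset.mem_filter]
      constructor
      · rintro ⟨⟨⟨h1, -⟩, -⟩, h3⟩
        exact ⟨h1, h3⟩
      · rintro ⟨h1, h3⟩
        exact ⟨⟨⟨h1, by rw [h3]; exact hPu⟩, by rw [h3]; exact hu0⟩, h3⟩
    · rw [if_neg hPu, Finset.card_eq_zero, Finset.filter_eq_empty_iff]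
      intro x hx h3
      rw [Finset.mem_filter, Finset.mem_filter] at hx
      rw [h3] at hx
      exact hPu hx.1.2

private lemma g2_sum (N w : ℕ) [NeZero N] (g : IX N w → ℕ) :
    ∑ k, g k = ∑ l : Fin w, ∑ u : {u : ZMod N // 0 < u.val ∧ u.val ≤ (N - 1) / 2},
      g (u, l) := by
  classical
  have h1 : ∑ k, g k = ∑ p : {u : ZMod N // 0 < u.val ∧ u.val ≤ (N - 1) / 2} × Fin w, g p :=
    Fintype.sum_equiv (Equiv.refl _) _ _ (fun _ => rfl)
  rw [h1, Fintype.sum_prod_type, Finset.sum_comm]

/-- The zero part is (the image under `psi` of) an asymmetric subset of `ℤ/q`, `q` odd. -/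
lemma sX_le (N q w : ℕ) [NeZero N] [Fact q.Prime] (hodd : (N * q) % 2 = 1)
    (A : Fin w → Finset (ZMod (N * q))) (hA : ∀ l, ∀ x ∈ A l, x ≠ 0 ∧ InP N q x) (l : Fin w) :
    sX A l ≤ (q - 1) / 2 := by
  classical
  have hNpos : 0 < N := Nat.pos_of_ne_zero (NeZero.ne N)
  have hq : 0 < q := (Fact.out : q.Prime).pos
  have : NeZero q := ⟨hq.ne'⟩
  unfold sX
  set B := (A l).filter (fun x => pr N q x = 0) with hB
  have hBA : ∀ x ∈ B, x ≠ 0 ∧ InP N q x ∧ pr N q x = 0 := by
    intro x hx
    rw [hB, Finset.mem_filter] at hx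
    exact ⟨(hA l x hx.1).1, (hA l x hx.1).2, hx.2⟩
  have hd1 : Disjoint B (B.image (fun x => -x)) := by
    rw [Finset.disjoint_left]
    intro x hx hx'
    obtain ⟨y, hy, rfl⟩ := Finset.mem_image.1 hx'
    exact (InP_neg N q hNpos hq hodd y (hBA y hy).1).1 (hBA y hy).2.1 (hBA _ hx).2.1
  have h0 : (0 : ZMod (N * q)) ∉ B ∪ B.image (fun x => -x) := by
    intro h
    rcases Finset.mem_union.1 h with h | h
    · exact (hBA 0 h).1 rfl
    · obtain ⟨y, hy, hy0⟩ := Finset.mem_image.1 h
      exact (hBA y hy).1 (neg_eq_zero.1 hy0)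
  have hsub : insert 0 (B ∪ B.image (fun x => -x)) ⊆
      (Finset.univ : Finset (ZMod q)).image (psi N q) := by
    intro x hx
    have hpr : pr N q x = 0 := by
      rcases Finset.mem_insert.1 hx with rfl | hx
      · exact map_zero _
      · rcases Finset.mem_union.1 hx with hx | hx
        · exact (hBA x hx).2.2
        · obtain ⟨y, hy, rfl⟩ := Finset.mem_image.1 hx
          rw [map_neg, (hBA y hy).2.2, neg_zero]
    obtain ⟨y, hy⟩ := SPR.exists_psi N q hNpos hq x hpr
    exact Finset.mem_image.2 ⟨y, Finset.mem_univ _, hy⟩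
  have hc := (Finset.card_le_card hsub).trans Finset.card_image_le
  rw [Finset.card_insert_of_notMem h0, Finset.card_union_of_disjoint hd1,
    Finset.card_image_of_injective _ neg_injective, Finset.card_univ, ZMod.card] at hc
  omega

/-- A coset of `ker pr` has `q` elements. -/
lemma aX_le (N q w : ℕ) [NeZero N] [Fact q.Prime] (A : Fin w → Finset (ZMod (N * q)))
    (k : IX N w) : aX A k ≤ q := by
  classical
  have hNpos : 0 < N := Nat.pos_of_ne_zero (NeZero.ne N)
  have hq : 0 < q := (Fact.out : q.Prime).pos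
  have : NeZero q := ⟨hq.ne'⟩
  unfold aX
  rcases ((A k.2).filter (fun x => pr N q x = k.1.1)).eq_empty_or_nonempty with h | ⟨x0, hx0⟩
  · rw [h, Finset.card_empty]
    exact Nat.zero_le _
  · have h0 := (Finset.mem_filter.1 hx0).2
    have hsub : (A k.2).filter (fun x => pr N q x = k.1.1) ⊆
        (Finset.univ : Finset (ZMod q)).image (fun y => x0 + psi N q y) := by
      intro x hx
      have h1 := (Finset.mem_filter.1 hx).2
      have h2 : pr N q (x - x0) = 0 := by rw [map_sub, h1, h0, sub_self]
      obtain ⟨y, hy⟩ := SPR.exists_psi N q hNpos hq _ h2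
      refine Finset.mem_image.2 ⟨y, Finset.mem_univ _, ?_⟩
      rw [hy]
      abel
    refine (Finset.card_le_card hsub).trans (Finset.card_image_le.trans ?_)
    rw [Finset.card_univ, ZMod.card]

/-- `A_l` is the disjoint union of its parts. -/
lemma sum_X (N q w : ℕ) [NeZero N] [Fact q.Prime] (A : Fin w → Finset (ZMod (N * q)))
    (hA : ∀ l, ∀ x ∈ A l, x ≠ 0 ∧ InP N q x) :
    ∑ l, sX A l + ∑ k, aX A k = ∑ l, (A l).card := by
  classical
  rw [g2_sum, ← Finset.sum_add_distrib]
  refine Finset.sum_congr rfl fun l _ => ?_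
  have h := g2_key N q w A hA (fun _ => True) trivial l
  simp only [if_true, Finset.filter_true] at h
  exact h.symm

/-- The same for the parts with `pr x ∈ K`. -/
lemma ins_X (N q w : ℕ) [NeZero N] [Fact q.Prime] (A : Fin w → Finset (ZMod (N * q)))
    (hA : ∀ l, ∀ x ∈ A l, x ≠ 0 ∧ InP N q x) (K : AddSubgroup (ZMod N)) :
    ∑ l, sX A l + ins K (cX N w) (aX A) = ∑ l, (Set.ncard {x | x ∈ A l ∧ pr N q x ∈ K}) := by
  classical
  unfold ins
  rw [Finset.sum_filter, g2_sum, ← Finset.sum_add_distrib]
  refine Finset.sum_congr rfl fun l _ => ?_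
  have h := g2_key N q w A hA (fun u => u ∈ K) K.zero_mem l
  have h2 : {x | x ∈ A l ∧ pr N q x ∈ K} = (((A l).filter (fun x => pr N q x ∈ K) : Finset _) : Set (ZMod (N * q))) := by
    ext x
    simp
  rw [h2, Set.ncard_coe_finset, h]
  rfl

end RG
end

section

set_option autoImplicit false

open Finset Pointwise

namespace RG

open SPR (T two_T T_succ le_T T_mono T_zero eight_T pr psi)

/-- Elements of a pointwise sum of finite sets. -/
private theorem mem_sum_sets_G3 {q : ℕ} {ι : Type*} [DecidableEq ι] (s : Finset ι)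
    (X : ι → Finset (ZMod q)) :
    ∀ x : ZMod q, x ∈ ∑ i ∈ s, X i → ∃ g : ι → ZMod q, (∀ i ∈ s, g i ∈ X i) ∧
      ∑ i ∈ s, g i = x := by
  induction s using Finset.induction_on with
  | empty =>
    intro x hx
    simp only [Finset.sum_empty] at hx
    refine ⟨fun _ => 0, by simp, ?_⟩
    have : x = 0 := by simpa using hx
    simp [this]
  | insert a s ha ih =>
    intro x hx
    rw [Finset.sum_insert ha] at hx
    obtain ⟨y, hy, z, hz, rfl⟩ := Finset.mem_add.mp hx
    obtain ⟨g, hg, hgz⟩ := ih z hz
    refine ⟨Function.update g a y, ?_, ?_⟩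
    · intro i hi
      by_cases hia : i = a
      · subst hia
        simpa using hy
      · rw [Function.update_of_ne hia]
        exact hg i (Finset.mem_of_mem_insert_of_ne hi hia)
    · rw [Finset.sum_insert ha, Function.update_self]
      congr 1
      rw [← hgz]
      refine Finset.sum_congr rfl ?_
      intro i hi
      rw [Function.update_of_ne]
      rintro rfl
      exact ha hi

private theorem sum_mem_sum_sets_G3 {G : Type*} [AddCommGroup G] [DecidableEq G] {ι : Type*}
    [DecidableEq ι] (s : Finset ι) (X : ι → Finset G) (g : ι → G) (h : ∀ i ∈ s, g i ∈ X i) :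
    ∑ i ∈ s, g i ∈ ∑ i ∈ s, X i := by
  induction s using Finset.induction_on with
  | empty => simp
  | insert a s ha ih =>
    rw [Finset.sum_insert ha, Finset.sum_insert ha]
    exact Finset.add_mem_add (h a (Finset.mem_insert_self _ _))
      (ih fun i hi => h i (Finset.mem_insert_of_mem hi))

/-- From lower bounds `min q (1 + w i) ≤ |X i|` to a lower bound for `|∑ X i|`. -/
private theorem sum_bound_G3 {q : ℕ} [Fact q.Prime] {ι : Type*} [DecidableEq ι] (s : Finset ι)
    (X : ι → Finset (ZMod q)) (w : ι → ℕ) (h : ∀ i ∈ s, min q (1 + w i) ≤ (X i).card) :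
    min q (1 + ∑ i ∈ s, w i) ≤ (∑ i ∈ s, X i).card := by
  have hq : q.Prime := Fact.out
  have hq2 : 2 ≤ q := hq.two_le
  have hne : ∀ i ∈ s, (X i).Nonempty := by
    intro i hi
    have := h i hi
    apply Finset.card_pos.mp
    omega
  refine le_trans ?_ (SPR.cd_multi s X hne)
  by_cases hbig : ∃ i ∈ s, q - 1 ≤ w i
  · obtain ⟨i, hi, hw⟩ := hbig
    have h1 := h i hi
    have h2 : (X i).card - 1 ≤ ∑ i ∈ s, ((X i).card - 1) :=
      Finset.single_le_sum (f := fun i => (X i).card - 1) (fun _ _ => Nat.zero_le _) hi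
    omega
  · have hbig' : ∀ i ∈ s, w i < q - 1 := by
      intro i hi
      by_contra hcon
      exact hbig ⟨i, hi, by omega⟩
    have h3 : ∑ i ∈ s, w i ≤ ∑ i ∈ s, ((X i).card - 1) := by
      apply Finset.sum_le_sum
      intro i hi
      have h1 := h i hi
      have h2 := hbig' i hi
      omega
    omega

/-- classes of the quotient, `none` is the zero class -/
private abbrev U3 (N : ℕ) : Type := {u : ZMod N // 0 < u.val ∧ u.val ≤ (N - 1) / 2}

private def prv (N : ℕ) : Option (U3 N) → ZMod N
  | none => 0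
  | some u => u.1

private def base (N q : ℕ) (o : Option (U3 N)) : ZMod (N * q) := ((prv N o).val : ZMod (N * q))

private theorem prv_inj (N : ℕ) : Function.Injective (prv N) := by
  intro o o' h
  cases o with
  | none =>
    cases o' with
    | none => rfl
    | some u =>
      exfalso
      have h1 := u.2.1
      have h2 : (0 : ZMod N) = u.1 := h
      rw [← h2, ZMod.val_zero] at h1
      omega
  | some u =>
    cases o' with
    | none =>
      exfalso
      have h1 := u.2.1
      have h2 : u.1 = (0 : ZMod N) := h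
      rw [h2, ZMod.val_zero] at h1
      omega
    | some u' =>
      have h2 : u.1 = u'.1 := h
      rw [Subtype.ext h2]

private theorem pr_base (N q : ℕ) [NeZero N] (o : Option (U3 N)) : pr N q (base N q o) = prv N o := by
  unfold base
  rw [map_natCast, ZMod.natCast_zmod_val]

private theorem cls_eq_G3 (N q : ℕ) [NeZero N] (hq : 0 < q) (A : Finset (ZMod (N * q)))
    (o : Option (U3 N)) :
    ∃ B : Finset (ZMod q), B.card = (A.filter fun x => pr N q x = prv N o).card ∧
      (A.filter fun x => pr N q x = prv N o) = B.image (fun y => base N q o + psi N q y) := by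
  classical
  have : NeZero q := ⟨hq.ne'⟩
  have hp : 0 < N := Nat.pos_of_ne_zero (NeZero.ne N)
  have hinj : Function.Injective (fun y : ZMod q => base N q o + psi N q y) := by
    intro y y' h
    exact SPR.psi_injective N q hp hq (add_left_cancel h)
  set B : Finset (ZMod q) := Finset.univ.filter (fun y => base N q o + psi N q y ∈ A) with hB
  have hEq : (A.filter fun x => pr N q x = prv N o) = B.image (fun y => base N q o + psi N q y) := by
    ext x
    simp only [Finset.mem_filter, Finset.mem_image, hB, Finset.mem_univ, true_and]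
    constructor
    · rintro ⟨hxA, hx⟩
      have h2 : pr N q (x - base N q o) = 0 := by
        rw [map_sub, hx, pr_base, sub_self]
      obtain ⟨y, hy⟩ := SPR.exists_psi N q hp hq _ h2
      refine ⟨y, ?_, ?_⟩
      · rw [hy]; simpa using hxA
      · rw [hy]; simp
    · rintro ⟨y, hyA, rfl⟩
      refine ⟨hyA, ?_⟩
      rw [map_add, SPR.pr_psi N q hq, add_zero, pr_base]
  refine ⟨B, ?_, hEq⟩
  rw [hEq, Finset.card_image_of_injective _ hinj]

private theorem sum_IX {M : Type*} [AddCommMonoid M] (N w : ℕ) [NeZero N] [Fintype (U3 N)]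
    (f : IX N w → M) : ∑ k, f k = ∑ u : U3 N, ∑ l : Fin w, f (u, l) := by
  rw [← Fintype.sum_prod_type' (f := fun (u : U3 N) (l : Fin w) => f (u, l))]
  exact Fintype.sum_equiv (show IX N w ≃ U3 N × Fin w from Equiv.refl _) _ _ (fun _ => rfl)

/-- Fibre bound (compare `SPR.fibre`).  For every `j ≤ aX A` the set `∑_l Σ(A_l)` has at least
`min q (1 + ∑ T(s_l) + gain)` elements `y` with `pr y = pos j`.

Proof.  Write the part `pr x = u` of `A_l` as `u~ + psi(B)`, `u~ = (u.val : ZMod (N q))`,
`B ⊆ ZMod q` of the same size (kernel of `pr` = image of `psi`, `SPR.exists_psi`, `SPR.psi_injective`),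
the zero part of `A_l` as `psi(B_l)`, `B_l` asymmetric.  Take the sets `Σ(B_l)` (`SPR.balandraud`:
`≥ min q (1 + T(s_l))`) and the sets of sums of `j_k` distinct elements of `B_k` (`SPR.dsh`:
`≥ min q (1 + j_k (a_k - j_k))`) and apply `SPR.cd_multi` in `ZMod q`. -/
theorem fibreX (N q w : ℕ) [NeZero N] [Fact q.Prime] (hodd : (N * q) % 2 = 1)
    (A : Fin w → Finset (ZMod (N * q))) (hA : ∀ l, ∀ x ∈ A l, x ≠ 0 ∧ InP N q x)
    (j : IX N w → ℕ) (hj : ∀ k, j k ≤ aX A k) :
    min q (1 + ∑ l, T (sX A l) + gain (aX A) j) ≤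
      ((∑ l, (A l).subsetSum).filter (fun y => pr N q y = pos (cX N w) j)).card := by
  classical
  have hp : 0 < N := Nat.pos_of_ne_zero (NeZero.ne N)
  have hq : 0 < q := (Fact.out : q.Prime).pos
  choose B hBc hB using fun i : Option (U3 N) × Fin w => cls_eq_G3 N q hq (A i.2) i.1
  have hBA : ∀ i, ∀ y ∈ B i, base N q i.1 + psi N q y ∈ A i.2 ∧
      pr N q (base N q i.1 + psi N q y) = prv N i.1 := by
    intro i y hy
    have : base N q i.1 + psi N q y ∈ (A i.2).filter fun x => pr N q x = prv N i.1 := by
      rw [hB i]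
      exact Finset.mem_image_of_mem (fun y => base N q i.1 + psi N q y) hy
    exact Finset.mem_filter.mp this
  have hasym : ∀ l, ∀ y ∈ B (none, l), -y ∉ B (none, l) := by
    intro l y hy hny
    have h1 := (hBA _ y hy).1
    have h2 := (hBA _ (-y) hny).1
    have e0 : base N q (none : Option (U3 N)) = 0 := by
      simp [base, prv]
    simp only [e0, zero_add, map_neg] at h1 h2
    obtain ⟨h3, h4⟩ := hA l _ h1
    exact (InP_neg N q hp hq hodd _ h3).1 h4 (hA l _ h2).2
  let jj : Option (U3 N) × Fin w → ℕ := fun i =>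
    match i.1 with
    | none => 0
    | some u => j (u, i.2)
  let X : Option (U3 N) × Fin w → Finset (ZMod q) := fun i =>
    if i.1 = none then (B i).subsetSum else ((B i).powersetCard (jj i)).image (fun D => ∑ b ∈ D, b)
  let wt : Option (U3 N) × Fin w → ℕ := fun i =>
    if i.1 = none then T (B i).card else jj i * ((B i).card - jj i)
  have hjj : ∀ i : Option (U3 N) × Fin w, i.1 ≠ none → jj i ≤ (B i).card := by
    rintro ⟨o, l⟩ ho
    cases o with
    | none => exact absurd rfl ho
    | some u =>
      rw [hBc]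
      exact hj (u, l)
  have hXb : ∀ i ∈ (Finset.univ : Finset (Option (U3 N) × Fin w)), min q (1 + wt i) ≤ (X i).card := by
    rintro ⟨o, l⟩ -
    by_cases ho : o = none
    · subst ho
      simp only [X, wt, if_true]
      exact SPR.balandraud q (B (none, l)) (hasym l)
    · simp only [X, wt, if_neg ho]
      exact SPR.dsh q _ _ (hjj (o, l) ho)
  have hmain := sum_bound_G3 Finset.univ X wt hXb
  have hw : ∑ i, wt i = ∑ l, T (sX A l) + gain (aX A) j := by
    rw [Fintype.sum_prod_type, Fintype.sum_option]
    congr 1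
    · refine Finset.sum_congr rfl fun l _ => ?_
      simp only [wt, if_true]
      rw [hBc]
      rfl
    · unfold gain
      rw [sum_IX]
      refine Finset.sum_congr rfl fun u _ => Finset.sum_congr rfl fun l _ => ?_
      simp only [wt, if_neg (Option.some_ne_none u)]
      rw [hBc]
      rfl
  rw [hw, ← add_assoc] at hmain
  refine hmain.trans ?_
  set c : ZMod (N * q) := ∑ i : Option (U3 N) × Fin w, (jj i : ZMod (N * q)) * base N q i.1 with hc
  have hinj : Function.Injective (fun y : ZMod q => c + psi N q y) := by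
    intro y y' h
    exact SPR.psi_injective N q hp hq (add_left_cancel h)
  rw [← Finset.card_image_of_injective _ hinj]
  apply Finset.card_le_card
  intro x hx
  obtain ⟨y, hy, rfl⟩ := Finset.mem_image.mp hx
  rw [Finset.mem_filter]
  constructor
  · obtain ⟨g, hg, hgy⟩ := mem_sum_sets_G3 Finset.univ X y hy
    have hD : ∀ i, ∃ D : Finset (ZMod q), D ⊆ B i ∧ ∑ b ∈ D, b = g i ∧
        (i.1 ≠ none → D.card = jj i) := by
      intro i
      have h1 := hg i (Finset.mem_univ i)
      by_cases hi0 : i.1 = none
      · simp only [X, if_pos hi0] at h1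
        obtain ⟨D, hD1, hD2⟩ := Finset.mem_subsetSum_iff.mp h1
        exact ⟨D, hD1, hD2, fun h => absurd hi0 h⟩
      · simp only [X, if_neg hi0] at h1
        obtain ⟨D, hD1, hD2⟩ := Finset.mem_image.mp h1
        rw [Finset.mem_powersetCard] at hD1
        exact ⟨D, hD1.1, hD2, fun _ => hD1.2⟩
    choose D hD using hD
    let F : Option (U3 N) × Fin w → Finset (ZMod (N * q)) := fun i =>
      (D i).image (fun y => base N q i.1 + psi N q y)
    have hF : ∀ i, ∀ x ∈ F i, x ∈ A i.2 ∧ pr N q x = prv N i.1 := by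
      intro i x hx
      obtain ⟨y, hy, rfl⟩ := Finset.mem_image.mp hx
      exact hBA i y ((hD i).1 hy)
    have hsum : ∀ i, ∑ x ∈ F i, x = (jj i : ZMod (N * q)) * base N q i.1 + psi N q (g i) := by
      intro i
      have hinj' : Function.Injective (fun y : ZMod q => base N q i.1 + psi N q y) := by
        intro y y' h
        exact SPR.psi_injective N q hp hq (add_left_cancel h)
      simp only [F]
      rw [Finset.sum_image (fun a _ b _ h => hinj' h), Finset.sum_add_distrib,
        Finset.sum_const, nsmul_eq_mul, ← map_sum, (hD i).2.1]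
      congr 1
      by_cases hi0 : i.1 = none
      · have e0 : base N q i.1 = 0 := by
          rw [hi0]
          simp [base, prv]
        rw [e0, mul_zero, mul_zero]
      · rw [(hD i).2.2 hi0]
    have hE : ∀ l : Fin w, ∑ o : Option (U3 N), ((jj (o, l) : ZMod (N * q)) * base N q o +
        psi N q (g (o, l))) ∈ (A l).subsetSum := by
      intro l
      rw [Finset.mem_subsetSum_iff]
      refine ⟨Finset.univ.biUnion fun o : Option (U3 N) => F (o, l), ?_, ?_⟩
      · intro x hx
        obtain ⟨o, -, hxo⟩ := Finset.mem_biUnion.mp hx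
        exact (hF (o, l) x hxo).1
      · rw [Finset.sum_biUnion]
        · exact Finset.sum_congr rfl fun o _ => hsum (o, l)
        · intro o _ o' _ hne
          rw [Function.onFun, Finset.disjoint_left]
          intro x hx hx'
          have h1 := (hF (o, l) x hx).2
          have h2 := (hF (o', l) x hx').2
          exact hne (prv_inj N (h1.symm.trans h2))
    have hall := sum_mem_sum_sets_G3 Finset.univ (fun l => (A l).subsetSum)
      (fun l => ∑ o : Option (U3 N), ((jj (o, l) : ZMod (N * q)) * base N q o +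
        psi N q (g (o, l)))) (fun l _ => hE l)
    have e1 : ∑ l : Fin w, ∑ o : Option (U3 N), ((jj (o, l) : ZMod (N * q)) * base N q o +
        psi N q (g (o, l))) = c + psi N q y := by
      rw [Finset.sum_comm, ← Fintype.sum_prod_type' (f := fun (o : Option (U3 N)) (l : Fin w) =>
        (jj (o, l) : ZMod (N * q)) * base N q o + psi N q (g (o, l))), Finset.sum_add_distrib, hc,
        ← map_sum]
      congr 2
    rw [← e1]
    exact hall
  · rw [map_add, SPR.pr_psi N q hq, add_zero, hc, map_sum]
    unfold pos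
    rw [sum_IX, Fintype.sum_prod_type, Fintype.sum_option]
    have h0 : ∑ l : Fin w, pr N q ((jj (none, l) : ZMod (N * q)) * base N q (none : Option (U3 N))) = 0 := by
      refine Finset.sum_eq_zero fun l _ => ?_
      rw [map_mul, pr_base]
      simp [prv]
    rw [h0, zero_add]
    refine Finset.sum_congr rfl fun u _ => Finset.sum_congr rfl fun l _ => ?_
    rw [map_mul, map_natCast, pr_base, nsmul_eq_mul]
    rfl

end RG
end

section

set_option autoImplicit false

open Finset Pointwise

namespace RG

open SPR (T two_T T_succ le_T T_mono T_zero eight_T pr psi)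

/-- Double counting (compare `SPR.LL_le`). -/
theorem LL_leX (N q w : ℕ) [NeZero N] [Fact q.Prime] (hodd : (N * q) % 2 = 1)
    (A : Fin w → Finset (ZMod (N * q))) (hA : ∀ l, ∀ x ∈ A l, x ≠ 0 ∧ InP N q x) :
    LL q (∑ l, T (sX A l)) (cX N w) (aX A) ≤ (∑ l, (A l).subsetSum).card := by
  classical
  set tau := ∑ l, T (sX A l) with htau
  have h1 : LL q tau (cX N w) (aX A) =
      ∑ t : ZMod N,
        ((Finset.range q).filter (fun v => t ∈ R (cX N w) (aX A) (v - tau))).card := by
    unfold LL
    simp_rw [Finset.card_filter]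
    rw [Finset.sum_comm]
    refine Finset.sum_congr rfl (fun v _ => ?_)
    rw [← Finset.card_filter]
    congr 1
    ext t
    simp
  have h2 : (∑ l, (A l).subsetSum).card =
      ∑ t : ZMod N, ((∑ l, (A l).subsetSum).filter (fun x => pr N q x = t)).card :=
    Finset.card_eq_sum_card_fiberwise (fun x _ => Finset.mem_coe.2 (Finset.mem_univ _))
  rw [h1, h2]
  refine Finset.sum_le_sum (fun t _ => ?_)
  rcases ((Finset.range q).filter
    (fun v => t ∈ R (cX N w) (aX A) (v - tau))).eq_empty_or_nonempty with h | h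
  · rw [h]; simp
  · obtain ⟨v, hv, hmax⟩ := Finset.exists_max_image _ (fun v => v) h
    rw [Finset.mem_filter, Finset.mem_range] at hv
    obtain ⟨hvq, hvR⟩ := hv
    unfold R at hvR
    rw [Finset.mem_filter] at hvR
    obtain ⟨-, j, hj, hpos, hgain⟩ := hvR
    have hf := fibreX N q w hodd A hA j hj
    rw [hpos] at hf
    have hcard : ((Finset.range q).filter
        (fun v => t ∈ R (cX N w) (aX A) (v - tau))).card ≤ v + 1 := by
      calc _ ≤ (Finset.range (v + 1)).card := by
            apply Finset.card_le_card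
            intro w hw
            have := hmax w hw
            rw [Finset.mem_range]
            omega
        _ = v + 1 := Finset.card_range _
    have h3 : v + 1 ≤ min q (1 + tau + gain (aX A) j) := by
      rw [le_min_iff]
      constructor <;> omega
    exact hcard.trans (h3.trans hf)

/-- **Reduction to the quotient.**  (`normal_form`, `full_cX`, `sX_le`, `aX_le`, `sum_X`, `LL_leX`,
`ins_X`.) -/
theorem fibre_thm (N q w : ℕ) [NeZero N] [Fact q.Prime] [NeZero (N * q)] (hodd : (N * q) % 2 = 1)
    {ι : Type} [Fintype ι] [DecidableEq ι] (c : ι → ZMod (N * q)) (a : ι → ℕ) (hB : Bdd w c a) :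
    ∃ (s : Fin w → ℕ) (a' : IX N w → ℕ), (∀ l, s l ≤ (q - 1) / 2) ∧ (∀ k, a' k ≤ q) ∧
      ∑ l, s l + ∑ k, a' k = ∑ k, a k ∧
      LL q (∑ l, T (s l)) (cX N w) a' ≤ (R c a 0).card ∧
      ∀ K : AddSubgroup (ZMod N), ∑ l, s l + ins K (cX N w) a' =
        ins (K.comap (pr N q).toAddMonoidHom) c a := by
  obtain ⟨A, hA, hcard, hle, hins⟩ := normal_form N q w (Nat.pos_of_ne_zero (NeZero.ne N))
    (Fact.out : q.Prime).pos hodd c a hB
  refine ⟨sX A, aX A, sX_le N q w hodd A hA, aX_le N q w A, ?_, ?_, ?_⟩
  · rw [sum_X N q w A hA, hcard]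
  · exact (LL_leX N q w hodd A hA).trans hle
  · intro K
    rw [ins_X N q w A hA K, hins K]

end RG
end
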