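import Pool.Agent.Lib.MP_d3cc86_co.RG.KNg
import Pool.Agent.Lib.MP_d3cc86_co.Upper

set_option autoImplicit false

open Finset Pointwise

namespace RG

private lemma kn1_aux {G : Type*} [AddCommGroup G] [Fintype G] [DecidableEq G] {ι : Type*} [Fintype ι]
    [DecidableEq ι] (c : ι → G) (a : ι → ℕ) (Hf : Finset G)
    (hHf : ∀ x, x ∈ Hf ↔ x ∈ stb (R c a 0)) :
    ∀ (s : ℕ) (f : ι → ℕ), (∀ k, f k ≤ a k) → (∀ k, c k ∈ stb (R c a 0) → f k = 0) →
      ∑ k, f k = s → Hf.card * (1 + s) ≤ (R c f 0 + Hf).card := by
  set K := stb (R c a 0) with hK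
  have h0 : (0 : G) ∈ Hf := (hHf 0).mpr K.zero_mem
  have hHH : Hf + Hf = Hf := by
    apply Finset.Subset.antisymm
    · intro z hz
      rw [Finset.mem_add] at hz
      obtain ⟨a, ha, b, hb, rfl⟩ := hz
      rw [hHf] at ha hb ⊢
      exact K.add_mem ha hb
    · intro z hz
      rw [Finset.mem_add]
      exact ⟨z, hz, 0, h0, add_zero z⟩
  have hneg : ∀ h ∈ Hf, -h ∈ Hf := by
    intro h hh
    rw [hHf] at hh ⊢
    exact K.neg_mem hh
  have hAH : R c a 0 + Hf = R c a 0 := by
    apply Finset.Subset.antisymm
    · intro z hz
      rw [Finset.mem_add] at hz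
      obtain ⟨x, hx, b, hb, rfl⟩ := hz
      rw [hHf, hK, mem_stb] at hb
      exact (hb x).mpr hx
    · intro z hz
      rw [Finset.mem_add]
      exact ⟨z, hz, 0, h0, add_zero z⟩
  intro s
  induction s with
  | zero =>
    intro f hfa hfK hs
    rw [add_zero, mul_one]
    apply Finset.card_le_card
    intro z hz
    rw [Finset.mem_add]
    exact ⟨0, zero_mem_R c f, z, hz, zero_add z⟩
  | succ s ih =>
    intro f hfa hfK hs
    obtain ⟨k, hk⟩ : ∃ k, 0 < f k := by
      by_contra hcon
      push Not at hcon
      have : ∑ k, f k = 0 := Finset.sum_eq_zero fun k _ => Nat.le_zero.mp (hcon k)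
      omega
    have hck : c k ∉ K := by
      intro h
      have := hfK k h
      omega
    set f' : ι → ℕ := Function.update f k (f k - 1) with hf'
    have hf'le : ∀ i, f' i ≤ f i := by
      intro i
      rw [hf']
      by_cases h : i = k
      · subst h
        rw [Function.update_self]
        omega
      · rw [Function.update_of_ne h]
    have hsum : ∑ i, f' i = s := by
      have h1 : ∑ i, f i = f k + ∑ i ∈ Finset.univ.erase k, f i := by
        rw [Finset.add_sum_erase _ _ (Finset.mem_univ k)]
      have h2 : ∑ i, f' i = f' k + ∑ i ∈ Finset.univ.erase k, f' i := by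
        rw [Finset.add_sum_erase _ _ (Finset.mem_univ k)]
      have h3 : ∑ i ∈ Finset.univ.erase k, f' i = ∑ i ∈ Finset.univ.erase k, f i := by
        refine Finset.sum_congr rfl ?_
        intro i hi
        rw [hf', Function.update_of_ne (Finset.ne_of_mem_erase hi)]
      have h4 : f' k = f k - 1 := by rw [hf', Function.update_self]
      omega
    have h1 := ih f' (fun i => (hf'le i).trans (hfa i)) (fun i hi => by
      have := hfK i hi
      have := hf'le i
      omega) hsum
    set P := R c f' 0 + Hf with hP
    have hPH : P + Hf = P := by rw [hP, add_assoc, hHH]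
    have hX : R c a 0 = P + R c (fun i => a i - f' i) 0 := by
      have h3 : R c a 0 = R c f' 0 + R c (fun i => a i - f' i) 0 := by
        rw [← R_add_eq]
        congr 1
        funext i
        have := (hf'le i).trans (hfa i)
        simp only [Pi.add_apply]
        omega
      rw [hP, add_right_comm, ← h3, hAH]
    have hne : c k +ᵥ P ≠ P := by
      intro hcon
      apply hck
      have h5 : c k +ᵥ R c a 0 = R c a 0 := by
        rw [hX, ← vadd_add_assoc, hcon]
      rw [hK, mem_stb]
      intro x
      constructor
      · intro hx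
        rw [← h5, Finset.mem_vadd_finset] at hx
        obtain ⟨y, hy, hyx⟩ := hx
        have : y = x := by
          rw [vadd_eq_add, add_comm] at hyx
          exact add_right_cancel hyx
        rwa [← this]
      · intro hx
        rw [← h5, Finset.mem_vadd_finset]
        exact ⟨x, hx, by rw [vadd_eq_add, add_comm]⟩
    have h4 := Pool.Agent.Lib.MP_d3cc86_co.card_union_vadd_periodic hPH hneg hne
    have h5 : P ∪ (c k +ᵥ P) ⊆ R c f 0 + Hf := by
      have h6 : R c f' 0 ⊆ R c f 0 := R_mono c f' f hf'le
      have h7 : ∀ t ∈ R c f' 0, c k + t ∈ R c f 0 := by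
        intro t ht
        rw [mem_R] at ht ⊢
        obtain ⟨j, hj1, hj2, -⟩ := ht
        refine ⟨j + (Pi.single k 1 : ι → ℕ), ?_, ?_, Nat.zero_le _⟩
        · intro i
          rw [Pi.add_apply]
          by_cases h : i = k
          · subst h
            rw [Pi.single_eq_same]
            have := hj1 i
            have h4 : f' i = f i - 1 := by rw [hf', Function.update_self]
            omega
          · rw [Pi.single_eq_of_ne h, add_zero]
            exact (hj1 i).trans (hf'le i)
        · unfold pos at hj2 ⊢
          rw [← hj2]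
          have : ∀ i, (j + (Pi.single k 1 : ι → ℕ)) i • c i = j i • c i + (Pi.single k 1 : ι → ℕ) i • c i := by
            intro i
            rw [Pi.add_apply, add_smul]
          rw [Finset.sum_congr rfl fun i _ => this i, Finset.sum_add_distrib, add_comm]
          congr 1
          rw [Finset.sum_eq_single k]
          · rw [Pi.single_eq_same, one_smul]
          · intro i _ hi
            rw [Pi.single_eq_of_ne hi, zero_smul]
          · intro h
            exact absurd (Finset.mem_univ k) h
      apply Finset.union_subset
      · exact Finset.add_subset_add_right h6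
      · intro z hz
        rw [Finset.mem_vadd_finset] at hz
        obtain ⟨y, hy, rfl⟩ := hz
        rw [hP, Finset.mem_add] at hy
        obtain ⟨t, ht, b, hb, rfl⟩ := hy
        rw [vadd_eq_add, ← add_assoc]
        exact Finset.add_mem_add (h7 t ht) hb
    have h6 := Finset.card_le_card h5
    nlinarith

/-- `K = stab R_0(a)`: `|R_0(a)| ≥ |K| (1 + number of elements outside K)`.

Proof.  `R_0(a)` is a union of cosets of `K`.  Let `f ≤ a` be `a` on the entries outside `K` and `0` on
the entries in `K`, `X_f = R_0(f) + K` (so `R_0(a) + K = X_f`, `R_0(a)` being `K`-periodic and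
`R_0(a) = R_0(f) + R_0(a - f)`, `R_0(a-f) ⊆ K`).  Show by induction on `∑ f` (all `f` supported outside
`K` and below `a`) that `X_f` has at least `1 + ∑ f` cosets of `K`: if adding one more copy of `c k ∉ K`
gives the same set, `X_{f+1_k} = X_f ∪ (X_f + c_k) = X_f`, then `c_k` stabilizes `X_f` (finite), hence
(as `X_a = X_f + ...`) it stabilizes `R_0(a)`, so `c_k ∈ K`, contradiction; so the number of cosets
grows by at least `1`.  (compare `stabilizer_bound` in `Lib/MP_d3cc86_co/Lower.lean`.) -/
theorem kn1 {G : Type*} [AddCommGroup G] [Fintype G] {ι : Type*} [Fintype ι] (c : ι → G)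
    (a : ι → ℕ) :
    Nat.card (stb (R c a 0)) * (1 + outs (stb (R c a 0)) c a) ≤ (R c a 0).card := by
  classical
  set K := stb (R c a 0) with hK
  set Hf : Finset G := univ.filter (fun x => x ∈ K) with hHfdef
  have hHf : ∀ x, x ∈ Hf ↔ x ∈ K := fun x => by simp [hHfdef]
  have hHfc : Hf.card = Nat.card K := by
    rw [Nat.card_eq_fintype_card, Fintype.card_subtype]
  set f : ι → ℕ := fun k => if c k ∈ K then 0 else a k with hf
  have hfa : ∀ k, f k ≤ a k := by
    intro k
    simp only [hf]
    split_ifs <;> omega
  have h1 := kn1_aux c a Hf hHf (∑ k, f k) f hfa (fun k hk => by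
    simp only [hf]
    rw [if_pos hk]) rfl
  have h2 : ∑ k, f k = outs K c a := by
    unfold outs
    rw [Finset.sum_filter]
    refine Finset.sum_congr rfl ?_
    intro k _
    simp only [hf]
    split_ifs <;> rfl
  rw [hHfc, h2] at h1
  refine h1.trans (Finset.card_le_card ?_)
  intro z hz
  rw [Finset.mem_add] at hz
  obtain ⟨x, hx, b, hb, rfl⟩ := hz
  rw [hHf, hK, mem_stb] at hb
  exact (hb x).mpr (R_mono c f a hfa hx)

/-- The size of a set is divisible by the size of its stabilizer. -/
lemma card_stb_dvd {G : Type*} [AddCommGroup G] [Fintype G] (X : Finset G) :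
    Nat.card (stb X) ∣ X.card := by
  classical
  set K := stb X with hK
  set q : G → G ⧸ K := fun x => (x : G ⧸ K) with hq
  rw [Finset.card_eq_sum_card_image q X]
  apply Finset.dvd_sum
  intro y hy
  rw [Finset.mem_image] at hy
  obtain ⟨x, hx, rfl⟩ := hy
  have : (X.filter fun z => q z = q x) = (univ.filter (fun g => g ∈ K)).image (fun g => x + g) := by
    ext z
    simp only [Finset.mem_filter, Finset.mem_image, Finset.mem_univ, true_and]
    constructor
    · rintro ⟨hz, hzx⟩
      refine ⟨-x + z, ?_, by simp⟩
      have := (QuotientAddGroup.eq (s := K)).mp hzx.symm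
      exact this
    · rintro ⟨g, hg, rfl⟩
      refine ⟨(((mem_stb X g).mp hg) x).mpr hx, ?_⟩
      simp only [hq]
      apply Eq.symm
      rw [QuotientAddGroup.eq]
      simpa using hg
  rw [this, Finset.card_image_of_injective _ (add_right_injective x)]
  rw [Nat.card_eq_fintype_card, Fintype.card_subtype]

end RG
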