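import Pool.Agent.Lib.MP_d3cc86_co.SP.N1

/-!
Rough moduli (MP_d3cc86_co): every prime factor of `n` is at least `10000`.  Definitions.

A *configuration* in a finite abelian group `G` is a finite family of entries `k : ι` with positions
`c k ∈ G` and sizes `a k`.  `R c a 0` is the set of all sums `∑ j_k c_k`, `0 ≤ j_k ≤ a_k`.
-/

set_option autoImplicit false

open Finset

namespace RG

open SPR (T two_T T_succ le_T T_mono T_zero eight_T)

section
variable {G : Type*} [AddCommGroup G] {ι : Type*} [Fintype ι]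

/-- `∑ j_k c_k`. -/
def pos (c : ι → G) (j : ι → ℕ) : G := ∑ k, j k • c k

/-- `∑ j_k (a_k - j_k)`. -/
def gain (a j : ι → ℕ) : ℕ := ∑ k, j k * (a k - j k)

open Classical in
/-- The set of all `∑ j_k c_k` with `0 ≤ j_k ≤ a_k` and `∑ j_k (a_k - j_k) ≥ v`. -/
noncomputable def R [Fintype G] (c : ι → G) (a : ι → ℕ) (v : ℕ) : Finset G :=
  Finset.univ.filter (fun t => ∃ j : ι → ℕ, (∀ k, j k ≤ a k) ∧ pos c j = t ∧ v ≤ gain a j)

/-- The maximum of `gain a`. -/
def Gam (a : ι → ℕ) : ℕ := ∑ k, a k ^ 2 / 4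

/-- `∑_{v ≥ 1} |R_v|`. -/
noncomputable def EE [Fintype G] (c : ι → G) (a : ι → ℕ) : ℕ :=
  ∑ v ∈ Finset.Icc 1 (Gam a), (R c a v).card

/-- The functional without truncation; `tau` is the contribution of the zero class. -/
noncomputable def Linf [Fintype G] (tau : ℕ) (c : ι → G) (a : ι → ℕ) : ℕ :=
  (1 + tau) * (R c a 0).card + EE c a

/-- The functional truncated at `q`. -/
noncomputable def LL [Fintype G] (q tau : ℕ) (c : ι → G) (a : ι → ℕ) : ℕ :=
  ∑ v ∈ Finset.range q, (R c a (v - tau)).card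

open Classical in
/-- The entries in the class `± x`. -/
noncomputable def cls (c : ι → G) (x : G) : Finset ι :=
  Finset.univ.filter (fun k => c k = x ∨ c k = -x)

/-- A `w`-bounded sequence: no entry at `0`, every class `± x` has total multiplicity `≤ w`. -/
def Bdd (w : ℕ) (c : ι → G) (a : ι → ℕ) : Prop :=
  (∀ k, c k ≠ 0) ∧ ∀ x, ∑ k ∈ cls c x, a k ≤ w

/-- A full system: no entry at `0`, every class `± x`, `x ≠ 0`, has exactly `w` entries. -/
def Full (w : ℕ) (c : ι → G) : Prop :=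
  (∀ k, c k ≠ 0) ∧ ∀ x, x ≠ 0 → (cls c x).card = w

/-- number of odd entries -/
def oo (a : ι → ℕ) : ℕ := (Finset.univ.filter (fun k => a k % 2 = 1)).card

/-- number of nonzero even entries -/
def ee (a : ι → ℕ) : ℕ := (Finset.univ.filter (fun k => a k % 2 = 0 ∧ a k ≠ 0)).card

/-- number of zero entries -/
def zz (a : ι → ℕ) : ℕ := (Finset.univ.filter (fun k => a k = 0)).card

open Classical in
/-- number of elements (with multiplicity) outside `K` -/
noncomputable def outs (K : AddSubgroup G) (c : ι → G) (a : ι → ℕ) : ℕ :=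
  ∑ k ∈ Finset.univ.filter (fun k => c k ∉ K), a k

open Classical in
/-- number of elements (with multiplicity) in `K` -/
noncomputable def ins (K : AddSubgroup G) (c : ι → G) (a : ι → ℕ) : ℕ :=
  ∑ k ∈ Finset.univ.filter (fun k => c k ∈ K), a k

/-- `S = ∑_l (2 s_l + 1 - 2 al)^2 + 2 ∑_k (a_k - 2 al)^2`. -/
def SS {w : ℕ} (s : Fin w → ℕ) (a : ι → ℕ) (al : ℤ) : ℤ :=
  ∑ l, (2 * (s l : ℤ) + 1 - 2 * al) ^ 2 + 2 * ∑ k, ((a k : ℤ) - 2 * al) ^ 2

end

/-- The stabilizer of a finite set `X`. -/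
def stb {G : Type*} [AddCommGroup G] (X : Finset G) : AddSubgroup G where
  carrier := {g | ∀ x, x + g ∈ X ↔ x ∈ X}
  zero_mem' := by intro x; simp
  add_mem' := by
    intro g g' hg hg' x
    rw [← add_assoc]
    exact (hg' (x + g)).trans (hg x)
  neg_mem' := by
    intro g hg x
    have := hg (x + -g)
    rw [neg_add_cancel_right] at this
    exact this.symm

lemma mem_stb {G : Type*} [AddCommGroup G] (X : Finset G) (g : G) :
    g ∈ stb X ↔ ∀ x, x + g ∈ X ↔ x ∈ X := Iff.rfl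

lemma ins_add_outs {G : Type*} [AddCommGroup G] {ι : Type*} [Fintype ι] (K : AddSubgroup G)
    (c : ι → G) (a : ι → ℕ) : ins K c a + outs K c a = ∑ k, a k := by
  classical
  unfold ins outs
  exact Finset.sum_filter_add_sum_filter_not Finset.univ (fun k => c k ∈ K) a

/-- `g_u(t) = 1 + min ∑ T(parts)` over all partitions of `t` into `u` parts: `t = Q u + s`,
`1 + u T(Q) + s (Q + 1)`. -/
def gg (u t : ℕ) : ℕ := 1 + u * T (t / u) + t % u * (t / u + 1)

/-- `φ_h^{(w)}(m) = h g_{wh}(m - w (h-1)/2)` (natural subtraction). -/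
def ph (w h m : ℕ) : ℕ := h * gg (w * h) (m - w * ((h - 1) / 2))

/-- All prime factors are at least `10000`. -/
def Rough (n : ℕ) : Prop := 0 < n ∧ ∀ r, r.Prime → r ∣ n → 10000 ≤ r

/-- Lower bound for sumsets of `w`-bounded sequences in `ℤ/n`. -/
def CC (n w : ℕ) : Prop :=
  ∀ [NeZero n] (ι : Type) [Fintype ι] [DecidableEq ι] (c : ι → ZMod n) (a : ι → ℕ),
    Bdd w c a → ∃ h, h ∣ n ∧ ph w h (∑ k, a k) ≤ (R c a 0).card

/-- Lower bound for the untruncated functional over `ℤ/n`. -/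
def UU (n w : ℕ) : Prop :=
  ∀ [NeZero n] (ι : Type) [Fintype ι] [DecidableEq ι] (c : ι → ZMod n) (a : ι → ℕ)
    (s : Fin w → ℕ), Full w c →
    ∃ h, h ∣ n ∧ ph w h (∑ l, s l + ∑ k, a k) ≤ Linf (∑ l, T (s l)) c a

/-- Small sets: `|Σ X| ≥ min (p0, 1 + T |X|)`, `p0` the least prime factor of `n`, for asymmetric
sets `X ⊆ ℤ/n` (written as `1`-bounded sequences). -/
def DD (n : ℕ) : Prop :=
  ∀ [NeZero n] (ι : Type) [Fintype ι] [DecidableEq ι] (c : ι → ZMod n) (a : ι → ℕ),
    Bdd 1 c a → min n.minFac (1 + T (∑ k, a k)) ≤ (R c a 0).card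

end RG
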