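import Pool.Agent.Lib.MP_d3cc86_co.RG.N2a
import Pool.Agent.Lib.MP_d3cc86_co.RG.A2
import Pool.Agent.Lib.MP_d3cc86_co.RG.KNg
import Pool.Agent.Lib.MP_d3cc86_co.RG.Defs

section

set_option autoImplicit false

open Finset

namespace RG

open SPR (T two_T T_succ le_T T_mono T_zero eight_T)

private lemma n2_half (r : ℕ) : (2 * r + 1 - 1) / 2 = r := by omega

/-- explicit form of `φ_h(m)` for `h = 2 r + 1`, `m = w r + t`. -/
private lemma n2_form (w r t : ℕ) :
    ph w (2 * r + 1) (w * r + t) = (2 * r + 1) * gg (w * (2 * r + 1)) t := by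
  unfold ph
  rw [n2_half, Nat.add_sub_cancel_left]

private lemma n2_gamma (w r t : ℕ) (hw : 1 ≤ w) :
    (2 * (w * r + t) + w + w * (2 * r + 1)) / (2 * w * (2 * r + 1)) =
      t / (w * (2 * r + 1)) + 1 := by
  have hu : 0 < w * (2 * r + 1) := Nat.mul_pos hw (by omega)
  have e1 : 2 * (w * r + t) + w + w * (2 * r + 1) = 2 * (t + w * (2 * r + 1)) := by ring
  have e2 : 2 * w * (2 * r + 1) = 2 * (w * (2 * r + 1)) := by ring
  rw [e1, e2, Nat.mul_div_mul_left _ _ (by norm_num : 0 < 2), Nat.add_div_right _ hu]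

/-- One step, sharp, `h ∣ N`, `N` odd, `α = (2(m+1) + w + w N)/(2 w N)`: twice the increment is
`≤ 2 h α_h ≤ (2 α + 1) N - h`, where `α_h = (2(m+1) + w + w h)/(2 w h)`: since
`2(m+1) + w < (2 α + 1) w N`, `α_h < ((2 α + 1)(N/h) + 1)/2`, an integer. -/
lemma ph_step_sharp (w h N m : ℕ) (hw : 1 ≤ w) (hN : N % 2 = 1) (hh : h ∣ N) :
    2 * ph w h (m + 1) ≤ 2 * ph w h m + (2 * ((2 * (m + 1) + w + w * N) / (2 * w * N)) + 1) * N := by
  obtain ⟨k, rfl⟩ := hh
  have hodd : h % 2 = 1 := by
    rcases Nat.mod_two_eq_zero_or_one h with h0 | h0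
    · rw [Nat.mul_mod, h0, Nat.zero_mul] at hN
      simp at hN
    · exact h0
  obtain ⟨r, rfl⟩ : ∃ r, h = 2 * r + 1 := ⟨h / 2, by omega⟩
  have hk : 1 ≤ k := by
    rcases Nat.eq_zero_or_pos k with h0 | h0
    · rw [h0, Nat.mul_zero] at hN
      simp at hN
    · exact h0
  rcases Nat.lt_or_ge m (w * r) with hm | hm
  · have e1 : ph w (2 * r + 1) m = 2 * r + 1 := ph_small w _ m (by rw [n2_half]; omega)
    have e2 : ph w (2 * r + 1) (m + 1) = 2 * r + 1 := ph_small w _ (m + 1) (by rw [n2_half]; omega)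
    rw [e1, e2]
    exact Nat.le_add_right _ _
  · obtain ⟨t, rfl⟩ : ∃ t, m = w * r + t := ⟨m - w * r, by omega⟩
    have hu : 1 ≤ w * (2 * r + 1) := Nat.mul_pos hw (by omega)
    have e1 : w * r + t + 1 = w * r + (t + 1) := by ring
    set α := (2 * (w * r + t + 1) + w + w * ((2 * r + 1) * k)) / (2 * w * ((2 * r + 1) * k)) with hα
    rw [e1, n2_form, n2_form, gg_succ _ _ hu]
    have hpos : 0 < 2 * w * ((2 * r + 1) * k) := by positivity
    have h1 : 2 * (w * r + t + 1) + w + w * ((2 * r + 1) * k) <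
        (2 * w * ((2 * r + 1) * k)) * (α + 1) := Nat.lt_mul_div_succ _ hpos
    have h2 : (w * (2 * r + 1)) * (t / (w * (2 * r + 1))) ≤ t := Nat.mul_div_le _ _
    have h3 : 2 * (t / (w * (2 * r + 1)) + 1) ≤ (2 * α + 1) * k := by
      by_contra hc
      push Not at hc
      have h4 := Nat.mul_le_mul_left (w * (2 * r + 1)) (Nat.succ_le_of_lt hc)
      have h5 : w * (2 * r + 1) * (2 * (t / (w * (2 * r + 1)) + 1)) =
          2 * ((w * (2 * r + 1)) * (t / (w * (2 * r + 1)))) + 2 * (w * (2 * r + 1)) := by ring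
      rw [h5] at h4
      have h6 : w * (2 * r + 1) * ((2 * α + 1) * k).succ =
          (w * (2 * r + 1)) * ((2 * α + 1) * k) + w * (2 * r + 1) := by
        rw [Nat.succ_eq_add_one]; ring
      rw [h6] at h4
      have h7 : (2 * w * ((2 * r + 1) * k)) * (α + 1) =
          (w * (2 * r + 1)) * ((2 * α + 1) * k) + w * ((2 * r + 1) * k) := by ring
      rw [h7] at h1
      have h8 : 2 * (w * r + t + 1) + w = 2 * t + 2 + w * (2 * r + 1) := by ring
      rw [h8] at h1
      omega
    have h9 := Nat.mul_le_mul_left (2 * r + 1) h3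
    calc 2 * ((2 * r + 1) * (gg (w * (2 * r + 1)) t + (t / (w * (2 * r + 1)) + 1)))
        = 2 * ((2 * r + 1) * gg (w * (2 * r + 1)) t) +
          (2 * r + 1) * (2 * (t / (w * (2 * r + 1)) + 1)) := by ring
      _ ≤ 2 * ((2 * r + 1) * gg (w * (2 * r + 1)) t) + (2 * r + 1) * ((2 * α + 1) * k) :=
          Nat.add_le_add_left h9 _
      _ = 2 * ((2 * r + 1) * gg (w * (2 * r + 1)) t) + (2 * α + 1) * ((2 * r + 1) * k) := by ring

/-- Two steps, sharp: `φ_h(m+2) ≤ φ_h(m) + (2 α + 1) N`, `α = (2(m+2) + w + w N)/(2 w N)`. -/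
lemma ph_step2_sharp (w h N m : ℕ) (hw : 1 ≤ w) (hN : N % 2 = 1) (hh : h ∣ N) :
    ph w h (m + 2) ≤ ph w h m + (2 * ((2 * (m + 2) + w + w * N) / (2 * w * N)) + 1) * N := by
  have h1 := ph_step_sharp w h N m hw hN hh
  have h2 := ph_step_sharp w h N (m + 1) hw hN hh
  have e : 2 * (m + 1 + 1) + w + w * N = 2 * (m + 2) + w + w * N := by ring
  rw [e] at h2
  have h3 : (2 * (m + 1) + w + w * N) / (2 * w * N) ≤ (2 * (m + 2) + w + w * N) / (2 * w * N) :=
    Nat.div_le_div_right (by omega)
  have h4 : (2 * ((2 * (m + 1) + w + w * N) / (2 * w * N)) + 1) * N ≤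
      (2 * ((2 * (m + 2) + w + w * N) / (2 * w * N)) + 1) * N :=
    Nat.mul_le_mul_right _ (by omega)
  have h5 : m + 1 + 1 = m + 2 := rfl
  rw [h5] at h2
  omega

/-- Exact formula: with `γ = (2 m + w + w h)/(2 w h)` (natural division),
`8 φ_h(m) = 8 h + 4 γ h (2 m + w - γ w h)`.  (`2 m + w < w h`: `γ = 0`; otherwise
`m - w (h-1)/2 = Q w h + r`, `γ = Q + 1`.) -/
lemma ph_eq (w h m : ℕ) (hw : 1 ≤ w) (hodd : h % 2 = 1) :
    8 * (ph w h m : ℤ) = 8 * h + 4 * ((2 * m + w + w * h) / (2 * w * h) : ℕ) * h *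
      (2 * m + w - ((2 * m + w + w * h) / (2 * w * h) : ℕ) * w * h) := by
  obtain ⟨r, rfl⟩ : ∃ r, h = 2 * r + 1 := ⟨h / 2, by omega⟩
  rcases Nat.lt_or_ge m (w * r) with hm | hm
  · have e1 : ph w (2 * r + 1) m = 2 * r + 1 := ph_small w _ m (by rw [n2_half]; omega)
    have e2 : (2 * m + w + w * (2 * r + 1)) / (2 * w * (2 * r + 1)) = 0 := by
      apply Nat.div_eq_of_lt
      have e3 : 2 * w * (2 * r + 1) = 2 * (w * r) + w + w * (2 * r + 1) := by ring
      rw [e3]
      omega
    rw [e1, e2]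
    push_cast
    ring
  · obtain ⟨t, rfl⟩ : ∃ t, m = w * r + t := ⟨m - w * r, by omega⟩
    rw [n2_gamma w r t hw, n2_form]
    unfold gg
    set Q := t / (w * (2 * r + 1)) with hQ
    have hT : (2 : ℤ) * (T Q : ℤ) = (Q : ℤ) * (Q + 1) := by exact_mod_cast two_T Q
    have ht : ((w : ℤ) * (2 * r + 1)) * Q + (t % (w * (2 * r + 1)) : ℕ) = t := by
      exact_mod_cast Nat.div_add_mod t (w * (2 * r + 1))
    push_cast at ht ⊢
    linear_combination (4 * (2 * (r : ℤ) + 1) * (w * (2 * r + 1))) * hT +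
      (8 * ((Q : ℤ) + 1) * (2 * r + 1)) * ht

/-- `h ∣ N`, `N` odd, `α = (2 m + w + w N)/(2 w N)`, `y = 2 m + w - 2 α w N` (so `- w N ≤ y < w N`):
there is `β ≥ 0` with `2 β h ≤ N` and `w (8 φ_h(m)) = 8 w h + (M^2 - y^2) + 4 β h w (|y| - β w h)`.

Proof.  `γ = (M + w h)/(2 w h)`, `α' = α N / h`.  If `y ≥ 0` take `β = γ - α' = (y + w h)/(2 w h)`
(floor); `y < w N` and `N/h` odd give `β ≤ (N/h - 1)/2`.  If `y < 0` take `β = α' - γ =
⌈(|y| - w h)/(2 w h)⌉ ≤ (N/h - 1)/2`.  The identity is polynomial. -/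
lemma ph_up (w h N m : ℕ) (hw : 1 ≤ w) (hN : N % 2 = 1) (hh : h ∣ N) (y : ℤ)
    (hy : y = 2 * m + w - 2 * ((2 * m + w + w * N) / (2 * w * N) : ℕ) * w * N) :
    ∃ β : ℤ, 0 ≤ β ∧ 2 * β * h ≤ N ∧
      w * (8 * (ph w h m : ℤ)) = 8 * w * h + ((2 * (m : ℤ) + w) ^ 2 - y ^ 2)
        + 4 * β * h * w * (|y| - β * w * h) := by
  obtain ⟨k, rfl⟩ := hh
  have hodd : h % 2 = 1 := by
    rcases Nat.mod_two_eq_zero_or_one h with h0 | h0
    · rw [Nat.mul_mod, h0, Nat.zero_mul] at hN
      simp at hN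
    · exact h0
  have hh1 : 1 ≤ h := by omega
  have hk : 1 ≤ k := by
    rcases Nat.eq_zero_or_pos k with h0 | h0
    · rw [h0, Nat.mul_zero] at hN
      simp at hN
    · exact h0
  have h0 := ph_eq w h m hw hodd
  set γ := (2 * m + w + w * h) / (2 * w * h) with hγ
  set α := (2 * m + w + w * (h * k)) / (2 * w * (h * k)) with hα
  have g1 : (2 * w * h) * γ ≤ 2 * m + w + w * h := Nat.mul_div_le _ _
  have g2 : 2 * m + w + w * h < (2 * w * h) * (γ + 1) := Nat.lt_mul_div_succ _ (by positivity)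
  have a1 : (2 * w * (h * k)) * α ≤ 2 * m + w + w * (h * k) := Nat.mul_div_le _ _
  have a2 : 2 * m + w + w * (h * k) < (2 * w * (h * k)) * (α + 1) :=
    Nat.lt_mul_div_succ _ (by positivity)
  have hu : (0 : ℤ) < (w : ℤ) * h := by
    have : 0 < w * h := Nat.mul_pos hw hh1
    exact_mod_cast this
  zify at g1 g2 a1 a2
  push_cast at hy
  -- `B = γ - α k`
  obtain ⟨B, hB⟩ : ∃ B : ℤ, B = γ - α * k := ⟨_, rfl⟩
  have b1 : 2 * ((w : ℤ) * h) * B ≤ y + w * h := by
    rw [hB, hy]
    linarith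
  have b2 : y + w * h < 2 * ((w : ℤ) * h) * (B + 1) := by
    rw [hB, hy]
    linarith
  have b3 : y < (w : ℤ) * h * k := by
    rw [hy]
    linarith
  have b4 : -((w : ℤ) * h * k) ≤ y := by
    rw [hy]
    linarith
  have hγB : (γ : ℤ) = B + α * k := by rw [hB]; ring
  rw [hγB] at h0
  rcases le_or_gt 0 y with hy0 | hy0
  · refine ⟨B, ?_, ?_, ?_⟩
    · by_contra hc
      push Not at hc
      have : 2 * ((w : ℤ) * h) * (B + 1) ≤ 0 := by nlinarith
      linarith
    · have h1 : 2 * B ≤ k := by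
        by_contra hc
        push Not at hc
        have h2 : (w : ℤ) * h * (k + 1) ≤ (w : ℤ) * h * (2 * B) :=
          mul_le_mul_of_nonneg_left (by linarith) hu.le
        linarith
      have h3 : (0 : ℤ) ≤ h := Int.natCast_nonneg h
      push_cast
      nlinarith
    · rw [abs_of_nonneg hy0, hy]
      linear_combination (w : ℤ) * h0
  · refine ⟨-B, ?_, ?_, ?_⟩
    · by_contra hc
      push Not at hc
      have : (w : ℤ) * h * 1 ≤ (w : ℤ) * h * B := mul_le_mul_of_nonneg_left (by linarith) hu.le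
      linarith
    · have h1 : 2 * (-B) ≤ k := by
        by_contra hc
        push Not at hc
        have h2 : (w : ℤ) * h * (k + 1) ≤ (w : ℤ) * h * (2 * (-B)) :=
          mul_le_mul_of_nonneg_left (by linarith) hu.le
        linarith
      have h3 : (0 : ℤ) ≤ h := Int.natCast_nonneg h
      push_cast
      nlinarith
    · rw [abs_of_neg hy0, hy]
      linear_combination (w : ℤ) * h0

end RG
end

section

section

set_option autoImplicit false

open Finset

namespace RG

open SPR (T two_T T_succ le_T T_mono T_zero eight_T)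

/-- Transport along an isomorphism. -/
lemma R_equiv {G G' : Type*} [AddCommGroup G] [Fintype G] [AddCommGroup G'] [Fintype G']
    {ι : Type*} [Fintype ι] (e : G ≃+ G') (c : ι → G) (a : ι → ℕ) (v : ℕ) :
    (R (fun k => e (c k)) a v).card = (R c a v).card := by
  classical
  have hp : ∀ j : ι → ℕ, pos (fun k => e (c k)) j = e (pos c j) := by
    intro j
    unfold pos
    rw [map_sum]
    exact Finset.sum_congr rfl fun k _ => by rw [map_nsmul]
  have h : R (fun k => e (c k)) a v = (R c a v).map e.toEquiv.toEmbedding := by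
    ext t
    rw [mem_R, Finset.mem_map]
    constructor
    · rintro ⟨j, h1, h2, h3⟩
      refine ⟨pos c j, mem_R.2 ⟨j, h1, rfl, h3⟩, ?_⟩
      rw [← h2, hp]
      rfl
    · rintro ⟨x, hx, rfl⟩
      obtain ⟨j, h1, h2, h3⟩ := mem_R.1 hx
      refine ⟨j, h1, ?_, h3⟩
      rw [hp, h2]
      rfl
  rw [h, Finset.card_map]

private lemma sum_sub' {M : Type*} [AddCommMonoid M] {ι : Type*} [Fintype ι] (p : ι → Prop)
    [Fintype {k // p k}] (f : ι → M) (h : ∀ k, ¬ p k → f k = 0) :
    ∑ k : {k // p k}, f k = ∑ k, f k := by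
  classical
  rw [← Finset.sum_filter_add_sum_filter_not Finset.univ p f]
  rw [Finset.sum_eq_zero (s := Finset.univ.filter fun k => ¬ p k)
    (fun k hk => h k (Finset.mem_filter.1 hk).2), add_zero]
  rw [← Finset.sum_subtype (Finset.univ.filter p) (by simp) f]

/-- Restriction to a subgroup: if all entries outside `K` are `0`, the sets `R` live in `K`
(generated by the entries with `c k ∈ K`). -/
lemma R_subgroup {G : Type*} [AddCommGroup G] [Fintype G] {ι : Type*} [Fintype ι]
    (K : AddSubgroup G) [Fintype K] (c : ι → G) (a : ι → ℕ) (h : ∀ k, c k ∉ K → a k = 0)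
    [Fintype {k // c k ∈ K}] (v : ℕ) :
    (R (fun k : {k // c k ∈ K} => (⟨c k, k.2⟩ : K)) (fun k => a k) v).card = (R c a v).card := by
  classical
  have hp : ∀ j : ι → ℕ, (∀ k, c k ∉ K → j k = 0) →
      ((pos (fun k : {k // c k ∈ K} => (⟨c k, k.2⟩ : K)) (fun k => j k) : K) : G) = pos c j := by
    intro j hj
    unfold pos
    rw [AddSubgroup.val_finsetSum]
    rw [← sum_sub' (fun k => c k ∈ K) (fun k => j k • c k)
      (fun k hk => by rw [hj k hk, zero_smul])]
    exact Finset.sum_congr rfl fun k _ => by simp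
  have hg : ∀ j : ι → ℕ, (∀ k, c k ∉ K → j k = 0) →
      gain (fun k : {k // c k ∈ K} => a k) (fun k => j k) = gain a j := by
    intro j hj
    unfold gain
    exact sum_sub' (fun k => c k ∈ K) (fun k => j k * (a k - j k))
      (fun k hk => by rw [hj k hk, zero_mul])
  have hmap : (R (fun k : {k // c k ∈ K} => (⟨c k, k.2⟩ : K)) (fun k => a k) v).map
      (Function.Embedding.subtype _) = R c a v := by
    ext t
    rw [mem_R, Finset.mem_map]
    constructor
    · rintro ⟨x, hx, rfl⟩
      obtain ⟨j, h1, h2, h3⟩ := mem_R.1 hx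
      set j' : ι → ℕ := fun k => if hk : c k ∈ K then j ⟨k, hk⟩ else 0 with hj'
      have hj0 : ∀ k, c k ∉ K → j' k = 0 := by
        intro k hk
        rw [hj']
        simp only [hk, dif_neg, not_false_eq_true]
      have hjr : (fun k : {k // c k ∈ K} => j' k) = j := by
        funext k
        rw [hj']
        simp only [k.2, dif_pos]
      refine ⟨j', ?_, ?_, ?_⟩
      · intro k
        by_cases hk : c k ∈ K
        · rw [hj']
          simp only [hk, dif_pos]
          exact h1 ⟨k, hk⟩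
        · rw [hj0 k hk]
          exact Nat.zero_le _
      · rw [← hp j' hj0, hjr, h2]
        rfl
      · rw [← hg j' hj0, hjr]
        exact h3
    · rintro ⟨j, h1, h2, h3⟩
      have hj0 : ∀ k, c k ∉ K → j k = 0 := fun k hk => Nat.le_zero.1 ((h k hk) ▸ h1 k)
      refine ⟨pos (fun k : {k // c k ∈ K} => (⟨c k, k.2⟩ : K)) (fun k => j k), ?_, ?_⟩
      · refine mem_R.2 ⟨fun k => j k, fun k => h1 k, rfl, ?_⟩
        rw [hg j hj0]
        exact h3
      · rw [← h2]
        exact hp j hj0
  rw [← hmap, Finset.card_map]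

end RG
end

section

set_option autoImplicit false

open Finset Pointwise

namespace RG

open SPR (T two_T T_succ le_T T_mono T_zero eight_T)

section
open Classical in
/-- the entries in `K` only -/
noncomputable def ain {G : Type*} [AddCommGroup G] {ι : Type*} (K : AddSubgroup G) (c : ι → G)
    (a : ι → ℕ) (k : ι) : ℕ := if c k ∈ K then a k else 0
end

section v4a_aux

variable {Q : Type*} [AddCommGroup Q] [Fintype Q]

private lemma v4a_cd [DecidableEq Q] (p : ℕ) (hp : ∀ x : Q, x ≠ 0 → p ≤ addOrderOf x)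
    (X Y : Finset Q) (hX : X.Nonempty) (hY : Y.Nonempty) :
    min p (X.card + Y.card - 1) ≤ (X + Y).card := by
  have h := cauchy_davenport_minOrder_add hX hY
  have hm : (p : ℕ∞) ≤ AddMonoid.minOrder Q := by
    rw [AddMonoid.le_minOrder]
    intro x hx _
    exact_mod_cast hp x hx
  rw [min_le_iff] at h
  rcases h with h | h
  · exact (min_le_left _ _).trans (by exact_mod_cast hm.trans h)
  · exact (min_le_right _ _).trans (by exact_mod_cast h)

private lemma v4a_cdm [DecidableEq Q] (p : ℕ) (hp : ∀ x : Q, x ≠ 0 → p ≤ addOrderOf x)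
    {κ : Type*} [DecidableEq κ] (s : Finset κ) (X : κ → Finset Q) :
    (∀ i ∈ s, (X i).Nonempty) → (∑ i ∈ s, X i).Nonempty ∧
      min p (1 + ∑ i ∈ s, ((X i).card - 1)) ≤ (∑ i ∈ s, X i).card := by
  induction s using Finset.induction_on with
  | empty =>
    intro _
    rw [Finset.sum_empty, Finset.sum_empty]
    refine ⟨Finset.zero_nonempty, ?_⟩
    rw [add_zero, Finset.card_zero]
    exact min_le_right _ _
  | insert i s hi ih =>
    intro h
    obtain ⟨h1, h2⟩ := ih fun j hj => h j (Finset.mem_insert_of_mem hj)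
    have hXi := h i (Finset.mem_insert_self i s)
    rw [Finset.sum_insert hi, Finset.sum_insert hi]
    refine ⟨hXi.add h1, ?_⟩
    have h3 := v4a_cd p hp (X i) (∑ i ∈ s, X i) hXi h1
    refine le_trans ?_ h3
    have h4 : 0 < (X i).card := Finset.card_pos.2 hXi
    omega

private lemma v4a_multi [DecidableEq Q] (p : ℕ) (hp : ∀ x : Q, x ≠ 0 → p ≤ addOrderOf x)
    (c : Q) (hc : c ≠ 0) (f : ℕ) :
    min p (f + 1) ≤ ((Finset.range (f + 1)).image (fun j : ℕ => j • c)).card := by
  have h4 : p ≤ addOrderOf c := hp c hc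
  have h5 : ((Finset.range (min p (f + 1))).image (fun j : ℕ => j • c)).card = min p (f + 1) := by
    rw [Finset.card_image_of_injOn, Finset.card_range]
    intro i hi j hj hij
    rw [Finset.coe_range, Set.mem_Iio] at hi hj
    have hi' : i < addOrderOf c := lt_of_lt_of_le (lt_of_lt_of_le hi (min_le_left _ _)) h4
    have hj' : j < addOrderOf c := lt_of_lt_of_le (lt_of_lt_of_le hj (min_le_left _ _)) h4
    exact nsmul_injOn_Iio_addOrderOf hi' hj' hij
  rw [← h5]
  apply Finset.card_le_card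
  apply Finset.image_subset_image
  intro j hj
  rw [Finset.mem_range] at hj ⊢
  exact lt_of_lt_of_le hj (min_le_right _ _)

private lemma v4a_R_ge (p : ℕ) (hp : ∀ x : Q, x ≠ 0 → p ≤ addOrderOf x) {ι : Type*} [Fintype ι]
    (c : ι → Q) (hc : ∀ k, c k ≠ 0) (f : ι → ℕ) :
    min p (1 + ∑ k, f k) ≤ (R c f 0).card := by
  classical
  set X : ι → Finset Q := fun k => (Finset.range (f k + 1)).image (fun j : ℕ => j • c k) with hX
  have h1 : ∀ k, min p (f k + 1) ≤ (X k).card := fun k => v4a_multi p hp (c k) (hc k) (f k)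
  have h2 := (v4a_cdm p hp Finset.univ X fun k _ => ⟨0, by
    rw [hX]
    simp only [Finset.mem_image, Finset.mem_range]
    exact ⟨0, Nat.succ_pos _, zero_smul _ _⟩⟩).2
  have h3 : ∑ k, X k ⊆ R c f 0 := by
    intro t ht
    have ht' : t ∈ ((∑ k, X k : Finset Q) : Set Q) := ht
    rw [Finset.coe_sum, Set.mem_finsetSum] at ht'
    obtain ⟨g, hg, rfl⟩ := ht'
    have hg' : ∀ k, ∃ j : ℕ, j ≤ f k ∧ j • c k = g k := by
      intro k
      have := @hg k (Finset.mem_univ k)
      rw [Finset.mem_coe] at this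
      simp only [hX, Finset.mem_image, Finset.mem_range] at this
      obtain ⟨j, hj, hjk⟩ := this
      exact ⟨j, by omega, hjk⟩
    choose j hj1 hj2 using hg'
    rw [mem_R]
    refine ⟨j, hj1, ?_, Nat.zero_le _⟩
    unfold pos
    exact Finset.sum_congr rfl fun k _ => hj2 k
  refine le_trans ?_ (h2.trans (Finset.card_le_card h3))
  by_cases hbig : ∃ k, p ≤ (X k).card - 1
  · obtain ⟨k, hk⟩ := hbig
    have h4 : (X k).card - 1 ≤ ∑ i, ((X i).card - 1) :=
      Finset.single_le_sum (f := fun i => (X i).card - 1) (fun _ _ => Nat.zero_le _)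
        (Finset.mem_univ k)
    omega
  · push Not at hbig
    by_cases hb2 : ∃ k, p ≤ (X k).card
    · obtain ⟨k, hk⟩ := hb2
      have h4 : (X k).card - 1 ≤ ∑ i, ((X i).card - 1) :=
        Finset.single_le_sum (f := fun i => (X i).card - 1) (fun _ _ => Nat.zero_le _)
          (Finset.mem_univ k)
      omega
    · push Not at hb2
      have h4 : ∑ k, f k ≤ ∑ i, ((X i).card - 1) := by
        refine Finset.sum_le_sum fun k _ => ?_
        have := h1 k
        have := hb2 k
        omega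
      omega

end v4a_aux

private lemma v4a_order {n : ℕ} [NeZero n] (K : AddSubgroup (ZMod n)) (x : ZMod n ⧸ K) (hx : x ≠ 0) :
    n.minFac ≤ addOrderOf x := by
  have h1 : addOrderOf x ∣ n := by
    have h0 : n • x = 0 := by
      induction x using QuotientAddGroup.induction_on with
      | H z =>
        rw [← QuotientAddGroup.mk_nsmul, nsmul_eq_mul, ZMod.natCast_self, zero_mul]
        rfl
    exact addOrderOf_dvd_of_nsmul_eq_zero h0
  have h2 : addOrderOf x ≠ 1 := by
    rw [Ne, AddMonoid.addOrderOf_eq_one_iff]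
    exact hx
  have h3 : 0 < addOrderOf x := Nat.pos_of_dvd_of_pos h1 (NeZero.pos n)
  exact Nat.minFac_le_of_dvd (by omega) h1

variable {n w : ℕ} [NeZero n] {ι : Type} [Fintype ι] [DecidableEq ι]

lemma sum_ain (K : AddSubgroup (ZMod n)) (c : ι → ZMod n) (a : ι → ℕ) :
    ∑ k, ain K c a k = ins K c a := by
  classical
  unfold ain ins
  rw [Finset.sum_filter]

open Classical in
private noncomputable def aout (K : AddSubgroup (ZMod n)) (c : ι → ZMod n)
    (a : ι → ℕ) (k : ι) : ℕ := if c k ∈ K then 0 else a k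

private lemma v4a_img (K : AddSubgroup (ZMod n)) (c : ι → ZMod n) (a : ι → ℕ)
    (hu : 1 + outs K c a ≤ n.minFac) :
    ∃ S : Finset (ZMod n), S ⊆ R c (aout K c a) 0 ∧ 1 + outs K c a ≤ S.card ∧
      ∀ s ∈ S, ∀ t ∈ S, s - t ∈ K → s = t := by
  classical
  let q : ZMod n → ZMod n ⧸ K := fun z => (QuotientAddGroup.mk z : ZMod n ⧸ K)
  let κ := {k : ι // c k ∉ K}
  let c' : κ → ZMod n ⧸ K := fun k => q (c k.1)
  let a' : κ → ℕ := fun k => a k.1
  haveI : Finite (ZMod n ⧸ K) := inferInstance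
  haveI : Fintype (ZMod n ⧸ K) := Fintype.ofFinite _
  have h1 := v4a_R_ge n.minFac (v4a_order K) c' (fun k => by
    intro h0
    have : (QuotientAddGroup.mk (c k.1) : ZMod n ⧸ K) = 0 := h0
    rw [QuotientAddGroup.eq_zero_iff] at this
    exact k.2 this) a'
  have h2 : ∑ k, a' k = outs K c a := by
    unfold outs
    exact (Finset.sum_subtype (Finset.univ.filter fun k => c k ∉ K) (by simp) a).symm
  rw [h2, min_eq_right hu] at h1
  have h3 : R c' a' 0 ⊆ (R c (aout K c a) 0).image q := by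
    intro t ht
    rw [mem_R] at ht
    obtain ⟨j, hj, hpos, -⟩ := ht
    rw [Finset.mem_image]
    refine ⟨pos c (fun k => if h : c k ∈ K then 0 else j ⟨k, h⟩), ?_, ?_⟩
    · rw [mem_R]
      refine ⟨_, fun k => ?_, rfl, Nat.zero_le _⟩
      unfold aout
      by_cases h : c k ∈ K
      · simp [h]
      · simp only [h, dif_neg, not_false_iff, if_neg]
        exact hj ⟨k, h⟩
    · rw [← hpos]
      show (QuotientAddGroup.mk' K) (pos c _) = _
      unfold pos
      rw [map_sum]
      have e1 : ∀ k, (QuotientAddGroup.mk' K) ((if h : c k ∈ K then 0 else j ⟨k, h⟩) • c k) =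
          if h : c k ∈ K then 0 else j ⟨k, h⟩ • c' ⟨k, h⟩ := by
        intro k
        by_cases h : c k ∈ K
        · simp [h]
        · simp only [h, dif_neg, not_false_iff]
          rw [map_nsmul]
          rfl
      rw [Finset.sum_congr rfl fun k _ => e1 k]
      have e2 : ∀ k ∈ (Finset.univ : Finset ι), k ∉ (Finset.univ.filter fun k => c k ∉ K) →
          (if h : c k ∈ K then (0 : ZMod n ⧸ K) else j ⟨k, h⟩ • c' ⟨k, h⟩) = 0 := by
        intro k _ hk
        have : c k ∈ K := by
          by_contra h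
          exact hk (by simp [h])
        simp [this]
      rw [← Finset.sum_subset (Finset.filter_subset (fun k => c k ∉ K) Finset.univ) e2]
      rw [Finset.sum_subtype (Finset.univ.filter fun k => c k ∉ K) (p := fun k => c k ∉ K) (by simp)]
      refine Finset.sum_congr rfl fun k _ => ?_
      rw [dif_neg k.2]
  have h4 : 1 + outs K c a ≤ ((R c (aout K c a) 0).image q).card := h1.trans (Finset.card_le_card h3)
  obtain ⟨S, hS, hS2, hS3⟩ : ∃ S ⊆ R c (aout K c a) 0,
      Set.InjOn q S ∧ S.image q = (R c (aout K c a) 0).image q := by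
    obtain ⟨S, hS1, hS2⟩ := Finset.exists_subset_injOn_image_eq_of_surjOn
      (s := R c (aout K c a) 0) (t := (R c (aout K c a) 0).image q) (f := q) (by
        intro y hy
        have hy' := Finset.mem_coe.1 hy
        rw [Finset.mem_image] at hy'
        obtain ⟨x, hx, rfl⟩ := hy'
        exact ⟨x, hx, rfl⟩)
    exact ⟨S, hS1, hS2.1, hS2.2⟩
  refine ⟨S, hS, ?_, ?_⟩
  · rw [← hS3, Finset.card_image_of_injOn hS2] at h4
    exact h4
  · intro s hs t ht hst
    apply hS2 hs ht
    show (QuotientAddGroup.mk s : ZMod n ⧸ K) = QuotientAddGroup.mk t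
    rw [QuotientAddGroup.eq]
    have := K.neg_mem hst
    rwa [neg_sub, sub_eq_neg_add] at this

/-- Product bound.  `u = outs K c a`, `1 + u ≤ minFac n`: the sums of the `u` elements outside `K` lie in
at least `1 + u` cosets of `K` (in `ℤ/n ⧸ K`, of order `N'` with `minFac N' ≥ minFac n`, the sum of `u`
sets `{0, c̄}`, `c̄ ≠ 0`, has at least `min (minOrder) (1 + u)` elements,
`cauchy_davenport_minOrder_add`, minimal order of a nonzero element `≥ minFac n`; `u = 0` is trivial),
and for each such sum `y`, `R c (ain) v + y ⊆ R c a v` (`R_add_sub`, `a = ain + aout`). -/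
theorem R_prod (K : AddSubgroup (ZMod n)) (c : ι → ZMod n) (a : ι → ℕ) (v : ℕ)
    (hu : 1 + outs K c a ≤ n.minFac) :
    (1 + outs K c a) * (R c (ain K c a) v).card ≤ (R c a v).card := by
  classical
  obtain ⟨S, hS, hS1, hS2⟩ := v4a_img K c a hu
  have ha : a = ain K c a + aout K c a := by
    funext k
    unfold ain aout
    rw [Pi.add_apply]
    by_cases h : c k ∈ K
    · simp [h]
    · simp [h]
  have hin : ∀ t ∈ R c (ain K c a) v, t ∈ K := by
    intro t ht
    rw [mem_R] at ht
    obtain ⟨j, hj, rfl, -⟩ := ht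
    unfold pos
    refine K.sum_mem fun k _ => ?_
    by_cases h : c k ∈ K
    · exact K.nsmul_mem h _
    · have h0 : j k = 0 := by
        have := hj k
        unfold ain at this
        rw [if_neg h] at this
        omega
      rw [h0, zero_smul]
      exact K.zero_mem
  have hsub : (R c (ain K c a) v ×ˢ S).image (fun x => x.1 + x.2) ⊆ R c a v := by
    intro t ht
    rw [Finset.mem_image] at ht
    obtain ⟨⟨x, y⟩, hxy, rfl⟩ := ht
    rw [Finset.mem_product] at hxy
    have h1 := R_add_sub c (ain K c a) (aout K c a) v (Finset.add_mem_add hxy.1 (hS hxy.2))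
    rw [← ha] at h1
    exact h1
  have hinj : Set.InjOn (fun x : ZMod n × ZMod n => x.1 + x.2)
      ((R c (ain K c a) v ×ˢ S : Finset (ZMod n × ZMod n)) : Set (ZMod n × ZMod n)) := by
    rintro ⟨x, y⟩ hxy ⟨x', y'⟩ hxy' he
    rw [Finset.mem_coe, Finset.mem_product] at hxy hxy'
    simp only at hxy hxy' he
    have h1 : y - y' = x' - x := by
      rw [sub_eq_sub_iff_add_eq_add, add_comm y x, he]
    have h2 : y - y' ∈ K := by
      rw [h1]
      exact K.sub_mem (hin _ hxy'.1) (hin _ hxy.1)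
    have h3 := hS2 y hxy.2 y' hxy'.2 h2
    subst h3
    have h4 : x = x' := add_right_cancel he
    rw [h4]
  calc (1 + outs K c a) * (R c (ain K c a) v).card
      ≤ S.card * (R c (ain K c a) v).card := Nat.mul_le_mul_right _ hS1
    _ = (R c (ain K c a) v ×ˢ S).card := by rw [Finset.card_product, mul_comm]
    _ = ((R c (ain K c a) v ×ˢ S).image (fun x => x.1 + x.2)).card :=
        (Finset.card_image_of_injOn hinj).symm
    _ ≤ (R c a v).card := Finset.card_le_card hsub

private lemma v4a_Gam (K : AddSubgroup (ZMod n)) (c : ι → ZMod n) (a : ι → ℕ) :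
    Gam (ain K c a) ≤ Gam a := by
  unfold Gam
  refine Finset.sum_le_sum fun k _ => ?_
  unfold ain
  by_cases h : c k ∈ K
  · simp [h]
  · simp [h]

/-- `Gam (ain) ≤ Gam a`; sum `R_prod` over the levels. -/
lemma Linf_prod (K : AddSubgroup (ZMod n)) (c : ι → ZMod n) (a : ι → ℕ) (tau : ℕ)
    (hu : 1 + outs K c a ≤ n.minFac) :
    (1 + outs K c a) * Linf tau c (ain K c a) ≤ Linf tau c a := by
  unfold Linf EE
  rw [mul_add, Finset.mul_sum]
  apply Nat.add_le_add
  · have h := R_prod K c a 0 hu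
    calc (1 + outs K c a) * ((1 + tau) * (R c (ain K c a) 0).card)
        = (1 + tau) * ((1 + outs K c a) * (R c (ain K c a) 0).card) := by ring
      _ ≤ (1 + tau) * (R c a 0).card := Nat.mul_le_mul_left _ h
  · calc ∑ v ∈ Finset.Icc 1 (Gam (ain K c a)), (1 + outs K c a) * (R c (ain K c a) v).card
        ≤ ∑ v ∈ Finset.Icc 1 (Gam (ain K c a)), (R c a v).card :=
          Finset.sum_le_sum fun v _ => R_prod K c a v hu
      _ ≤ ∑ v ∈ Finset.Icc 1 (Gam a), (R c a v).card :=
          Finset.sum_le_sum_of_subset (Finset.Icc_subset_Icc_right (v4a_Gam K c a))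

end RG
end

section

set_option autoImplicit false

open Finset

namespace RG

open SPR (T two_T T_succ le_T T_mono T_zero eight_T)

/-- A sum over the subtype `{k // p k}` of a function vanishing off `p`. -/
private lemma sum_sub {ι : Type*} [Fintype ι] (p : ι → Prop) [Fintype {k // p k}] (f : ι → ℕ)
    (h : ∀ k, ¬ p k → f k = 0) : ∑ k : {k // p k}, f k = ∑ k, f k := by
  classical
  rw [← Finset.sum_filter_add_sum_filter_not Finset.univ p f]
  rw [Finset.sum_eq_zero (s := Finset.univ.filter fun k => ¬ p k)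
    (fun k hk => h k (Finset.mem_filter.1 hk).2), add_zero]
  rw [← Finset.sum_subtype (Finset.univ.filter p) (by simp) f]

/-- Restriction of a configuration in `ℤ/n` to a subgroup `K`, which is identified with
`ℤ/|K|`: `ι' = {k // c k ∈ K}`, `e = Subtype.val`, `c' k = φ (c k)` with an isomorphism
`φ : K ≃+ ℤ/|K|` (`K` is cyclic, e.g. `zmodAddCyclicAddEquiv`).  `Full w`, `Bdd w`, all `|R|`, the sums
and `Gam`, `EE`, `Linf` are preserved. -/
theorem sub_config {n w : ℕ} [NeZero n] (K : AddSubgroup (ZMod n)) [NeZero (Nat.card K)]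
    {ι : Type} [Fintype ι] [DecidableEq ι] (c : ι → ZMod n) :
    ∃ (ι' : Type) (_ : Fintype ι') (_ : DecidableEq ι') (c' : ι' → ZMod (Nat.card K)) (e : ι' → ι),
      (Full w c → Full w c') ∧
      ∀ b : ι → ℕ, (∀ k, c k ∉ K → b k = 0) →
        ∑ k, b (e k) = ∑ k, b k ∧
        (∀ tau, Linf tau c' (fun k => b (e k)) = Linf tau c b) ∧
        (R c' (fun k => b (e k)) 0).card = (R c b 0).card ∧
        (Bdd w c b → Bdd w c' (fun k => b (e k))) := by
  classical
  haveI : Fintype K := Fintype.ofFinite K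
  let φ : K ≃+ ZMod (Nat.card K) := (zmodAddCyclicAddEquiv (G := K) inferInstance).symm
  -- the entries at zero
  have hz : ∀ k : {k // c k ∈ K}, φ ⟨c k, k.2⟩ = 0 → c k = 0 := by
    intro k hk
    have h1 : (⟨c k, k.2⟩ : K) = 0 := by
      apply φ.injective
      rw [hk, map_zero]
    exact congrArg Subtype.val h1
  -- the classes
  have hcl : ∀ x : ZMod (Nat.card K), (cls (fun k : {k // c k ∈ K} => φ ⟨c k, k.2⟩) x).map
      (Function.Embedding.subtype _) = cls c ((φ.symm x : K) : ZMod n) := by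
    intro x
    ext k
    simp only [cls, Finset.mem_map, Finset.mem_filter, Finset.mem_univ, true_and,
      Function.Embedding.subtype_apply, Subtype.exists, exists_and_right, exists_eq_right]
    constructor
    · rintro ⟨hk, h | h⟩
      · left
        rw [← h, AddEquiv.symm_apply_apply]
      · right
        have h2 : (⟨c k, hk⟩ : K) = - φ.symm x := by
          apply φ.injective
          rw [h, map_neg, AddEquiv.apply_symm_apply]
        have h3 := congrArg Subtype.val h2
        simpa using h3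
    · rintro (h | h)
      · have hk : c k ∈ K := by rw [h]; exact (φ.symm x).2
        refine ⟨hk, Or.inl ?_⟩
        have h2 : (⟨c k, hk⟩ : K) = φ.symm x := Subtype.ext h
        rw [h2, AddEquiv.apply_symm_apply]
      · have hk : c k ∈ K := by rw [h]; exact K.neg_mem (φ.symm x).2
        refine ⟨hk, Or.inr ?_⟩
        have h2 : (⟨c k, hk⟩ : K) = - φ.symm x := Subtype.ext (by simpa using h)
        rw [h2, map_neg, AddEquiv.apply_symm_apply]
  have hR : ∀ (b : ι → ℕ), (∀ k, c k ∉ K → b k = 0) → ∀ v,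
      (R (fun k : {k // c k ∈ K} => φ ⟨c k, k.2⟩) (fun k => b k) v).card = (R c b v).card := by
    intro b hb v
    rw [← R_subgroup K c b hb v]
    exact R_equiv φ (fun k : {k // c k ∈ K} => (⟨c k, k.2⟩ : K)) (fun k => b k) v
  refine ⟨{k // c k ∈ K}, inferInstance, inferInstance, fun k => φ ⟨c k, k.2⟩, Subtype.val, ?_, ?_⟩
  · rintro ⟨h1, h2⟩
    refine ⟨fun k hk => h1 _ (hz k hk), fun x hx => ?_⟩
    have h3 : ((φ.symm x : K) : ZMod n) ≠ 0 := by
      intro h
      apply hx
      have h4 : φ.symm x = 0 := Subtype.ext h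
      rw [← φ.apply_symm_apply x, h4, map_zero]
    rw [← h2 _ h3, ← hcl x, Finset.card_map]
  · intro b hb
    have hG : Gam (fun k : {k // c k ∈ K} => b k) = Gam b := by
      unfold Gam
      exact sum_sub (fun k => c k ∈ K) (fun k => b k ^ 2 / 4) (fun k hk => by simp [hb k hk])
    refine ⟨sum_sub (fun k => c k ∈ K) b hb, ?_, hR b hb 0, ?_⟩
    · intro tau
      unfold Linf EE
      rw [hR b hb 0, hG]
      congr 1
      exact Finset.sum_congr rfl fun v _ => hR b hb v
    · rintro ⟨h1, h2⟩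
      refine ⟨fun k hk => h1 _ (hz k hk), fun x => ?_⟩
      refine le_trans (le_of_eq ?_) (h2 ((φ.symm x : K) : ZMod n))
      rw [← hcl x, Finset.sum_map]
      rfl

end RG
end
end

section

section

set_option autoImplicit false

open Finset Pointwise

namespace RG

open SPR (T two_T T_succ le_T T_mono T_zero eight_T)

/-- If more than `w (r - 1)` elements (with multiplicity) are present in a `w`-bounded sequence, there are
`r` entries with `a k ≥ 1` in pairwise distinct classes (take a maximal such set `J`; all elements lie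
in the classes of `J`, each has total multiplicity `≤ w`). -/
lemma exists_distinct {G : Type*} [AddCommGroup G] {ι : Type*} [Fintype ι] [DecidableEq ι] {w : ℕ}
    (c : ι → G) (a : ι → ℕ) (hB : Bdd w c a) (r : ℕ) (hr : w * (r - 1) < ∑ k, a k) :
    ∃ J : Finset ι, J.card = r ∧ (∀ k ∈ J, 1 ≤ a k) ∧
      ∀ k ∈ J, ∀ k' ∈ J, (c k = c k' ∨ c k = -c k') → k = k' := by
  classical
  induction r with
  | zero => exact ⟨∅, rfl, by simp, by simp⟩
  | succ r ih =>
    have h1 : w * (r - 1) < ∑ k, a k :=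
      lt_of_le_of_lt (Nat.mul_le_mul_left w (by omega)) hr
    obtain ⟨J, hJ, hJ1, hJ2⟩ := ih h1
    by_cases hex : ∃ k, 1 ≤ a k ∧ ∀ j ∈ J, ¬ (c k = c j ∨ c k = -c j)
    · obtain ⟨k, hk, hkJ⟩ := hex
      have hkn : k ∉ J := fun h => hkJ k h (Or.inl rfl)
      refine ⟨insert k J, by rw [Finset.card_insert_of_notMem hkn, hJ], ?_, ?_⟩
      · intro l hl
        rcases Finset.mem_insert.1 hl with rfl | hl
        · exact hk
        · exact hJ1 l hl
      · intro l hl l' hl' h
        rcases Finset.mem_insert.1 hl with h3 | h3 <;>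
          rcases Finset.mem_insert.1 hl' with h2 | h2
        · rw [h3, h2]
        · rw [h3] at h
          exact absurd h (hkJ l' h2)
        · rw [h2] at h
          refine absurd ?_ (hkJ l h3)
          rcases h with h | h
          · exact Or.inl h.symm
          · exact Or.inr (by rw [h, neg_neg])
        · exact hJ2 l h3 l' h2 h
    · exfalso
      push Not at hex
      have h2 : ∑ k, a k ≤ ∑ j ∈ J, ∑ k ∈ cls c (c j), a k := by
        have h3 : ∀ k, a k ≤ ∑ j ∈ J, if c k = c j ∨ c k = -c j then a k else 0 := by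
          intro k
          rcases Nat.eq_zero_or_pos (a k) with h0 | h0
          · rw [h0]
            exact Nat.zero_le _
          · obtain ⟨j, hj, hjk⟩ := hex k h0
            refine le_trans (le_of_eq ?_) (Finset.single_le_sum
              (f := fun j => if c k = c j ∨ c k = -c j then a k else 0)
              (fun _ _ => Nat.zero_le _) hj)
            rw [if_pos hjk]
        refine (Finset.sum_le_sum fun k _ => h3 k).trans (le_of_eq ?_)
        rw [Finset.sum_comm]
        refine Finset.sum_congr rfl fun j _ => ?_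
        unfold cls
        rw [Finset.sum_filter]
      have h4 : ∑ j ∈ J, ∑ k ∈ cls c (c j), a k ≤ ∑ j ∈ J, w :=
        Finset.sum_le_sum fun j _ => hB.2 (c j)
      rw [Finset.sum_const, hJ, smul_eq_mul, mul_comm] at h4
      have h5 : r + 1 - 1 = r := by omega
      rw [h5] at hr
      omega

end RG
end

section

set_option autoImplicit false

open Finset

namespace RG

open SPR (T two_T T_succ le_T T_mono T_zero eight_T)

variable {w : ℕ} {ι : Type*} [Fintype ι]

/-- number of entries of a full system: every entry `k` lies in exactly two of the sets `cls c x`,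
`x ≠ 0` (`x = c k` and `x = - c k`, different because `N` is odd). -/
lemma card_full {N : ℕ} [NeZero N] (hN : N % 2 = 1) (c : ι → ZMod N) (hc : Full w c) :
    2 * Fintype.card ι + w = w * N := by
  classical
  have h1 : ∑ x ∈ (Finset.univ : Finset (ZMod N)).erase 0, (cls c x).card = (N - 1) * w := by
    rw [Finset.sum_congr rfl (fun x hx => hc.2 x (Finset.ne_of_mem_erase hx)),
      Finset.sum_const, Finset.card_erase_of_mem (Finset.mem_univ _), Finset.card_univ,
      ZMod.card, smul_eq_mul]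
  have h2 : ∑ x ∈ (Finset.univ : Finset (ZMod N)).erase 0, (cls c x).card
      = ∑ _k : ι, 2 := by
    simp only [cls, Finset.card_filter]
    rw [Finset.sum_comm]
    refine Finset.sum_congr rfl fun k _ => ?_
    have hk : c k ≠ 0 := hc.1 k
    have hk2 : c k ≠ -c k := ZMod.ne_neg_self (Nat.odd_iff.2 hN) hk
    have hmem : ∀ x, (c k = x ∨ c k = -x) ↔ x ∈ ({c k, -c k} : Finset (ZMod N)) := by
      intro x
      rw [Finset.mem_insert, Finset.mem_singleton]
      constructor
      · rintro (h | h)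
        · exact Or.inl h.symm
        · right
          rw [h, neg_neg]
      · rintro (h | h)
        · exact Or.inl h.symm
        · right
          rw [h, neg_neg]
    have hsub : ({c k, -c k} : Finset (ZMod N)) ⊆ (Finset.univ : Finset (ZMod N)).erase 0 := by
      intro x hx
      rw [Finset.mem_insert, Finset.mem_singleton] at hx
      rw [Finset.mem_erase]
      refine ⟨?_, Finset.mem_univ _⟩
      rcases hx with h | h
      · rw [h]; exact hk
      · rw [h]; exact neg_ne_zero.2 hk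
    refine (Finset.sum_congr rfl (g := fun x => if x ∈ ({c k, -c k} : Finset (ZMod N)) then 1 else 0)
      fun x _ => ?_).trans ?_
    · by_cases h : c k = x ∨ c k = -x
      · rw [if_pos h, if_pos ((hmem x).1 h)]
      · rw [if_neg h, if_neg (fun h' => h ((hmem x).2 h'))]
    · rw [Finset.sum_ite_mem, Finset.inter_eq_right.2 hsub, Finset.sum_const, smul_eq_mul,
        mul_one, Finset.card_pair hk2]
  rw [h1, Finset.sum_const, Finset.card_univ, smul_eq_mul] at h2
  obtain ⟨m, hm⟩ : ∃ m, N = m + 1 := ⟨N - 1, by have := NeZero.pos N; omega⟩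
  have h3 : N - 1 = m := by omega
  rw [h3] at h2
  rw [hm, Nat.mul_add, Nat.mul_one, mul_comm w m, h2]
  ring

lemma count (a : ι → ℕ) : oo a + ee a + zz a = Fintype.card ι := by
  classical
  unfold oo ee zz
  simp only [Finset.card_filter]
  rw [← Finset.sum_add_distrib, ← Finset.sum_add_distrib, ← Finset.card_univ,
    Finset.card_eq_sum_ones]
  refine Finset.sum_congr rfl fun k _ => ?_
  by_cases h0 : a k = 0
  · simp [h0]
  · rcases Nat.mod_two_eq_zero_or_one (a k) with h | h <;> simp [h, h0]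

private lemma n3_quarter (x : ℕ) :
    8 * ((x ^ 2 / 4 : ℕ) : ℤ) = 2 * (x : ℤ) ^ 2 - 2 * (if x % 2 = 1 then 1 else 0) := by
  rcases Nat.even_or_odd' x with ⟨y, hy | hy⟩
  · have h1 : x ^ 2 / 4 = y ^ 2 := by
      rw [hy, mul_pow]
      exact Nat.mul_div_cancel_left _ (by norm_num)
    have h2 : x % 2 ≠ 1 := by omega
    rw [h1, if_neg h2, hy]
    push_cast
    ring
  · have h1 : x ^ 2 / 4 = y ^ 2 + y := by
      have : x ^ 2 = 4 * (y ^ 2 + y) + 1 := by rw [hy]; ring
      omega
    have h2 : x % 2 = 1 := by omega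
    rw [h1, if_pos h2, hy]
    push_cast
    ring

/-- The identity, multiplied by `w`: `8 w N W = 8 w N + (M^2 - y^2) + w N (S - x)`, `W = 1 + τ + Γ`,
`M = 2 (∑ s + ∑ a) + w`, `y = M - 2 α w N`, `x = w + 2 o`.  (`8 T s = (2 s + 1)^2 - 1`,
`8 (a^2/4) = 2 a^2 - 2 [a odd]`, `2 |ι| + w = w N`; compare `SPR.SS_identity`.) -/
lemma SS_identity (N : ℕ) (hι : 2 * Fintype.card ι + w = w * N) (s : Fin w → ℕ) (a : ι → ℕ)
    (al : ℤ) :
    w * (8 * (N : ℤ) * (1 + (∑ l, T (s l) : ℕ) + Gam a)) = 8 * w * N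
      + ((2 * ((∑ l, s l + ∑ k, a k : ℕ) : ℤ) + w) ^ 2
        - (2 * ((∑ l, s l + ∑ k, a k : ℕ) : ℤ) + w - 2 * al * w * N) ^ 2)
      + w * (N * (SS s a al - (w + 2 * oo a))) := by
  classical
  have hI : (2 * (Fintype.card ι : ℤ) + w) = w * N := by exact_mod_cast hι
  have hT : 8 * ((∑ l, T (s l) : ℕ) : ℤ) = 4 * ∑ l, (s l : ℤ) ^ 2 + 4 * ∑ l, (s l : ℤ) := by
    push_cast
    rw [Finset.mul_sum, Finset.mul_sum, Finset.mul_sum, ← Finset.sum_add_distrib]
    refine Finset.sum_congr rfl fun l _ => ?_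
    have h : (2 * T (s l) : ℤ) = (s l : ℤ) * ((s l : ℤ) + 1) := by exact_mod_cast two_T (s l)
    linear_combination 4 * h
  have hG : 8 * (Gam a : ℤ) = 2 * ∑ k, (a k : ℤ) ^ 2 - 2 * (oo a : ℤ) := by
    unfold Gam oo
    rw [Finset.card_filter]
    push_cast
    rw [Finset.mul_sum, Finset.mul_sum, Finset.mul_sum, ← Finset.sum_sub_distrib]
    refine Finset.sum_congr rfl fun k _ => ?_
    have := n3_quarter (a k)
    push_cast at this
    exact this
  have hS1 : ∑ l, (2 * (s l : ℤ) + 1 - 2 * al) ^ 2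
      = 4 * ∑ l, (s l : ℤ) ^ 2 + 4 * (1 - 2 * al) * ∑ l, (s l : ℤ) + w * (1 - 2 * al) ^ 2 := by
    have hw : (w : ℤ) * (1 - 2 * al) ^ 2 = ∑ _l : Fin w, (1 - 2 * al) ^ 2 := by
      rw [Finset.sum_const, Finset.card_univ, Fintype.card_fin, nsmul_eq_mul]
    rw [hw, Finset.mul_sum, Finset.mul_sum, ← Finset.sum_add_distrib, ← Finset.sum_add_distrib]
    refine Finset.sum_congr rfl fun l _ => ?_
    ring
  have hS2 : ∑ k, ((a k : ℤ) - 2 * al) ^ 2
      = ∑ k, (a k : ℤ) ^ 2 - 4 * al * ∑ k, (a k : ℤ) + 4 * al ^ 2 * Fintype.card ι := by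
    have hw : 4 * al ^ 2 * (Fintype.card ι : ℤ) = ∑ _k : ι, 4 * al ^ 2 := by
      rw [Finset.sum_const, Finset.card_univ, nsmul_eq_mul]
      ring
    rw [hw, Finset.mul_sum, ← Finset.sum_sub_distrib, ← Finset.sum_add_distrib]
    refine Finset.sum_congr rfl fun k _ => ?_
    ring
  unfold SS
  rw [hS1, hS2]
  have hc : ((∑ l, s l + ∑ k, a k : ℕ) : ℤ) = ∑ l, (s l : ℤ) + ∑ k, (a k : ℤ) := by push_cast; rfl
  rw [hc]
  linear_combination (w * (N : ℤ)) * hT + (w * (N : ℤ)) * hG - (4 * al ^ 2 * w * N) * hI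

end RG
end

section

set_option autoImplicit false

open Finset Pointwise

namespace RG

open SPR (T two_T T_succ le_T T_mono T_zero eight_T)

variable {G : Type*} [AddCommGroup G] [Fintype G] {ι : Type*} [Fintype ι]

/-- indicator of the odd entries -/
def od (a : ι → ℕ) (k : ι) : ℕ := a k % 2

lemma sum_od (a : ι → ℕ) : ∑ k, od a k = oo a := by
  unfold oo
  rw [Finset.card_filter]
  refine Finset.sum_congr rfl fun k _ => ?_
  unfold od
  split_ifs with h
  · exact h
  · omega

/-- the base point `∑ ⌊a_k/2⌋ c_k` -/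
def bs (c : ι → G) (a : ι → ℕ) : G := pos c (fun k => a k / 2)

private lemma p1a_odd (b j : ℕ) (hj : j ≤ 1) :
    (b + j) * (2 * b + 1 - (b + j)) = (2 * b + 1) ^ 2 / 4 := by
  have h1 : (2 * b + 1) ^ 2 / 4 = b * (b + 1) := by
    have : (2 * b + 1) ^ 2 = 4 * (b * (b + 1)) + 1 := by ring
    rw [this]; omega
  rw [h1]
  rcases Nat.le_one_iff_eq_zero_or_eq_one.1 hj with rfl | rfl
  · rw [show 2 * b + 1 - (b + 0) = b + 1 by omega]; ring
  · rw [show 2 * b + 1 - (b + 1) = b by omega]; ring

private lemma p1a_even (b : ℕ) : (2 * b) ^ 2 / 4 = b * b := by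
  have : (2 * b) ^ 2 = b * b * 4 := by ring
  rw [this, Nat.mul_div_cancel _ (by norm_num)]

/-- Moves near the top level.  `t = pos c j`, `j ≤ od a`.  Take `j' = a/2 + j`, and add `1` on `P`,
subtract `1` on `N` (disjoint sets of even nonzero entries): `j' ≤ a`, and the gain is
`Gam a - (|P| + |N|)`: for odd `a = 2b+1`, `j' ∈ {b, b+1}` gives `b (b+1) = a^2/4`; for even `a = 2 b`,
`b ± 1` gives `b^2 - 1`. -/
lemma move (c : ι → G) (a : ι → ℕ) (P N : Finset ι) (hP : ∀ k ∈ P, a k % 2 = 0 ∧ a k ≠ 0)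
    (hN : ∀ k ∈ N, a k % 2 = 0 ∧ a k ≠ 0) (hPN : Disjoint P N) (t : G) (ht : t ∈ R c (od a) 0) :
    bs c a + t + ∑ k ∈ P, c k - ∑ k ∈ N, c k ∈ R c a (Gam a - (P.card + N.card)) := by
  classical
  unfold R at ht ⊢
  rw [Finset.mem_filter] at ht ⊢
  obtain ⟨-, j, hj1, hj2, -⟩ := ht
  have hjP : ∀ k ∈ P, j k = 0 := by
    intro k hk
    have h1 := hj1 k
    have h2 := (hP k hk).1
    unfold od at h1
    omega
  have hjN : ∀ k ∈ N, j k = 0 := by
    intro k hk
    have h1 := hj1 k
    have h2 := (hN k hk).1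
    unfold od at h1
    omega
  have hdis : ∀ k, k ∈ P → k ∉ N := fun k h1 h2 => (Finset.disjoint_left.1 hPN) h1 h2
  set j' : ι → ℕ := fun k =>
    if k ∈ P then a k / 2 + 1 else if k ∈ N then a k / 2 - 1 else a k / 2 + j k with hj'
  refine ⟨Finset.mem_univ _, j', ?_, ?_, ?_⟩
  · intro k
    simp only [hj']
    split_ifs with h1 h2
    · have h3 := hP k h1
      omega
    · omega
    · have h3 := hj1 k
      unfold od at h3
      omega
  · rw [← hj2]
    unfold bs pos
    have h1 : ∀ k ∈ (Finset.univ : Finset ι), j' k • c k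
        = (a k / 2) • c k + j k • c k + (if k ∈ P then c k else 0)
          - (if k ∈ N then c k else 0) := by
      intro k _
      simp only [hj']
      split_ifs with h1 h2 h2
      · exact absurd h2 (hdis k h1)
      · rw [hjP k h1, add_smul, one_smul, zero_smul, add_zero, sub_zero]
      · have h4 := hN k h2
        have h5 : a k / 2 = (a k / 2 - 1) + 1 := by omega
        rw [hjN k h2, zero_smul, add_zero, add_zero]
        conv_rhs => rw [h5, add_smul, one_smul, add_sub_cancel_right]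
      · rw [add_smul, add_zero, sub_zero]
    rw [Finset.sum_congr rfl h1, Finset.sum_sub_distrib, Finset.sum_add_distrib,
      Finset.sum_add_distrib, Finset.sum_ite_mem, Finset.sum_ite_mem, Finset.univ_inter,
      Finset.univ_inter]
  · have h1 : gain a j' + (P.card + N.card) = Gam a := by
      unfold gain Gam
      have hPc : P.card = ∑ k, if k ∈ P then 1 else 0 := by
        rw [Finset.sum_ite_mem, Finset.univ_inter, Finset.card_eq_sum_ones]
      have hNc : N.card = ∑ k, if k ∈ N then 1 else 0 := by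
        rw [Finset.sum_ite_mem, Finset.univ_inter, Finset.card_eq_sum_ones]
      rw [hPc, hNc, ← Finset.sum_add_distrib, ← Finset.sum_add_distrib]
      refine Finset.sum_congr rfl fun k _ => ?_
      simp only [hj']
      split_ifs with h1 h2 h2
      · exact absurd h2 (hdis k h1)
      · have h4 := hP k h1
        obtain ⟨b, hb⟩ : ∃ b, a k = 2 * (b + 1) := ⟨a k / 2 - 1, by omega⟩
        rw [hb, p1a_even]
        have e1 : 2 * (b + 1) / 2 + 1 = b + 2 := by omega
        have e2 : 2 * (b + 1) - (b + 2) = b := by omega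
        rw [e1, e2]; ring
      · have h4 := hN k h2
        obtain ⟨b, hb⟩ : ∃ b, a k = 2 * (b + 1) := ⟨a k / 2 - 1, by omega⟩
        rw [hb, p1a_even]
        have e1 : 2 * (b + 1) / 2 - 1 = b := by omega
        have e2 : 2 * (b + 1) - b = b + 2 := by omega
        rw [e1, e2]; ring
      · have h3 := hj1 k
        unfold od at h3
        rcases Nat.even_or_odd' (a k) with ⟨b, hb | hb⟩
        · have h5 : j k = 0 := by omega
          rw [h5, hb, p1a_even]
          have e1 : 2 * b / 2 + 0 = b := by omega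
          have e2 : 2 * b - b = b := by omega
          rw [e1, e2]; rfl
        · have h5 : j k ≤ 1 := by omega
          have h6 := p1a_odd b (j k) h5
          rw [hb, ← h6]
          have e1 : (2 * b + 1) / 2 = b := by omega
          rw [e1]; rfl
    omega

end RG
end

section

set_option autoImplicit false

open Finset

namespace RG

open SPR (T two_T T_succ le_T T_mono T_zero eight_T)

variable {w : ℕ} {ι : Type*} [Fintype ι]

private lemma n3_oo (a : ι → ℕ) :
    (oo a : ℤ) = ∑ i, if a i % 2 = 1 then (1 : ℤ) else 0 := by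
  unfold oo
  rw [Finset.card_filter]
  push_cast
  rfl

private lemma n3_zz (a : ι → ℕ) :
    (zz a : ℤ) = ∑ i, if a i = 0 then (1 : ℤ) else 0 := by
  unfold zz
  rw [Finset.card_filter]
  push_cast
  rfl

private lemma n3_term (b : ℕ) (al : ℤ) :
    (if b % 2 = 1 then (1 : ℤ) else 0) ≤ ((b : ℤ) - 2 * al) ^ 2 := by
  by_cases h : b % 2 = 1
  · rw [if_pos h]
    have h0 : (b : ℤ) - 2 * al ≠ 0 := by omega
    have := Int.one_le_abs h0
    nlinarith [sq_abs ((b : ℤ) - 2 * al), abs_nonneg ((b : ℤ) - 2 * al)]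
  · rw [if_neg h]
    positivity

private lemma n3_odd_sq (c : ℤ) : (8 : ℤ) ∣ (2 * c + 1) ^ 2 - 1 := by
  rcases Int.even_or_odd c with ⟨d, hd⟩ | ⟨d, hd⟩
  · refine ⟨d * (2 * d + 1), ?_⟩
    subst hd
    ring
  · refine ⟨(2 * d + 1) * (d + 1), ?_⟩
    subst hd
    ring

private lemma n3_one (s : ℕ) (al : ℤ) : (1 : ℤ) ≤ (2 * (s : ℤ) + 1 - 2 * al) ^ 2 := by
  have h0 : 2 * (s : ℤ) + 1 - 2 * al ≠ 0 := by omega
  have := Int.one_le_abs h0
  nlinarith [sq_abs (2 * (s : ℤ) + 1 - 2 * al), abs_nonneg (2 * (s : ℤ) + 1 - 2 * al)]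

private lemma n3_sum_one (s : Fin w → ℕ) (al : ℤ) :
    (w : ℤ) ≤ ∑ l, (2 * (s l : ℤ) + 1 - 2 * al) ^ 2 := by
  have h : ∑ _l : Fin w, (1 : ℤ) ≤ ∑ l, (2 * (s l : ℤ) + 1 - 2 * al) ^ 2 :=
    Finset.sum_le_sum fun l _ => n3_one (s l) al
  simpa using h

/-- `S ≥ x`: odd squares. -/
lemma SS_ge (s : Fin w → ℕ) (a : ι → ℕ) (al : ℤ) : (w : ℤ) + 2 * oo a ≤ SS s a al := by
  rw [n3_oo]
  unfold SS
  have h0 := n3_sum_one s al
  have h1 : (∑ i, if a i % 2 = 1 then (1 : ℤ) else 0)
      ≤ ∑ i, ((a i : ℤ) - 2 * al) ^ 2 := Finset.sum_le_sum fun i _ => n3_term (a i) al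
  linarith

/-- `8 ∣ S - x`. -/
lemma SS_mod (s : Fin w → ℕ) (a : ι → ℕ) (al : ℤ) : (8 : ℤ) ∣ SS s a al - (w + 2 * oo a) := by
  rw [n3_oo]
  unfold SS
  have h0 : (8 : ℤ) ∣ ∑ l, ((2 * (s l : ℤ) + 1 - 2 * al) ^ 2 - 1) := by
    refine Finset.dvd_sum fun l _ => ?_
    have := n3_odd_sq ((s l : ℤ) - al)
    have e : 2 * ((s l : ℤ) - al) + 1 = 2 * (s l : ℤ) + 1 - 2 * al := by ring
    rwa [e] at this
  have h1 : (8 : ℤ) ∣ ∑ i,
      2 * (((a i : ℤ) - 2 * al) ^ 2 - if a i % 2 = 1 then (1 : ℤ) else 0) := by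
    refine Finset.dvd_sum fun i _ => ?_
    by_cases h : a i % 2 = 1
    · rw [if_pos h]
      obtain ⟨c, hc⟩ : ∃ c : ℕ, a i = 2 * c + 1 := ⟨a i / 2, by omega⟩
      have h2 := n3_odd_sq ((c : ℤ) - al)
      have e : ((a i : ℤ) - 2 * al) = 2 * ((c : ℤ) - al) + 1 := by
        rw [hc]; push_cast; ring
      rw [e]
      exact Dvd.dvd.mul_left h2 2
    · rw [if_neg h]
      obtain ⟨c, hc⟩ : ∃ c : ℕ, a i = 2 * c := ⟨a i / 2, by omega⟩
      refine ⟨((c : ℤ) - al) ^ 2, ?_⟩
      rw [hc]; push_cast; ring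
  have e0 : ∑ l : Fin w, ((2 * (s l : ℤ) + 1 - 2 * al) ^ 2 - 1)
      = ∑ l, (2 * (s l : ℤ) + 1 - 2 * al) ^ 2 - (w : ℤ) := by
    rw [Finset.sum_sub_distrib]
    simp
  have e : ∑ l, (2 * (s l : ℤ) + 1 - 2 * al) ^ 2 + 2 * ∑ i, ((a i : ℤ) - 2 * al) ^ 2
      - ((w : ℤ) + 2 * (∑ i, if a i % 2 = 1 then (1 : ℤ) else 0))
      = (∑ l : Fin w, ((2 * (s l : ℤ) + 1 - 2 * al) ^ 2 - 1)) + ∑ i,
        2 * (((a i : ℤ) - 2 * al) ^ 2 - if a i % 2 = 1 then (1 : ℤ) else 0) := by
    rw [e0, ← Finset.mul_sum, Finset.sum_sub_distrib]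
    ring
  rw [e]
  exact dvd_add h0 h1

/-- `2 |y| ≤ S + x`. -/
lemma SS_y (N : ℕ) (hι : 2 * Fintype.card ι + w = w * N) (s : Fin w → ℕ) (a : ι → ℕ) (al : ℤ) :
    2 * |2 * ((∑ l, s l + ∑ k, a k : ℕ) : ℤ) + w - 2 * al * w * N| ≤
      SS s a al + (w + 2 * oo a) := by
  have h3 : 2 * (Fintype.card ι : ℤ) + w = w * N := by exact_mod_cast hι
  have e : 2 * ((∑ l, s l + ∑ k, a k : ℕ) : ℤ) + w - 2 * al * w * N
      = ∑ l, (2 * (s l : ℤ) + 1 - 2 * al) + 2 * ∑ i, ((a i : ℤ) - 2 * al) := by
    rw [Finset.sum_sub_distrib, Finset.sum_sub_distrib, Finset.sum_add_distrib, Finset.sum_const,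
      Finset.sum_const, Finset.sum_const, Finset.card_univ, Finset.card_univ, Fintype.card_fin,
      nsmul_eq_mul, nsmul_eq_mul, nsmul_eq_mul, ← Finset.mul_sum]
    push_cast
    linear_combination (2 * al) * h3
  rw [e, n3_oo]
  unfold SS
  have h1 : |∑ i, ((a i : ℤ) - 2 * al)| ≤ ∑ i, |(a i : ℤ) - 2 * al| :=
    Finset.abs_sum_le_sum_abs _ _
  have h2 : ∑ i, 2 * |(a i : ℤ) - 2 * al| ≤
      ∑ i, (((a i : ℤ) - 2 * al) ^ 2 + if a i % 2 = 1 then (1 : ℤ) else 0) := by
    refine Finset.sum_le_sum fun i _ => ?_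
    rw [← sq_abs]
    have h0 := abs_nonneg ((a i : ℤ) - 2 * al)
    by_cases h : a i % 2 = 1
    · rw [if_pos h]
      nlinarith [sq_nonneg (|(a i : ℤ) - 2 * al| - 1)]
    · rw [if_neg h]
      have h4 : |(a i : ℤ) - 2 * al| = 0 ∨ 2 ≤ |(a i : ℤ) - 2 * al| := by
        rcases abs_cases ((a i : ℤ) - 2 * al) with ⟨h5, _⟩ | ⟨h5, _⟩ <;> rw [h5] <;> omega
      rcases h4 with h4 | h4
      · rw [h4]; norm_num
      · nlinarith
  rw [← Finset.mul_sum, Finset.sum_add_distrib] at h2
  have h5 := abs_add_le (∑ l : Fin w, (2 * (s l : ℤ) + 1 - 2 * al))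
    (2 * ∑ i, ((a i : ℤ) - 2 * al))
  have h6 : |2 * ∑ i, ((a i : ℤ) - 2 * al)| = 2 * |∑ i, ((a i : ℤ) - 2 * al)| := by
    rw [abs_mul]; norm_num
  have h7 : 2 * |∑ l : Fin w, (2 * (s l : ℤ) + 1 - 2 * al)| ≤
      ∑ l : Fin w, (2 * (s l : ℤ) + 1 - 2 * al) ^ 2 + (w : ℤ) := by
    have h8 : |∑ l : Fin w, (2 * (s l : ℤ) + 1 - 2 * al)| ≤
        ∑ l : Fin w, |2 * (s l : ℤ) + 1 - 2 * al| := Finset.abs_sum_le_sum_abs _ _
    have h9 : ∑ l : Fin w, 2 * |2 * (s l : ℤ) + 1 - 2 * al| ≤
        ∑ l : Fin w, ((2 * (s l : ℤ) + 1 - 2 * al) ^ 2 + 1) := by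
      refine Finset.sum_le_sum fun l _ => ?_
      rw [← sq_abs (2 * (s l : ℤ) + 1 - 2 * al)]
      nlinarith [sq_nonneg (|2 * (s l : ℤ) + 1 - 2 * al| - 1)]
    rw [← Finset.mul_sum, Finset.sum_add_distrib] at h9
    have h10 : ∑ _l : Fin w, (1 : ℤ) = w := by simp
    rw [h10] at h9
    linarith
  linarith

/-- `S ≥ x + 8 z` for `α ≥ 1`. -/
lemma SS_z (s : Fin w → ℕ) (a : ι → ℕ) (al : ℤ) (hal : 1 ≤ al) :
    (w : ℤ) + 2 * oo a + 8 * zz a ≤ SS s a al := by
  rw [n3_oo, n3_zz]
  unfold SS
  have h0 := n3_sum_one s al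
  have h1 : ∑ i, ((if a i % 2 = 1 then (1 : ℤ) else 0) + 4 * (if a i = 0 then (1 : ℤ) else 0))
      ≤ ∑ i, ((a i : ℤ) - 2 * al) ^ 2 := by
    refine Finset.sum_le_sum fun i _ => ?_
    by_cases h : a i = 0
    · rw [if_pos h, if_neg (by omega), h]
      push_cast
      nlinarith
    · rw [if_neg h]
      have := n3_term (a i) al
      linarith
  rw [Finset.sum_add_distrib, ← Finset.mul_sum] at h1
  linarith

end RG
end

section

set_option autoImplicit false

open Finset Pointwise

namespace RG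

open SPR (T two_T T_succ le_T T_mono T_zero eight_T)

variable {G : Type*} [AddCommGroup G] [Fintype G] {ι : Type*} [Fintype ι]

open Classical in
/-- nonzero `x` all of whose entries are odd -/
noncomputable def allodd (c : ι → G) (a : ι → ℕ) : Finset G :=
  Finset.univ.filter (fun x => x ≠ 0 ∧ ∀ k ∈ cls c x, a k % 2 = 1)

open Classical in
/-- `0` and all `± c k`, `a k` even and nonzero -/
noncomputable def Ys (c : ι → G) (a : ι → ℕ) : Finset G :=
  Finset.univ.filter (fun y => y = 0 ∨ ∃ k ∈ cls c y, a k % 2 = 0 ∧ a k ≠ 0)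

private lemma R_anti' (c : ι → G) (a : ι → ℕ) {v w : ℕ} (h : w ≤ v) {x : G}
    (hx : x ∈ R c a v) : x ∈ R c a w := by
  classical
  unfold R at hx ⊢
  simp only [Finset.mem_filter, Finset.mem_univ, true_and] at hx ⊢
  obtain ⟨j, h1, h2, h3⟩ := hx
  exact ⟨j, h1, h2, h.trans h3⟩

private lemma mem_Ys (c : ι → G) (a : ι → ℕ) (y : G) (hy : y ∈ Ys c a) :
    y = 0 ∨ ∃ k, (c k = y ∨ c k = -y) ∧ a k % 2 = 0 ∧ a k ≠ 0 := by
  classical
  unfold Ys at hy
  simp only [Finset.mem_filter, Finset.mem_univ, true_and] at hy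
  rcases hy with h | ⟨k, hk, h1, h2⟩
  · exact Or.inl h
  · right
    unfold cls at hk
    simp only [Finset.mem_filter, Finset.mem_univ, true_and] at hk
    exact ⟨k, hk, h1, h2⟩

/-- `bs + X0 + Y ⊆ R_{Γ-1}` (`move` with `|P| + |N| ≤ 1`). -/
lemma Y_add (c : ι → G) (a : ι → ℕ) (t y : G) (ht : t ∈ R c (od a) 0) (hy : y ∈ Ys c a) :
    bs c a + t + y ∈ R c a (Gam a - 1) := by
  classical
  rcases mem_Ys c a y hy with h | ⟨k, hk, h1, h2⟩
  · have := move c a ∅ ∅ (by simp) (by simp) (by simp) t ht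
    rw [h]
    simp only [Finset.sum_empty, add_zero, sub_zero, Finset.card_empty] at this
    rw [add_zero]
    exact R_anti' c a (by omega) this
  · rcases hk with hk | hk
    · have := move c a {k} ∅ (by simpa using ⟨h1, h2⟩) (by simp) (by simp) t ht
      simp only [Finset.sum_empty, sub_zero, Finset.card_empty, Finset.sum_singleton,
        Finset.card_singleton, add_zero] at this
      rw [hk] at this
      exact this
    · have := move c a ∅ {k} (by simp) (by simpa using ⟨h1, h2⟩) (by simp) t ht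
      simp only [Finset.sum_empty, add_zero, Finset.card_empty, Finset.sum_singleton,
        Finset.card_singleton, zero_add] at this
      rw [hk, sub_neg_eq_add] at this
      exact this

/-- `bs + X0 + y + y' ∈ R_{Γ-2}` for distinct `y, y' ∈ Y` (if `y' = - y` the sum is `0`; otherwise the
entries are different, because `y' ≠ ± y` lie in different classes, or one of them is `0`). -/
lemma Y_add2 (c : ι → G) (a : ι → ℕ) (t y y' : G) (ht : t ∈ R c (od a) 0) (hy : y ∈ Ys c a)
    (hy' : y' ∈ Ys c a) (hne : y ≠ y') :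
    bs c a + t + y + y' ∈ R c a (Gam a - 2) := by
  classical
  rcases mem_Ys c a y hy with h | ⟨k, hk, h1, h2⟩
  · rw [h, add_zero]
    exact R_anti' c a (by omega) (Y_add c a t y' ht hy')
  rcases mem_Ys c a y' hy' with h' | ⟨k', hk', h1', h2'⟩
  · rw [h', add_zero]
    exact R_anti' c a (by omega) (Y_add c a t y ht hy)
  by_cases hneg : y' = -y
  · have := Y_add c a t 0 ht (by
      unfold Ys
      simp)
    rw [hneg, add_neg_cancel_right]
    rw [add_zero] at this
    exact R_anti' c a (by omega) this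
  have hkk : k ≠ k' := by
    rintro rfl
    rcases hk with hk | hk <;> rcases hk' with hk' | hk'
    · exact hne (hk.symm.trans hk')
    · apply hneg
      rw [← hk, hk', neg_neg]
    · apply hneg
      rw [← hk', hk]
    · apply hne
      have := hk.symm.trans hk'
      exact neg_injective this
  rcases hk with hk | hk <;> rcases hk' with hk' | hk'
  · have := move c a {k, k'} ∅ (by
      intro x hx
      simp only [Finset.mem_insert, Finset.mem_singleton] at hx
      rcases hx with rfl | rfl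
      · exact ⟨h1, h2⟩
      · exact ⟨h1', h2'⟩) (by simp) (by simp) t ht
    rw [Finset.sum_pair hkk, Finset.card_pair hkk, Finset.sum_empty, Finset.card_empty,
      sub_zero, add_zero, hk, hk', ← add_assoc] at this
    exact this
  · have := move c a {k} {k'} (by simpa using ⟨h1, h2⟩) (by simpa using ⟨h1', h2'⟩)
      (by simpa using hkk) t ht
    rw [Finset.sum_singleton, Finset.sum_singleton, Finset.card_singleton, Finset.card_singleton,
      hk, hk', sub_neg_eq_add] at this
    exact this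
  · have := move c a {k'} {k} (by simpa using ⟨h1', h2'⟩) (by simpa using ⟨h1, h2⟩)
      (by simpa using hkk.symm) t ht
    rw [Finset.sum_singleton, Finset.sum_singleton, Finset.card_singleton, Finset.card_singleton,
      hk, hk', sub_neg_eq_add] at this
    rw [show bs c a + t + y + y' = bs c a + t + y' + y by abel]
    exact this
  · have := move c a ∅ {k, k'} (by simp) (by
      intro x hx
      simp only [Finset.mem_insert, Finset.mem_singleton] at hx
      rcases hx with rfl | rfl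
      · exact ⟨h1, h2⟩
      · exact ⟨h1', h2'⟩) (by simp) t ht
    rw [Finset.sum_pair hkk, Finset.card_pair hkk, Finset.sum_empty, Finset.card_empty,
      add_zero, zero_add, hk, hk'] at this
    rw [show bs c a + t + y + y' = bs c a + t - (-y + -y') by abel]
    exact this

/-- `|X0| ≤ ρ`: `bs + X0 ⊆ R_Γ`. -/
lemma X0_le (c : ι → G) (a : ι → ℕ) : (R c (od a) 0).card ≤ (R c a (Gam a)).card := by
  classical
  apply Finset.card_le_card_of_injOn (fun t => bs c a + t)
  · intro t ht
    have := move c a ∅ ∅ (by simp) (by simp) (by simp) t ht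
    simpa using this
  · intro x _ y _ hxy
    exact add_left_cancel hxy

end RG
end

section

set_option autoImplicit false

open Finset Pointwise

namespace RG

open SPR (T two_T T_succ le_T T_mono T_zero eight_T)

section
variable {G : Type*} [AddCommGroup G] [Fintype G] {ι : Type*} [Fintype ι]

private lemma cls_zero_P1 (c : ι → G) (h : ∀ k, c k ≠ 0) : cls c 0 = ∅ := by
  classical
  apply Finset.eq_empty_of_forall_notMem
  intro k hk
  unfold cls at hk
  rw [Finset.mem_filter] at hk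
  have hk2 := hk.2
  rw [neg_zero, or_self] at hk2
  exact h k hk2

/-- No zero entry: `Y` is the complement of `allodd`. -/
lemma Ys_compl (w : ℕ) (hw : 1 ≤ w) (c : ι → G) (hF : Full w c) (a : ι → ℕ) (hz : zz a = 0)
    (y : G) (hy : y ∉ allodd c a) : y ∈ Ys c a := by
  classical
  unfold allodd at hy
  unfold Ys
  simp only [Finset.mem_filter, Finset.mem_univ, true_and] at hy ⊢
  by_cases h0 : y = 0
  · exact Or.inl h0
  · right
    by_contra hcon
    apply hy
    refine ⟨h0, fun k hk => ?_⟩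
    by_contra hodd
    apply hcon
    refine ⟨k, hk, by omega, fun hk0 => ?_⟩
    unfold zz at hz
    rw [Finset.card_eq_zero] at hz
    have : k ∈ (Finset.univ.filter (fun k => a k = 0)) :=
      Finset.mem_filter.2 ⟨Finset.mem_univ k, hk0⟩
    rw [hz] at this
    exact Finset.notMem_empty k this

/-- One zero entry `k0`: the complement of `Y` is contained in `allodd ∪ {± c k0}`. -/
lemma Ys_compl1 (w : ℕ) (hw : 1 ≤ w) (c : ι → G) (hF : Full w c) (a : ι → ℕ) (hz : zz a = 1) :
    ∃ x0 : G, ∀ y, y ∉ allodd c a → y ≠ x0 → y ≠ -x0 → y ∈ Ys c a := by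
  classical
  unfold zz at hz
  obtain ⟨k0, hk0⟩ := Finset.card_eq_one.1 hz
  refine ⟨c k0, fun y hy h1 h2 => ?_⟩
  unfold allodd at hy
  unfold Ys
  simp only [Finset.mem_filter, Finset.mem_univ, true_and] at hy ⊢
  by_cases h0 : y = 0
  · exact Or.inl h0
  · right
    by_contra hcon
    apply hy
    refine ⟨h0, fun k hk => ?_⟩
    by_contra hodd
    apply hcon
    refine ⟨k, hk, by omega, fun hk0' => ?_⟩
    have h3 : k ∈ (Finset.univ.filter (fun k => a k = 0)) :=
      Finset.mem_filter.2 ⟨Finset.mem_univ k, hk0'⟩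
    rw [hk0, Finset.mem_singleton] at h3
    subst h3
    unfold cls at hk
    rcases (Finset.mem_filter.1 hk).2 with h4 | h4
    · exact h1 h4.symm
    · apply h2
      rw [h4, neg_neg]

end

/-- `0/1` sequence of the odd entries is `w`-bounded. -/
lemma od_bdd {n w : ℕ} [NeZero n] {ι : Type} [Fintype ι] (hn : n % 2 = 1) (c : ι → ZMod n)
    (hF : Full w c) (a : ι → ℕ) : Bdd w c (od a) := by
  classical
  refine ⟨hF.1, fun x => ?_⟩
  have h1 : ∑ k ∈ cls c x, od a k ≤ ∑ _k ∈ cls c x, 1 := by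
    refine Finset.sum_le_sum fun k _ => ?_
    unfold od
    omega
  rw [Finset.sum_const, smul_eq_mul, mul_one] at h1
  by_cases hx : x = 0
  · have h2 : cls c x = ∅ := by
      rw [hx]
      exact cls_zero_P1 c hF.1
    rw [h2, Finset.card_empty] at h1
    rw [h2]
    omega
  · rw [hF.2 x hx] at h1
    exact h1

end RG
end

section

set_option autoImplicit false

open Finset Pointwise

namespace RG

open SPR (T two_T T_succ le_T T_mono T_zero eight_T)

private lemma mem_cls_aux {G : Type*} [AddCommGroup G] {ι : Type*} [Fintype ι] (c : ι → G) (x : G)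
    (k : ι) : k ∈ cls c x ↔ c k = x ∨ c k = -x := by
  simp [cls]

/-- Block bound.  If `R_0(a)` is aperiodic and `1 + T(κ) ≤ p0`, then
`(κ + 1) ∑ a + 2 ≤ 2 |R_0(a)| + (κ + 1) w (κ - 1)`.

Proof by induction on `∑ a`.  If `∑ a ≤ w (κ - 1)` it is trivial (`|R_0(a)| ≥ 1`).  Otherwise take `κ`
entries in distinct classes (`exists_distinct`), `f` = indicator of this set, `a = (a - f) + f`,
`R_0(a) = R_0(a - f) + R_0(f)` (`R_add_eq`), all these sets are aperiodic (`stb_le`), by `kneser`
`|R_0(a)| ≥ |R_0(a - f)| + |R_0(f)| - 1`, and `|R_0(f)| ≥ 1 + T(κ)` by `DD` (`f` is `1`-bounded). -/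
theorem blk (n kap w : ℕ) [NeZero n] (hD : DD n) (hk1 : 1 ≤ kap) (hk : 1 + T kap ≤ n.minFac)
    {ι : Type} [Fintype ι] [DecidableEq ι] (c : ι → ZMod n) (a : ι → ℕ) (hB : Bdd w c a)
    (hst : stb (R c a 0) = ⊥) :
    (kap + 1) * ∑ k, a k + 2 ≤ 2 * (R c a 0).card + (kap + 1) * (w * (kap - 1)) := by
  induction hN : ∑ k, a k using Nat.strong_induction_on generalizing a with
  | _ N ih =>
    by_cases hle : N ≤ w * (kap - 1)
    · have h1 : 0 < (R c a 0).card := Finset.card_pos.2 ⟨0, zero_mem_R c a⟩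
      have h2 : (kap + 1) * N ≤ (kap + 1) * (w * (kap - 1)) := Nat.mul_le_mul_left _ hle
      omega
    · push Not at hle
      obtain ⟨J, hJc, hJ1, hJ2⟩ := exists_distinct c a hB kap (by rw [hN]; exact hle)
      set f : ι → ℕ := fun k => if k ∈ J then 1 else 0 with hf
      have hfa : ∀ k, f k ≤ a k := by
        intro k
        by_cases hk' : k ∈ J
        · simp only [hf, if_pos hk']
          exact hJ1 k hk'
        · simp only [hf, if_neg hk']
          exact Nat.zero_le _
      have hsf : ∑ k, f k = kap := by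
        simp only [hf]
        rw [Finset.sum_ite_mem, Finset.univ_inter, Finset.sum_const, hJc, smul_eq_mul, mul_one]
      have hBf : Bdd 1 c f := by
        refine ⟨hB.1, fun x => ?_⟩
        have e1 : ∑ k ∈ cls c x, f k = (cls c x ∩ J).card := by
          simp only [hf]
          rw [Finset.sum_ite_mem, Finset.sum_const, smul_eq_mul, mul_one]
        rw [e1, Finset.card_le_one]
        intro k hk' k' hk''
        rw [Finset.mem_inter] at hk' hk''
        refine hJ2 k hk'.2 k' hk''.2 ?_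
        have e2 : c k = x ∨ c k = -x := by
          exact (mem_cls_aux c x k).1 hk'.1
        have e3 : c k' = x ∨ c k' = -x := by
          exact (mem_cls_aux c x k').1 hk''.1
        rcases e2 with e2 | e2 <;> rcases e3 with e3 | e3 <;> rw [e2, e3] <;> simp
      set g : ι → ℕ := fun k => a k - f k with hg
      have hga : ∀ k, g k ≤ a k := fun k => Nat.sub_le _ _
      have hgf : a = g + f := by
        funext k
        simp only [hg, Pi.add_apply]
        have := hfa k
        omega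
      have hsg : ∑ k, g k + kap = N := by
        rw [← hN, ← hsf, ← Finset.sum_add_distrib]
        refine Finset.sum_congr rfl fun k _ => ?_
        have := hfa k
        simp only [hg]
        omega
      have hBg : Bdd w c g :=
        ⟨hB.1, fun x => (Finset.sum_le_sum fun k _ => hga k).trans (hB.2 x)⟩
      have hstg : stb (R c g 0) = ⊥ := le_bot_iff.1 (hst ▸ stb_le c g a hga)
      have h1 := ih (∑ k, g k) (by omega) g hBg hstg rfl
      have h2 : R c a 0 = R c g 0 + R c f 0 := by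
        rw [← R_add_eq, ← hgf]
      have h3 := kneser (R c g 0) (R c f 0) ⟨0, zero_mem_R c g⟩ ⟨0, zero_mem_R c f⟩
        (by rw [← h2]; exact hst)
      rw [← h2] at h3
      have h4 := hD ι c f hBf
      rw [hsf, min_eq_right hk] at h4
      have h5 := two_T kap
      have h6 : (kap + 1) * N = (kap + 1) * ∑ k, g k + kap * (kap + 1) := by
        rw [← hsg]
        ring
      omega

end RG
end
end

section

set_option autoImplicit false

open Finset

namespace RG

open SPR (T two_T T_succ le_T T_mono T_zero eight_T)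

variable {ι : Type*} [Fintype ι]

/-- `(x + y)^2/4 ≥ x^2/4 + y^2/4` (natural division). -/
lemma Gam_add (a b : ι → ℕ) : Gam a + Gam b ≤ Gam (a + b) := by
  unfold Gam
  rw [← Finset.sum_add_distrib]
  refine Finset.sum_le_sum (fun k _ => ?_)
  refine le_trans Nat.div_add_div_le_add_div ?_
  refine Nat.div_le_div_right ?_
  have h : (a + b) k = a k + b k := rfl
  rw [h]
  nlinarith [Nat.zero_le (a k * b k)]

/-- One step in a square. -/
private lemma sq_step (x : ℕ) (hx : 1 ≤ x) : x ^ 2 / 4 + 1 ≤ (x + 1) ^ 2 / 4 := by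
  rcases Nat.lt_or_ge x 2 with h | h
  · have hx1 : x = 1 := by omega
    subst hx1
    norm_num
  · have h1 : x ^ 2 + 4 ≤ (x + 1) ^ 2 := by nlinarith
    have h2 := Nat.div_le_div_right (c := 4) h1
    omega

/-- Induction on `r`: from `d` for `r` with `Γ(d) = r < Γ(a)` choose `k` with
`d k ^ 2/4 < a k ^ 2/4`; if `d k ≥ 1` add one to `d k`, if `d k = 0` set `d k = 2` (`a k ≥ 2`): `Γ` grows by
at least `1`, the sum by at most `2`. -/
lemma EXD (a : ι → ℕ) (r : ℕ) (hr : r ≤ Gam a) :
    ∃ d : ι → ℕ, (∀ k, d k ≤ a k) ∧ r ≤ Gam d ∧ ∑ k, d k ≤ 2 * r := by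
  classical
  induction r with
  | zero => exact ⟨fun _ => 0, fun k => Nat.zero_le _, Nat.zero_le _, by simp⟩
  | succ r ih =>
    obtain ⟨d, hd1, hd2, hd3⟩ := ih (by omega)
    by_cases hr1 : r + 1 ≤ Gam d
    · exact ⟨d, hd1, hr1, by omega⟩
    have hlt : ∑ k, d k ^ 2 / 4 < ∑ k, a k ^ 2 / 4 := by
      have h1 : Gam d < Gam a := by omega
      exact h1
    obtain ⟨k, _, hk⟩ := Finset.exists_lt_of_sum_lt hlt
    have hdk : d k < a k := by
      by_contra hcon
      have h1 : a k ≤ d k := by omega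
      have h2 : a k ^ 2 / 4 ≤ d k ^ 2 / 4 := Nat.div_le_div_right (Nat.pow_le_pow_left h1 2)
      omega
    have hex : ∃ v : ℕ, v ≤ a k ∧ d k ^ 2 / 4 + 1 ≤ v ^ 2 / 4 ∧ v ≤ d k + 2 := by
      rcases Nat.eq_zero_or_pos (d k) with h0 | h0
      · refine ⟨2, ?_, ?_, by omega⟩
        · by_contra hcon
          have h1 : a k ≤ 1 := by omega
          have h2 : a k ^ 2 / 4 ≤ 1 ^ 2 / 4 := Nat.div_le_div_right (Nat.pow_le_pow_left h1 2)
          have h3 : (1 : ℕ) ^ 2 / 4 = 0 := by norm_num
          omega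
        · rw [h0]; norm_num
      · exact ⟨d k + 1, by omega, sq_step _ h0, by omega⟩
    obtain ⟨v, hv1, hv2, hv3⟩ := hex
    refine ⟨Function.update d k v, ?_, ?_, ?_⟩
    · intro j
      by_cases hj : j = k
      · subst hj; simpa using hv1
      · rw [Function.update_of_ne hj]; exact hd1 j
    · have h1 : Gam (Function.update d k v) = v ^ 2 / 4 + ∑ j ∈ Finset.univ.erase k, d j ^ 2 / 4 := by
        unfold Gam
        rw [← Finset.add_sum_erase Finset.univ _ (Finset.mem_univ k)]
        congr 1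
        · simp
        · refine Finset.sum_congr rfl (fun j hj => ?_)
          rw [Function.update_of_ne (Finset.ne_of_mem_erase hj)]
      have h2 : Gam d = d k ^ 2 / 4 + ∑ j ∈ Finset.univ.erase k, d j ^ 2 / 4 := by
        unfold Gam
        rw [← Finset.add_sum_erase Finset.univ _ (Finset.mem_univ k)]
      omega
    · have h1 : ∑ j, Function.update d k v j = v + ∑ j ∈ Finset.univ.erase k, d j := by
        rw [← Finset.add_sum_erase Finset.univ _ (Finset.mem_univ k)]
        congr 1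
        · simp
        · refine Finset.sum_congr rfl (fun j hj => ?_)
          rw [Function.update_of_ne (Finset.ne_of_mem_erase hj)]
      have h2 : ∑ j, d j = d k + ∑ j ∈ Finset.univ.erase k, d j := by
        rw [← Finset.add_sum_erase Finset.univ _ (Finset.mem_univ k)]
      omega

/-- the entries `≥ 10` -/
def big (a : ι → ℕ) (k : ι) : ℕ := if 10 ≤ a k then a k else 0

/-- the entries `≤ 9` -/
def sml (a : ι → ℕ) (k : ι) : ℕ := if 10 ≤ a k then 0 else a k

lemma big_add_sml (a : ι → ℕ) : big a + sml a = a := by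
  funext k
  simp only [Pi.add_apply, big, sml]
  split_ifs <;> omega

lemma sml_le (a : ι → ℕ) (k : ι) : sml a k ≤ 9 := by
  unfold sml
  split_ifs <;> omega

lemma sml_le' (a : ι → ℕ) (k : ι) : sml a k ≤ a k := by
  unfold sml
  split_ifs <;> omega

lemma big_le' (a : ι → ℕ) (k : ι) : big a k ≤ a k := by
  unfold big
  split_ifs <;> omega

lemma Gam_big_sml (a : ι → ℕ) : Gam (big a) + Gam (sml a) = Gam a := by
  unfold Gam
  rw [← Finset.sum_add_distrib]
  refine Finset.sum_congr rfl (fun k _ => ?_)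
  unfold big sml
  split_ifs <;> simp

/-- `5 v ≤ 2 (v^2/4)` for `v ≥ 10` or `v = 0`. -/
private lemma big_one (a : ι → ℕ) (k : ι) : 5 * big a k ≤ 2 * (big a k ^ 2 / 4) := by
  unfold big
  split_ifs with h
  · generalize a k = v at h
    rcases Nat.lt_or_ge v 12 with h2 | h2
    · interval_cases v <;> norm_num
    · have h3 : (3 * v) * 4 ≤ v ^ 2 := by nlinarith
      have h4 : 3 * v ≤ v ^ 2 / 4 := (Nat.le_div_iff_mul_le (by norm_num)).2 h3
      omega
  · simp

/-- `5 v ≤ 2 (v^2/4)` for `v ≥ 10`. -/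
lemma big_sum (a : ι → ℕ) : 5 * ∑ k, big a k ≤ 2 * Gam (big a) := by
  unfold Gam
  rw [Finset.mul_sum, Finset.mul_sum]
  exact Finset.sum_le_sum (fun k _ => big_one a k)

open Classical in
private lemma EXB_aux (a : ι → ℕ) (S : Finset ι) :
    ∀ r : ℕ, r ≤ ∑ k ∈ S, big a k ^ 2 / 4 →
    ∃ d : ι → ℕ, (∀ k, d k ≤ big a k) ∧ r ≤ ∑ k ∈ S, d k ^ 2 / 4 ∧
      5 * ∑ k ∈ S, d k ≤ 2 * r + 10 * Nat.sqrt r + 10 ∧ ∀ k, k ∉ S → d k = 0 := by
  induction S using Finset.induction_on with
  | empty =>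
    intro r hr
    exact ⟨fun _ => 0, fun k => Nat.zero_le _, by simpa using hr, by simp, fun k _ => rfl⟩
  | insert k S hk ih =>
    intro r hr
    rw [Finset.sum_insert hk] at hr
    by_cases hS : r ≤ ∑ k ∈ S, big a k ^ 2 / 4
    · obtain ⟨d, hd1, hd2, hd3, hd4⟩ := ih r hS
      refine ⟨d, hd1, ?_, ?_, ?_⟩
      · rw [Finset.sum_insert hk]; omega
      · rw [Finset.sum_insert hk, hd4 k hk, Nat.zero_add]; exact hd3
      · intro j hj
        exact hd4 j (fun h => hj (Finset.mem_insert_of_mem h))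
    · obtain ⟨r', hr'⟩ : ∃ r', r = (∑ k ∈ S, big a k ^ 2 / 4) + r' :=
        ⟨r - ∑ k ∈ S, big a k ^ 2 / 4, by omega⟩
      refine ⟨fun j => if j = k then min (big a k) (2 * Nat.sqrt r' + 2) else
        if j ∈ S then big a j else 0, ?_, ?_, ?_, ?_⟩
      · intro j
        by_cases hj : j = k
        · subst hj; simp
        · simp only [if_neg hj]
          split_ifs
          · exact le_rfl
          · exact Nat.zero_le _
      · rw [Finset.sum_insert hk]
        have h1 : ∑ j ∈ S, (if j = k then min (big a k) (2 * Nat.sqrt r' + 2) else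
            if j ∈ S then big a j else 0) ^ 2 / 4 = ∑ j ∈ S, big a j ^ 2 / 4 := by
          refine Finset.sum_congr rfl (fun j hj => ?_)
          have hjk : j ≠ k := fun h => hk (h ▸ hj)
          rw [if_neg hjk, if_pos hj]
        rw [h1]
        simp only [if_true]
        have h2 : r' ≤ min (big a k) (2 * Nat.sqrt r' + 2) ^ 2 / 4 := by
          rcases le_total (big a k) (2 * Nat.sqrt r' + 2) with h | h
          · rw [min_eq_left h]; omega
          · rw [min_eq_right h]
            have h3 : (2 * Nat.sqrt r' + 2) ^ 2 / 4 = (Nat.sqrt r' + 1) ^ 2 := by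
              have h4 : (2 * Nat.sqrt r' + 2) ^ 2 = 4 * (Nat.sqrt r' + 1) ^ 2 := by ring
              rw [h4]
              exact Nat.mul_div_cancel_left _ (by norm_num)
            rw [h3]
            have h5 := Nat.lt_succ_sqrt' r'
            exact le_of_lt h5
        omega
      · rw [Finset.sum_insert hk]
        have h1 : ∑ j ∈ S, (if j = k then min (big a k) (2 * Nat.sqrt r' + 2) else
            if j ∈ S then big a j else 0) = ∑ j ∈ S, big a j := by
          refine Finset.sum_congr rfl (fun j hj => ?_)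
          have hjk : j ≠ k := fun h => hk (h ▸ hj)
          rw [if_neg hjk, if_pos hj]
        rw [h1]
        simp only [if_true]
        have h2 : 5 * ∑ j ∈ S, big a j ≤ 2 * ∑ j ∈ S, big a j ^ 2 / 4 := by
          rw [Finset.mul_sum, Finset.mul_sum]
          exact Finset.sum_le_sum (fun j _ => big_one a j)
        have h3 : min (big a k) (2 * Nat.sqrt r' + 2) ≤ 2 * Nat.sqrt r' + 2 := min_le_right _ _
        have h4 : Nat.sqrt r' ≤ Nat.sqrt r := Nat.sqrt_le_sqrt (by omega)
        omega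
      · intro j hj
        have hjk : j ≠ k := fun h => hj (h ▸ Finset.mem_insert_self _ _)
        have hjS : j ∉ S := fun h => hj (Finset.mem_insert_of_mem h)
        simp only [if_neg hjk, if_neg hjS]

/-- Greedy.  Take a maximal set `S` of entries with `Γ(big 1_S) ≤ r`.  If it contains all entries,
`r = Γ(big)` and `d = big`.  Otherwise let `k ∉ S`, `r' = r - Γ(big 1_S) < (big k)^2/4`, and `d` = `big` on
`S`, `min (big k) (2 √r' + 2)` at `k`: `(2 √r' + 2)^2/4 > r'`, and `5 ∑ d ≤ 2 Γ(big 1_S) + 5 (2 √r' + 2)`. -/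
lemma EXB (a : ι → ℕ) (r : ℕ) (hr : r ≤ Gam (big a)) :
    ∃ d : ι → ℕ, (∀ k, d k ≤ big a k) ∧ r ≤ Gam d ∧
      5 * ∑ k, d k ≤ 2 * r + 10 * Nat.sqrt r + 10 := by
  obtain ⟨d, hd1, hd2, hd3, _⟩ := EXB_aux a Finset.univ r hr
  exact ⟨d, hd1, hd2, hd3⟩

end RG
end
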