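import Pool.Agent.Lib.MP_d3cc86_co.RG.Defs
import Pool.Agent.Lib.MP_d3cc86_co.SP.U0
import Pool.Agent.Lib.MP_d3cc86_co.RG.A2
import Pool.Agent.Lib.MP_d3cc86_co.RG.W1
import Pool.Agent.Lib.MP_d3cc86_co.RG.N2a
import Pool.Agent.Lib.MP_d3cc86_co.RG.KN1

section

section

set_option autoImplicit false

open Finset Pointwise

namespace RG

open SPR (T two_T T_succ le_T T_mono T_zero eight_T)

section
variable {ι : Type*} [Fintype ι]

/-- number of entries larger than `l` -/
def sl (f : ι → ℕ) (l : ℕ) : ℕ := (Finset.univ.filter (fun k => l < f k)).card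

/-- `∑_l T(s_l)` -/
def UU0 (f : ι → ℕ) : ℕ := ∑ l ∈ Finset.range (∑ k, f k), T (sl f l)

private lemma sl_eq_zero_U0ga (f : ι → ℕ) (l : ℕ) (h : ∀ i, f i ≤ l) : sl f l = 0 := by
  unfold sl
  rw [Finset.card_eq_zero, Finset.filter_eq_empty_iff]
  intro i _
  exact not_lt.2 (h i)

private lemma sum_range_ext_U0ga (f : ι → ℕ) (N M : ℕ) (hN : ∀ i, f i ≤ N)
    (hNM : N ≤ M) :
    ∑ l ∈ Finset.range N, T (sl f l) = ∑ l ∈ Finset.range M, T (sl f l) := by
  refine Finset.sum_subset (Finset.range_subset_range.2 hNM) ?_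
  intro l _ hl
  rw [Finset.mem_range, not_lt] at hl
  rw [sl_eq_zero_U0ga f l (fun i => (hN i).trans hl), T_zero]

/-- (compare `SPR.U_eq`) -/
lemma UU0_eq (f : ι → ℕ) (N : ℕ) (hN : ∀ k, f k ≤ N) :
    UU0 f = ∑ l ∈ Finset.range N, T (sl f l) := by
  have hS : ∀ i, f i ≤ ∑ i, f i := fun i =>
    Finset.single_le_sum (f := f) (fun j _ => Nat.zero_le _) (Finset.mem_univ i)
  show ∑ l ∈ Finset.range (∑ i, f i), T (sl f l) = _
  rw [sum_range_ext_U0ga f _ (max N (∑ i, f i)) hS (le_max_right _ _),
    sum_range_ext_U0ga f N _ hN (le_max_left _ _)]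

/-- (compare `SPR.sum_sl`) -/
lemma sum_sl (f : ι → ℕ) (N : ℕ) (hN : ∀ k, f k ≤ N) :
    ∑ l ∈ Finset.range N, sl f l = ∑ k, f k := by
  unfold sl
  simp only [Finset.card_filter]
  rw [Finset.sum_comm]
  refine Finset.sum_congr rfl fun i _ => ?_
  rw [← Finset.card_filter]
  have h : (Finset.range N).filter (fun l => l < f i) = Finset.range (f i) := by
    ext l
    simp only [Finset.mem_filter, Finset.mem_range]
    have := hN i
    omega
  rw [h, Finset.card_range]

/-- (compare `SPR.sum_le_U`) -/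
lemma sum_le_UU0 (f : ι → ℕ) : ∑ k, f k ≤ UU0 f := by
  have hS : ∀ i, f i ≤ ∑ i, f i := fun i =>
    Finset.single_le_sum (f := f) (fun j _ => Nat.zero_le _) (Finset.mem_univ i)
  rw [UU0_eq f _ hS]
  conv_lhs => rw [← sum_sl f _ hS]
  exact Finset.sum_le_sum fun l _ => le_T _

/-- (compare `SPR.U_update`) -/
lemma UU0_update [DecidableEq ι] (a : ι → ℕ) (k : ι) (h2 : 2 ≤ a k) :
    UU0 a = UU0 (Function.update a k (a k - 2)) + sl a (a k - 1) + sl a (a k - 2) := by
  set b := Function.update a k (a k - 2) with hb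
  set N := ∑ j, a j with hN
  have hS : ∀ j, a j ≤ N := fun j =>
    Finset.single_le_sum (f := a) (fun k _ => Nat.zero_le _) (Finset.mem_univ j)
  have hba : ∀ j, b j ≤ a j := by
    intro j
    by_cases hj : j = k
    · subst hj
      rw [hb, Function.update_self]
      omega
    · rw [hb, Function.update_of_ne hj]
  have hS' : ∀ j, b j ≤ N := fun j => (hba j).trans (hS j)
  have hlev : ∀ l, sl a l = sl b l + if a k - 2 ≤ l ∧ l < a k then 1 else 0 := by
    intro l
    unfold sl
    by_cases hl : a k - 2 ≤ l ∧ l < a k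
    · rw [if_pos hl]
      have h1 : Finset.univ.filter (fun j => l < a j) =
          insert k (Finset.univ.filter (fun j => l < b j)) := by
        ext j
        simp only [Finset.mem_filter, Finset.mem_insert, Finset.mem_univ, true_and]
        by_cases hj : j = k
        · subst hj
          simp [hl.2]
        · rw [hb, Function.update_of_ne hj]
          simp [hj]
      rw [h1, Finset.card_insert_of_notMem]
      rw [Finset.mem_filter, hb, Function.update_self]
      rintro ⟨_, h⟩
      omega
    · rw [if_neg hl, add_zero]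
      congr 1
      ext j
      simp only [Finset.mem_filter, Finset.mem_univ, true_and]
      by_cases hj : j = k
      · subst hj
        rw [hb, Function.update_self]
        constructor
        · intro h3
          omega
        · intro h3
          omega
      · rw [hb, Function.update_of_ne hj]
  have hT : ∀ l, T (sl a l) = T (sl b l) + if a k - 2 ≤ l ∧ l < a k then sl a l else 0 := by
    intro l
    rw [hlev l]
    by_cases hl : a k - 2 ≤ l ∧ l < a k
    · simp only [if_pos hl]
      exact T_succ _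
    · simp only [if_neg hl]
      rfl
  rw [UU0_eq a N hS, UU0_eq b N hS', Finset.sum_congr rfl (fun l _ => hT l),
    Finset.sum_add_distrib, add_assoc]
  congr 1
  rw [← Finset.sum_filter]
  have hfil : (Finset.range N).filter (fun l => a k - 2 ≤ l ∧ l < a k) = {a k - 1, a k - 2} := by
    ext l
    simp only [Finset.mem_filter, Finset.mem_range, Finset.mem_insert, Finset.mem_singleton]
    have := hS k
    omega
  rw [hfil, Finset.sum_pair (by omega)]

lemma sum_update2 [DecidableEq ι] (a : ι → ℕ) (k : ι) (h2 : 2 ≤ a k) :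
    ∑ l, a l = ∑ l, (Function.update a k (a k - 2)) l + 2 := by
  rw [← Finset.add_sum_erase _ _ (Finset.mem_univ k), ← Finset.add_sum_erase _ _ (Finset.mem_univ k),
    Function.update_self]
  have h : ∑ l ∈ Finset.univ.erase k, (Function.update a k (a k - 2)) l =
      ∑ l ∈ Finset.univ.erase k, a l := by
    refine Finset.sum_congr rfl fun l hl => ?_
    rw [Function.update_of_ne (Finset.ne_of_mem_erase hl)]
  rw [h]
  omega

/-- (compare `SPR.U0_step`) -/
lemma UU0_step [DecidableEq ι] (a0 : ℕ) (a : ι → ℕ) (k : ι) (h2 : 2 ≤ a k)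
    (hmax : ∀ l, a l ≤ a k) :
    2 * a0 + 2 * (∑ l, (Function.update a k (a k - 2)) l) + 3 +
        (1 + T a0) * UU0 (Function.update a k (a k - 2)) ≤
      (a k - 1) * (1 + UU0 (Function.update a k (a k - 2))) + (1 + T a0) * UU0 a := by
  have hU := UU0_update a k h2
  have hS := sum_update2 a k h2
  have hle := sum_le_UU0 (Function.update a k (a k - 2))
  have h1 : 1 ≤ sl a (a k - 1) := by
    unfold sl
    exact Finset.card_pos.mpr ⟨k, Finset.mem_filter.mpr ⟨Finset.mem_univ _, by omega⟩⟩
  have h3 : 1 ≤ sl a (a k - 2) := by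
    unfold sl
    exact Finset.card_pos.mpr ⟨k, Finset.mem_filter.mpr ⟨Finset.mem_univ _, by omega⟩⟩
  have hT2 := two_T a0
  have hT1 := le_T a0
  rcases Nat.lt_or_ge 2 (a k) with hc | hc
  · -- c ≥ 3
    generalize Function.update a k (a k - 2) = b at *
    rw [hU]
    generalize UU0 b = u at *
    generalize (∑ l, b l) = s at *
    obtain ⟨x, hx⟩ : ∃ x, sl a (a k - 1) = x + 1 := ⟨_, (Nat.sub_add_cancel h1).symm⟩
    obtain ⟨y, hy⟩ : ∃ y, sl a (a k - 2) = y + 1 := ⟨_, (Nat.sub_add_cancel h3).symm⟩
    rw [hx, hy]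
    obtain ⟨c, hc'⟩ : ∃ c, a k - 1 = c + 2 := ⟨a k - 3, by omega⟩
    rw [hc']
    generalize T a0 = t at *
    have e1 : 2 + 2 * s ≤ (c + 2) * (1 + u) := by nlinarith
    have e2 : 2 * a0 + 1 ≤ 2 * (1 + t) := by nlinarith
    nlinarith [Nat.zero_le (t * x), Nat.zero_le (t * y)]
  · -- c = 2
    have hc2 : a k = 2 := le_antisymm hc h2
    have hall : ∀ l, a l ≤ 2 := fun l => (hmax l).trans hc
    have hUe := UU0_eq a 2 hall
    have hSe := sum_sl a 2 hall
    rw [Finset.sum_range_succ, Finset.sum_range_one] at hUe hSe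
    have e1 : a k - 1 = 1 := by omega
    have e2 : a k - 2 = 0 := by omega
    rw [e1] at h1
    rw [e2] at h3
    rw [e1, e2] at hU
    obtain ⟨x, hx⟩ : ∃ x, sl a 1 = x + 1 := ⟨_, (Nat.sub_add_cancel h1).symm⟩
    obtain ⟨y, hy⟩ : ∃ y, sl a 0 = y + 1 := ⟨_, (Nat.sub_add_cancel h3).symm⟩
    rw [hx, hy] at hU hUe hSe
    rw [T_succ, T_succ] at hUe
    have hlx := le_T x
    have hly := le_T y
    rw [e1]
    rw [e2] at hle hS
    rw [e2]
    generalize UU0 (Function.update a k 0) = u at *
    generalize (∑ l, (Function.update a k 0) l) = s at *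
    generalize (∑ l, a l) = sa at *
    generalize UU0 a = ua at *
    generalize T a0 = t at *
    have hu : u = T x + T y := by omega
    have hs : s = x + y := by omega
    rw [hU, hu, hs]
    nlinarith [Nat.zero_le (t * x), Nat.zero_le (t * y)]

/-- (compare `SPR.U0_base`) -/
lemma UU0_base (a0 : ℕ) (a : ι → ℕ) (h : ∀ l, a l ≤ 1) :
    1 + T (a0 + ∑ k, a k) ≤ (1 + T a0) * (1 + UU0 a) := by
  have hUe := UU0_eq a 1 h
  have hSe := sum_sl a 1 h
  rw [Finset.sum_range_one] at hUe hSe
  rw [hUe, ← hSe]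
  have h1 := two_T a0
  have h2 := two_T (sl a 0)
  have h3 := two_T (a0 + sl a 0)
  have h4 := Nat.mul_le_mul (le_T a0) (le_T (sl a 0))
  generalize T (a0 + sl a 0) = t3 at *
  generalize T (sl a 0) = t2 at *
  generalize T a0 = t1 at *
  generalize sl a 0 = o at *
  nlinarith

end

end RG
end

section

set_option autoImplicit false

open Finset Pointwise

namespace RG

open SPR (T two_T T_succ le_T T_mono T_zero eight_T)

/-- From lower bounds `min p0 (1 + w i) ≤ |X i|` to a lower bound for `|∑ X i|`. -/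
private theorem sum_bound_g (n : ℕ) [NeZero n] {κ : Type*} [DecidableEq κ] (s : Finset κ)
    (X : κ → Finset (ZMod n)) (w : κ → ℕ) (h : ∀ i ∈ s, min n.minFac (1 + w i) ≤ (X i).card) :
    min n.minFac (1 + ∑ i ∈ s, w i) ≤ (∑ i ∈ s, X i).card := by
  have hp : 1 ≤ n.minFac := Nat.minFac_pos n
  have hne : ∀ i ∈ s, (X i).Nonempty := by
    intro i hi
    have := h i hi
    apply Finset.card_pos.mp
    omega
  refine le_trans ?_ (cdn_multi n s X hne)
  by_cases hbig : ∃ i ∈ s, n.minFac - 1 ≤ w i
  · obtain ⟨i, hi, hw⟩ := hbig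
    have h1 := h i hi
    have h2 : (X i).card - 1 ≤ ∑ i ∈ s, ((X i).card - 1) :=
      Finset.single_le_sum (f := fun i => (X i).card - 1) (fun _ _ => Nat.zero_le _) hi
    omega
  · have hbig' : ∀ i ∈ s, w i < n.minFac - 1 := by
      intro i hi
      by_contra hcon
      exact hbig ⟨i, hi, by omega⟩
    have h3 : ∑ i ∈ s, w i ≤ ∑ i ∈ s, ((X i).card - 1) := by
      apply Finset.sum_le_sum
      intro i hi
      have h1 := h i hi
      have h2 := hbig' i hi
      omega
    omega

private theorem R_zero_fun {G : Type*} [AddCommGroup G] [Fintype G] {ι : Type*} [Fintype ι] (c : ι → G) :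
    R c (0 : ι → ℕ) 0 = (0 : Finset G) := by
  ext t
  rw [mem_R, Finset.mem_zero]
  constructor
  · rintro ⟨j, h1, h2, -⟩
    have hj : ∀ k, j k = 0 := fun k => Nat.le_zero.1 (h1 k)
    rw [← h2]
    unfold pos
    exact Finset.sum_eq_zero fun k _ => by rw [hj k, zero_smul]
  · rintro rfl
    exact ⟨fun _ => 0, fun _ => Nat.zero_le _, by simp [pos], Nat.zero_le _⟩

private theorem R_sum {G : Type*} [AddCommGroup G] [Fintype G] [DecidableEq G] {ι : Type*} [Fintype ι] (c : ι → G)
    {κ : Type*} [DecidableEq κ] (s : Finset κ) (b : κ → ι → ℕ) :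
    R c (∑ l ∈ s, b l) 0 = ∑ l ∈ s, R c (b l) 0 := by
  induction s using Finset.induction_on with
  | empty => rw [Finset.sum_empty, Finset.sum_empty, R_zero_fun]
  | insert l s hl ih => rw [Finset.sum_insert hl, Finset.sum_insert hl, R_add_eq, ih]

private theorem mem_cls_aux {G : Type*} [AddCommGroup G] {ι : Type*} [Fintype ι] (c : ι → G) (x : G) (k : ι) :
    k ∈ cls c x ↔ c k = x ∨ c k = -x := by
  unfold cls
  simp

/-- `|R_0(f)| ≥ min (p0, 1 + U(f))` for entries in distinct classes: `R_0(f) ⊇ ∑_l R_0(1_{f > l})`, `DD`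
for each level, `cdn_multi` (compare `SPR.seq_bound`). -/
lemma R_ge_UU0 (n : ℕ) [NeZero n] (hD : DD n) {ι : Type} [Fintype ι] [DecidableEq ι]
    (c : ι → ZMod n) (hF : Full 1 c) (f : ι → ℕ) :
    min n.minFac (1 + UU0 f) ≤ (R c f 0).card := by
  classical
  obtain ⟨N, hN⟩ : ∃ N, N = ∑ k, f k := ⟨_, rfl⟩
  have hf : f = ∑ l ∈ Finset.range N, fun k => if l < f k then 1 else 0 := by
    funext k
    rw [Finset.sum_apply, ← Finset.card_filter]
    have e : (Finset.range N).filter (fun l => l < f k) = Finset.range (f k) := by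
      ext l
      rw [Finset.mem_filter, Finset.mem_range, Finset.mem_range]
      have h1 : f k ≤ N := by
        rw [hN]
        exact Finset.single_le_sum (f := f) (fun _ _ => Nat.zero_le _) (Finset.mem_univ k)
      constructor
      · exact fun h => h.2
      · exact fun h => ⟨h.trans_le h1, h⟩
    rw [e, Finset.card_range]
  have hR : R c f 0 = ∑ l ∈ Finset.range N, R c (fun k => if l < f k then 1 else 0) 0 := by
    conv_lhs => rw [hf]
    exact R_sum c (Finset.range N) fun l k => if l < f k then 1 else 0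
  rw [hR]
  have hU : UU0 f = ∑ l ∈ Finset.range N, T (sl f l) := by
    rw [hN]
    rfl
  rw [hU]
  apply sum_bound_g
  intro l _
  have hb : Bdd 1 c (fun k => if l < f k then 1 else 0) := by
    refine ⟨hF.1, fun x => ?_⟩
    have h1 : ∑ k ∈ cls c x, (if l < f k then 1 else 0) ≤ (cls c x).card := by
      rw [Finset.card_eq_sum_ones]
      apply Finset.sum_le_sum
      intro k _
      split_ifs <;> omega
    refine h1.trans ?_
    by_cases hx : x = 0
    · have h2 : cls c x = ∅ := by
        rw [Finset.eq_empty_iff_forall_notMem]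
        intro k hk
        have hk2 := (mem_cls_aux c x k).1 hk
        rw [hx, neg_zero, or_self] at hk2
        exact hF.1 k hk2
      rw [h2, Finset.card_empty]
      exact Nat.zero_le 1
    · exact (hF.2 x hx).le
  have h3 := hD ι c (fun k => if l < f k then 1 else 0) hb
  have h4 : ∑ k, (if l < f k then 1 else 0) = sl f l := by
    unfold sl
    rw [Finset.card_filter]
  rw [h4] at h3
  exact h3

/-- **Lemma U0**, general version (compare `SPR.U0`; the proof is the same, with `R_ge_UU0`).
Conclusion: `1 + T m ≤ EE + (1 + T a0)(1 + U a)`, and `1 + U a ≤ |R a 0|`. -/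
theorem U0g (n : ℕ) [NeZero n] (hD : DD n) {ι : Type} [Fintype ι] [DecidableEq ι]
    (c : ι → ZMod n) (hF : Full 1 c) (a0 : ℕ) (a : ι → ℕ) (h : (R c a 0).card < n.minFac) :
    1 + T (a0 + ∑ k, a k) ≤ Linf (T a0) c a := by
  classical
  have key : ∀ N, ∀ a : ι → ℕ, (R c a 0).card < n.minFac → (∑ k, a k) = N →
      1 + T (a0 + ∑ k, a k) ≤ EE c a + (1 + T a0) * (1 + UU0 a) := by
    intro N
    induction N using Nat.strong_induction_on with
    | _ N ih =>
      intro a h hn
      by_cases hb : ∀ l, a l ≤ 1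
      · exact (UU0_base a0 a hb).trans (Nat.le_add_left _ _)
      · have hne : (Finset.univ : Finset ι).Nonempty := by
          rw [Finset.nonempty_iff_ne_empty]
          intro h0
          apply hb
          intro l
          exact absurd (Finset.mem_univ l) (by rw [h0]; exact Finset.notMem_empty l)
        obtain ⟨i, -, hmax⟩ := Finset.exists_max_image Finset.univ a hne
        have hmax' : ∀ l, a l ≤ a i := fun l => hmax l (Finset.mem_univ l)
        have h2 : 2 ≤ a i := by
          by_contra hlt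
          apply hb
          intro l
          have := hmax' l
          omega
        have hS := sum_update2 a i h2
        have hcard : (R c (Function.update a i (a i - 2)) 0).card ≤ (R c a 0).card := by
          apply Finset.card_le_card
          apply R_mono
          intro k
          by_cases hk : k = i
          · rw [hk, Function.update_self]
            exact Nat.sub_le _ _
          · rw [Function.update_of_ne hk]
        have hlt : (R c (Function.update a i (a i - 2)) 0).card < n.minFac := lt_of_le_of_lt hcard h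
        have hseq := R_ge_UU0 n hD c hF (Function.update a i (a i - 2))
        have hseq' : 1 + UU0 (Function.update a i (a i - 2)) ≤
            (R c (Function.update a i (a i - 2)) 0).card := by
          rcases min_le_iff.mp hseq with h' | h'
          · omega
          · exact h'
        have hpeel := peel c a i h2
        have hstep := UU0_step a0 a i h2 hmax'
        have hih := ih (∑ l, (Function.update a i (a i - 2)) l) (by omega)
          (Function.update a i (a i - 2)) hlt rfl
        have hTT : T (a0 + ∑ k, a k) = T (a0 + ∑ l, (Function.update a i (a i - 2)) l) +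
            2 * (a0 + ∑ l, (Function.update a i (a i - 2)) l) + 3 := by
          have e : a0 + ∑ k, a k = a0 + (∑ l, (Function.update a i (a i - 2)) l) + 1 + 1 := by omega
          rw [e, T_succ, T_succ]
          ring
        have hm := Nat.mul_le_mul_left (a i - 1) hseq'
        rw [hTT]
        generalize (∑ l, (Function.update a i (a i - 2)) l) = s at *
        generalize (R c (Function.update a i (a i - 2)) 0).card = r at *
        generalize EE c (Function.update a i (a i - 2)) = e' at *
        generalize UU0 (Function.update a i (a i - 2)) = u' at *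
        have e1 : (1 + T a0) * (1 + u') = (1 + T a0) + (1 + T a0) * u' := by ring
        have e2 : (1 + T a0) * (1 + UU0 a) = (1 + T a0) + (1 + T a0) * UU0 a := by ring
        rw [e1] at hih
        rw [e2]
        omega
  refine (key _ a h rfl).trans ?_
  have h1 : 1 + UU0 a ≤ (R c a 0).card := by
    rcases min_le_iff.mp (R_ge_UU0 n hD c hF a) with h' | h'
    · omega
    · exact h'
  unfold Linf
  have h2 := Nat.mul_le_mul_left (1 + T a0) h1
  omega

end RG
end
end

section

section

set_option autoImplicit false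

open Finset Pointwise

namespace RG

open SPR (T two_T T_succ le_T T_mono T_zero eight_T)

/-- Level bound.  `a = b + g`, `Θ = τ + Γ(b) + 1 ≤ q ≤ 1 + τ + Γ(b) + Γ(g)`; `F` a functional on the
sequences `f ≤ g` which drops by at most `∑ g'` when `g'` is removed, and
`2 |R_0(f)| ≥ (κ+1)(F f - D) + 2`.  Let `y = F g - D`, `L = min (q - Θ) (y/4)`.  Every level `v < Θ + L`
satisfies `4 |R_{v-τ}| ≥ 4 + (κ+1) y`: for `v < Θ` by `R_shift` with `d = b`; for `v = Θ - 1 + i`,
`1 ≤ i ≤ L`, take `g'` from `EXD` (`r = i ≤ Γ(g)`), `d = b + g'` (`Gam_add`), `f = g - g'`,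
`F f ≥ F g - 2 i`, `y - 2 i ≥ y/2`.  All other levels `v < q` are nonempty. -/
theorem levels {G : Type*} [AddCommGroup G] [Fintype G] {ι : Type*} [Fintype ι] (q tau : ℕ)
    (c : ι → G) (b g : ι → ℕ) (h1 : tau + Gam b + 1 ≤ q) (h2 : q ≤ 1 + tau + Gam b + Gam g)
    (F : (ι → ℕ) → ℕ) (kap D : ℕ)
    (hF : ∀ f g' : ι → ℕ, f + g' = g → F g ≤ F f + ∑ k, g' k)
    (hlev : ∀ f : ι → ℕ, (∀ k, f k ≤ g k) →
      (kap + 1) * F f + 2 ≤ 2 * (R c f 0).card + (kap + 1) * D) :
    4 * q + (kap + 1) * ((tau + Gam b + 1 + min (q - (tau + Gam b + 1)) ((F g - D) / 4)) *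
      (F g - D)) ≤ 4 * LL q tau c (b + g) := by
  -- the nonempty levels
  have hne : ∀ v, v < q → 1 ≤ (R c (b + g) (v - tau)).card := by
    intro v hv
    refine Finset.card_pos.mpr (R_nonempty c (b + g) ?_)
    have := Gam_add b g
    omega
  -- the large levels
  have hlarge : ∀ v, v < tau + Gam b + 1 + min (q - (tau + Gam b + 1)) ((F g - D) / 4) →
      4 + (kap + 1) * (F g - D) ≤ 4 * (R c (b + g) (v - tau)).card := by
    intro v hv
    rcases Nat.lt_or_ge v (tau + Gam b + 1) with hv1 | hv1
    · have e1 := R_shift c b g (v - tau) (by omega)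
      have e2 := hlev g (fun k => le_refl _)
      rcases Nat.lt_or_ge (F g) D with hD | hD
      · have e3 : F g - D = 0 := by omega
        rw [e3, mul_zero]
        have := hne v (by
          have := min_le_left (q - (tau + Gam b + 1)) ((F g - D) / 4)
          omega)
        omega
      · obtain ⟨y, hy⟩ := Nat.exists_eq_add_of_le hD
        have e3 : F g - D = y := by omega
        rw [e3]
        rw [hy] at e2
        have e4 : (kap + 1) * (D + y) = (kap + 1) * D + (kap + 1) * y := by ring
        rw [e4] at e2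
        omega
    · obtain ⟨i, hi⟩ := Nat.exists_eq_add_of_le hv1
      -- `v = Θ + i`, so `i + 1` is the excess
      have hL1 : i + 1 ≤ q - (tau + Gam b + 1) := by
        have := min_le_left (q - (tau + Gam b + 1)) ((F g - D) / 4)
        omega
      have hL2 : i + 1 ≤ (F g - D) / 4 := by
        have := min_le_right (q - (tau + Gam b + 1)) ((F g - D) / 4)
        omega
      obtain ⟨g', hg1, hg2, hg3⟩ := EXD g (i + 1) (by omega)
      have hsplit : (fun k => g k - g' k) + g' = g := by
        funext k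
        have := hg1 k
        simp only [Pi.add_apply]
        omega
      have hsplit2 : b + g = (b + g') + (fun k => g k - g' k) := by
        funext k
        have := hg1 k
        simp only [Pi.add_apply]
        omega
      have e1 := R_shift c (b + g') (fun k => g k - g' k) (v - tau) (by
        have := Gam_add b g'
        omega)
      rw [← hsplit2] at e1
      have e2 := hlev (fun k => g k - g' k) (fun k => Nat.sub_le _ _)
      have e3 := hF _ _ hsplit
      generalize hf : F (fun k => g k - g' k) = Ff at e2 e3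
      obtain ⟨y, hy⟩ : ∃ y, F g = D + y := ⟨F g - D, by omega⟩
      have e4 : F g - D = y := by omega
      rw [e4] at hL2 ⊢
      rw [hy] at e3
      -- `2 (Ff - D) ≥ y`
      obtain ⟨z, hz⟩ : ∃ z, Ff = D + z := ⟨Ff - D, by omega⟩
      rw [hz] at e2 e3
      have e5 : y ≤ 2 * z := by omega
      have e6 : (kap + 1) * y ≤ (kap + 1) * (2 * z) := Nat.mul_le_mul_left _ e5
      have e7 : (kap + 1) * (D + z) = (kap + 1) * D + (kap + 1) * z := by ring
      have e8 : (kap + 1) * (2 * z) = 2 * ((kap + 1) * z) := by ring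
      rw [e7] at e2
      omega
  generalize hN : tau + Gam b + 1 + min (q - (tau + Gam b + 1)) ((F g - D) / 4) = N at hlarge ⊢
  have hNq : N ≤ q := by
    have := min_le_left (q - (tau + Gam b + 1)) ((F g - D) / 4)
    omega
  obtain ⟨r, hr⟩ := Nat.exists_eq_add_of_le hNq
  unfold LL
  rw [hr, Finset.sum_range_add, mul_add 4 (∑ x ∈ range N, _), Finset.mul_sum, Finset.mul_sum]
  have s1 : ∑ _x ∈ range N, (4 + (kap + 1) * (F g - D)) ≤
      ∑ x ∈ range N, 4 * (R c (b + g) (x - tau)).card :=
    Finset.sum_le_sum fun x hx => hlarge x (Finset.mem_range.1 hx)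
  have s2 : ∑ _x ∈ range r, 4 ≤ ∑ x ∈ range r, 4 * (R c (b + g) (N + x - tau)).card :=
    Finset.sum_le_sum fun x hx => by
      have := hne (N + x) (by
        have := Finset.mem_range.1 hx
        omega)
      omega
  rw [Finset.sum_const, Finset.card_range, smul_eq_mul] at s1 s2
  have s3 : N * (4 + (kap + 1) * (F g - D)) = 4 * N + (kap + 1) * (N * (F g - D)) := by ring
  rw [s3] at s1
  omega

end RG
end

section

set_option autoImplicit false

open Finset Pointwise

namespace RG

open SPR (T two_T T_succ le_T T_mono T_zero eight_T)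

variable {n w : ℕ} [NeZero n] {ι : Type} [Fintype ι] [DecidableEq ι]

omit [NeZero n] in
private lemma p3c_mul (hn : Rough n) {m : ℕ} (h1 : 1 ≤ m) (h5 : m ≤ 5) {x : ZMod n} (hx : x ≠ 0) :
    (m : ZMod n) * x ≠ 0 := by
  intro h
  apply hx
  have hc : Nat.Coprime m n := Nat.coprime_of_dvd fun r hr hrm hrn => by
    have h2 := hn.2 r hr hrn
    have h3 := Nat.le_of_dvd (by omega) hrm
    omega
  have hu : IsUnit (m : ZMod n) := ⟨ZMod.unitOfCoprime m hc, ZMod.coe_unitOfCoprime m hc⟩
  exact (hu.mul_right_eq_zero).1 h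

omit [NeZero n] in
private lemma p3c_one (hn : Rough n) {x w : ZMod n} (hx : x ≠ 0) (h0 : w = x ∨ w = -x)
    (h1 : w - x = x ∨ w - x = -x) : False := by
  have m2 := p3c_mul hn (m := 2) (by norm_num) (by norm_num) hx
  have m3 := p3c_mul hn (m := 3) (by norm_num) (by norm_num) hx
  push_cast at m2 m3
  rcases h0 with rfl | rfl <;> rcases h1 with h1 | h1
  · apply hx; linear_combination -h1
  · apply hx; linear_combination h1
  · apply m3; linear_combination -h1
  · apply hx; linear_combination -h1

omit [NeZero n] in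
/-- one half of the case of two odd classes -/
private lemma p3c_two' (hn : Rough n) {x y w : ZMod n} (hx : x ≠ 0)
    (hw : w = -x)
    (h1 : w - x = x ∨ w - x = -x ∨ w - x = y ∨ w - x = -y)
    (h2 : w - y = x ∨ w - y = -x ∨ w - y = y ∨ w - y = -y)
    (h3 : w - x - y = x ∨ w - x - y = -x ∨ w - x - y = y ∨ w - x - y = -y) : False := by
  have m2 := p3c_mul hn (m := 2) (by norm_num) (by norm_num) hx
  have m3 := p3c_mul hn (m := 3) (by norm_num) (by norm_num) hx
  have m4 := p3c_mul hn (m := 4) (by norm_num) (by norm_num) hx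
  have m5 := p3c_mul hn (m := 5) (by norm_num) (by norm_num) hx
  push_cast at m2 m3 m4 m5
  subst hw
  rcases h1 with h1 | h1 | h1 | h1
  · apply m3; linear_combination -h1
  · apply hx; linear_combination -h1
  · have hy : y = -2 * x := by linear_combination -h1
    subst hy
    rcases h3 with h3 | h3 | h3 | h3
    · apply hx; linear_combination -h3
    · apply hx; linear_combination h3
    · apply m2; linear_combination h3
    · apply m2; linear_combination -h3
  · have hy : y = 2 * x := by linear_combination h1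
    subst hy
    rcases h2 with h2 | h2 | h2 | h2
    · apply m4; linear_combination -h2
    · apply m2; linear_combination -h2
    · apply m5; linear_combination -h2
    · apply hx; linear_combination -h2

omit [NeZero n] in
private lemma p3c_two (hn : Rough n) {x y w : ZMod n} (hx : x ≠ 0) (hy : y ≠ 0)
    (h0 : w = x ∨ w = -x ∨ w = y ∨ w = -y)
    (h1 : w - x = x ∨ w - x = -x ∨ w - x = y ∨ w - x = -y)
    (h2 : w - y = x ∨ w - y = -x ∨ w - y = y ∨ w - y = -y)
    (h3 : w - x - y = x ∨ w - x - y = -x ∨ w - x - y = y ∨ w - x - y = -y) : False := by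
  rcases h0 with h0 | h0 | h0 | h0
  · subst h0
    rw [sub_self] at h1
    rcases h1 with h1 | h1 | h1 | h1
    · exact hx h1.symm
    · exact hx (neg_eq_zero.1 h1.symm)
    · exact hy h1.symm
    · exact hy (neg_eq_zero.1 h1.symm)
  · exact p3c_two' hn hx h0 h1 h2 h3
  · subst h0
    rw [sub_self] at h2
    rcases h2 with h2 | h2 | h2 | h2
    · exact hx h2.symm
    · exact hx (neg_eq_zero.1 h2.symm)
    · exact hy h2.symm
    · exact hy (neg_eq_zero.1 h2.symm)
  · refine p3c_two' hn (x := y) (y := x) hy h0 ?_ ?_ ?_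
    · tauto
    · tauto
    · have e : w - y - x = w - x - y := by ring
      rw [e]
      tauto

private lemma p3c_T (s : ℕ) (h : 1 + T s ≤ 2 * s) : s = 1 ∨ s = 2 := by
  have h1 := two_T s
  have h2 : s * (s + 1) + 2 ≤ 4 * s := by omega
  have h3 : s ≤ 2 := by
    by_contra hc
    push Not at hc
    nlinarith
  interval_cases s
  · omega
  · exact Or.inl rfl
  · exact Or.inr rfl

omit [DecidableEq ι] in
private lemma p3c_allodd (c : ι → ZMod n) (a : ι → ℕ) (x : ZMod n) :
    x ∈ allodd c a ↔ x ≠ 0 ∧ ∀ k ∈ cls c x, a k % 2 = 1 := by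
  unfold allodd
  simp only [Finset.mem_filter, Finset.mem_univ, true_and]

omit [NeZero n] [DecidableEq ι] in
private lemma p3c_cls (c : ι → ZMod n) (x : ZMod n) (k : ι) :
    k ∈ cls c x ↔ c k = x ∨ c k = -x := by
  unfold cls
  simp only [Finset.mem_filter, Finset.mem_univ, true_and]

/-- sums over sets of odd entries -/
private lemma p3c_mem (c : ι → ZMod n) (a : ι → ℕ) (S : Finset ι) (hS : ∀ k ∈ S, a k % 2 = 1) :
    ∑ k ∈ S, c k ∈ R c (od a) 0 := by
  rw [mem_R]
  refine ⟨fun k => if k ∈ S then 1 else 0, fun k => ?_, ?_, Nat.zero_le _⟩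
  · show (if k ∈ S then 1 else 0) ≤ a k % 2
    split_ifs with h
    · exact (hS k h).ge
    · exact Nat.zero_le _
  · unfold pos
    simp only [ite_smul, one_smul, zero_smul]
    rw [Finset.sum_ite_mem, Finset.univ_inter]

/-- Small cases without zero entry.  `A0 = 2 q0 ≤ 6` and `X0` aperiodic: every `u` is in `X0 + Y`.

`u ∉ X0 + Y` means `u - X0 ⊆ allodd` (`Ys_compl`), so `|X0| ≤ A0 = 2 q0`.  `q0 = 0`: impossible
(`X0` is nonempty).  `q0 = 3`: `|X0| ≥ 1 + T 3 = 7 > 6` (`DD`).  `q0 = 1`, class `± i`: if `w ≥ 2`,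
`X0 ⊇ {0, i, 2i}` up to translation, `3 > 2`; if `w = 1`, the only odd entries are the all-odd
classes, `X0 = {0, ± i}`: `u, u ∓ i ∈ {i, -i}` impossible (`3 i ≠ 0`).  `q0 = 2`: if `w ≥ 2`,
`|X0| ≥ 3 + 3 - 1 = 5 > 4` (`cdn`); if `w = 1`: as in `SPR.K1u`, case `o = 2` (with signs: replace
`c k` by `- c k` if necessary; a translate of `X0` is `{0, i, k, i + k}`), needs `3 i, 5 i, 2 i, 4 i ≠ 0`. -/
lemma small_z0 (hn : Rough n) (h1 : 1 < n) (hw : 1 ≤ w) (hD : DD n) (c : ι → ZMod n)
    (hF : Full w c) (a : ι → ℕ) (hz : zz a = 0) (hA : (allodd c a).card ≤ 6) (u : ZMod n) :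
    ∃ t ∈ R c (od a) 0, ∃ y ∈ Ys c a, u = t + y := by
  by_contra hcon
  push Not at hcon
  have hnot : ∀ t ∈ R c (od a) 0, u - t ∈ allodd c a := by
    intro t ht
    by_contra hc
    have h2 := Ys_compl w hw c hF a hz (u - t) hc
    exact hcon t ht (u - t) h2 (by ring)
  have hp0 := rough_minFac hn h1
  have hcard : (R c (od a) 0).card ≤ (allodd c a).card := by
    refine Finset.card_le_card_of_injOn (fun t => u - t) (fun t ht => hnot t ht) ?_
    intro x _ y _ hxy
    exact sub_right_injective hxy
  set O : Finset ι := Finset.univ.filter (fun k => a k % 2 = 1) with hO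
  have hOc : O.card = oo a := rfl
  -- double counting
  have hdc : (allodd c a).card * w ≤ O.card * 2 := by
    classical
    refine Finset.card_mul_le_card_mul (fun x k => k ∈ cls c x) ?_ ?_
    · intro x hx
      have h2 : x ≠ 0 ∧ ∀ k ∈ cls c x, a k % 2 = 1 := (p3c_allodd c a x).1 hx
      rw [← hF.2 x h2.1]
      refine Finset.card_le_card fun k hk => ?_
      unfold Finset.bipartiteAbove
      rw [Finset.mem_filter]
      exact ⟨Finset.mem_filter.2 ⟨Finset.mem_univ k, h2.2 k hk⟩, hk⟩
    · intro k _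
      have h2 : (allodd c a).bipartiteBelow (fun x k => k ∈ cls c x) k ⊆ {c k, -c k} := by
        intro x hx
        unfold Finset.bipartiteBelow at hx
        have h3 := (Finset.mem_filter.1 hx).2
        have h4 := (p3c_cls c x k).1 h3
        rw [Finset.mem_insert, Finset.mem_singleton]
        rcases h4 with h4 | h4
        · exact Or.inl h4.symm
        · right
          rw [h4, neg_neg]
      exact (Finset.card_le_card h2).trans Finset.card_le_two
  have hsum : ∑ k, od a k = O.card := (sum_od a).trans hOc.symm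
  rcases Nat.lt_or_ge w 2 with hw2 | hw2
  · -- `w = 1`
    have hw1 : w = 1 := by omega
    subst hw1
    have hB := od_bdd (rough_odd hn) c hF a
    have h3 := hD ι c (od a) hB
    rw [hsum] at h3
    have h4 : 1 + T O.card ≤ 2 * O.card := by
      rcases le_total n.minFac (1 + T O.card) with h5 | h5
      · rw [min_eq_left h5] at h3
        omega
      · rw [min_eq_right h5] at h3
        omega
    have hrep : ∀ x ∈ allodd c a, ∃ k ∈ O, x = c k ∨ x = -c k := by
      intro x hx
      have h2 : x ≠ 0 ∧ ∀ k ∈ cls c x, a k % 2 = 1 := (p3c_allodd c a x).1 hx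
      have h5 : (cls c x).card = 1 := hF.2 x h2.1
      obtain ⟨k, hk⟩ := Finset.card_pos.1 (by omega : 0 < (cls c x).card)
      refine ⟨k, Finset.mem_filter.2 ⟨Finset.mem_univ k, h2.2 k hk⟩, ?_⟩
      have h6 := (p3c_cls c x k).1 hk
      rcases h6 with h6 | h6
      · exact Or.inl h6.symm
      · right
        rw [h6, neg_neg]
    have hOm : ∀ k ∈ O, a k % 2 = 1 := fun k hk => (Finset.mem_filter.1 hk).2
    rcases p3c_T _ h4 with ho | ho
    · rw [Finset.card_eq_one] at ho
      obtain ⟨i, hi⟩ := ho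
      have hiO : i ∈ O := by rw [hi]; exact Finset.mem_singleton_self i
      have hc : ∀ x ∈ R c (od a) 0, u - x = c i ∨ u - x = -c i := by
        intro x hx
        obtain ⟨k, hk, hk2⟩ := hrep _ (hnot x hx)
        rw [hi, Finset.mem_singleton] at hk
        rwa [hk] at hk2
      have e0 := hc _ (p3c_mem c a ∅ (by simp))
      have e1 := hc _ (p3c_mem c a {i} (by simpa using hOm i hiO))
      rw [Finset.sum_empty, sub_zero] at e0
      rw [Finset.sum_singleton] at e1
      exact p3c_one hn (hF.1 i) e0 e1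
    · rw [Finset.card_eq_two] at ho
      obtain ⟨i, k, hik, hi⟩ := ho
      have hiO : i ∈ O := by rw [hi]; simp
      have hkO : k ∈ O := by rw [hi]; simp
      have hc : ∀ x ∈ R c (od a) 0, u - x = c i ∨ u - x = -c i ∨ u - x = c k ∨ u - x = -c k := by
        intro x hx
        obtain ⟨l, hl, hl2⟩ := hrep _ (hnot x hx)
        rw [hi, Finset.mem_insert, Finset.mem_singleton] at hl
        rcases hl with rfl | rfl
        · rcases hl2 with h | h
          · exact Or.inl h
          · exact Or.inr (Or.inl h)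
        · exact Or.inr (Or.inr hl2)
      have e0 := hc _ (p3c_mem c a ∅ (by simp))
      have e1 := hc _ (p3c_mem c a {i} (by simpa using hOm i hiO))
      have e2 := hc _ (p3c_mem c a {k} (by simpa using hOm k hkO))
      have e3 := hc _ (p3c_mem c a {i, k} (by
        intro l hl
        rw [Finset.mem_insert, Finset.mem_singleton] at hl
        rcases hl with rfl | rfl
        · exact hOm _ hiO
        · exact hOm _ hkO))
      rw [Finset.sum_empty, sub_zero] at e0
      rw [Finset.sum_singleton] at e1 e2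
      rw [Finset.sum_pair hik, ← sub_sub] at e3
      exact p3c_two hn (hF.1 i) (hF.1 k) e0 e1 e2 e3
  · -- `w ≥ 2`
    have h3 := R_ge_sum n c hF.1 (od a)
    rw [hsum] at h3
    have h4 : (allodd c a).card ≤ O.card := by
      have : (allodd c a).card * 2 ≤ O.card * 2 := (Nat.mul_le_mul_left _ hw2).trans hdc
      omega
    rcases le_total n.minFac (1 + O.card) with h5 | h5
    · rw [min_eq_left h5] at h3
      omega
    · rw [min_eq_right h5] at h3
      omega

end RG
end

section

set_option autoImplicit false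

open Finset Pointwise

namespace RG

open SPR (T two_T T_succ le_T T_mono T_zero eight_T)

/-- the position of `k` in the enumeration of `S` -/
private noncomputable def encB {ι : Type*} [DecidableEq ι] (S : Finset ι) (k : ι) : ℕ :=
  if hk : k ∈ S then (S.equivFin ⟨k, hk⟩ : ℕ) else 0

private lemma encB_lt {ι : Type*} [DecidableEq ι] (S : Finset ι) (k : ι) (hk : k ∈ S) :
    encB S k < S.card := by
  unfold encB
  rw [dif_pos hk]
  exact (S.equivFin ⟨k, hk⟩).2

private lemma encB_inj {ι : Type*} [DecidableEq ι] (S : Finset ι) (k k' : ι) (hk : k ∈ S)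
    (hk' : k' ∈ S) (h : encB S k = encB S k') : k = k' := by
  unfold encB at h
  rw [dif_pos hk, dif_pos hk'] at h
  have h1 : (⟨k, hk⟩ : S) = ⟨k', hk'⟩ := S.equivFin.injective (Fin.ext h)
  exact congrArg Subtype.val h1

private theorem mem_cls_B {G : Type*} [AddCommGroup G] {ι : Type*} [Fintype ι] (c : ι → G) (x : G)
    (k : ι) : k ∈ cls c x ↔ c k = x ∨ c k = -x := by
  unfold cls
  simp

/-- From lower bounds `min p0 (1 + w i) ≤ |X i|` to a lower bound for `|∑ X i|`. -/
private theorem sum_bound_B (n : ℕ) [NeZero n] {κ : Type*} [DecidableEq κ] (s : Finset κ)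
    (X : κ → Finset (ZMod n)) (w : κ → ℕ) (h : ∀ i ∈ s, min n.minFac (1 + w i) ≤ (X i).card) :
    min n.minFac (1 + ∑ i ∈ s, w i) ≤ (∑ i ∈ s, X i).card := by
  have hp : 1 ≤ n.minFac := Nat.minFac_pos n
  have hne : ∀ i ∈ s, (X i).Nonempty := by
    intro i hi
    have := h i hi
    apply Finset.card_pos.mp
    omega
  refine le_trans ?_ (cdn_multi n s X hne)
  by_cases hbig : ∃ i ∈ s, n.minFac - 1 ≤ w i
  · obtain ⟨i, hi, hw⟩ := hbig
    have h1 := h i hi
    have h2 : (X i).card - 1 ≤ ∑ i ∈ s, ((X i).card - 1) :=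
      Finset.single_le_sum (f := fun i => (X i).card - 1) (fun _ _ => Nat.zero_le _) hi
    omega
  · have hbig' : ∀ i ∈ s, w i < n.minFac - 1 := by
      intro i hi
      by_contra hcon
      exact hbig ⟨i, hi, by omega⟩
    have h3 : ∑ i ∈ s, w i ≤ ∑ i ∈ s, ((X i).card - 1) := by
      apply Finset.sum_le_sum
      intro i hi
      have h1 := h i hi
      have h2 := hbig' i hi
      omega
    omega

private theorem R_zero_B {G : Type*} [AddCommGroup G] [Fintype G] {ι : Type*} [Fintype ι]
    (c : ι → G) : R c (0 : ι → ℕ) 0 = (0 : Finset G) := by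
  ext t
  rw [mem_R, Finset.mem_zero]
  constructor
  · rintro ⟨j, h1, h2, -⟩
    have hj : ∀ k, j k = 0 := fun k => Nat.le_zero.1 (h1 k)
    rw [← h2]
    unfold pos
    exact Finset.sum_eq_zero fun k _ => by rw [hj k, zero_smul]
  · rintro rfl
    exact ⟨fun _ => 0, fun _ => Nat.zero_le _, by simp [pos], Nat.zero_le _⟩

private theorem R_sum_B {G : Type*} [AddCommGroup G] [Fintype G] [DecidableEq G] {ι : Type*}
    [Fintype ι] (c : ι → G) {κ : Type*} [DecidableEq κ] (s : Finset κ) (b : κ → ι → ℕ) :
    R c (∑ l ∈ s, b l) 0 = ∑ l ∈ s, R c (b l) 0 := by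
  induction s using Finset.induction_on with
  | empty => rw [Finset.sum_empty, Finset.sum_empty, R_zero_B]
  | insert l s hl ih => rw [Finset.sum_insert hl, Finset.sum_insert hl, R_add_eq, ih]

/-- The entries of a full system can be coloured with `w` colours such that entries in the same class
have different colours (enumerate each class). -/
lemma exists_colour {G : Type*} [AddCommGroup G] {ι : Type*} [Fintype ι] [DecidableEq ι] {w : ℕ}
    (c : ι → G) (hF : Full w c) :
    ∃ col : ι → Fin w, ∀ k k', col k = col k' → (c k = c k' ∨ c k = -c k') → k = k' := by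
  have hmem : ∀ k, k ∈ cls c (c k) := fun k => (mem_cls_B c (c k) k).2 (Or.inl rfl)
  have hlt : ∀ k, encB (cls c (c k)) k < w := by
    intro k
    have h := encB_lt (cls c (c k)) k (hmem k)
    rwa [hF.2 (c k) (hF.1 k)] at h
  refine ⟨fun k => ⟨encB (cls c (c k)) k, hlt k⟩, ?_⟩
  intro k k' hcol hkk
  have he : encB (cls c (c k)) k = encB (cls c (c k')) k' := congrArg Fin.val hcol
  have hS : cls c (c k) = cls c (c k') := by
    ext i
    rw [mem_cls_B, mem_cls_B]
    rcases hkk with h | h
    · rw [h]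
    · rw [h, neg_neg]
      exact or_comm
  rw [hS] at he
  refine encB_inj (cls c (c k')) k k' ?_ (hmem k') he
  rw [← hS]
  exact hmem k

/-- `0/1` entries: `R_0(a) = ∑_l R_0(a 1_{col = l})`, each summand has `≥ min(p0, 1 + T(m_l))` elements
(`DD`), `cdn_multi`, `gg_parts`. -/
lemma R_ge_gg (n w : ℕ) [NeZero n] (hw : 1 ≤ w) (hD : DD n) {ι : Type} [Fintype ι] [DecidableEq ι]
    (c : ι → ZMod n) (hF : Full w c) (a : ι → ℕ) (ha : ∀ k, a k ≤ 1) :
    min n.minFac (gg w (∑ k, a k)) ≤ (R c a 0).card := by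
  classical
  obtain ⟨col, hcol⟩ := exists_colour c hF
  set b : Fin w → ι → ℕ := fun l k => if col k = l then a k else 0 with hb
  have hab : a = ∑ l, b l := by
    funext k
    rw [Finset.sum_apply]
    simp only [hb]
    rw [Finset.sum_ite_eq]
    simp
  have hR : R c a 0 = ∑ l, R c (b l) 0 := by
    conv_lhs => rw [hab]
    exact R_sum_B c Finset.univ b
  have hpart : ∀ l ∈ (Finset.univ : Finset (Fin w)),
      min n.minFac (1 + T (∑ k, b l k)) ≤ (R c (b l) 0).card := by
    intro l _
    apply hD ι c (b l)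
    refine ⟨hF.1, fun x => ?_⟩
    have h1 : ∑ k ∈ cls c x, b l k ≤ ((cls c x).filter (fun k => col k = l)).card := by
      rw [Finset.card_filter]
      apply Finset.sum_le_sum
      intro k _
      simp only [hb]
      split_ifs
      · exact ha k
      · exact le_rfl
    refine h1.trans ?_
    rw [Finset.card_le_one]
    intro k hk k' hk'
    rw [Finset.mem_filter, mem_cls_B] at hk hk'
    apply hcol k k' (hk.2.trans hk'.2.symm)
    rcases hk.1 with h | h <;> rcases hk'.1 with h' | h'
    · left; rw [h, h']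
    · right; rw [h, h', neg_neg]
    · right; rw [h, h']
    · left; rw [h, h']
  have hS := sum_bound_B n Finset.univ (fun l => R c (b l) 0) (fun l => T (∑ k, b l k)) hpart
  rw [hR]
  have hg := gg_parts w hw (fun l => ∑ k, b l k)
  have hsum : ∑ l, ∑ k, b l k = ∑ k, a k := by
    rw [Finset.sum_comm]
    refine Finset.sum_congr rfl fun k _ => ?_
    simp only [hb]
    rw [Finset.sum_ite_eq]
    simp
  rw [hsum] at hg
  refine le_trans ?_ hS
  exact min_le_min_left _ hg

end RG
end

section

set_option autoImplicit false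

open Finset Pointwise

namespace RG

open SPR (T two_T T_succ le_T T_mono T_zero eight_T)

/-- Small `R_0`, `w ≥ 2`.  Induction on `m = ∑ s + ∑ a`.
(1) some `s l ≥ 1`: take `l` with `s l` maximal (`w s_l ≥ ∑ s`), lower `s l` by one: `Linf` drops by
`s_l |R_0(a)| ≥ s_l (1 + ∑ a)` (`R_ge_sum`), and `gg w m = gg w (m-1) + ((m-1)/w + 1)`,
`(m - 1)/w + 1 ≤ s_l + ∑ a ≤ s_l (1 + ∑ a)`.
(2) `s = 0`, all `a ≤ 1`: `Linf ≥ |R_0(a)| ≥ gg w m` (`R_ge_gg`).
(3) `s = 0`, some `a k ≥ 2`: `a' = update a k (a k - 2)`: by `Linf_peel`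
`Linf a ≥ Linf a' + |R_0(a')| + (|R_0(a)| - |R_0(a')|)` with `|R_0(a')| ≥ 1 + ∑ a' = m - 1` and
`|R_0(a)| ≥ |R_0(a')| + 2` (`R_0(a) = R_0(a') + {0, c, 2c}`, `cdn`); the total gain `m + 1` is at least
`(m-1)/w + 1 + (m-2)/w + 1`. -/
theorem baseW (n w : ℕ) [NeZero n] (hw : 2 ≤ w) (hD : DD n) {ι : Type} [Fintype ι] [DecidableEq ι]
    (c : ι → ZMod n) (hF : Full w c) (m : ℕ) : ∀ (s : Fin w → ℕ) (a : ι → ℕ),
    ∑ l, s l + ∑ k, a k = m → (R c a 0).card < n.minFac →
    gg w m ≤ Linf (∑ l, T (s l)) c a := by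
  induction m using Nat.strong_induction_on with
  | _ m ih =>
  intro s a hm hR
  have hne : ∀ k, c k ≠ 0 := hF.1
  have hsum : 1 + ∑ k, a k ≤ (R c a 0).card := by
    have h := R_ge_sum n c hne a
    omega
  by_cases hs : ∃ l, 1 ≤ s l
  · -- lower the largest `s l`
    obtain ⟨l0, hl0⟩ := hs
    obtain ⟨l, -, hl⟩ := Finset.exists_max_image (Finset.univ : Finset (Fin w)) s ⟨l0, mem_univ _⟩
    have hl1 : 1 ≤ s l := hl0.trans (hl l0 (mem_univ _))
    have hle : ∑ i, s i ≤ w * s l := by
      calc ∑ i, s i ≤ ∑ _i : Fin w, s l := Finset.sum_le_sum fun i _ => hl i (mem_univ _)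
        _ = w * s l := by simp
    obtain ⟨b, hb⟩ : ∃ b, s l = b + 1 := ⟨s l - 1, by omega⟩
    set s' := Function.update s l b with hs'
    have e1 : ∑ i, s i = (∑ i, s' i) + 1 := by
      rw [← Finset.add_sum_erase _ _ (mem_univ l), ← Finset.add_sum_erase _ s' (mem_univ l)]
      have h1 : s' l = b := by rw [hs', Function.update_self]
      have h2 : ∑ i ∈ univ.erase l, s' i = ∑ i ∈ univ.erase l, s i := by
        refine Finset.sum_congr rfl fun i hi => ?_
        rw [hs', Function.update_of_ne (Finset.ne_of_mem_erase hi)]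
      rw [h1, h2, hb]
      omega
    have e2 : ∑ i, T (s i) = (∑ i, T (s' i)) + (b + 1) := by
      rw [← Finset.add_sum_erase _ (fun i => T (s i)) (mem_univ l),
        ← Finset.add_sum_erase _ (fun i => T (s' i)) (mem_univ l)]
      have h1 : s' l = b := by rw [hs', Function.update_self]
      have h2 : ∑ i ∈ univ.erase l, T (s' i) = ∑ i ∈ univ.erase l, T (s i) := by
        refine Finset.sum_congr rfl fun i hi => ?_
        rw [hs', Function.update_of_ne (Finset.ne_of_mem_erase hi)]
      simp only [h1, h2, hb, T_succ]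
      omega
    obtain ⟨m', hm'⟩ : ∃ m', m = m' + 1 := ⟨m - 1, by omega⟩
    have h3 := ih m' (by omega) s' a (by omega) hR
    rw [e2, Linf_tau, hm', gg_succ w m' (by omega)]
    refine Nat.add_le_add h3 ?_
    have hA : m' / w + 1 ≤ (b + 1) + ∑ k, a k := by
      have h4 : m' / w < (b + 1) + ∑ k, a k := by
        rw [Nat.div_lt_iff_lt_mul (by omega)]
        have h5 : m' < w * (b + 1) + ∑ k, a k := by
          rw [hb] at hle
          omega
        have h6 : ∑ k, a k ≤ (∑ k, a k) * w := Nat.le_mul_of_pos_right _ (by omega)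
        nlinarith
      omega
    calc m' / w + 1 ≤ (b + 1) + ∑ k, a k := hA
      _ ≤ (b + 1) * (1 + ∑ k, a k) := by nlinarith [Nat.zero_le (b * ∑ k, a k)]
      _ ≤ (b + 1) * (R c a 0).card := Nat.mul_le_mul_left _ hsum
  · push Not at hs
    have hs0 : ∀ l, s l = 0 := fun l => by have := hs l; omega
    have e0 : ∑ l, s l = 0 := Finset.sum_eq_zero fun l _ => hs0 l
    have e1 : ∑ l, T (s l) = 0 := Finset.sum_eq_zero fun l _ => by rw [hs0 l, T_zero]
    rw [e1]
    rw [e0, zero_add] at hm
    by_cases ha : ∀ k, a k ≤ 1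
    · have h1 := R_ge_gg n w (by omega) hD c hF a ha
      have h2 := R_le_Linf 0 c a
      rw [hm] at h1
      omega
    · push Not at ha
      obtain ⟨k, hk⟩ := ha
      have hk2 : 2 ≤ a k := hk
      obtain ⟨b, hb⟩ : ∃ b, a k = b + 2 := ⟨a k - 2, by omega⟩
      have hb' : a k - 2 = b := by omega
      set a' := Function.update a k (a k - 2) with ha'
      have hak : a' k = b := by rw [ha', Function.update_self, hb']
      have hai : ∀ i, i ≠ k → a' i = a i := fun i hi => by rw [ha', Function.update_of_ne hi]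
      have e2 : ∑ i, a i = (∑ i, a' i) + 2 := by
        rw [← Finset.add_sum_erase _ _ (mem_univ k), ← Finset.add_sum_erase _ a' (mem_univ k)]
        have h2 : ∑ i ∈ univ.erase k, a' i = ∑ i ∈ univ.erase k, a i :=
          Finset.sum_congr rfl fun i hi => hai i (Finset.ne_of_mem_erase hi)
        rw [hak, h2, hb]
        omega
      have hle : ∀ i, a' i ≤ a i := by
        intro i
        by_cases hi : i = k
        · subst hi; rw [hak]; omega
        · rw [hai i hi]
      have hR' : (R c a' 0).card < n.minFac :=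
        lt_of_le_of_lt (Finset.card_le_card (R_mono c _ _ hle)) hR
      obtain ⟨m', hm'⟩ : ∃ m', m = m' + 2 := ⟨m - 2, by omega⟩
      have h3 := ih m' (by omega) s a' (by rw [e0]; omega) hR'
      rw [e1] at h3
      have hp := Linf_peel 0 c a k hk2
      rw [← ha'] at hp
      have hsum' : 1 + ∑ i, a' i ≤ (R c a' 0).card := by
        have h := R_ge_sum n c hne a'
        omega
      -- two more elements
      have hadd : (R c a' 0).card + 2 ≤ (R c a 0).card := by
        set f : ι → ℕ := Function.update 0 k 2 with hf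
        have ef : a = a' + f := by
          funext i
          by_cases hi : i = k
          · subst hi
            rw [Pi.add_apply, hak, hf, Function.update_self]
            exact hb
          · rw [Pi.add_apply, hai i hi, hf, Function.update_of_ne hi]
            rfl
        have hfs : ∑ i, f i = 2 := by
          rw [← Finset.add_sum_erase _ _ (mem_univ k)]
          have h2 : ∑ i ∈ univ.erase k, f i = 0 := by
            refine Finset.sum_eq_zero fun i hi => ?_
            rw [hf, Function.update_of_ne (Finset.ne_of_mem_erase hi)]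
            rfl
          rw [h2, hf, Function.update_self]
        have h4 := R_ge_sum n c hne f
        rw [hfs] at h4
        have h5 := cdn n (R c a' 0) (R c f 0) ⟨0, zero_mem_R c a'⟩ ⟨0, zero_mem_R c f⟩
        rw [← R_add_eq, ← ef] at h5
        omega
      have hg : gg w m = gg w m' + (m' / w + 1) + ((m' + 1) / w + 1) := by
        rw [hm', show m' + 2 = (m' + 1) + 1 from rfl, gg_succ w (m' + 1) (by omega),
          gg_succ w m' (by omega)]
      have h7 : m' / w ≤ m' / 2 := Nat.div_le_div_left hw (by norm_num)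
      have h8 : (m' + 1) / w ≤ (m' + 1) / 2 := Nat.div_le_div_left hw (by norm_num)
      have h9 : (R c a' 0).card ≤ (a k - 1) * (R c a' 0).card :=
        Nat.le_mul_of_pos_left _ (by omega)
      have h10 : 2 ≤ (1 + 0) * ((R c a 0).card - (R c a' 0).card) := by omega
      omega

end RG
end

section

set_option autoImplicit false

open Finset Pointwise

namespace RG

open SPR (T two_T T_succ le_T T_mono T_zero eight_T)

/-- Base case of the induction in `UU`: `2 m ≤ w (minFac n - 1)`: `Linf ≥ φ_1(m)` or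
`Linf ≥ minFac n = φ_{minFac n}(m)`. (`w = 1`: `U0g`; `w ≥ 2`: `baseW`; if `|R_0(a)| ≥ minFac n` use
`R_le_Linf`, `ph_small`.) -/
theorem UU_base (n w : ℕ) [NeZero n] (hn : Rough n) (h1 : 1 < n) (hw : 1 ≤ w) (hD : DD n)
    {ι : Type} [Fintype ι] [DecidableEq ι] (c : ι → ZMod n) (hF : Full w c) (s : Fin w → ℕ)
    (a : ι → ℕ) (hm : 2 * (∑ l, s l + ∑ k, a k) ≤ w * (n.minFac - 1)) :
    ∃ h, h ∣ n ∧ ph w h (∑ l, s l + ∑ k, a k) ≤ Linf (∑ l, T (s l)) c a := by
  rcases lt_or_ge (R c a 0).card n.minFac with hR | hR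
  · refine ⟨1, one_dvd n, ?_⟩
    rw [ph_h_one]
    rcases Nat.lt_or_ge 1 w with h2 | h2
    · exact baseW n w h2 hD c hF _ s a rfl hR
    · obtain rfl : w = 1 := by omega
      have h3 := U0g n hD c hF (s 0) a hR
      have h4 : ∑ l, s l = s 0 := by
        rw [Fin.sum_univ_one]
      have h5 : ∑ l, T (s l) = T (s 0) := by
        rw [Fin.sum_univ_one]
      have h6 : gg 1 (s 0 + ∑ k, a k) = 1 + T (s 0 + ∑ k, a k) := by
        unfold gg
        rw [Nat.div_one, Nat.mod_one, zero_mul, add_zero, one_mul]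
      rw [h4, h5, h6]
      exact h3
  · have hp : n.minFac.Prime := Nat.minFac_prime (by omega)
    have h10 : 10000 ≤ n.minFac := hn.2 _ hp (Nat.minFac_dvd n)
    have hodd : n.minFac % 2 = 1 := by
      rcases hp.eq_two_or_odd with h | h
      · omega
      · exact h
    refine ⟨n.minFac, Nat.minFac_dvd n, ?_⟩
    have hm' : ∑ l, s l + ∑ k, a k ≤ w * ((n.minFac - 1) / 2) := by
      obtain ⟨q, hq⟩ : ∃ q, n.minFac = 2 * q + 1 := ⟨n.minFac / 2, by omega⟩
      rw [hq] at hm ⊢
      have e1 : (2 * q + 1 - 1) / 2 = q := by omega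
      have e2 : w * (2 * q + 1 - 1) = 2 * (w * q) := by
        rw [Nat.add_sub_cancel]
        ring
      rw [e1]
      rw [e2] at hm
      omega
    rw [ph_small w n.minFac _ hm']
    exact hR.trans (R_le_Linf _ c a)

end RG
end

section

set_option autoImplicit false

open Finset Pointwise

namespace RG

open SPR (T two_T T_succ le_T T_mono T_zero eight_T)

variable {N : ℕ} [NeZero N] {ι : Type} [Fintype ι] [DecidableEq ι]

/-- Aperiodic case: `f ≤ sml a`, `stb (R_0(f)) ≤ stb (R_0(a)) = 0` (`stb_le`), `full_bdd`, `blk`. -/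
lemma lev_ap (kap : ℕ) (hD : DD N) (hk1 : 1 ≤ kap) (hk : 1 + T kap ≤ N.minFac) (c : ι → ZMod N)
    (hF : Full 1 c) (a : ι → ℕ) (hst : stb (R c a 0) = ⊥) (f : ι → ℕ)
    (hf : ∀ k, f k ≤ sml a k) :
    (kap + 1) * ∑ k, f k + 2 ≤ 2 * (R c f 0).card + (kap + 1) * (9 * (kap - 1)) := by
  have hfa : ∀ k, f k ≤ a k := fun k => (hf k).trans (sml_le' a k)
  have h1 : stb (R c f 0) = ⊥ := le_bot_iff.1 (hst ▸ stb_le c f a hfa)
  have h2 : Bdd (1 * 9) c f := full_bdd 9 c hF f fun k => (hf k).trans (sml_le a k)
  rw [one_mul] at h2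
  exact blk N kap 9 hD hk1 hk c f h2 h1

/-- `K = stb (R_0(a))` of prime order `≥ (κ+1)/2`: `stb (R_0(f)) ≤ K` is `0` (`blk`,
`∑ f ≥ outs K f`) or `K` (`kn1`). -/
lemma lev_per (kap : ℕ) (hD : DD N) (hk1 : 1 ≤ kap) (hk : 1 + T kap ≤ N.minFac) (c : ι → ZMod N)
    (hF : Full 1 c) (a : ι → ℕ) (hp : (Nat.card (stb (R c a 0))).Prime)
    (hpk : kap + 1 ≤ 2 * Nat.card (stb (R c a 0))) (f : ι → ℕ) (hf : ∀ k, f k ≤ sml a k) :
    (kap + 1) * outs (stb (R c a 0)) c f + 2 ≤
      2 * (R c f 0).card + (kap + 1) * (9 * (kap - 1)) := by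
  have hfa : ∀ k, f k ≤ a k := fun k => (hf k).trans (sml_le' a k)
  have h2 : Bdd (1 * 9) c f := full_bdd 9 c hF f fun k => (hf k).trans (sml_le a k)
  rw [one_mul] at h2
  have hle := stb_le c f a hfa
  have hdvd : Nat.card (stb (R c f 0)) ∣ Nat.card (stb (R c a 0)) :=
    AddSubgroup.card_dvd_of_le hle
  rcases (Nat.dvd_prime hp).1 hdvd with h | h
  · have h1 : stb (R c f 0) = ⊥ := AddSubgroup.eq_bot_of_card_eq _ h
    have h3 := blk N kap 9 hD hk1 hk c f h2 h1
    have h4 : outs (stb (R c a 0)) c f ≤ ∑ k, f k := by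
      rw [← ins_add_outs (stb (R c a 0)) c f]
      exact Nat.le_add_left _ _
    have h5 := Nat.mul_le_mul_left (kap + 1) h4
    omega
  · have h1 : stb (R c f 0) = stb (R c a 0) :=
      AddSubgroup.eq_of_le_of_card_ge hle h.ge
    have h3 := kn1 c f
    rw [h1] at h3
    have h5 : (kap + 1) * outs (stb (R c a 0)) c f ≤
        2 * Nat.card (stb (R c a 0)) * outs (stb (R c a 0)) c f := Nat.mul_le_mul_right _ hpk
    have h6 : 1 ≤ Nat.card (stb (R c a 0)) := hp.one_lt.le
    have h7 : 2 * (Nat.card (stb (R c a 0)) * (1 + outs (stb (R c a 0)) c f)) =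
        2 * Nat.card (stb (R c a 0)) + 2 * Nat.card (stb (R c a 0)) * outs (stb (R c a 0)) c f := by
      ring
    omega

private lemma outs_drop {G : Type*} [AddCommGroup G] (K : AddSubgroup G) {ι : Type*} [Fintype ι] (c : ι → G)
    (f g' g : ι → ℕ) (h : f + g' = g) : outs K c g ≤ outs K c f + ∑ k, g' k := by
  classical
  subst h
  have h1 : outs K c (f + g') = outs K c f + outs K c g' := by
    unfold outs
    rw [← Finset.sum_add_distrib]
    rfl
  rw [h1, ← ins_add_outs K c g']
  omega

/-- The level bound with `F = ∑`. -/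
lemma lev1 (q a0 kap : ℕ) (hD : DD N) (hk1 : 1 ≤ kap) (hk : 1 + T kap ≤ N.minFac) (c : ι → ZMod N)
    (hF : Full 1 c) (a : ι → ℕ) (hst : stb (R c a 0) = ⊥)
    (h1 : T a0 + Gam (big a) + 1 ≤ q) (h2 : q ≤ 1 + T a0 + Gam a) :
    4 * q + (kap + 1) * ((T a0 + Gam (big a) + 1 + min (q - (T a0 + Gam (big a) + 1))
      ((∑ k, sml a k - 9 * (kap - 1)) / 4)) * (∑ k, sml a k - 9 * (kap - 1))) ≤
      4 * LL q (T a0) c a := by
  have h3 := levels q (T a0) c (big a) (sml a) h1 (by
    have := Gam_big_sml a
    omega) (fun f => ∑ k, f k) kap (9 * (kap - 1)) (by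
    intro f g' h
    have e : ∑ k, sml a k = ∑ k, f k + ∑ k, g' k := by
      rw [← h, ← Finset.sum_add_distrib]
      rfl
    exact e.le) (by
    intro f hf
    exact lev_ap kap hD hk1 hk c hF a hst f hf)
  rw [big_add_sml] at h3
  exact h3

/-- The level bound with `F = outs K`. -/
lemma lev2 (q a0 kap : ℕ) (hD : DD N) (hk1 : 1 ≤ kap) (hk : 1 + T kap ≤ N.minFac) (c : ι → ZMod N)
    (hF : Full 1 c) (a : ι → ℕ) (hp : (Nat.card (stb (R c a 0))).Prime)
    (hpk : kap + 1 ≤ 2 * Nat.card (stb (R c a 0)))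
    (h1 : T a0 + Gam (big a) + 1 ≤ q) (h2 : q ≤ 1 + T a0 + Gam a) :
    4 * q + (kap + 1) * ((T a0 + Gam (big a) + 1 + min (q - (T a0 + Gam (big a) + 1))
      ((outs (stb (R c a 0)) c (sml a) - 9 * (kap - 1)) / 4)) *
        (outs (stb (R c a 0)) c (sml a) - 9 * (kap - 1))) ≤ 4 * LL q (T a0) c a := by
  have h3 := levels q (T a0) c (big a) (sml a) h1 (by
    have := Gam_big_sml a
    omega) (fun f => outs (stb (R c a 0)) c f) kap (9 * (kap - 1)) (by
    intro f g' h
    exact outs_drop _ c f g' (sml a) h) (by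
    intro f hf
    exact lev_per kap hD hk1 hk c hF a hp hpk f hf)
  rw [big_add_sml] at h3
  exact h3

end RG
end

section

set_option autoImplicit false

open Finset Pointwise

namespace RG

open SPR (T two_T T_succ le_T T_mono T_zero eight_T)

variable {n w : ℕ} [NeZero n] {ι : Type} [Fintype ι] [DecidableEq ι]

private lemma mem_cls6 {G : Type*} [AddCommGroup G] {κ : Type*} [Fintype κ] (c : κ → G) (x : G) (k : κ) :
    k ∈ cls c x ↔ c k = x ∨ c k = -x := by
  classical
  simp [cls]

/-- Many even nonzero entries: `R_{Γ-k1} = ℤ/n`, `k1 = n/21 + 20`.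

Proof.  `w k1 ≤ ee a`: there are `k1` even nonzero entries `E'` in distinct classes
(`exists_distinct` for the indicator of the even nonzero entries, which is `w`-bounded).  Let
`X = {∑_{k ∈ E'} ε_k c_k : ε_k ∈ {-1, 0, 1}}`, a translate of `R c (2 * 1_{E'}) 0`.  By `move`,
`bs + X ⊆ R_{Γ - k1}`.  Claim `X = ℤ/n`.  Otherwise let `K = stb X ≠ ⊤`.  If `K = 0`: `blk` with `κ = 20`
and bound `2`: `21 * 2 k1 + 2 ≤ 2 |X| + 21 * 38`, `|X| ≥ 21 (k1 - 19) + 1 > n`.  If `K ≠ 0`:
`10000 ≤ |K| ≤ n/10000` (`rough_proper`), at most `(|K| - 1)/2` of the `k1` classes are in `K`, so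
`outs ≥ 2 (k1 - n/20000)`, and `kn1`: `|X| ≥ |K| (1 + outs) ≥ 10000 (2 k1 - n/10000) > n`. -/
theorem manyE (hn : Rough n) (h1 : 1 < n) (hw : 1 ≤ w) (hD : DD n) (c : ι → ZMod n)
    (hF : Full w c) (a : ι → ℕ) (he : w * (n / 21 + 20) ≤ ee a) :
    R c a (Gam a - (n / 21 + 20)) = univ := by
  classical
  obtain ⟨k1, hk1⟩ : ∃ k1, k1 = n / 21 + 20 := ⟨_, rfl⟩
  rw [← hk1] at he ⊢
  have hcl0 : ∀ x, (cls c x).card ≤ w := by
    intro x
    by_cases hx : x = 0
    · have h2 : cls c x = ∅ := by
        rw [Finset.eq_empty_iff_forall_notMem]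
        intro k hk
        rw [mem_cls6, hx, neg_zero, or_self] at hk
        exact hF.1 k hk
      rw [h2, Finset.card_empty]
      exact Nat.zero_le _
    · exact (hF.2 x hx).le
  -- distinct classes of even nonzero entries
  obtain ⟨J, hJc, hJ1, hJd⟩ : ∃ J : Finset ι, J.card = k1 ∧ (∀ k ∈ J, a k % 2 = 0 ∧ a k ≠ 0) ∧
      ∀ k ∈ J, ∀ k' ∈ J, (c k = c k' ∨ c k = -c k') → k = k' := by
    let b : ι → ℕ := fun k => if a k % 2 = 0 ∧ a k ≠ 0 then 1 else 0
    have hb1 : ∀ k, b k ≤ 1 := fun k => by
      simp only [b]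
      split_ifs <;> omega
    have hbB : Bdd w c b := by
      refine ⟨hF.1, fun x => ?_⟩
      calc ∑ k ∈ cls c x, b k ≤ ∑ _k ∈ cls c x, 1 := Finset.sum_le_sum fun k _ => hb1 k
        _ = (cls c x).card := by rw [Finset.sum_const, smul_eq_mul, mul_one]
        _ ≤ w := hcl0 x
    have hbs : ∑ k, b k = ee a := by
      unfold ee
      rw [Finset.card_filter]
    have hlt : w * (k1 - 1) < ∑ k, b k := by
      rw [hbs]
      refine lt_of_lt_of_le ?_ he
      exact Nat.mul_lt_mul_of_pos_left (by omega) (by omega)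
    obtain ⟨J, h2, h3, h4⟩ := exists_distinct c b hbB k1 hlt
    refine ⟨J, h2, fun k hk => ?_, h4⟩
    have h5 := h3 k hk
    simp only [b] at h5
    by_contra hcon
    rw [if_neg hcon] at h5
    omega
  let f : ι → ℕ := fun k => if k ∈ J then 2 else 0
  have hfJ : ∀ k ∈ J, f k = 2 := fun k hk => if_pos hk
  have hfn : ∀ k, k ∉ J → f k = 0 := fun k hk => if_neg hk
  have hfs : ∑ k, f k = 2 * k1 := by
    simp only [f]
    rw [Finset.sum_ite_mem, Finset.univ_inter, Finset.sum_const, smul_eq_mul, hJc, mul_comm]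
  -- it is enough to fill the group with the moves
  suffices hX : R c f 0 = univ by
    rw [Finset.eq_univ_iff_forall]
    intro u
    have hu : u - bs c a + ∑ k ∈ J, c k ∈ R c f 0 := by
      rw [hX]
      exact mem_univ _
    rw [mem_R] at hu
    obtain ⟨j, hj1, hj2, -⟩ := hu
    have hPN : Disjoint (J.filter fun k => j k = 2) (J.filter fun k => j k = 0) := by
      rw [Finset.disjoint_left]
      intro k hk hk'
      rw [Finset.mem_filter] at hk hk'
      omega
    have h2 := move c a (J.filter fun k => j k = 2) (J.filter fun k => j k = 0)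
      (fun k hk => hJ1 k (Finset.mem_filter.1 hk).1) (fun k hk => hJ1 k (Finset.mem_filter.1 hk).1)
      hPN 0 (zero_mem_R c (od a))
    have h3 : (J.filter fun k => j k = 2).card + (J.filter fun k => j k = 0).card ≤ k1 := by
      rw [← Finset.card_union_of_disjoint hPN, ← hJc]
      exact Finset.card_le_card (Finset.union_subset (Finset.filter_subset _ _)
        (Finset.filter_subset _ _))
    have h4 := R_anti c a (Nat.sub_le_sub_left h3 (Gam a)) h2
    have h5 : pos c j = ∑ k ∈ J, c k + ∑ k ∈ J.filter (fun k => j k = 2), c k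
        - ∑ k ∈ J.filter (fun k => j k = 0), c k := by
      unfold pos
      rw [Finset.sum_filter, Finset.sum_filter, ← Finset.sum_add_distrib, ← Finset.sum_sub_distrib]
      rw [← Finset.sum_subset (Finset.subset_univ J)]
      · refine Finset.sum_congr rfl fun k hk => ?_
        have h6 := hj1 k
        rw [hfJ k hk] at h6
        have h7 : j k = 0 ∨ j k = 1 ∨ j k = 2 := by omega
        rcases h7 with h7 | h7 | h7
        · rw [h7]
          simp
        · rw [h7]
          simp
        · rw [h7]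
          simp [two_smul]
      · intro k _ hk
        have h6 := hj1 k
        rw [hfn k hk] at h6
        have h7 : j k = 0 := by omega
        rw [h7, zero_smul]
    have h6 : u = bs c a + 0 + ∑ k ∈ J.filter (fun k => j k = 2), c k
        - ∑ k ∈ J.filter (fun k => j k = 0), c k := by
      rw [h5] at hj2
      have h7 : u = bs c a + (u - bs c a + ∑ k ∈ J, c k) - ∑ k ∈ J, c k := by abel
      rw [h7, ← hj2]
      abel
    rw [h6]
    exact h4
  by_contra hne
  have hXn : (R c f 0).card ≤ n := by
    have := Finset.card_le_univ (R c f 0)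
    rwa [ZMod.card] at this
  have hst : stb (R c f 0) ≠ ⊤ := by
    intro h
    apply hne
    rw [Finset.eq_univ_iff_forall]
    intro u
    have h2 : u ∈ stb (R c f 0) := by
      rw [h]
      exact AddSubgroup.mem_top u
    have h3 := ((mem_stb _ _).1 h2 0).2 (zero_mem_R c f)
    rwa [zero_add] at h3
  have hmod : n < 21 * (n / 21) + 21 := by
    have := Nat.div_add_mod n 21
    have := Nat.mod_lt n (show 0 < 21 by norm_num)
    omega
  by_cases hbot : stb (R c f 0) = ⊥
  · have hB2 : Bdd 2 c f := by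
      refine ⟨hF.1, fun x => ?_⟩
      by_cases hex : ∃ k ∈ cls c x, k ∈ J
      · obtain ⟨k0, hk0, hk0J⟩ := hex
        rw [Finset.sum_eq_single_of_mem k0 hk0]
        · rw [hfJ k0 hk0J]
        · intro k hk hkk
          apply hfn
          intro hkJ
          apply hkk
          apply hJd k hkJ k0 hk0J
          rw [mem_cls6] at hk hk0
          rcases hk with e1 | e1 <;> rcases hk0 with e2 | e2
          · left; rw [e1, e2]
          · right; rw [e1, e2, neg_neg]
          · right; rw [e1, e2]
          · left; rw [e1, e2]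
      · push Not at hex
        rw [Finset.sum_eq_zero fun k hk => hfn k (hex k hk)]
        exact Nat.zero_le _
    have hT : T 20 = 210 := by
      have := two_T 20
      omega
    have h2 := blk n 20 2 hD (by norm_num) (by
      have := rough_minFac hn h1
      omega) c f hB2 hbot
    rw [hfs] at h2
    omega
  · set K := stb (R c f 0) with hK
    have hKd : Nat.card K ∣ n := card_sub_dvd K
    have hKr := rough_dvd hn hKd
    have hK1 : 1 < Nat.card K := by
      rw [AddSubgroup.one_lt_card_iff_ne_bot]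
      exact hbot
    have hK2 := rough_ge hKr hK1
    have hK3 : Nat.card K < n := by
      refine lt_of_le_of_ne (Nat.le_of_dvd (by omega) hKd) ?_
      intro h
      apply hst
      apply AddSubgroup.eq_top_of_card_eq
      rw [h, Nat.card_zmod]
    have hK4 := rough_proper hn hKd hK3
    have hkn := kn1 c f
    rw [← hK] at hkn
    have hio := ins_add_outs K c f
    rw [hfs] at hio
    have hins : ins K c f ≤ 2 * Nat.card K := by
      have e1 : ins K c f = 2 * (J.filter fun k => c k ∈ K).card := by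
        unfold ins
        have e2 : ∀ k ∈ Finset.univ.filter (fun k => c k ∈ K), f k = if k ∈ J then 2 else 0 :=
          fun k _ => rfl
        rw [Finset.sum_congr rfl e2, Finset.sum_ite_mem, Finset.sum_const, smul_eq_mul, mul_comm]
        congr 2
        ext k
        simp only [Finset.mem_inter, Finset.mem_filter, Finset.mem_univ, true_and]
        tauto
      have e3 : (J.filter fun k => c k ∈ K).card ≤ Nat.card K := by
        rw [Nat.card_eq_fintype_card, Fintype.card_subtype]
        refine Finset.card_le_card_of_injOn c ?_ ?_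
        · intro k hk
          have := (Finset.mem_filter.1 (Finset.mem_coe.1 hk)).2
          simpa using this
        · intro k hk k' hk' hkk
          have h2 := (Finset.mem_filter.1 (Finset.mem_coe.1 hk)).1
          have h3 := (Finset.mem_filter.1 (Finset.mem_coe.1 hk')).1
          exact hJd k h2 k' h3 (Or.inl hkk)
      omega
    have houts : 2 * (n / 21) + 40 ≤ outs K c f + 2 * Nat.card K := by omega
    have h3 : 10000 * (1 + outs K c f) ≤ Nat.card K * (1 + outs K c f) :=
      Nat.mul_le_mul_right _ hK2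
    omega

end RG
end

section

set_option autoImplicit false

open Finset Pointwise

namespace RG

open SPR (T two_T T_succ le_T T_mono T_zero eight_T)

variable {n w : ℕ} [NeZero n] {ι : Type} [Fintype ι] [DecidableEq ι]

/-- number of entries (with sizes `≤ A`) in a subgroup: `2 ins K ≤ w A (|K| - 1)` (`K` has
`(|K| - 1)/2` classes, each with `w` entries). -/
lemma ins_le (hn : Rough n) (c : ι → ZMod n) (hF : Full w c) (a : ι → ℕ) (A : ℕ)
    (hA : ∀ j, a j ≤ A) (K : AddSubgroup (ZMod n)) :
    2 * ins K c a ≤ w * A * (Nat.card K - 1) := by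
  classical
  set Kf : Finset (ZMod n) := univ.filter (fun x => x ∈ K) with hKf
  have hKc : Kf.card = Nat.card K := by
    rw [Nat.card_eq_fintype_card, Fintype.card_subtype]
  have h0 : (0 : ZMod n) ∈ Kf := by simp [hKf, K.zero_mem]
  set F : Finset ι := univ.filter (fun k => c k ∈ K) with hFdef
  have hins : ins K c a ≤ F.card * A := by
    have h1 : ins K c a = ∑ k ∈ F, a k := by
      unfold ins
      refine Finset.sum_congr ?_ fun _ _ => rfl
      ext k
      simp [hFdef]
    rw [h1, ← smul_eq_mul]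
    exact Finset.sum_le_card_nsmul _ _ _ fun k _ => hA k
  have hodd := rough_odd hn
  have hne : ∀ k, c k ≠ -c k := by
    intro k hk
    have h2 : (2 : ℕ) • c k = 0 := by
      rw [two_nsmul]
      nth_rewrite 2 [hk]
      rw [add_neg_cancel]
    have h3 : addOrderOf (c k) ∣ 2 := addOrderOf_dvd_of_nsmul_eq_zero h2
    have h4 : addOrderOf (c k) ∣ n := by
      have := addOrderOf_dvd_card (x := c k)
      rwa [ZMod.card] at this
    have h5 : addOrderOf (c k) = 1 := by
      rcases (Nat.dvd_prime Nat.prime_two).1 h3 with h | h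
      · exact h
      · rw [h] at h4
        omega
    exact hF.1 k (AddMonoid.addOrderOf_eq_one_iff.1 h5)
  have hcount : 2 * F.card ≤ w * (Nat.card K - 1) := by
    have h1 : ∑ k ∈ F, ((Kf.erase 0).filter (fun x => c k = x ∨ c k = -x)).card =
        ∑ x ∈ Kf.erase 0, (F.filter (fun k => c k = x ∨ c k = -x)).card :=
      Finset.sum_card_bipartiteAbove_eq_sum_card_bipartiteBelow
        (fun (k : ι) (x : ZMod n) => c k = x ∨ c k = -x)
    have h2 : 2 * F.card ≤ ∑ k ∈ F, ((Kf.erase 0).filter (fun x => c k = x ∨ c k = -x)).card := by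
      rw [mul_comm, ← smul_eq_mul]
      refine Finset.card_nsmul_le_sum _ _ _ fun k hk => ?_
      have hkK : c k ∈ K := by simpa [hFdef] using hk
      have hsub : ({c k, -c k} : Finset (ZMod n)) ⊆
          (Kf.erase 0).filter (fun x => c k = x ∨ c k = -x) := by
        intro x hx
        rw [Finset.mem_insert, Finset.mem_singleton] at hx
        rw [Finset.mem_filter, Finset.mem_erase, hKf, Finset.mem_filter]
        rcases hx with rfl | rfl
        · exact ⟨⟨hF.1 k, Finset.mem_univ _, hkK⟩, Or.inl rfl⟩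
        · exact ⟨⟨neg_ne_zero.2 (hF.1 k), Finset.mem_univ _, K.neg_mem hkK⟩,
            Or.inr (neg_neg _).symm⟩
      have := Finset.card_le_card hsub
      rwa [Finset.card_pair (hne k)] at this
    have h3 : ∑ x ∈ Kf.erase 0, (F.filter (fun k => c k = x ∨ c k = -x)).card ≤
        (Kf.erase 0).card * w := by
      rw [← smul_eq_mul]
      refine Finset.sum_le_card_nsmul _ _ _ fun x hx => ?_
      have hx0 : x ≠ 0 := (Finset.mem_erase.1 hx).1
      refine le_trans (Finset.card_le_card ?_) (hF.2 x hx0).le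
      intro k hk
      have hk2 := (Finset.mem_filter.1 hk).2
      simpa [cls] using hk2
    rw [Finset.card_erase_of_mem h0, hKc] at h3
    calc 2 * F.card ≤ _ := h2
      _ = _ := h1
      _ ≤ _ := h3
      _ = w * (Nat.card K - 1) := mul_comm _ _
  calc 2 * ins K c a ≤ 2 * (F.card * A) := Nat.mul_le_mul le_rfl hins
    _ = (2 * F.card) * A := by ring
    _ ≤ (w * (Nat.card K - 1)) * A := Nat.mul_le_mul hcount le_rfl
    _ = w * A * (Nat.card K - 1) := by ring

/-- If peeling fails and `K = stb (R_0(a')) ≠ 0`, at most `3` elements of `a'` are outside `K`.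

Proof.  `u' = outs K c a'`, `k' = |K| ≥ 10000`, `kn1`: `|R_0(a')| ≥ k' (1 + u')`, also
`|R_0(a)| ≥ |R_0(a')|`.  `hF2`: `μ0 k' (1 + u') < 2 m + w` if `μ0 ≥ 1` (`μ0 ≤ w max s`), so
`μ0 ≤ 2.0003 m / 10000`.  `hF1`: `w (a_k - 1) k' (1 + u') < 4.0006 m`; so `u' ≤ 4.0006 m / 10000`.
`ins_le` (`a' ≤ a_k`): `2 ins ≤ w a_k k'`.  `m = μ0 + ins + u' + 2` gives `w a_k k' ≥ 1.998 m`, and
`a_k ≤ 2 (a_k - 1)`: `1.998 m (1 + u') ≤ w a_k k' (1 + u') ≤ 2 w (a_k - 1) k' (1 + u') < 8.0012 m`.
So `1 + u' < 5`. -/
theorem fail_K1 (hn : Rough n) (h1 : 1 < n) (hw : 1 ≤ w) (c : ι → ZMod n)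
    (hF : Full w c) (s : Fin w → ℕ) (a : ι → ℕ) (k : ι) (hk : 2 ≤ a k) (hmax : ∀ j, a j ≤ a k)
    (hm : 9999 * w ≤ 2 * (∑ i, s i + ∑ j, a j))
    (hF1 : w * ((a k - 1) * (R c (Function.update a k (a k - 2)) 0).card) <
      2 * (2 * (∑ i, s i + ∑ j, a j) + w))
    (hF2 : ∀ l, 1 ≤ s l → w * (s l * (R c a 0).card) < 2 * (∑ i, s i + ∑ j, a j) + w)
    (hst : stb (R c (Function.update a k (a k - 2)) 0) ≠ ⊥) :
    outs (stb (R c (Function.update a k (a k - 2)) 0)) c (Function.update a k (a k - 2)) ≤ 3 := by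
  classical
  set a' : ι → ℕ := Function.update a k (a k - 2) with ha'
  set K := stb (R c a' 0) with hK
  have ha'le : ∀ j, a' j ≤ a j := by
    intro j
    rw [ha']
    by_cases h : j = k
    · subst h
      rw [Function.update_self]
      omega
    · rw [Function.update_of_ne h]
  have hsum : ∑ j, a j = ∑ j, a' j + 2 := by
    have h1 : ∑ i, a i = a k + ∑ i ∈ Finset.univ.erase k, a i := by
      rw [Finset.add_sum_erase _ _ (Finset.mem_univ k)]
    have h2 : ∑ i, a' i = a' k + ∑ i ∈ Finset.univ.erase k, a' i := by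
      rw [Finset.add_sum_erase _ _ (Finset.mem_univ k)]
    have h3 : ∑ i ∈ Finset.univ.erase k, a' i = ∑ i ∈ Finset.univ.erase k, a i := by
      refine Finset.sum_congr rfl ?_
      intro i hi
      rw [ha', Function.update_of_ne (Finset.ne_of_mem_erase hi)]
    have h4 : a' k = a k - 2 := by rw [ha', Function.update_self]
    omega
  have hk1 := kn1 c a'
  rw [← hK] at hk1
  have hRle : (R c a' 0).card ≤ (R c a 0).card := Finset.card_le_card (R_mono c a' a ha'le)
  have hKbig : 10000 ≤ Nat.card K := by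
    have hdvd : Nat.card K ∣ n := by
      have := AddSubgroup.card_addSubgroup_dvd_card K
      rwa [Nat.card_eq_fintype_card (α := ZMod n), ZMod.card] at this
    have hne1 : Nat.card K ≠ 1 := by
      intro h
      exact hst (AddSubgroup.card_eq_one.1 h)
    have hpr := Nat.minFac_prime hne1
    have := hn.2 _ hpr ((Nat.minFac_dvd _).trans hdvd)
    have hpos : 0 < Nat.card K := Nat.pos_of_dvd_of_pos hdvd hn.1
    exact this.trans (Nat.minFac_le hpos)
  have hins := ins_le hn c hF a' (a k) (fun j => (ha'le j).trans (hmax j)) K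
  have hio := ins_add_outs K c a'
  set u := outs K c a' with hu
  set I := ins K c a' with hI
  set Q := Nat.card K with hQ
  set M := ∑ i, s i + ∑ j, a j with hM
  set μ := ∑ i, s i with hμ
  -- the zero class
  have hzero : 10000 * μ ≤ 2 * M + w := by
    have h2 : ∀ l ∈ (Finset.univ : Finset (Fin w)), w * (s l * (R c a 0).card) ≤ 2 * M + w := by
      intro l _
      rcases Nat.eq_zero_or_pos (s l) with h | h
      · rw [h]
        omega
      · exact (hF2 l h).le
    have h3 := Finset.sum_le_card_nsmul _ _ _ h2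
    rw [Finset.card_univ, Fintype.card_fin, smul_eq_mul, ← Finset.mul_sum, ← Finset.sum_mul,
      ← hμ] at h3
    have h4 : μ * (R c a 0).card ≤ 2 * M + w := Nat.le_of_mul_le_mul_left h3 hw
    have h5 : 10000 ≤ (R c a 0).card := by
      refine le_trans ?_ hRle
      refine le_trans ?_ hk1
      nlinarith
    calc 10000 * μ ≤ (R c a 0).card * μ := Nat.mul_le_mul h5 le_rfl
      _ = μ * (R c a 0).card := mul_comm _ _
      _ ≤ _ := h4
  obtain ⟨b, hb⟩ : ∃ b, a k = b + 1 := ⟨a k - 1, by omega⟩
  have hb1 : 1 ≤ b := by omega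
  have hmain : w * b * (Q * (1 + u)) < 2 * (2 * M + w) := by
    have h6 : a k - 1 = b := by omega
    rw [h6] at hF1
    refine lt_of_le_of_lt ?_ hF1
    rw [mul_assoc]
    exact Nat.mul_le_mul le_rfl (Nat.mul_le_mul le_rfl hk1)
  have hwb : 1 ≤ w * b := Nat.mul_pos hw hb1
  have hu10 : 10000 * (1 + u) < 2 * (2 * M + w) := by
    refine lt_of_le_of_lt ?_ hmain
    calc 10000 * (1 + u) = 1 * (10000 * (1 + u)) := (one_mul _).symm
      _ ≤ w * b * (Q * (1 + u)) := Nat.mul_le_mul hwb (Nat.mul_le_mul hKbig le_rfl)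
  have hins2 : 2 * I ≤ 2 * (w * b) * Q := by
    calc 2 * I ≤ w * a k * (Q - 1) := hins
      _ ≤ w * a k * Q := Nat.mul_le_mul le_rfl (Nat.sub_le _ _)
      _ ≤ 2 * (w * b) * Q := by
        refine Nat.mul_le_mul ?_ le_rfl
        rw [hb]
        nlinarith
  have hprod : I * (1 + u) < 2 * (2 * M + w) := by
    refine lt_of_le_of_lt ?_ hmain
    have h7 : I ≤ w * b * Q := by nlinarith
    calc I * (1 + u) ≤ w * b * Q * (1 + u) := Nat.mul_le_mul h7 le_rfl
      _ = w * b * (Q * (1 + u)) := by ring
  by_contra hcon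
  push Not at hcon
  have h8 : I * 5 ≤ I * (1 + u) := Nat.mul_le_mul le_rfl (by omega)
  omega

end RG
end
end
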