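import Pool.Agent.Lib.MP_d3cc86_co.RG.P6c
import Pool.Agent.Lib.MP_d3cc86_co.RG.V2
import Pool.Agent.Lib.MP_d3cc86_co.RG.W1
import Pool.Agent.Lib.MP_d3cc86_co.RG.G4
import Pool.Agent.Lib.MP_d3cc86_co.RG.A2
import Pool.Agent.Lib.MP_d3cc86_co.RG.N2a
import Pool.Agent.Lib.MP_d3cc86_co.SP.Final

section

set_option autoImplicit false

open Finset Pointwise

namespace RG

open SPR (T two_T T_succ le_T T_mono T_zero eight_T)

variable {n w : ℕ} [NeZero n] {ι : Type} [Fintype ι] [DecidableEq ι]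

/-- One zero entry, `|X0| > A0 + 2`, or `X0` periodic: `R_{Γ-1} = ℤ/n`.

Proof.  If `|X0| > A0 + 2`: `|X0| + |Y| > n` (`Ys_compl1`).  If `|X0| ≤ A0 + 2` and `stb X0 = K ≠ 0`
(`rho_per`): `X0 = K`; `u ∈ K`: `u = u + 0`.  `u ∉ K`: the coset `u + K` has `≥ 3` elements, none of them in
`allodd ⊆ K`, so one of them, `u - t`, `t ∈ K = X0`, is `≠ ± x0`, hence in `Y`. -/
theorem K1gen1 (hn : Rough n) (h1 : 1 < n) (hw : 1 ≤ w) (hD : DD n) (c : ι → ZMod n)
    (hF : Full w c) (a : ι → ℕ) (hz : zz a = 1)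
    (hX : (allodd c a).card + 2 < (R c (od a) 0).card ∨ stb (R c (od a) 0) ≠ ⊥) :
    R c a (Gam a - 1) = univ := by
  classical
  obtain ⟨x0, hx0⟩ := Ys_compl1 w hw c hF a hz
  have key : ∀ u : ZMod n, ∃ t ∈ R c (od a) 0, ∃ y ∈ Ys c a, u = t + y := by
    intro u
    rcases Nat.lt_or_ge ((allodd c a).card + 2) (R c (od a) 0).card with hlt | hge
    · have h2 : ((R c (od a) 0).image (fun t => u - t)).card = (R c (od a) 0).card :=
        Finset.card_image_of_injective _ (fun s t hst => by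
          have hst' : u - s = u - t := hst
          exact sub_right_injective hst')
      have h3 : ¬ (R c (od a) 0).image (fun t => u - t) ⊆ allodd c a ∪ {x0, -x0} := by
        intro hsub
        have h4 := Finset.card_le_card hsub
        have h5 := Finset.card_union_le (allodd c a) {x0, -x0}
        have h6 : ({x0, -x0} : Finset (ZMod n)).card ≤ 2 := Finset.card_le_two
        omega
      obtain ⟨y, hy, hya⟩ := Finset.not_subset.1 h3
      obtain ⟨t, ht, rfl⟩ := Finset.mem_image.1 hy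
      simp only [Finset.mem_union, Finset.mem_insert, Finset.mem_singleton, not_or] at hya
      exact ⟨t, ht, u - t, hx0 _ hya.1 hya.2.1 hya.2.2, by abel⟩
    · have hst : stb (R c (od a) 0) ≠ ⊥ := by
        rcases hX with hX | hX
        · omega
        · exact hX
      obtain ⟨h2, h3⟩ := rho_per hn h1 hw c hF a hst hge
      by_cases hu : u ∈ stb (R c (od a) 0)
      · refine ⟨u, (h2 u).2 hu, 0, ?_, by rw [add_zero]⟩
        simp [Ys]
      · obtain ⟨k, hk, hk0⟩ : ∃ k ∈ stb (R c (od a) 0), k ≠ 0 := by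
          by_contra hcon
          push Not at hcon
          exact hst ((AddSubgroup.eq_bot_iff_forall _).2 hcon)
        have hkk : k + k ≠ 0 := by
          intro h
          apply hk0
          have hc : Nat.Coprime 2 n := by
            refine Nat.coprime_of_dvd fun r hr hr2 hrn => ?_
            have h4 := hn.2 r hr hrn
            have h5 := Nat.le_of_dvd (by norm_num) hr2
            omega
          have hunit : IsUnit ((2 : ℕ) : ZMod n) :=
            ⟨ZMod.unitOfCoprime 2 hc, ZMod.coe_unitOfCoprime 2 hc⟩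
          refine (hunit.mul_right_eq_zero).1 ?_
          rw [← h]
          push_cast
          ring
        have hsub : ∀ t ∈ stb (R c (od a) 0), u - t ∉ allodd c a := by
          intro t ht hall
          apply hu
          have h4 := add_mem (h3 _ hall) ht
          rwa [sub_add_cancel] at h4
        have hfin : ∃ t ∈ stb (R c (od a) 0), u - t ≠ x0 ∧ u - t ≠ -x0 := by
          by_contra hcon
          push Not at hcon
          have e0 : u - 0 = x0 ∨ u - 0 = -x0 := by
            by_cases h : u - 0 = x0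
            · exact Or.inl h
            · exact Or.inr (hcon 0 (zero_mem _) h)
          have e1 : u - k = x0 ∨ u - k = -x0 := by
            by_cases h : u - k = x0
            · exact Or.inl h
            · exact Or.inr (hcon k hk h)
          have e2 : u - (k + k) = x0 ∨ u - (k + k) = -x0 := by
            by_cases h : u - (k + k) = x0
            · exact Or.inl h
            · exact Or.inr (hcon (k + k) (add_mem hk hk) h)
          have a1 : u - 0 ≠ u - k := fun h => hk0 (sub_right_injective h).symm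
          have a2 : u - 0 ≠ u - (k + k) := fun h => hkk (sub_right_injective h).symm
          have a3 : u - k ≠ u - (k + k) := by
            intro h
            apply hk0
            have h4 : k = k + k := sub_right_injective h
            exact left_eq_add.1 h4
          rcases e0 with e0 | e0 <;> rcases e1 with e1 | e1 <;> rcases e2 with e2 | e2
          · exact a1 (e0.trans e1.symm)
          · exact a1 (e0.trans e1.symm)
          · exact a2 (e0.trans e2.symm)
          · exact a3 (e1.trans e2.symm)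
          · exact a3 (e1.trans e2.symm)
          · exact a2 (e0.trans e2.symm)
          · exact a1 (e0.trans e1.symm)
          · exact a1 (e0.trans e1.symm)
        obtain ⟨t, ht, ht1, ht2⟩ := hfin
        exact ⟨t, (h2 t).2 ht, u - t, hx0 _ (hsub t ht) ht1 ht2, by abel⟩
  refine Finset.eq_univ_of_forall fun x => ?_
  obtain ⟨t, ht, y, hy, hu⟩ := key (x - bs c a)
  have h2 := Y_add c a t y ht hy
  have h3 : bs c a + t + y = x := by
    rw [add_assoc, ← hu]
    abel
  rwa [h3] at h2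

end RG
end

section

set_option autoImplicit false

open Finset Pointwise

namespace RG

open SPR (T two_T T_succ le_T T_mono T_zero eight_T)

variable {n w : ℕ} [NeZero n] {ι : Type} [Fintype ι] [DecidableEq ι]

/-- Many zero entries, `z ≥ k1 = n/21 + 20`, and `w k1 ≤ ee a`: `R_{Γ-k1} = ℤ/n` (`manyE`),
`Linf ≥ n (W - k1)`, `S - x ≥ 8 z ≥ 8 k1`, so `Linf ≥ φ_n(m)`. -/
theorem P2_A (hn : Rough n) (h1 : 1 < n) (hw : 1 ≤ w) (hD : DD n)
    (c : ι → ZMod n) (hF : Full w c) (s : Fin w → ℕ) (a : ι → ℕ)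
    (hM : w * n ≤ 2 * (∑ l, s l + ∑ k, a k) + w) (hz : n / 21 + 20 ≤ zz a)
    (he : w * (n / 21 + 20) ≤ ee a) :
    ph w n (∑ l, s l + ∑ k, a k) ≤ Linf (∑ l, T (s l)) c a := by
  obtain ⟨M, y, S, al, hal1, _, _, _, h1', h2, _, _, _, h3, _, h4⟩ := facts2 hn hw c hF s a hM
  obtain ⟨k1, hk1⟩ : ∃ k1, k1 = n / 21 + 20 := ⟨_, rfl⟩
  have huniv := manyE hn h1 hw hD c hF a he
  rw [← hk1] at huniv he hz
  have hn0 : 0 < n := hn.1
  -- `Gam a ≥ k1`
  have hG1 : ee a ≤ Gam a := by
    unfold ee Gam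
    rw [Finset.card_filter]
    refine Finset.sum_le_sum fun k _ => ?_
    split_ifs with h
    · obtain ⟨e1, e2⟩ := h
      have e3 : 2 ≤ a k := by omega
      rw [Nat.le_div_iff_mul_le (by norm_num)]
      nlinarith
    · exact Nat.zero_le _
  have hG : k1 ≤ Gam a := by
    have : k1 ≤ w * k1 := Nat.le_mul_of_pos_left _ (by omega)
    omega
  have hv : ∀ v, v ≤ Gam a - k1 → (R c a v).card = n := by
    intro v hv
    apply le_antisymm
    · calc (R c a v).card ≤ Fintype.card (ZMod n) := Finset.card_le_univ _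
        _ = n := ZMod.card n
    · calc n = (R c a (Gam a - k1)).card := by rw [huniv, Finset.card_univ, ZMod.card]
        _ ≤ _ := Finset.card_le_card (R_anti c a hv)
  have hEE : (Gam a - k1) * n ≤ EE c a := by
    unfold EE
    calc (Gam a - k1) * n = ∑ _v ∈ Finset.Icc 1 (Gam a - k1), n := by
          rw [Finset.sum_const, Nat.card_Icc, smul_eq_mul]
          simp
      _ = ∑ v ∈ Finset.Icc 1 (Gam a - k1), (R c a v).card :=
          Finset.sum_congr rfl fun v hv' => (hv v (Finset.mem_Icc.1 hv').2).symm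
      _ ≤ _ := Finset.sum_le_sum_of_subset (Finset.Icc_subset_Icc_right (Nat.sub_le _ _))
  have hL : (1 + ∑ l, T (s l)) * n + (Gam a - k1) * n ≤ Linf (∑ l, T (s l)) c a := by
    unfold Linf
    rw [hv 0 (Nat.zero_le _)]
    exact Nat.add_le_add_left hEE _
  refine le_trans ?_ hL
  have hw' : (0 : ℤ) < w := by exact_mod_cast hw
  have h5 : (w : ℤ) * (8 * (ph w n (∑ l, s l + ∑ k, a k) : ℤ)) ≤
      w * (8 * (n : ℤ) * (1 + (∑ l, T (s l) : ℕ) + Gam a - k1)) := by
    have e1 : (w : ℤ) * (8 * (n : ℤ) * (1 + (∑ l, T (s l) : ℕ) + Gam a - k1)) =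
        w * (8 * (n : ℤ) * (1 + (∑ l, T (s l) : ℕ) + Gam a)) - w * (n * (8 * k1)) := by ring
    rw [e1, h1', h2]
    have e2 : (8 : ℤ) * k1 ≤ S - (w + 2 * oo a) := by
      have : (k1 : ℤ) ≤ zz a := by exact_mod_cast hz
      linarith
    have e3 : (w : ℤ) * (n * (8 * k1)) ≤ (w : ℤ) * (n * (S - (w + 2 * oo a))) :=
      mul_le_mul_of_nonneg_left (mul_le_mul_of_nonneg_left e2 (Int.natCast_nonneg n)) hw'.le
    linarith
  have h6 := le_of_mul_le_mul_left h5 hw'
  have h7 : ((ph w n (∑ l, s l + ∑ k, a k) : ℕ) : ℤ) ≤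
      (((1 + ∑ l, T (s l)) * n + (Gam a - k1) * n : ℕ) : ℤ) := by
    push_cast [Nat.cast_sub hG] at h6 ⊢
    linarith
  exact_mod_cast h7

end RG
end

section

set_option autoImplicit false

open Finset Pointwise

namespace RG

open SPR (T two_T T_succ le_T T_mono T_zero eight_T)

variable {n w : ℕ} [NeZero n] {ι : Type} [Fintype ι] [DecidableEq ι]

/-- No zero entry: `R_{Γ-1} = ℤ/n`.

Proof.  Show that every `u` is in `X0 + Y` (then use `Y_add`; `u` arbitrary, so `bs + u` is arbitrary).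
If `|X0| > A0`: `|X0| + |Y| > n` (`Ys_compl`), so `u - X0` meets `Y`.  Otherwise `|X0| ≤ A0`: if
`stb X0 = 0`, `rho_aper` gives `A0 ≤ 6` and `small_z0` applies.  If `stb X0 = K ≠ 0`, `rho_per`: `X0 = K`,
`allodd ⊆ K`; `u ∈ K`: `u = u + 0`; `u ∉ K`: `u ∉ allodd`, so `u ∈ Y`, `u = 0 + u`. -/
theorem K1gen (hn : Rough n) (h1 : 1 < n) (hw : 1 ≤ w) (hD : DD n) (c : ι → ZMod n)
    (hF : Full w c) (a : ι → ℕ) (hz : zz a = 0) : R c a (Gam a - 1) = univ := by
  classical
  have key : ∀ u : ZMod n, ∃ t ∈ R c (od a) 0, ∃ y ∈ Ys c a, u = t + y := by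
    intro u
    rcases Nat.lt_or_ge (allodd c a).card (R c (od a) 0).card with hlt | hge
    · have h2 : ((R c (od a) 0).image (fun t => u - t)).card = (R c (od a) 0).card :=
        Finset.card_image_of_injective _ (fun s t hst => by
          have hst' : u - s = u - t := hst
          exact sub_right_injective hst')
      have h3 : ¬ (R c (od a) 0).image (fun t => u - t) ⊆ allodd c a := by
        intro hsub
        have := Finset.card_le_card hsub
        omega
      obtain ⟨y, hy, hya⟩ := Finset.not_subset.1 h3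
      obtain ⟨t, ht, rfl⟩ := Finset.mem_image.1 hy
      exact ⟨t, ht, u - t, Ys_compl w hw c hF a hz _ hya, by abel⟩
    · by_cases hst : stb (R c (od a) 0) = ⊥
      · have h2 := (rho_aper hn h1 hw hD c hF a hst (by omega)).1
        exact small_z0 hn h1 hw hD c hF a hz h2 u
      · obtain ⟨h2, h3⟩ := rho_per hn h1 hw c hF a hst (by omega)
        by_cases hu : u ∈ stb (R c (od a) 0)
        · refine ⟨u, (h2 u).2 hu, 0, ?_, by rw [add_zero]⟩
          simp [Ys]
        · refine ⟨0, zero_mem_R c _, u, ?_, by rw [zero_add]⟩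
          exact Ys_compl w hw c hF a hz _ fun h => hu (h3 u h)
  refine Finset.eq_univ_of_forall fun x => ?_
  obtain ⟨t, ht, y, hy, hu⟩ := key (x - bs c a)
  have h2 := Y_add c a t y ht hy
  have h3 : bs c a + t + y = x := by
    rw [add_assoc, ← hu]
    abel
  rwa [h3] at h2

end RG
end

section

set_option autoImplicit false

open Finset Pointwise

namespace RG

open SPR (T two_T T_succ le_T T_mono T_zero eight_T)

variable {n w : ℕ} [NeZero n] {ι : Type} [Fintype ι] [DecidableEq ι]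

/-- `s ≤ α`, `a ≤ 2 α + 1`, `M ≥ (2 α - 1) w n`, few odd entries: `w (n/21 + 20) ≤ ee a`.
`(2α - 1) w n ≤ M ≤ w (2 α + 1) + 2 (2 α + 1)(oo + ee)`, `2 α + 1 ≤ 3 (2 α - 1)`, so
`w n ≤ 3 w + 6 (oo + ee)`, `ee ≥ w n/6 - w/2 - w n/50`. -/
theorem ee_A (h1 : 10000 ≤ n) (hw : 1 ≤ w) (s : Fin w → ℕ) (a : ι → ℕ) (al : ℕ) (hal : 1 ≤ al)
    (hs : ∀ l, s l ≤ al) (ha : ∀ k, a k ≤ 2 * al + 1)
    (hM : (2 * al - 1) * (w * n) ≤ 2 * (∑ l, s l + ∑ k, a k) + w) (ho : 50 * oo a ≤ w * n) :
    w * (n / 21 + 20) ≤ ee a := by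
  have e1 : ∑ l, s l ≤ w * al := by
    calc ∑ l, s l ≤ ∑ _l : Fin w, al := Finset.sum_le_sum fun l _ => hs l
      _ = w * al := by simp
  have e2 : ∑ k, a k ≤ (2 * al + 1) * (oo a + ee a) := by
    unfold oo ee
    rw [Finset.card_filter, Finset.card_filter, ← Finset.sum_add_distrib, Finset.mul_sum]
    refine Finset.sum_le_sum fun k _ => ?_
    have h3 := ha k
    by_cases h4 : a k % 2 = 1
    · rw [if_pos h4, Nat.mul_add, mul_one]
      exact h3.trans (Nat.le_add_right _ _)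
    · by_cases h5 : a k = 0
      · rw [h5]; exact Nat.zero_le _
      · rw [if_neg h4, if_pos (by omega)]
        omega
  obtain ⟨b, rfl⟩ : ∃ b, al = b + 1 := ⟨al - 1, by omega⟩
  have e3 : (2 * b + 1) * (w * n) ≤ (2 * b + 1) * (3 * (w + 2 * (oo a + ee a))) := by
    have h6 : 2 * (b + 1) - 1 = 2 * b + 1 := by omega
    rw [h6] at hM
    calc (2 * b + 1) * (w * n) ≤ 2 * (∑ l, s l + ∑ k, a k) + w := hM
      _ ≤ 2 * (w * (b + 1) + (2 * (b + 1) + 1) * (oo a + ee a)) + w := by omega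
      _ = (2 * b + 3) * (w + 2 * (oo a + ee a)) := by ring
      _ ≤ (3 * (2 * b + 1)) * (w + 2 * (oo a + ee a)) := Nat.mul_le_mul_right _ (by omega)
      _ = _ := by ring
  have e4 : w * n ≤ 3 * (w + 2 * (oo a + ee a)) := Nat.le_of_mul_le_mul_left e3 (by omega)
  have e5 : w * 10000 ≤ w * n := Nat.mul_le_mul_left _ h1
  have e6 : w * (21 * (n / 21)) ≤ w * n := Nat.mul_le_mul_left _ (Nat.mul_div_le n 21)
  have e7 : w * (21 * (n / 21)) = 21 * (w * (n / 21)) := by ring
  rw [Nat.mul_add]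
  omega

/-- few zero entries, few odd entries: `w (n + 4) ≤ 4 ee a` (`count`, `card_full`). -/
theorem ee_B (hn : Rough n) (h1 : 1 < n) (hw : 1 ≤ w) (c : ι → ZMod n) (hF : Full w c)
    (a : ι → ℕ) (hz : zz a < n / 21 + 20) (ho : 50 * oo a ≤ w * n) :
    w * (n + 4) ≤ 4 * ee a := by
  have h10 : 10000 ≤ n := rough_ge hn h1
  have h2 := card_full (rough_odd hn) c hF
  have h3 := count a
  have e5 : w * 10000 ≤ w * n := Nat.mul_le_mul_left _ h10
  have e6 : 1 * n ≤ w * n := Nat.mul_le_mul_right _ hw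
  rw [Nat.mul_add]
  omega

end RG
end

section

set_option autoImplicit false

open Finset Pointwise

namespace RG

open SPR (T two_T T_succ le_T T_mono T_zero eight_T)

variable {n w : ℕ} [NeZero n] {ι : Type} [Fintype ι] [DecidableEq ι]

/-- No zero entry.  `Linf ≥ n (W - 1) + ρ` (`K1gen`, `Linf_univ1`), `ρ ≥ |X0| ≥ φ_h(oo)` for some `h ∣ n`
(`CC n w` for `od a`).  `h = n`: `ρ = n`, `P2_rho`.  General `h`: by `ph_up` (for `m`, `N = n`) there is
`β ≥ 0`, `2 β h ≤ n`, with `w 8 φ_h(m) = 8 w h + M^2 - y^2 + 4 β h w (|y| - β w h)`; by `ph_low`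
`8 φ_h(oo) ≥ 8 h + 4 β h (x - β w h)`, `x = 2 oo + w`.  So
`w 8 Linf - w 8 φ_h(m) ≥ w n (S - x) + 4 β h w (x - |y|) ≥ 0`: clear if `x ≥ |y|`; otherwise
`S - x ≥ 2 (|y| - x)` and `2 β h ≤ n`. -/
theorem P2_z0 (hn : Rough n) (h1 : 1 < n) (hw : 1 ≤ w) (hD : DD n) (hC : CC n w)
    (c : ι → ZMod n) (hF : Full w c) (s : Fin w → ℕ) (a : ι → ℕ)
    (hM : w * n ≤ 2 * (∑ l, s l + ∑ k, a k) + w) (hz : zz a = 0) :
    ∃ h, h ∣ n ∧ ph w h (∑ l, s l + ∑ k, a k) ≤ Linf (∑ l, T (s l)) c a := by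
  have hodd := rough_odd hn
  obtain ⟨h, hh, hle⟩ := hC ι c (od a) (od_bdd hodd c hF a)
  refine ⟨h, hh, ?_⟩
  rw [sum_od] at hle
  have hρ := hle.trans (X0_le c a)
  have hL := Linf_univ1 (∑ l, T (s l)) c a (K1gen hn h1 hw hD c hF a hz)
  rw [ZMod.card] at hL
  have hhodd : h % 2 = 1 := by
    obtain ⟨k, rfl⟩ := hh
    rcases Nat.mod_two_eq_zero_or_one h with h0 | h0
    · rw [Nat.mul_mod, h0, Nat.zero_mul] at hodd
      simp at hodd
    · exact h0
  obtain ⟨M, y, S, al, hal1, hal, hMe, hye, f1, f2, f3, f4, f5, f6, f7, f8⟩ :=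
    facts2 hn hw c hF s a hM
  obtain ⟨m, hm⟩ : ∃ m, m = ∑ l, s l + ∑ k, a k := ⟨_, rfl⟩
  rw [← hm] at hMe hal ⊢
  obtain ⟨β, b0, b1, b2⟩ := ph_up w h n m hw hodd hh y (by
    rw [hye, hMe, hal])
  have b3 := ph_low w h (oo a) hw hhodd β b0
  rw [← hMe] at b2
  obtain ⟨ρ, hρe⟩ : ∃ ρ, ρ = (R c a (Gam a)).card := ⟨_, rfl⟩
  obtain ⟨L, hLe⟩ : ∃ L, L = Linf (∑ l, T (s l)) c a := ⟨_, rfl⟩
  obtain ⟨τ, hτ⟩ : ∃ τ, τ = ∑ l, T (s l) := ⟨_, rfl⟩
  rw [← hρe] at hρ hL
  rw [← hLe] at hL ⊢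
  rw [← hτ] at hL f1
  have hw' : (0 : ℤ) < w := by exact_mod_cast hw
  have hh0 : (0 : ℤ) ≤ h := Int.natCast_nonneg h
  zify at hρ hL
  -- the key inequality
  have hwx : (0 : ℤ) ≤ β * h := mul_nonneg b0 hh0
  have key : 4 * (β * h) * (|y| - (w + 2 * oo a)) ≤ n * (S - (w + 2 * oo a)) := by
    rcases le_total |y| (w + 2 * oo a : ℤ) with hy | hy
    · have e1 : (0 : ℤ) ≤ (β * h) * ((w + 2 * oo a) - |y|) := mul_nonneg hwx (by linarith)
      have e2 : (0 : ℤ) ≤ n * (S - (w + 2 * oo a)) :=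
        mul_nonneg (Int.natCast_nonneg n) (by linarith)
      linarith
    · have e1 : (0 : ℤ) ≤ (n - 2 * β * h) * (|y| - (w + 2 * oo a)) :=
        mul_nonneg (by linarith) (by linarith)
      have e2 : (0 : ℤ) ≤ n * ((S - (w + 2 * oo a)) - 2 * (|y| - (w + 2 * oo a))) :=
        mul_nonneg (Int.natCast_nonneg n) (by linarith)
      linarith
  have k1 : (w : ℤ) * (4 * (β * h) * (|y| - (w + 2 * oo a))) ≤ w * (n * (S - (w + 2 * oo a))) :=
    mul_le_mul_of_nonneg_left key hw'.le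
  have k2 : (w : ℤ) * (8 * (h : ℤ) + 4 * β * h * (2 * oo a + w - β * w * h)) ≤ w * (8 * ρ) :=
    mul_le_mul_of_nonneg_left (by linarith) hw'.le
  have k3 : (w : ℤ) * (8 * (n * (τ + Gam a) + ρ)) ≤ w * (8 * L) :=
    mul_le_mul_of_nonneg_left (by linarith) hw'.le
  have k4 : (w : ℤ) * (8 * (ph w h m : ℤ)) ≤ w * (8 * L) := by
    rw [b2]
    linarith
  have k5 := le_of_mul_le_mul_left k4 hw'
  have k6 : (ph w h m : ℤ) ≤ L := by linarith
  exact_mod_cast k6

end RG
end

section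

set_option autoImplicit false

open Finset Pointwise

namespace RG

open SPR (T two_T T_succ le_T T_mono T_zero eight_T)

variable {n w : ℕ} [NeZero n] {ι : Type} [Fintype ι] [DecidableEq ι]

private lemma p9d_quad (w β : ℤ) (hw : 1 ≤ w) (hβ : 0 ≤ β) : 4 * β * (w + 18 - β * w) ≤ 361 := by
  rcases hβ.eq_or_lt with h | h
  · rw [← h]; norm_num
  · have h2 : w + 18 - β * w ≤ 19 - β := by nlinarith
    have h3 : 4 * β * (w + 18 - β * w) ≤ 4 * β * (19 - β) :=
      mul_le_mul_of_nonneg_left h2 (by linarith)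
    nlinarith [sq_nonneg (2 * β - 19)]

/-- At least one zero entry and `4 ee a ≥ w (n + 4)`.  `R_{Γ-2} = ℤ/n` (`halfE`).  If `S - x ≥ 16`:
`Linf ≥ n (W - 2) ≥ φ_n(m)`.  Otherwise `S - x = 8` and `z = 1`.  `Linf_univ2`:
`w 8 Linf ≥ (M^2 - y^2) + 8 w ρ + 8 w |R_{Γ-1}|`.  If `R_{Γ-1} = ℤ/n` (`K1gen1`: if `|X0| > A0 + 2` or
`stb X0 ≠ 0`) this is `≥ w 8 φ_n(m)`.  Otherwise `stb X0 = 0`, `|X0| ≤ A0 + 2`, so `A0 ≤ 6`, `oo ≤ 7`
(`rho_aper`), `|R_{Γ-1}| ≥ n - 8` (`RG1_ge`), `|y| ≤ x + 4 ≤ w + 18`.  By `ph_up` with `h = 1`: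
`w 8 φ_1(m) = 8 w + M^2 - y^2 + 4 β w (|y| - β w)` and `4 β (w + 18 - β w) ≤ 361` for all integers
`β ≥ 0` (`β = 0`: `0`; `β ≥ 1`: `≤ 4 β (19 - β)`), while `8 ρ + 8 (n - 8) ≥ 8 + 361`. -/
theorem P2_B (hn : Rough n) (h1 : 1 < n) (hw : 1 ≤ w) (hD : DD n)
    (c : ι → ZMod n) (hF : Full w c) (s : Fin w → ℕ) (a : ι → ℕ)
    (hM : w * n ≤ 2 * (∑ l, s l + ∑ k, a k) + w) (hz : 1 ≤ zz a)
    (he : w * (n + 4) ≤ 4 * ee a) :
    ∃ h, h ∣ n ∧ ph w h (∑ l, s l + ∑ k, a k) ≤ Linf (∑ l, T (s l)) c a := by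
  have hodd := rough_odd hn
  have hE := halfE hn h1 hw c hF a he
  have hge := rough_ge hn h1
  obtain ⟨M, y, S, al, hal1, hal, hMe, hye, f1, f2, f3, f4, f5, f6, f7, f8⟩ :=
    facts2 hn hw c hF s a hM
  obtain ⟨m, hm⟩ : ∃ m, m = ∑ l, s l + ∑ k, a k := ⟨_, rfl⟩
  rw [← hm] at hMe hal f2 ⊢
  have hw' : (0 : ℤ) < w := by exact_mod_cast hw
  have hz' : (1 : ℤ) ≤ zz a := by exact_mod_cast hz
  by_cases hS : 16 ≤ S - (w + 2 * oo a)
  · refine ⟨n, dvd_rfl, ?_⟩
    have hL := Linf_univ (∑ l, T (s l)) c a 2 hE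
    rw [ZMod.card] at hL
    obtain ⟨L, hLe⟩ : ∃ L, L = Linf (∑ l, T (s l)) c a := ⟨_, rfl⟩
    obtain ⟨τ, hτ⟩ : ∃ τ, τ = ∑ l, T (s l) := ⟨_, rfl⟩
    rw [← hLe, ← hτ] at hL
    rw [← hLe]
    rw [← hτ] at f1
    have k0 : (16 : ℤ) * n ≤ n * (S - (w + 2 * oo a)) := by
      have := mul_le_mul_of_nonneg_left hS (Int.natCast_nonneg n)
      linarith
    have k1 := mul_le_mul_of_nonneg_left k0 hw'.le
    have k3 : (w : ℤ) * (8 * (n * (1 + τ + Gam a - (2 : ℕ)))) ≤ w * (8 * L) :=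
      mul_le_mul_of_nonneg_left (by linarith) hw'.le
    push_cast at k3
    have k4 : (w : ℤ) * (8 * (ph w n m : ℤ)) ≤ w * (8 * L) := by
      rw [f2]
      linarith
    have k5 := le_of_mul_le_mul_left k4 hw'
    have k6 : (ph w n m : ℤ) ≤ L := by linarith
    exact_mod_cast k6
  · push Not at hS
    have hS8 : S - (w + 2 * oo a) = 8 := by omega
    have hz1 : zz a = 1 := by
      have : (8 : ℤ) * zz a ≤ 8 := by linarith
      omega
    have hL := Linf_univ2 (∑ l, T (s l)) c a hE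
    rw [ZMod.card] at hL
    have hρ1 : 1 ≤ (R c a (Gam a)).card := Finset.card_pos.2 (R_nonempty c a le_rfl)
    obtain ⟨ρ, hρe⟩ : ∃ ρ, ρ = (R c a (Gam a)).card := ⟨_, rfl⟩
    obtain ⟨L, hLe⟩ : ∃ L, L = Linf (∑ l, T (s l)) c a := ⟨_, rfl⟩
    obtain ⟨τ, hτ⟩ : ∃ τ, τ = ∑ l, T (s l) := ⟨_, rfl⟩
    rw [← hLe, ← hτ, ← hρe] at hL
    rw [← hLe]
    rw [← hρe] at hρ1
    rw [← hτ] at f1
    have hρ1' : (1 : ℤ) ≤ ρ := by exact_mod_cast hρ1
    rw [hS8] at f1
    by_cases hX : (allodd c a).card + 2 < (R c (od a) 0).card ∨ stb (R c (od a) 0) ≠ ⊥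
    · refine ⟨n, dvd_rfl, ?_⟩
      have hR := K1gen1 hn h1 hw hD c hF a hz1 hX
      rw [hR, Finset.card_univ, ZMod.card] at hL
      have k3 : (w : ℤ) * (8 * (n * (τ + Gam a - 1) + ρ + n)) ≤ w * (8 * L) :=
        mul_le_mul_of_nonneg_left (by linarith) hw'.le
      have k2 : (0 : ℤ) ≤ w * (8 * ρ) := by positivity
      have k4 : (w : ℤ) * (8 * (ph w n m : ℤ)) ≤ w * (8 * L) := by
        rw [f2]
        linarith
      have k5 := le_of_mul_le_mul_left k4 hw'
      have k6 : (ph w n m : ℤ) ≤ L := by linarith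
      exact_mod_cast k6
    · push Not at hX
      obtain ⟨g1, g2⟩ := rho_aper hn h1 hw hD c hF a hX.2 hX.1
      have g3 := RG1_ge hw c hF a hz1
      refine ⟨1, one_dvd n, ?_⟩
      obtain ⟨β, b0, b1, b2⟩ := ph_up w 1 n m hw hodd (one_dvd n) y (by
        rw [hye, hMe, hal])
      rw [← hMe] at b2
      have g4 : (n : ℤ) ≤ (R c a (Gam a - 1)).card + 8 := by
        have : n ≤ (R c a (Gam a - 1)).card + 8 := by omega
        exact_mod_cast this
      have hy : |y| ≤ w + 18 := by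
        have : (oo a : ℤ) ≤ 7 := by exact_mod_cast g2
        linarith
      have q1 : 4 * β * (|y| - β * w) ≤ 361 := by
        have e1 := p9d_quad w β (by exact_mod_cast hw) b0
        have e2 : 4 * β * (|y| - β * w) ≤ 4 * β * (w + 18 - β * w) :=
          mul_le_mul_of_nonneg_left (by linarith) (by linarith)
        linarith
      have hge' : (10000 : ℤ) ≤ n := by exact_mod_cast hge
      have k3 : (w : ℤ) * (8 * (n * (τ + Gam a - 1) + ρ + (n - 8))) ≤ w * (8 * L) :=
        mul_le_mul_of_nonneg_left (by linarith) hw'.le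
      have k2 : (w : ℤ) * (8 + 4 * β * (|y| - β * w)) ≤ w * (8 * (ρ + (n - 8))) :=
        mul_le_mul_of_nonneg_left (by linarith) hw'.le
      have k4 : (w : ℤ) * (8 * (ph w 1 m : ℤ)) ≤ w * (8 * L) := by
        rw [b2]
        push_cast
        linarith
      have k5 := le_of_mul_le_mul_left k4 hw'
      have k6 : (ph w 1 m : ℤ) ≤ L := by linarith
      exact_mod_cast k6

end RG
end

section

set_option autoImplicit false

open Finset

namespace RG

open SPR (T two_T T_succ le_T T_mono T_zero eight_T)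

/-- Induction step for `DD`.  Suppose `|R c a 0| < min q (1 + T m)`, `q = minFac (N q)`.  `fibre_thm` with
`w = 1` gives `s, a'` with `LL ≤ |R c a 0| < q`; by `LL_ge_min`, `1 + τ + Γ ≤ LL < q` (`τ = T(s 0)`), so
`LL = Linf` (`LL_eq_Linf`).  If `N = 1` there are no entries (`IX 1 1` is empty) and
`Linf = 1 + T(s 0) = 1 + T m`.  If `N > 1`, `|R c' a' 0| ≤ Linf < q ≤ minFac N` and `U0g` gives
`1 + T m ≤ Linf`. -/
theorem DD_step (N q : ℕ) (hq : q.Prime) (hR : Rough (N * q)) (hmin : (N * q).minFac = q)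
    (hN : DD N) : DD (N * q) := by
  intro _ ι _ _ c a hB
  rw [hmin]
  by_contra hcon
  rw [not_le, lt_min_iff] at hcon
  obtain ⟨hc1, hc2⟩ := hcon
  have hNpos : 0 < N := Nat.pos_of_ne_zero (by
    rintro rfl
    have := hR.1
    omega)
  have : NeZero N := ⟨hNpos.ne'⟩
  have : Fact q.Prime := ⟨hq⟩
  have hodd := rough_odd hR
  obtain ⟨s, a', -, -, hsum, hLL, -⟩ := fibre_thm N q 1 hodd c a hB
  have hT : ∑ l, T (s l) = T (s 0) := Fin.sum_univ_one _
  have hs1 : ∑ l, s l = s 0 := Fin.sum_univ_one _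
  rw [hT] at hLL
  rw [hs1] at hsum
  have hge := LL_ge_min q (T (s 0)) (cX N 1) a'
  have hlt : 1 + T (s 0) + Gam a' ≤ q := by
    rcases min_le_iff.1 (hge.trans hLL) with h | h <;> omega
  have heq := LL_eq_Linf q (T (s 0)) (cX N 1) a' hlt
  have hRL := R_le_LL q (T (s 0)) hq.one_lt.le (cX N 1) a'
  have hmain : 1 + T (s 0 + ∑ k, a' k) ≤ Linf (T (s 0)) (cX N 1) a' := by
    by_cases h1 : N = 1
    · have hempty : ∀ k : IX N 1, False := by
        intro k
        have h2 := k.1.2.1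
        have h3 := ZMod.val_lt k.1.1
        omega
      have h0 : ∑ k, a' k = 0 := Finset.sum_eq_zero fun k _ => (hempty k).elim
      rw [h0, add_zero]
      have h4 : 1 ≤ (R (cX N 1) a' 0).card := Finset.card_pos.2 ⟨0, zero_mem_R _ _⟩
      unfold Linf
      have h5 := Nat.mul_le_mul_left (1 + T (s 0)) h4
      omega
    · have hNodd : N % 2 = 1 := rough_odd (rough_dvd hR (Dvd.intro _ rfl))
      have hqN : q ≤ N.minFac := by
        have h2 := Nat.minFac_le_of_dvd (n := N * q) (Nat.minFac_prime h1).two_le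
          ((Nat.minFac_dvd N).trans (Dvd.intro _ rfl))
        omega
      exact U0g N hN (cX N 1) (full_cX N 1 hNodd) (s 0) a' (by omega)
  rw [hsum, ← heq] at hmain
  omega

/-- `DD n` for all rough `n`: strong induction, `DD_step` with `q = minFac n`; `n = 1` is trivial
(`minFac 1 = 1` and `R` is nonempty). -/
theorem DD_rough (n : ℕ) (hn : Rough n) : DD n := by
  induction n using Nat.strong_induction_on with
  | _ n ih =>
    by_cases h1 : n = 1
    · subst h1
      intro ι _ _ c a _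
      have h4 : 1 ≤ (R c a 0).card := Finset.card_pos.2 ⟨0, zero_mem_R _ _⟩
      refine le_trans (min_le_left _ _) ?_
      rwa [Nat.minFac_one]
    · have hp := Nat.minFac_prime h1
      obtain ⟨N, hN⟩ := Nat.minFac_dvd n
      rw [mul_comm] at hN
      have hNpos : 0 < N := Nat.pos_of_ne_zero (by
        rintro rfl
        have := hn.1
        omega)
      have hlt : N < n := by
        rw [hN]
        exact lt_mul_of_one_lt_right hNpos hp.one_lt
      have hRN : Rough N := rough_dvd hn (by rw [hN]; exact Dvd.intro _ rfl)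
      have h2 : DD (N * n.minFac) := by
        apply DD_step N n.minFac hp
        · rw [← hN]; exact hn
        · rw [← hN]
        · exact ih N hlt hRN
      rw [← hN] at h2
      exact h2

end RG
end

section

set_option autoImplicit false

open Finset Pointwise

namespace RG

open SPR (T two_T T_succ le_T T_mono T_zero eight_T)

/-- The step `N → N q` for `w ≥ 4` (`fibre_thm`, `full_cX`, `T12`, `T3`). -/
theorem CC_step4 (N q w : ℕ) (hq : q.Prime) (hR : Rough (N * q)) (hw : 4 ≤ w)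
    (hC : CC N (w * q)) (hU : UU N w) : CC (N * q) w := by
  intro hne ι _ _ c a hB
  have hN0 : N ≠ 0 := by
    rintro rfl
    exact hne.out (Nat.zero_mul q)
  haveI : NeZero N := ⟨hN0⟩
  haveI : Fact q.Prime := ⟨hq⟩
  have hodd : (N * q) % 2 = 1 := rough_odd hR
  have hq1 : 10000 ≤ q := hR.2 q hq (Nat.dvd_mul_left q N)
  have hqo : q % 2 = 1 := by
    by_contra hcon
    have h2 : 2 ∣ q := by omega
    have h3 : 2 ∣ N * q := h2.mul_left N
    omega
  have hNo : N % 2 = 1 := by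
    by_contra hcon
    have h2 : 2 ∣ N := by omega
    have h3 : 2 ∣ N * q := h2.mul_right q
    omega
  obtain ⟨s, a', hs, ha', hsum, hLL, -⟩ := fibre_thm N q w hodd c a hB
  have key : ∃ h, h ∣ N * q ∧ ph w h (∑ l, s l + ∑ k, a' k) ≤ LL q (∑ l, T (s l)) (cX N w) a' := by
    by_cases h1 : 1 + ∑ l, T (s l) + Gam a' ≤ q ∨ q ≤ 1 + ∑ l, T (s l)
    · exact T12 q w hq1 hqo hNo (by omega) hC hU (cX N w) (full_cX N w hNo) s a' hs ha' h1
    · rw [not_or, not_le, not_le] at h1
      exact T3 q w hq1 hqo hNo hw hC (cX N w) (full_cX N w hNo) s a' ha' h1.2.le h1.1.le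
  obtain ⟨h, hh, h2⟩ := key
  refine ⟨h, hh, ?_⟩
  rw [hsum] at h2
  exact h2.trans hLL

end RG
end

section

set_option autoImplicit false

open Finset Pointwise

namespace RG

open SPR (T two_T T_succ le_T T_mono T_zero eight_T)

variable {n w : ℕ} [NeZero n] {ι : Type} [Fintype ι] [DecidableEq ι]

/-- All `s ≤ α`, `a ≤ 2 α + 1`.  `zz a = 0`: `P2_z0`.  Otherwise: `|X0| = n` implies `R_Γ = ℤ/n` (`X0_le`):
`P2_rho`.  `|X0| < n`: `odd_few`; `zz a ≥ n/21 + 20`: `ee_A`, `P2_A`; `zz a < n/21 + 20`: `ee_B`, `P2_B`. -/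
theorem P2 (hn : Rough n) (h1 : 1 < n) (hw : 1 ≤ w) (hD : DD n) (hC : CC n w)
    (c : ι → ZMod n) (hF : Full w c) (s : Fin w → ℕ) (a : ι → ℕ)
    (hM : w * n ≤ 2 * (∑ l, s l + ∑ k, a k) + w)
    (hs : ∀ l, s l ≤ (2 * (∑ l, s l + ∑ k, a k) + w + w * n) / (2 * w * n))
    (ha : ∀ k, a k ≤ 2 * ((2 * (∑ l, s l + ∑ k, a k) + w + w * n) / (2 * w * n)) + 1) :
    ∃ h, h ∣ n ∧ ph w h (∑ l, s l + ∑ k, a k) ≤ Linf (∑ l, T (s l)) c a := by
  have hn0 : 10000 ≤ n := by
    have h2 := hn.2 n.minFac (Nat.minFac_prime (by omega)) (Nat.minFac_dvd n)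
    exact h2.trans (Nat.minFac_le (by omega))
  by_cases hz0 : zz a = 0
  · exact P2_z0 hn h1 hw hD hC c hF s a hM hz0
  have hcard : ∀ X : Finset (ZMod n), X.card ≤ n := fun X => by
    have := Finset.card_le_univ X
    rwa [ZMod.card] at this
  by_cases hX : (R c (od a) 0).card = n
  · refine ⟨n, dvd_refl n, P2_rho hn hw c hF s a hM ?_⟩
    exact le_antisymm (hcard _) (hX.symm.le.trans (X0_le c a))
  have hX' : (R c (od a) 0).card < n := lt_of_le_of_ne (hcard _) hX
  have ho := odd_few hn h1 hw hC c hF a hX'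
  by_cases hz : n / 21 + 20 ≤ zz a
  · refine ⟨n, dvd_refl n, P2_A hn h1 hw hD c hF s a hM hz ?_⟩
    have hpos : 0 < 2 * w * n := by positivity
    set al := (2 * (∑ l, s l + ∑ k, a k) + w + w * n) / (2 * w * n) with hal
    have hdiv : al * (2 * w * n) ≤ 2 * (∑ l, s l + ∑ k, a k) + w + w * n :=
      Nat.div_mul_le_self _ _
    have hal1 : 1 ≤ al := by
      rw [hal, Nat.one_le_div_iff hpos]
      nlinarith
    refine ee_A hn0 hw s a al hal1 hs ha ?_ ho
    obtain ⟨b, hb⟩ : ∃ b, al = b + 1 := ⟨al - 1, by omega⟩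
    have h3 : 2 * al - 1 = 2 * b + 1 := by omega
    rw [h3]
    rw [hb] at hdiv
    nlinarith
  · have he := ee_B hn h1 hw c hF a (not_le.1 hz) ho
    exact P2_B hn h1 hw hD c hF s a hM (Nat.one_le_iff_ne_zero.2 hz0) he

end RG
end

section

set_option autoImplicit false

open Finset Pointwise

namespace RG

open SPR (T two_T T_succ le_T T_mono T_zero eight_T pr)

/-- a divisor `1 < k < 6 q` of `N q` is prime (all its prime factors are `≥ q`; a composite one is
`≥ q^2 ≥ 10000 q`). -/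
lemma prime_of_lt {N q k : ℕ} (hq1 : 10000 ≤ q) (hmin : (N * q).minFac = q) (hk : k ∣ N * q)
    (h1 : 1 < k) (h6 : k < 6 * q) : k.Prime := by
  by_contra hc
  have h2 := Nat.minFac_sq_le_self (by omega : 0 < k) hc
  have h3 : k.minFac.Prime := Nat.minFac_prime (by omega)
  have h4 : q ≤ k.minFac := by
    rw [← hmin]
    exact Nat.minFac_le_of_dvd h3.two_le ((Nat.minFac_dvd k).trans hk)
  nlinarith

private lemma w9_stb {N : ℕ} [NeZero N] {ι' : Type} [Fintype ι'] (c' : ι' → ZMod N)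
    (a' : ι' → ℕ) : Nat.card (stb (R c' a' 0)) ≤ (R c' a' 0).card := by
  have h0 := zero_mem_R c' a'
  have hmem : ∀ g : stb (R c' a' 0), (g : ZMod N) ∈ R c' a' 0 := by
    intro g
    have h1 := ((mem_stb _ _).1 g.2 0).2 h0
    rwa [zero_add] at h1
  have h2 := Nat.card_le_card_of_injective
    (fun g : stb (R c' a' 0) => (⟨(g : ZMod N), hmem g⟩ : (R c' a' 0 : Finset (ZMod N))))
    (fun g g' h => Subtype.ext (Subtype.mk.inj h))
  have h3 : Nat.card (R c' a' 0 : Finset (ZMod N)) = (R c' a' 0).card := by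
    rw [Nat.card_eq_fintype_card, Fintype.card_coe]
  rwa [h3] at h2

private lemma w9_five (a0 : ℕ) : 5 * a0 ≤ 2 * T a0 + 4 := by
  have h := two_T a0
  rw [h]
  zify
  nlinarith [sq_nonneg ((a0 : ℤ) - 2)]

private lemma w9_outs {G : Type*} [AddCommGroup G] {ι : Type*} [Fintype ι] (K : AddSubgroup G)
    (c : ι → G) (a : ι → ℕ) : outs K c a ≤ ∑ k, big a k + outs K c (sml a) := by
  classical
  unfold outs
  have h1 : ∀ k, a k = big a k + sml a k := fun k => by
    have := congrFun (big_add_sml a) k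
    rw [Pi.add_apply] at this
    exact this.symm
  rw [Finset.sum_congr rfl fun k _ => h1 k, Finset.sum_add_distrib]
  exact Nat.add_le_add_right (Finset.sum_le_sum_of_subset (Finset.filter_subset _ _)) _

/-- `w = 1`, `N` composite, `q/2 < m < 3 q`, `Θ = T a0 + Γ(big a') + 1 ≤ q ≤ W`.
Let `K' = stb (R_0(a'))`.
(1) `K' = ⊤`: `|R_0(a')| = N`, `LL ≥ N = φ_N(m)` (`R_le_LL`, `ph_small`, `3 q ≤ (N-1)/2`).
(2) `2 m + 1 ≤ |K'|`: `LL ≥ |R_0(a')| ≥ |K'| = φ_{|K'|}(m)`.
(3) `K' = ⊥`: `lev1` with `κ = 60` and `num5` with `x = 0`, `G0 = ∑ sml`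
(`m = a0 + ∑ big + ∑ sml`, `5 a0 ≤ 2 T a0 + 4`, `big_sum`).
(4) otherwise `|K'|` is a prime `≥ q` (`prime_of_lt`).  Let `u = outs K' c' a' = outs L c a`,
`L = K'.comap pr` a proper subgroup of `ℤ/Nq` (`|L| < N q`), `v = m - u = ins L c a`.
(4a) `u ≤ q - 1` and `u + v ≤ v^2 + 1`: `Tper`.  (4b) `u ≥ q`: `lev2` with `κ = 100`, `numa`,
`G0 = outs K' (sml a') ≥ u - ∑ big`.  (4c) `v^2 + 1 < u + v = m < 3 q`: `lev2` with `κ = 60`, `num5` with
`x = v`, `5 G0 ≥ 5 m - 5 v - 2 Γ(big)`. -/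
theorem T4c (N q : ℕ) [NeZero N] [NeZero (N * q)] (hq : q.Prime) (hR : Rough (N * q))
    (hmin : (N * q).minFac = q) (hN : q * q ≤ N) (hD : DD N)
    (hL : ∀ k, k ∣ N * q → k < N * q → CC k 1)
    {ι : Type} [Fintype ι] [DecidableEq ι] (c : ι → ZMod (N * q)) (a : ι → ℕ) (hB : Bdd 1 c a)
    {ι' : Type} [Fintype ι'] [DecidableEq ι'] (c' : ι' → ZMod N) (hF : Full 1 c') (a0 : ℕ)
    (a' : ι' → ℕ) (hsum : a0 + ∑ k, a' k = ∑ k, a k)
    (hLL : LL q (T a0) c' a' ≤ (R c a 0).card)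
    (hins : ∀ K : AddSubgroup (ZMod N),
      a0 + ins K c' a' = ins (K.comap (pr N q).toAddMonoidHom) c a)
    (hm1 : q ≤ 2 * ∑ k, a k) (hm2 : ∑ k, a k < 3 * q)
    (h1 : T a0 + Gam (big a') + 1 ≤ q) (h2 : q ≤ 1 + T a0 + Gam a') :
    ∃ h, h ∣ N * q ∧ ph 1 h (∑ k, a k) ≤ (R c a 0).card := by
  have hq1 : 10000 ≤ q := hR.2 q hq (Dvd.intro_left N rfl)
  have hqo : q % 2 = 1 := by
    rcases hq.eq_two_or_odd with h | h
    · omega
    · exact h
  have hqN : 10000 * q ≤ N := (Nat.mul_le_mul_right q hq1).trans hN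
  have hRN : Rough N := rough_dvd hR (Dvd.intro q rfl)
  have hNmin : 10000 ≤ N.minFac := rough_minFac hRN (by omega)
  set m := ∑ k, a k with hm
  set K' := stb (R c' a' 0) with hK'
  have hKc := w9_stb c' a'
  rw [← hK'] at hKc
  have hR0 := R_le_LL q (T a0) hq.one_lt.le c' a'
  have hKdvd : Nat.card K' ∣ N * q := (card_sub_dvd K').trans (Dvd.intro q rfl)
  have hT1 : 1 ≤ T a0 + Gam (big a') + 1 := Nat.le_add_left _ _
  have hsm : ∑ k, a' k = ∑ k, big a' k + ∑ k, sml a' k := by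
    rw [← Finset.sum_add_distrib]
    refine Finset.sum_congr rfl fun k _ => ?_
    have := congrFun (big_add_sml a') k
    rw [Pi.add_apply] at this
    exact this.symm
  have hbs := big_sum a'
  have h5 := w9_five a0
  rcases Nat.lt_or_ge (2 * m) (Nat.card K') with hc2 | hc2
  · -- the stabilizer is large
    refine ⟨Nat.card K', hKdvd, ?_⟩
    rw [ph_small 1 (Nat.card K') m (by omega)]
    exact hKc.trans (hR0.trans hLL)
  by_cases hbot : K' = ⊥
  · -- aperiodic
    refine ⟨q, Dvd.intro_left N rfl, ?_⟩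
    have h3 := lev1 q a0 60 hD (by norm_num) (by
      have : T 60 = 1830 := rfl
      omega) c' hF a' hbot h1 h2
    have h4 := num5 q m (T a0 + Gam (big a') + 1) (∑ k, sml a' k) 0 hq1 hqo hm1 hm2 hT1 h1
      (by omega) (by omega)
    have e1 : 9 * (60 - 1) = 531 := by norm_num
    rw [e1] at h3
    have e2 : 60 + 1 = 61 := by norm_num
    rw [e2] at h3
    omega
  -- the stabilizer has prime order
  have hKpos : 0 < Nat.card K' := Nat.card_pos
  have hK1 : 1 < Nat.card K' := by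
    rcases Nat.lt_or_ge 1 (Nat.card K') with h | h
    · exact h
    · exfalso
      apply hbot
      have : Nat.card K' = 1 := by omega
      exact (AddSubgroup.card_eq_one).1 this
  have hKp : (Nat.card K').Prime := prime_of_lt hq1 hmin hKdvd hK1 (by omega)
  have hK10 : 10000 ≤ Nat.card K' := hR.2 _ hKp hKdvd
  set L := K'.comap (pr N q).toAddMonoidHom with hLdef
  have hLdvd : Nat.card L ∣ N * q := card_sub_dvd L
  have hLlt : Nat.card L < N * q := by
    have hle := Nat.le_of_dvd (Nat.pos_of_ne_zero (NeZero.ne (N * q))) hLdvd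
    rcases Nat.lt_or_ge (Nat.card L) (N * q) with h | h
    · exact h
    · exfalso
      have h3 : L = ⊤ := AddSubgroup.eq_top_of_card_eq L (by rw [Nat.card_zmod]; omega)
      have h4 : K' = ⊤ := by
        rw [AddSubgroup.eq_top_iff']
        intro y
        have h5 : ((y.val : ℕ) : ZMod (N * q)) ∈ L := by
          rw [h3]
          exact AddSubgroup.mem_top _
        rw [hLdef, AddSubgroup.mem_comap] at h5
        have h6 : (pr N q).toAddMonoidHom ((y.val : ℕ) : ZMod (N * q)) = y := by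
          show pr N q ((y.val : ℕ) : ZMod (N * q)) = y
          rw [map_natCast, ZMod.natCast_zmod_val]
        rwa [h6] at h5
      have h7 : Nat.card K' = N := by
        rw [h4, AddSubgroup.card_top, Nat.card_zmod]
      omega
  have hCL : CC (Nat.card L) 1 := hL _ hLdvd hLlt
  have hvK := hins K'
  rw [← hLdef] at hvK
  have huv := ins_add_outs L c a
  have huv' := ins_add_outs K' c' a'
  rw [← hm] at huv
  have hu : outs K' c' a' = outs L c a := by omega
  have hob := w9_outs K' c' a'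
  rw [hu] at hob
  rcases Nat.lt_or_ge (outs L c a) q with hu1 | hu1
  · rcases Nat.lt_or_ge (ins L c a * ins L c a + 1) (outs L c a + ins L c a) with hv | hv
    · -- few elements inside
      refine ⟨q, Dvd.intro_left N rfl, ?_⟩
      have h3 := lev2 q a0 60 hD (by norm_num) (by
        have : T 60 = 1830 := rfl
        omega) c' hF a' hKp (by rw [← hK']; omega) h1 h2
      rw [← hK'] at h3
      have h4 := num5 q m (T a0 + Gam (big a') + 1) (outs K' c' (sml a')) (ins L c a) hq1 hqo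
        hm1 hm2 hT1 h1 (by omega) (by omega)
      have e1 : 9 * (60 - 1) = 531 := by norm_num
      rw [e1] at h3
      have e2 : 60 + 1 = 61 := by norm_num
      rw [e2] at h3
      omega
    · exact Tper hR c a hB L hCL (by rw [hmin]; omega) hv
  · refine ⟨q, Dvd.intro_left N rfl, ?_⟩
    have h3 := lev2 q a0 100 hD (by norm_num) (by
      have : T 100 = 5050 := rfl
      omega) c' hF a' hKp (by rw [← hK']; omega) h1 h2
    rw [← hK'] at h3
    have h4 := numa q m (T a0 + Gam (big a') + 1) (outs K' c' (sml a')) hq1 hqo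
      hm2 hT1 h1 (by omega)
    have e1 : 9 * (100 - 1) = 891 := by norm_num
    rw [e1] at h3
    have e2 : 100 + 1 = 101 := by norm_num
    rw [e2] at h3
    omega

end RG
end

section

set_option autoImplicit false

open Finset Pointwise

namespace RG

open SPR (T two_T T_succ le_T T_mono T_zero eight_T)

private lemma mem_cls_ws {G : Type*} [AddCommGroup G] {ι : Type*} [Fintype ι] (c : ι → G) (x : G)
    (k : ι) : k ∈ cls c x ↔ c k = x ∨ c k = -x := by
  classical
  simp [cls]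

private lemma zero_of_eq_neg_ws {n : ℕ} (hn : n % 2 = 1) (x : ZMod n) (h : x = -x) : x = 0 := by
  have h1 : x + x = 0 := by
    nth_rewrite 1 [h]
    exact neg_add_cancel x
  have h4 : ((2 * (n / 2) + 1 : ℕ) : ZMod n) = 0 := by
    have h5 : 2 * (n / 2) + 1 = n := by omega
    rw [h5]
    exact ZMod.natCast_self n
  push_cast at h4
  linear_combination x * h4 - ((n / 2 : ℕ) : ZMod n) * h1

/-- From asymmetric sets to `1`-bounded sequences: `A = {c k : a k ≠ 0}` is asymmetric (`n` odd),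
`|A| = ∑ a`, `Σ A = R_0(a)`. -/
lemma CC_of_sets (n : ℕ) (hn : n % 2 = 1)
    (H : ∀ A : Finset (ZMod n), (∀ x ∈ A, -x ∉ A) → ∃ h, h ∣ n ∧ ph 1 h A.card ≤ A.subsetSum.card) :
    CC n 1 := by
  intro _ ι _ _ c a hB
  obtain ⟨hc0, hcl⟩ := hB
  have hsum2 : ∀ k k', k ≠ k' → (c k' = c k ∨ c k' = -c k) → a k + a k' ≤ 1 := by
    intro k k' hne h
    refine le_trans ?_ (hcl (c k))
    rw [← Finset.sum_pair hne]
    apply Finset.sum_le_sum_of_subset
    intro i hi
    rw [Finset.mem_insert, Finset.mem_singleton] at hi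
    rcases hi with rfl | rfl
    · exact (mem_cls_ws c (c i) i).2 (Or.inl rfl)
    · exact (mem_cls_ws c (c k) i).2 h
  have ha1 : ∀ k, a k ≤ 1 := by
    intro k
    refine le_trans ?_ (hcl (c k))
    exact Finset.single_le_sum (f := a) (fun i _ => Nat.zero_le _)
      ((mem_cls_ws c (c k) k).2 (Or.inl rfl))
  set F : Finset ι := Finset.univ.filter (fun k => a k ≠ 0) with hF
  have hmemF : ∀ k, k ∈ F ↔ a k ≠ 0 := fun k => by simp [hF]
  have hinj : Set.InjOn c F := by
    intro k hk k' hk' h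
    by_contra hne
    have h1 := (hmemF k).1 hk
    have h2 := (hmemF k').1 hk'
    have h3 := hsum2 k k' hne (Or.inl h.symm)
    omega
  have hasym : ∀ x ∈ F.image c, -x ∉ F.image c := by
    intro x hx hx'
    obtain ⟨k, hk, hk1⟩ := Finset.mem_image.1 hx
    obtain ⟨k', hk', hk2⟩ := Finset.mem_image.1 hx'
    have h1 := (hmemF k).1 hk
    have h2 := (hmemF k').1 hk'
    by_cases hne : k = k'
    · subst hne
      rw [hk1] at hk2
      apply hc0 k
      rw [hk1]
      exact zero_of_eq_neg_ws hn x hk2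
    · have h3 := hsum2 k k' hne (Or.inr (by rw [hk2, hk1]))
      omega
  obtain ⟨h, hh, h1⟩ := H (F.image c) hasym
  refine ⟨h, hh, ?_⟩
  have hcard : (F.image c).card = ∑ k, a k := by
    rw [Finset.card_image_of_injOn hinj, Finset.card_eq_sum_ones, hF, Finset.sum_filter]
    refine Finset.sum_congr rfl fun k _ => ?_
    have := ha1 k
    split_ifs with h0 <;> omega
  rw [hcard] at h1
  refine h1.trans (Finset.card_le_card ?_)
  intro t ht
  obtain ⟨B, hB, hBt⟩ := Finset.mem_subsetSum_iff.1 ht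
  rw [mem_R]
  refine ⟨fun k => if a k ≠ 0 ∧ c k ∈ B then 1 else 0, fun k => ?_, ?_, Nat.zero_le _⟩
  · by_cases h0 : a k ≠ 0 ∧ c k ∈ B
    · simp only [if_pos h0]
      omega
    · simp only [if_neg h0]
      omega
  · unfold pos
    rw [← hBt]
    have e1 : ∀ k, (if a k ≠ 0 ∧ c k ∈ B then 1 else 0) • c k
        = if k ∈ F.filter (fun k => c k ∈ B) then c k else 0 := by
      intro k
      by_cases h0 : a k ≠ 0 ∧ c k ∈ B
      · rw [if_pos h0, if_pos (Finset.mem_filter.2 ⟨(hmemF k).2 h0.1, h0.2⟩), one_smul]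
      · rw [if_neg h0, if_neg, zero_smul]
        intro h2
        have h3 := Finset.mem_filter.1 h2
        exact h0 ⟨(hmemF k).1 h3.1, h3.2⟩
    rw [Finset.sum_congr rfl fun k _ => e1 k, Finset.sum_ite_mem, Finset.univ_inter]
    have e2 : B = (F.filter (fun k => c k ∈ B)).image c := by
      ext x
      constructor
      · intro hx
        obtain ⟨k, hk, hk1⟩ := Finset.mem_image.1 (hB hx)
        exact Finset.mem_image.2 ⟨k, Finset.mem_filter.2 ⟨hk, by rw [hk1]; exact hx⟩, hk1⟩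
      · intro hx
        obtain ⟨k, hk, hk1⟩ := Finset.mem_image.1 hx
        rw [← hk1]
        exact (Finset.mem_filter.1 hk).2
    have e3 : ∑ b ∈ B, b = ∑ b ∈ (F.filter (fun k => c k ∈ B)).image c, b := by
      rw [← e2]
    rw [e3, Finset.sum_image]
    intro k hk k' hk' h
    exact hinj (Finset.mem_filter.1 hk).1 (Finset.mem_filter.1 hk').1 h

/-- From `1`-bounded sequences to asymmetric sets: `ι = {x // x ∈ A}` (a subtype of `ZMod n`), `c = val`,
`a = 1`. -/
lemma sets_of_CC (n : ℕ) [NeZero n] (hn : n % 2 = 1) (hC : CC n 1) (A : Finset (ZMod n))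
    (hA : ∀ x ∈ A, -x ∉ A) : ∃ h, h ∣ n ∧ ph 1 h A.card ≤ A.subsetSum.card := by
  have hz : (0 : ZMod n) ∉ A := fun h => hA 0 h (by rw [neg_zero]; exact h)
  have hBdd : Bdd 1 (fun k : {x // x ∈ A} => (k : ZMod n)) (fun _ => 1) := by
    refine ⟨fun k h => hz (by rw [← h]; exact k.2), fun x => ?_⟩
    rw [Finset.sum_const, smul_eq_mul, mul_one]
    refine Finset.card_le_one.2 fun k hk k' hk' => ?_
    have h1 := (mem_cls_ws _ x k).1 hk
    have h2 := (mem_cls_ws _ x k').1 hk'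
    have key : ∀ k k' : {x // x ∈ A}, (k : ZMod n) = x → (k' : ZMod n) = -x → False := by
      intro k k' e1 e2
      apply hA x (by rw [← e1]; exact k.2)
      rw [← e2]
      exact k'.2
    rcases h1 with h1 | h1 <;> rcases h2 with h2 | h2
    · exact Subtype.ext (h1.trans h2.symm)
    · exact (key k k' h1 h2).elim
    · exact (key k' k h2 h1).elim
    · exact Subtype.ext (h1.trans h2.symm)
  obtain ⟨h, hh, h1⟩ := hC {x // x ∈ A} (fun k => (k : ZMod n)) (fun _ => 1) hBdd
  refine ⟨h, hh, ?_⟩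
  have hcard : ∑ _k : {x // x ∈ A}, 1 = A.card := by
    rw [Finset.sum_const, smul_eq_mul, mul_one, Finset.card_univ, Fintype.card_coe]
  rw [hcard] at h1
  refine h1.trans (Finset.card_le_card ?_)
  intro t ht
  obtain ⟨j, hj1, hj2, _⟩ := mem_R.1 ht
  refine Finset.mem_subsetSum_iff.2
    ⟨(Finset.univ.filter (fun k : {x // x ∈ A} => j k ≠ 0)).image
      (fun k : {x // x ∈ A} => (k : ZMod n)), ?_, ?_⟩
  · intro x hx
    obtain ⟨k, _, hk⟩ := Finset.mem_image.1 hx
    rw [← hk]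
    exact k.2
  · rw [Finset.sum_image (fun k _ k' _ h => Subtype.ext h), ← hj2]
    unfold pos
    rw [Finset.sum_filter]
    refine Finset.sum_congr rfl fun k _ => ?_
    have h3 := hj1 k
    by_cases h0 : j k = 0
    · rw [if_neg (not_not.2 h0), h0, zero_smul]
    · have h4 : j k = 1 := by omega
      rw [if_pos h0, h4, one_smul]

/-- Semiprimes: `SPR.lower` (an asymmetric set has at most `(n-1)/2` elements), `ph_one_eq`. -/
theorem CC_semi (p q : ℕ) (hp : p.Prime) (hq : q.Prime) (h1000 : 1000 ≤ q) (hqp : q ≤ p) :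
    CC (p * q) 1 := by
  have hodd : (q * p) % 2 = 1 := by
    rcases hp.eq_two_or_odd with h | h
    · omega
    · rcases hq.eq_two_or_odd with h' | h'
      · omega
      · rw [Nat.mul_mod, h, h']
  rw [Nat.mul_comm p q]
  intro _
  refine CC_of_sets (q * p) hodd fun A hA => ?_
  have hz : (0 : ZMod (q * p)) ∉ A := fun h => hA 0 h (by rw [neg_zero]; exact h)
  have hm : A.card ≤ (q * p - 1) / 2 := by
    have hd : Disjoint A (A.image (fun x => -x)) := by
      rw [Finset.disjoint_left]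
      intro x hx hx'
      obtain ⟨y, hy, hy'⟩ := Finset.mem_image.1 hx'
      apply hA y hy
      rw [hy']
      exact hx
    have h1 : (A ∪ A.image (fun x => -x)).card = 2 * A.card := by
      rw [Finset.card_union_of_disjoint hd, Finset.card_image_of_injective _ neg_injective]
      ring
    have h0 : (0 : ZMod (q * p)) ∉ A ∪ A.image (fun x => -x) := by
      intro h
      rcases Finset.mem_union.1 h with h | h
      · exact hz h
      · obtain ⟨y, hy, hy'⟩ := Finset.mem_image.1 h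
        rw [neg_eq_zero] at hy'
        exact hz (by rw [← hy']; exact hy)
    have h2 : (insert 0 (A ∪ A.image (fun x => -x))).card ≤ Fintype.card (ZMod (q * p)) :=
      Finset.card_le_univ _
    rw [Finset.card_insert_of_notMem h0, h1, ZMod.card] at h2
    omega
  obtain ⟨h, hh, h1⟩ := SPR.lower hq hp h1000 hqp A hA hm
  exact ⟨h, hh, by rw [ph_one_eq]; exact h1⟩

end RG
end

section

set_option autoImplicit false

open Finset Pointwise

namespace RG

open SPR (T two_T T_succ le_T T_mono T_zero eight_T)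

/-- The trivial group: no entries, `Linf = 1 + τ ≥ gg w (∑ s) = φ_1(m)`. -/
lemma UU_one (w : ℕ) (hw : 1 ≤ w) : UU 1 w := by
  intro _ ι _ _ c a s hF
  have hemp : IsEmpty ι := ⟨fun k => hF.1 k (Subsingleton.elim _ _)⟩
  refine ⟨1, dvd_refl 1, ?_⟩
  have h0 : ∑ k, a k = 0 := by
    rw [Finset.univ_eq_empty, Finset.sum_empty]
  rw [h0, add_zero, ph_h_one]
  have h1 : 1 ≤ (R c a 0).card := Finset.card_pos.2 ⟨0, zero_mem_R c a⟩
  calc gg w (∑ l, s l) ≤ 1 + ∑ l, T (s l) := gg_parts w hw s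
    _ = (1 + ∑ l, T (s l)) * 1 := (mul_one _).symm
    _ ≤ (1 + ∑ l, T (s l)) * (R c a 0).card := Nat.mul_le_mul_left _ h1
    _ ≤ Linf (∑ l, T (s l)) c a := Nat.le_add_right _ _

private lemma v5_sum_update {κ : Type} [Fintype κ] [DecidableEq κ] (f : κ → ℕ) (k : κ) (d : ℕ)
    (hd : d ≤ f k) : ∑ i, Function.update f k (f k - d) i + d = ∑ i, f i := by
  rw [Finset.sum_update_of_mem (Finset.mem_univ k)]
  have h1 : ∑ i, f i = f k + ∑ i ∈ Finset.univ \ {k}, f i := by
    rw [Finset.sdiff_singleton_eq_erase, Finset.add_sum_erase _ _ (Finset.mem_univ k)]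
  rw [h1]
  omega

private lemma v5_outs {n : ℕ} {ι : Type} [Fintype ι] [DecidableEq ι] (K : AddSubgroup (ZMod n))
    (c : ι → ZMod n) (a : ι → ℕ) (k : ι) (hk : 2 ≤ a k) :
    outs K c a ≤ outs K c (Function.update a k (a k - 2)) + 2 := by
  classical
  unfold outs
  by_cases hc : c k ∈ K
  · have h1 : ∑ i ∈ Finset.univ.filter (fun i => c i ∉ K), a i =
        ∑ i ∈ Finset.univ.filter (fun i => c i ∉ K), Function.update a k (a k - 2) i := by
      refine Finset.sum_congr rfl fun i hi => ?_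
      have hik : i ≠ k := by
        rintro rfl
        exact (Finset.mem_filter.1 hi).2 hc
      rw [Function.update_of_ne hik]
    omega
  · have hmem : k ∈ Finset.univ.filter (fun i => c i ∉ K) :=
      Finset.mem_filter.2 ⟨Finset.mem_univ k, hc⟩
    rw [← Finset.add_sum_erase _ _ hmem, ← Finset.add_sum_erase _ _ hmem, Function.update_self]
    have h1 : ∑ i ∈ (Finset.univ.filter (fun i => c i ∉ K)).erase k, a i =
        ∑ i ∈ (Finset.univ.filter (fun i => c i ∉ K)).erase k,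
          Function.update a k (a k - 2) i := by
      refine Finset.sum_congr rfl fun i hi => ?_
      rw [Function.update_of_ne (Finset.ne_of_mem_erase hi)]
    omega

/-- `UU n w` from `CC n w` and `UU k w` for the proper divisors `k`.

Strong induction on `m = ∑ s + ∑ a`.  `2 m ≤ w (minFac n - 1)`: `UU_base`.  Otherwise
`9999 w ≤ 2 m`.  All `a k ≤ 1`: `U_flat`.  Otherwise let `a k ≥ 2` be maximal, `a' = update a k (a k - 2)`.
If the crude gain conditions of `U_b1` (for some `l`) or `U_b2` hold we are done by induction.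
Otherwise let `K = stb (R_0(a'))`: `K ≠ 0` (`fail_K0`), `outs K c a' ≤ 3` (`fail_K1`), so
`outs K c a ≤ 5`.  `K ≠ ⊤`: `|K|` is a proper divisor of `n`, `U_sub`.  `K = ⊤`: `R_0(a') = ℤ/n`, so
`R_0(a) = ℤ/n`.  If some `s l ≥ α + 1` or `a k ≥ 2 α + 2`: `U_b1s`, `U_b2s`.  Otherwise `α ≥ 1` (as
`a k ≥ 2`), so `M ≥ w n`, and `P2` applies. -/
theorem UU_step (n w : ℕ) (hn : Rough n) (h1 : 1 < n) (hw : 1 ≤ w) (hD : DD n) (hC : CC n w)
    (hU : ∀ k, k ∣ n → k < n → UU k w) : UU n w := by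
  intro _ ι _ _ c a s hF
  obtain ⟨m, hm⟩ : ∃ m, m = ∑ l, s l + ∑ k, a k := ⟨_, rfl⟩
  induction m using Nat.strong_induction_on generalizing a s with
  | _ m IH =>
  by_cases hbase : 2 * (∑ l, s l + ∑ k, a k) ≤ w * (n.minFac - 1)
  · exact UU_base n w hn h1 hw hD c hF s a hbase
  have hmf := rough_minFac hn h1
  have hm9 : 9999 * w ≤ 2 * (∑ i, s i + ∑ j, a j) := by
    have h2 : w * 9999 ≤ w * (n.minFac - 1) := Nat.mul_le_mul_left _ (by omega)
    omega
  by_cases hflat : ∀ k, a k ≤ 1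
  · exact U_flat hn hw hC c hF s a hflat
  have hne : (Finset.univ : Finset ι).Nonempty := by
    push Not at hflat
    obtain ⟨k, -⟩ := hflat
    exact ⟨k, Finset.mem_univ k⟩
  obtain ⟨k, -, hkmax⟩ := Finset.exists_max_image Finset.univ a hne
  have hmax : ∀ j, a j ≤ a k := fun j => hkmax j (Finset.mem_univ j)
  have hk : 2 ≤ a k := by
    push Not at hflat
    obtain ⟨j, hj⟩ := hflat
    have := hmax j
    omega
  have IHa : ∃ h, h ∣ n ∧ ph w h (∑ i, s i + ∑ j, (Function.update a k (a k - 2)) j) ≤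
      Linf (∑ i, T (s i)) c (Function.update a k (a k - 2)) := by
    refine IH _ ?_ _ _ rfl
    have := v5_sum_update a k 2 hk
    omega
  have IHs : ∀ l, 1 ≤ s l →
      ∃ h, h ∣ n ∧ ph w h (∑ i, (Function.update s l (s l - 1)) i + ∑ k, a k) ≤
      Linf (∑ i, T ((Function.update s l (s l - 1)) i)) c a := by
    intro l hl
    refine IH _ ?_ _ _ rfl
    have := v5_sum_update s l 1 hl
    omega
  by_cases hb1 : ∃ l, 1 ≤ s l ∧
      2 * (∑ i, s i + ∑ k, a k) + w ≤ w * (s l * (R c a 0).card)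
  · obtain ⟨l, hl1, hl2⟩ := hb1
    exact U_b1 hn hw c s a l hl1 (IHs l hl1) hl2
  by_cases hb2 : 2 * (2 * (∑ i, s i + ∑ j, a j) + w) ≤
      w * ((a k - 1) * (R c (Function.update a k (a k - 2)) 0).card)
  · exact U_b2 hn hw c s a k hk IHa hb2
  push Not at hb1 hb2
  by_cases hbot : stb (R c (Function.update a k (a k - 2)) 0) = ⊥
  · exact (fail_K0 hn h1 hw hD c hF s a k hk hmax hm9 hb2 hb1 hbot).elim
  have hK1 := fail_K1 hn h1 hw c hF s a k hk hmax hm9 hb2 hb1 hbot
  have hK5 : outs (stb (R c (Function.update a k (a k - 2)) 0)) c a ≤ 5 := by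
    have := v5_outs (stb (R c (Function.update a k (a k - 2)) 0)) c a k hk
    omega
  by_cases htop : stb (R c (Function.update a k (a k - 2)) 0) = ⊤
  swap
  · have hdvd := card_sub_dvd (stb (R c (Function.update a k (a k - 2)) 0))
    have hlt : Nat.card (stb (R c (Function.update a k (a k - 2)) 0)) < n := by
      refine lt_of_le_of_ne (Nat.le_of_dvd hn.1 hdvd) fun heq => htop ?_
      apply AddSubgroup.eq_top_of_card_eq
      rw [heq, Nat.card_zmod]
    exact U_sub hn h1 hw c hF s a _ (hU _ hdvd hlt) hm9 hK5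
  have huniv : R c (Function.update a k (a k - 2)) 0 = Finset.univ := by
    refine Finset.eq_univ_iff_forall.2 fun t => ?_
    have h2 : t ∈ stb (R c (Function.update a k (a k - 2)) 0) := by
      rw [htop]
      exact AddSubgroup.mem_top t
    have h3 := ((mem_stb _ _).1 h2 0).2 (zero_mem_R _ _)
    rwa [zero_add] at h3
  have hR' : (R c (Function.update a k (a k - 2)) 0).card = n := by
    rw [huniv, Finset.card_univ, ZMod.card]
  have hR : (R c a 0).card = n := by
    have h2 : R c (Function.update a k (a k - 2)) 0 ⊆ R c a 0 := by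
      refine R_mono c _ a fun i => ?_
      by_cases hik : i = k
      · subst hik
        rw [Function.update_self]
        omega
      · rw [Function.update_of_ne hik]
    rw [huniv, Finset.univ_subset_iff] at h2
    rw [h2, Finset.card_univ, ZMod.card]
  by_cases hs : ∃ l, (2 * (∑ i, s i + ∑ k, a k) + w + w * n) / (2 * w * n) + 1 ≤ s l
  · obtain ⟨l, hl⟩ := hs
    exact U_b1s hn hw c s a l hl (IHs l ((Nat.le_add_left 1 _).trans hl)) hR
  by_cases ha : 2 * ((2 * (∑ i, s i + ∑ j, a j) + w + w * n) / (2 * w * n)) + 2 ≤ a k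
  · exact U_b2s hn hw c s a k ha IHa hR'
  push Not at hs ha
  refine P2 hn h1 hw hD hC c hF s a ?_ (fun l => Nat.lt_succ_iff.1 (hs l)) (fun j => ?_)
  · have hal : 1 ≤ (2 * (∑ i, s i + ∑ j, a j) + w + w * n) / (2 * w * n) := by omega
    have hpos : 0 < 2 * w * n := by
      have : 0 < n := hn.1
      positivity
    have h2 := (Nat.le_div_iff_mul_le hpos).1 hal
    have h3 : 1 * (2 * w * n) = w * n + w * n := by ring
    omega
  · have := hmax j
    omega

end RG
end

section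

set_option autoImplicit false

open Finset Pointwise

namespace RG

open SPR (T two_T T_succ le_T T_mono T_zero eight_T pr)

/-- The step for `w = 1`.  `N` prime: `CC_semi`.  Otherwise `fibre_thm` (`w = 1`, `a0 = s 0`), `full_cX`:
`W ≤ q` or `q ≤ 1 + τ`: `T12`; note that for `N = 1` the index type `IX 1 1` is empty, `Γ = 0`, so that
this case applies.  `m ≤ (q-1)/2`: `LL ≥ q = φ_q(m)` (`LL_ge_min`, `ph_small`).  `q ≤ T a0 + Γ(big) + 1`:
`T4i`.  `3 q ≤ m`: `T4ii` (a divisor `h ≠ 1` of `N` is `≥ minFac (N q) = q`).  Otherwise `N` is composite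
(`N > 1` because `Γ > 0`), so `N ≥ q^2` and `T4c` applies. -/
theorem CC_step1 (N q : ℕ) (hq : q.Prime) (hR : Rough (N * q)) (hmin : (N * q).minFac = q)
    (hD : DD N) (hC : CC N q) (hC9 : CC N 9) (hU : UU N 1)
    (hL : ∀ k, k ∣ N * q → k < N * q → CC k 1) : CC (N * q) 1 := by
  have hN0 : N ≠ 0 := by
    rintro rfl
    have := hR.1
    omega
  have hodd : (N * q) % 2 = 1 := rough_odd hR
  have hq1 : 10000 ≤ q := hR.2 q hq (Nat.dvd_mul_left q N)
  have hqo : q % 2 = 1 := by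
    rcases hq.eq_two_or_odd with h | h
    · omega
    · exact h
  have hNo : N % 2 = 1 := by
    by_contra hcon
    have h2 : 2 ∣ N := by omega
    have h3 : 2 ∣ N * q := h2.mul_right q
    omega
  have hge : ∀ h, h ∣ N → h ≠ 1 → q ≤ h := by
    intro h hh h1
    have h2 : 0 < h := Nat.pos_of_dvd_of_pos hh (Nat.pos_of_ne_zero hN0)
    have h3 := Nat.minFac_le_of_dvd (n := N * q) (m := h) (by omega) (hh.mul_right q)
    omega
  intro hne ι _ _ c a hB
  by_cases hNp : N.Prime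
  · exact CC_semi N q hNp hq (by omega) (hge N dvd_rfl hNp.ne_one) ι c a hB
  haveI : NeZero N := ⟨hN0⟩
  haveI : Fact q.Prime := ⟨hq⟩
  obtain ⟨s, a', hs, ha', hsum, hLL, hins⟩ := fibre_thm N q 1 hodd c a hB
  have hT : ∑ l, T (s l) = T (s 0) := Fin.sum_univ_one _
  have hs1 : ∑ l, s l = s 0 := Fin.sum_univ_one _
  by_cases h0 : 1 + ∑ l, T (s l) + Gam a' ≤ q ∨ q ≤ 1 + ∑ l, T (s l)
  · obtain ⟨h, hh, h2⟩ := T12 q 1 hq1 hqo hNo le_rfl (by rw [one_mul]; exact hC) hU (cX N 1)
      (full_cX N 1 hNo) s a' hs ha' h0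
    rw [hsum] at h2
    exact ⟨h, hh, h2.trans hLL⟩
  rw [not_or, not_le, not_le] at h0
  rw [hT] at hLL h0
  rw [hs1] at hsum
  obtain ⟨h01, h02⟩ := h0
  have hins' : ∀ K : AddSubgroup (ZMod N),
      s 0 + ins K (cX N 1) a' = ins (K.comap (SPR.pr N q).toAddMonoidHom) c a := by
    intro K
    rw [← hs1]
    exact hins K
  by_cases hm1 : 2 * ∑ k, a k < q
  · refine ⟨q, Dvd.intro_left N rfl, ?_⟩
    have h3 := LL_ge_min q (T (s 0)) (cX N 1) a'
    rw [ph_small 1 q _ (by omega)]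
    rw [min_eq_left (by omega)] at h3
    exact h3.trans hLL
  by_cases hb : q ≤ T (s 0) + Gam (big a') + 1
  · obtain ⟨h, hh, h2⟩ := T4i q hq1 hqo hNo hC (cX N 1) (full_cX N 1 hNo) (s 0) a' ha'
      (by omega) hb
    rw [hsum] at h2
    exact ⟨h, hh, h2.trans hLL⟩
  by_cases hm3 : 3 * q ≤ ∑ k, a k
  · obtain ⟨h, hh, h2⟩ := T4ii q hq1 hqo hNo hge hC9 (cX N 1) (full_cX N 1 hNo) (s 0) a'
      (by omega) (by omega) (by rw [hsum]; exact hm3)
    rw [hsum] at h2
    exact ⟨h, hh, h2.trans hLL⟩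
  have hN1 : N ≠ 1 := by
    rintro rfl
    have hempty : ∀ k : IX 1 1, False := by
      intro k
      have h2 := k.1.2.1
      have h3 := ZMod.val_lt k.1.1
      omega
    have h4 : Gam a' = 0 := by
      unfold Gam
      exact Finset.sum_eq_zero fun k _ => (hempty k).elim
    omega
  have hNq : q * q ≤ N := by
    have h2 := Nat.minFac_sq_le_self (Nat.pos_of_ne_zero hN0) hNp
    have h3 := hge N.minFac (Nat.minFac_dvd N) (Nat.minFac_prime hN1).ne_one
    nlinarith
  exact T4c N q hq hR hmin hNq hD hL c a hB (cX N 1) (full_cX N 1 hNo) (s 0) a' hsum hLL hins'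
    (by omega) (by omega) (by omega) (by omega)

end RG
end

section

set_option autoImplicit false

open Finset Pointwise

namespace RG

open SPR (T two_T T_succ le_T T_mono T_zero eight_T)

/-- `n = 1`: no entries (`ZMod 1` is trivial), `Σ a = 0`, `φ_1(0) = 1`. -/
lemma CC_one (w : ℕ) : CC 1 w := by
  intro _ ι _ _ c a hB
  have hemp : IsEmpty ι := ⟨fun k => hB.1 k (Subsingleton.elim _ _)⟩
  refine ⟨1, dvd_refl 1, ?_⟩
  have h0 : ∑ k, a k = 0 := by
    rw [Finset.univ_eq_empty, Finset.sum_empty]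
  rw [h0]
  have h1 : 1 ≤ (R c a 0).card := Finset.card_pos.2 ⟨0, zero_mem_R c a⟩
  have h2 : ph w 1 0 = 1 := by
    unfold ph
    rw [Nat.zero_sub, gg_zero, mul_one]
  rw [h2]
  exact h1

/-- Strong induction on `n`.  `n = 1`: `CC_one`, `UU_one`.  `n > 1`: `q = minFac n`, `n = N q`; the
induction hypothesis gives `CC k w`, `UU k w` for all proper divisors `k` of `n` (rough by `rough_dvd`) and
all `w = 1` or `w ≥ 4`; first `CC n w` (`CC_step1`, `CC_step4`; `w q ≥ 4`), then `UU n w` (`UU_step`), with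
`DD_rough`. -/
theorem main_rg (n : ℕ) (hn : Rough n) (w : ℕ) (hw : w = 1 ∨ 4 ≤ w) : CC n w ∧ UU n w := by
  induction n using Nat.strong_induction_on generalizing w with
  | _ n ih =>
  have hw1 : 1 ≤ w := by omega
  by_cases h1 : n = 1
  · subst h1
    exact ⟨CC_one w, UU_one w hw1⟩
  have hn1 : 1 < n := by
    have := hn.1
    omega
  obtain ⟨q, hqdef⟩ : ∃ q, q = n.minFac := ⟨_, rfl⟩
  have hq : q.Prime := by
    rw [hqdef]
    exact Nat.minFac_prime h1
  have hq4 : 10000 ≤ q := by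
    rw [hqdef]
    exact rough_minFac hn hn1
  obtain ⟨N, hN⟩ : ∃ N, n = N * q := by
    obtain ⟨N, hN⟩ : q ∣ n := by
      rw [hqdef]
      exact Nat.minFac_dvd n
    exact ⟨N, by rw [hN, mul_comm]⟩
  have hNn : N ∣ n := ⟨q, hN⟩
  have hN0 : 0 < N := Nat.pos_of_dvd_of_pos hNn hn.1
  have hNlt : N < n := by
    rw [hN]
    calc N = N * 1 := (mul_one N).symm
      _ < N * q := Nat.mul_lt_mul_of_pos_left hq.one_lt hN0
  have hRN : Rough N := rough_dvd hn hNn
  have hCC : CC n w := by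
    rcases hw with hw | hw
    · subst hw
      have hL : ∀ k, k ∣ N * q → k < N * q → CC k 1 := by
        intro k hk hkl
        rw [← hN] at hk hkl
        exact (ih k hkl (rough_dvd hn hk) 1 (Or.inl rfl)).1
      have hres : CC (N * q) 1 := CC_step1 N q hq (by rw [← hN]; exact hn) (by rw [← hN]; exact hqdef.symm)
        (DD_rough N hRN) (ih N hNlt hRN q (Or.inr (by omega))).1
        (ih N hNlt hRN 9 (Or.inr (by omega))).1 (ih N hNlt hRN 1 (Or.inl rfl)).2 hL
      rw [hN]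
      exact @hres
    · have hwq : 4 ≤ w * q := by
        calc 4 ≤ 4 * 1 := by omega
          _ ≤ w * q := Nat.mul_le_mul hw hq.one_lt.le
      have hres : CC (N * q) w := CC_step4 N q w hq (by rw [← hN]; exact hn) hw
        (ih N hNlt hRN (w * q) (Or.inr hwq)).1 (ih N hNlt hRN w (Or.inr hw)).2
      rw [hN]
      exact @hres
  exact ⟨@hCC, UU_step n w hn hn1 hw1 (DD_rough n hn) @hCC
    fun k hk hkl => (ih k hkl (rough_dvd hn hk) w hw).2⟩

/-- Lower bound for asymmetric sets (`main_rg` with `w = 1`, `sets_of_CC`, `ph_one_eq`). -/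
theorem lower (n : ℕ) (hn : Rough n) (A : Finset (ZMod n)) (hA : ∀ x ∈ A, -x ∉ A) :
    ∃ h, h ∣ n ∧ SPR.phi h A.card ≤ A.subsetSum.card := by
  have : NeZero n := ⟨hn.1.ne'⟩
  have hC1 : CC n 1 := (main_rg n hn 1 (Or.inl rfl)).1
  obtain ⟨h, hh, h1⟩ := sets_of_CC n (rough_odd hn) hC1 A hA
  exact ⟨h, hh, by rwa [ph_one_eq] at h1⟩

end RG
end
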