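import Pool.Agent.Lib.MP_d3cc86_co.RG.W1
import Pool.Agent.Lib.MP_d3cc86_co.RG.A2
import Pool.Agent.Lib.MP_d3cc86_co.RG.N2a
import Pool.Agent.Lib.MP_d3cc86_co.RG.KN1

section

set_option autoImplicit false

open Finset Pointwise

namespace RG

open SPR (T two_T T_succ le_T T_mono T_zero eight_T)

variable {N : ℕ} [NeZero N] {ι : Type} [Fintype ι] [DecidableEq ι]

/-- The common step: `q ≤ 1 + τ + Γ(d)`, `d ≤ a`, `∑ s + ∑ d ≤ w (q-1)/2`: by `FQ`
`LL ≥ q |R_0(a - d)|`, `CC N (w q)` for `a - d` (entries `≤ q`, `full_bdd`) and `ph_scale`. -/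
lemma TFQ (q w : ℕ) (hq1 : 10000 ≤ q) (hqo : q % 2 = 1) (hNo : N % 2 = 1) (hw : 1 ≤ w)
    (hC : CC N (w * q)) (c : ι → ZMod N) (hF : Full w c) (s : Fin w → ℕ) (a d : ι → ℕ)
    (ha : ∀ k, a k ≤ q) (hd : ∀ k, d k ≤ a k) (hG : q ≤ 1 + ∑ l, T (s l) + Gam d)
    (hsum : ∑ l, s l + ∑ k, d k ≤ w * ((q - 1) / 2)) :
    ∃ h, h ∣ N * q ∧ ph w h (∑ l, s l + ∑ k, a k) ≤ LL q (∑ l, T (s l)) c a := by
  obtain ⟨g, hg⟩ : ∃ g : ι → ℕ, g = fun k => a k - d k := ⟨_, rfl⟩
  have hag : a = d + g := by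
    funext k
    rw [hg, Pi.add_apply]
    have := hd k
    show a k = d k + (a k - d k)
    omega
  have hsa : ∑ k, a k = ∑ k, d k + ∑ k, g k := by
    rw [hag, ← Finset.sum_add_distrib]
    exact Finset.sum_congr rfl fun k _ => by rw [Pi.add_apply]
  have hgq : ∀ k, g k ≤ q := fun k => by
    rw [hg]
    exact (Nat.sub_le _ _).trans (ha k)
  have h1 := FQ q (∑ l, T (s l)) c d g hG
  rw [← hag] at h1
  obtain ⟨h, hh, h2⟩ := hC ι c g (full_bdd q c hF g hgq)
  have hho : h % 2 = 1 := by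
    by_contra hcon
    have h3 : 2 ∣ h := by omega
    have h4 : 2 ∣ N := h3.trans hh
    omega
  refine ⟨q * h, ?_, ?_⟩
  · rw [mul_comm N q]
    exact Nat.mul_dvd_mul_left q hh
  · refine le_trans ?_ h1
    refine le_trans (ph_scale w q h (∑ k, g k) _ hw hqo hho ?_) (Nat.mul_le_mul_left q h2)
    rw [hsa]
    omega

/-- `W ≤ q` (`LL_eq_Linf`, `UU N w`) or `q ≤ 1 + τ` (`TFQ` with `d = 0`). -/
lemma T12 (q w : ℕ) (hq1 : 10000 ≤ q) (hqo : q % 2 = 1) (hNo : N % 2 = 1) (hw : 1 ≤ w)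
    (hC : CC N (w * q)) (hU : UU N w) (c : ι → ZMod N) (hF : Full w c) (s : Fin w → ℕ) (a : ι → ℕ)
    (hs : ∀ l, s l ≤ (q - 1) / 2) (ha : ∀ k, a k ≤ q)
    (hcase : 1 + ∑ l, T (s l) + Gam a ≤ q ∨ q ≤ 1 + ∑ l, T (s l)) :
    ∃ h, h ∣ N * q ∧ ph w h (∑ l, s l + ∑ k, a k) ≤ LL q (∑ l, T (s l)) c a := by
  rcases hcase with hc | hc
  · rw [LL_eq_Linf q (∑ l, T (s l)) c a hc]
    obtain ⟨h, hh, h2⟩ := hU ι c a s hF
    exact ⟨h, hh.mul_right q, h2⟩
  · refine TFQ q w hq1 hqo hNo hw hC c hF s a (fun _ => 0) ha (fun _ => Nat.zero_le _) ?_ ?_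
    · exact hc.trans (Nat.le_add_right _ _)
    · rw [Finset.sum_const_zero, add_zero]
      calc ∑ l, s l ≤ ∑ _l : Fin w, (q - 1) / 2 := Finset.sum_le_sum fun l _ => hs l
        _ = w * ((q - 1) / 2) := by
          rw [Finset.sum_const, Finset.card_univ, Fintype.card_fin, smul_eq_mul]

/-- `w ≥ 4`, `1 + τ ≤ q ≤ W`: `EXD` with `r = q - 1 - τ`, `∑ s ≤ τ` (`sum_le_sum_T`), so
`∑ s + ∑ d ≤ τ + 2 r ≤ 2 (q-1) ≤ w (q-1)/2`, `TFQ`. -/
lemma T3 (q w : ℕ) (hq1 : 10000 ≤ q) (hqo : q % 2 = 1) (hNo : N % 2 = 1) (hw : 4 ≤ w)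
    (hC : CC N (w * q)) (c : ι → ZMod N) (hF : Full w c) (s : Fin w → ℕ) (a : ι → ℕ)
    (ha : ∀ k, a k ≤ q) (h1 : 1 + ∑ l, T (s l) ≤ q) (h2 : q ≤ 1 + ∑ l, T (s l) + Gam a) :
    ∃ h, h ∣ N * q ∧ ph w h (∑ l, s l + ∑ k, a k) ≤ LL q (∑ l, T (s l)) c a := by
  obtain ⟨d, hd1, hd2, hd3⟩ := EXD a (q - 1 - ∑ l, T (s l)) (by omega)
  refine TFQ q w hq1 hqo hNo (by omega) hC c hF s a d ha hd1 (by omega) ?_
  have h3 := sum_le_sum_T s
  have h4 : 4 * ((q - 1) / 2) ≤ w * ((q - 1) / 2) := Nat.mul_le_mul_right _ hw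
  omega

end RG
end

section

section

set_option autoImplicit false

open Finset Pointwise

namespace RG

open SPR (T two_T T_succ le_T T_mono T_zero eight_T)

private lemma v4b_steps (U t u : ℕ) (hU : 1 ≤ U) :
    gg U (t + u) ≤ gg U t + u * ((t + u - 1) / U + 1) := by
  induction u with
  | zero => simp
  | succ u ih =>
    rw [← add_assoc, gg_succ U (t + u) hU]
    have h1 : (t + u - 1) / U ≤ (t + u) / U := Nat.div_le_div_right (Nat.sub_le _ _)
    have h2 : t + u + 1 - 1 = t + u := Nat.add_sub_cancel _ _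
    rw [h2]
    have h3 : u * ((t + u - 1) / U + 1) ≤ u * ((t + u) / U + 1) :=
      Nat.mul_le_mul_left _ (Nat.add_le_add_right h1 1)
    calc gg U (t + u) + ((t + u) / U + 1)
        ≤ gg U t + u * ((t + u - 1) / U + 1) + ((t + u) / U + 1) := Nat.add_le_add_right ih _
      _ ≤ gg U t + u * ((t + u) / U + 1) + ((t + u) / U + 1) :=
          Nat.add_le_add_right (Nat.add_le_add_left h3 _) _
      _ = gg U t + (u + 1) * ((t + u) / U + 1) := by ring

private lemma v4b_aux (U t u : ℕ) (hU : 1 ≤ U) (hu : u ≤ 5) (h : 10000 ≤ U ∨ 5000 ≤ t) :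
    gg U t ≤ (1 + u) * gg U (t - u) := by
  rcases Nat.lt_or_ge t u with h1 | h1
  · have hU' : 10000 ≤ U := by omega
    have e : t - u = 0 := by omega
    rw [e, gg_zero, mul_one]
    have h2 := v4b_steps U 0 t hU
    rw [zero_add, gg_zero] at h2
    have h3 : (t - 1) / U = 0 := Nat.div_eq_of_lt (by omega)
    rw [h3] at h2
    omega
  · obtain ⟨s, rfl⟩ : ∃ s, t = s + u := ⟨t - u, by omega⟩
    rw [Nat.add_sub_cancel]
    have h2 := v4b_steps U s u hU
    have h4 : (s + u - 1) / U + 1 ≤ gg U s := by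
      have hg := gg_ge U s hU
      rcases Nat.lt_or_ge U (s + u) with h5 | h5
      · rcases Nat.lt_or_ge 1 U with h6 | h6
        · have h7 : (s + u - 1) / U ≤ (s + u - 1) / 2 := Nat.div_le_div_left h6 (by norm_num)
          omega
        · have hU1 : U = 1 := by omega
          subst hU1
          rw [Nat.div_one, gg_one]
          have hs : 4995 ≤ s := by omega
          have hT := two_T s
          have h8 : 10 * s ≤ s * s := Nat.mul_le_mul_right s (by omega)
          have h9 : s * (s + 1) = s * s + s := by ring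
          rw [h9] at hT
          omega
      · have h6 : (s + u - 1) / U = 0 := Nat.div_eq_of_lt (by omega)
        rw [h6]
        omega
    calc gg U (s + u) ≤ gg U s + u * ((s + u - 1) / U + 1) := h2
      _ ≤ gg U s + u * gg U s := Nat.add_le_add_left (Nat.mul_le_mul_left _ h4) _
      _ = (1 + u) * gg U s := by ring

/-- `u ≤ 5`, `m` large: `φ_h(m) ≤ (1 + u) φ_h(m - u)`.  Let `t = m - w (h-1)/2` (natural).
`t = 0`: both sides have `φ = h`.  Otherwise each of the `u` increments is `≤ h ((t-1)/(w h) + 1)` and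
`φ_h(m - u) = h gg (w h) (t - u) ≥ h (1 + t - u)`.  If `t ≤ w h` the increments are `≤ h ≤ φ_h(m-u)`.  If
`t > w h`: for `w h ≥ 2` (then `t ≥ 10`: `h ≥ 10000`, or `h = 1` and `t = m`),
`1 + t - u ≥ (t - 1)/(w h) + 1`; for `w = h = 1`: `1 + T(m - u) ≥ m` (`m ≥ 4999`). -/
lemma ph_prod (w h m u : ℕ) (hw : 1 ≤ w) (hodd : h % 2 = 1) (hh : h = 1 ∨ 10000 ≤ h)
    (hm : 9999 * w ≤ 2 * m) (hu : u ≤ 5) : ph w h m ≤ (1 + u) * ph w h (m - u) := by
  have hU : 1 ≤ w * h := Nat.one_le_iff_ne_zero.2 (Nat.mul_ne_zero (by omega) (by omega))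
  have key : gg (w * h) (m - w * ((h - 1) / 2)) ≤
      (1 + u) * gg (w * h) (m - w * ((h - 1) / 2) - u) := by
    refine v4b_aux (w * h) _ u hU hu ?_
    rcases hh with rfl | hh
    · right
      simp only [Nat.sub_self, Nat.zero_div, mul_zero, Nat.sub_zero]
      omega
    · left
      calc 10000 ≤ h := hh
        _ = 1 * h := (one_mul h).symm
        _ ≤ w * h := Nat.mul_le_mul_right _ hw
  unfold ph
  have e : m - u - w * ((h - 1) / 2) = m - w * ((h - 1) / 2) - u := by omega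
  rw [e]
  calc h * gg (w * h) (m - w * ((h - 1) / 2))
      ≤ h * ((1 + u) * gg (w * h) (m - w * ((h - 1) / 2) - u)) := Nat.mul_le_mul_left _ key
    _ = (1 + u) * (h * gg (w * h) (m - w * ((h - 1) / 2) - u)) := by ring

end RG
end

section

set_option autoImplicit false

open Finset

namespace RG

open SPR (T two_T T_succ le_T T_mono T_zero eight_T)

/-- Numeric inequality, `κ = 60`, `D = 9 * 59 = 531`.  By `ph_upper` it suffices that
`122 (Θ + min (q - Θ) (y/4)) y ≥ (2 m + 1)^2`, `y = G0 - 531`.  `m ≥ 5000`, `x ≤ m/25` (from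
`x^2 ≤ 3 q + x`, `q ≤ 2 m`), so `5 y + 2 Θ ≥ 4.8 m - 2660`.  (a) `q - Θ ≤ y/4`: `122 q y` with
`5 y ≥ 4.8 m - 2 q - 2660`, `m/3 < q ≤ 2 m` (concave in `q`).  (b) `Θ + y/4 < q`: `122 (Θ + (y-3)/4) y`,
`5 y ≥ 4.8 m - 2 q - 2660 ≥ 0.8 m - 2660`, `Θ ≥ (4.8 m - 2660 - 5 y)/2` and `Θ ≥ 1`: the left side is
`≥ 13 m^2`.  (The true ratio of both sides is at least `3.6`.) -/
lemma num5 (q m Th G0 x : ℕ) (hq : 10000 ≤ q) (hqo : q % 2 = 1) (hm1 : q ≤ 2 * m)
    (hm2 : m < 3 * q) (hT1 : 1 ≤ Th) (hT2 : Th ≤ q) (hG : 5 * m ≤ 5 * G0 + 5 * x + 2 * Th + 2)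
    (hx : x * x ≤ 3 * q + x) :
    8 * ph 1 q m ≤ 2 * (4 * q + 61 * ((Th + min (q - Th) ((G0 - 531) / 4)) * (G0 - 531))) := by
  have h1 := ph_upper q m hqo
  refine le_trans h1 ?_
  suffices H : (2 * m + 1) ^ 2 ≤ 122 * ((Th + min (q - Th) ((G0 - 531) / 4)) * (G0 - 531)) by
    omega
  have hm0 : 5000 ≤ m := by omega
  have hx25 : 25 * x ≤ m := by
    by_contra hcon
    push Not at hcon
    have a1 : m + 1 ≤ 25 * x := hcon
    have a2 : 201 ≤ x := by omega
    obtain ⟨z, rfl⟩ : ∃ z, x = 201 + z := ⟨x - 201, by omega⟩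
    nlinarith
  have hy1 : 4 * m ≤ 25 * G0 + 10 := by omega
  have hG1 : 531 ≤ G0 := by omega
  obtain ⟨y, rfl⟩ : ∃ y, G0 = y + 531 := ⟨G0 - 531, by omega⟩
  rw [Nat.add_sub_cancel]
  have hy2 : 24 * m ≤ 25 * y + 10 * Th + 13285 := by omega
  have hy3 : 4 * m ≤ 25 * y + 13285 := by linarith
  rcases le_or_gt (q - Th) (y / 4) with hc | hc
  · rw [min_eq_left hc, show Th + (q - Th) = q by omega]
    have b1 : 24 * m ≤ 25 * y + 10 * q + 13285 := by omega
    zify at *
    nlinarith [mul_nonneg (show (0 : ℤ) ≤ 3 * q - m by linarith) (show (0 : ℤ) ≤ 2 * m - q by linarith),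
      mul_nonneg (show (0 : ℤ) ≤ (q : ℤ) by linarith)
        (show (0 : ℤ) ≤ 25 * y + 10 * q + 13285 - 24 * m by linarith),
      mul_nonneg (show (0 : ℤ) ≤ (m : ℤ) - 5000 by linarith) (show (0 : ℤ) ≤ 2 * m - (q : ℤ) by linarith),
      mul_nonneg (show (0 : ℤ) ≤ (m : ℤ) - 5000 by linarith) (show (0 : ℤ) ≤ 3 * q - (m : ℤ) by linarith),
      mul_nonneg (show (0 : ℤ) ≤ (m : ℤ) - 5000 by linarith) (show (0 : ℤ) ≤ (m : ℤ) by linarith)]
  · rw [min_eq_right hc.le]
    have b2 : y ≤ 4 * (y / 4) + 3 := by omega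
    set w := y / 4 with hw
    have b3 : (4 * Th + y) * y ≤ (4 * (Th + w) + 3) * y := Nat.mul_le_mul_right _ (by omega)
    suffices H2 : 4 * (2 * m + 1) ^ 2 + 366 * y ≤ 122 * ((4 * Th + y) * y) by
      have e1 : (4 * (Th + w) + 3) * y = 4 * ((Th + w) * y) + 3 * y := by ring
      rw [e1] at b3
      omega
    rcases le_or_gt (24 * m) (25 * y + 13295) with hd | hd
    · zify at *
      nlinarith
    · zify at *
      nlinarith

/-- Numeric inequality, `κ = 100`, `D = 9 * 99 = 891`.  By `ph_upper` and `m < 3 q` it suffices that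
`202 (Θ + min (q - Θ) (y/4)) y ≥ 36 q^2`, `y = G0 - 891`, `5 y ≥ 5 q - 2 Θ - 4455`.
(a) `q - Θ ≤ y/4`: `202 q y`, `5 y ≥ 3 q - 4455`.  (b) otherwise `202 (Θ + (y-3)/4) y` with
`Θ ≥ max(1, (5 q - 4455 - 5 y)/2)`, `5 y ≥ 3 q - 4455`.  (The true ratio is at least `1.16`,
attained for `Θ = 1`, `y = q - 891`.) -/
lemma numa (q m Th G0 : ℕ) (hq : 10000 ≤ q) (hqo : q % 2 = 1)
    (hm2 : m < 3 * q) (hT1 : 1 ≤ Th) (hT2 : Th ≤ q) (hG : 5 * q ≤ 5 * G0 + 2 * Th) :
    8 * ph 1 q m ≤ 2 * (4 * q + 101 * ((Th + min (q - Th) ((G0 - 891) / 4)) * (G0 - 891))) := by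
  have h1 := ph_upper q m hqo
  refine le_trans h1 ?_
  suffices H : (2 * m + 1) ^ 2 ≤ 202 * ((Th + min (q - Th) ((G0 - 891) / 4)) * (G0 - 891)) by
    omega
  have hG1 : 891 ≤ G0 := by omega
  obtain ⟨y, rfl⟩ : ∃ y, G0 = y + 891 := ⟨G0 - 891, by omega⟩
  rw [Nat.add_sub_cancel]
  have hy2 : 5 * q ≤ 5 * y + 2 * Th + 4455 := by omega
  have hy3 : 3 * q ≤ 5 * y + 4455 := by omega
  have h36 : (2 * m + 1) ^ 2 ≤ 36 * (q * q) := by
    have : (2 * m + 1) ^ 2 ≤ (6 * q) ^ 2 := Nat.pow_le_pow_left (by omega) 2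
    nlinarith
  refine h36.trans ?_
  rcases le_or_gt (q - Th) (y / 4) with hc | hc
  · rw [min_eq_left hc, show Th + (q - Th) = q by omega]
    have b1 : 36 * q ≤ 202 * y := by omega
    calc 36 * (q * q) = q * (36 * q) := by ring
      _ ≤ q * (202 * y) := Nat.mul_le_mul_left _ b1
      _ = 202 * (q * y) := by ring
  · rw [min_eq_right hc.le]
    have b2 : y ≤ 4 * (y / 4) + 3 := by omega
    set w := y / 4 with hw
    have b3 : (4 * Th + y) * y ≤ (4 * (Th + w) + 3) * y := Nat.mul_le_mul_right _ (by omega)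
    suffices H2 : 4 * (36 * (q * q)) + 606 * y ≤ 202 * ((4 * Th + y) * y) by
      have e1 : (4 * (Th + w) + 3) * y = 4 * ((Th + w) * y) + 3 * y := by ring
      rw [e1] at b3
      omega
    rcases le_or_gt (10 * q) (10 * y + 8914) with hd | hd
    · zify at *
      nlinarith
    · zify at *
      nlinarith

end RG
end

section

set_option autoImplicit false

open Finset Pointwise

namespace RG

open SPR (T two_T T_succ le_T T_mono T_zero eight_T)

variable {n w : ℕ} [NeZero n] {ι : Type} [Fintype ι] [DecidableEq ι]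

omit [DecidableEq ι] in
private lemma v1_mem_cls {G : Type*} [AddCommGroup G] (c : ι → G) (x : G) (k : ι)
    (h : k ∈ cls c x) : c k = x ∨ c k = -x := by
  classical
  unfold cls at h
  exact (Finset.mem_filter.1 h).2

private lemma v1_sum {w : ℕ} (s : Fin w → ℕ) (l : Fin w) (hl : 1 ≤ s l) :
    ∑ i, s i = (∑ i, (Function.update s l (s l - 1)) i) + 1 := by
  rw [← Finset.add_sum_erase _ _ (mem_univ l),
    ← Finset.add_sum_erase _ (Function.update s l (s l - 1)) (mem_univ l)]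
  have h2 : ∑ i ∈ univ.erase l, (Function.update s l (s l - 1)) i = ∑ i ∈ univ.erase l, s i :=
    Finset.sum_congr rfl fun i hi => by rw [Function.update_of_ne (Finset.ne_of_mem_erase hi)]
  rw [h2, Function.update_self]
  omega

private lemma v1_sumT {w : ℕ} (s : Fin w → ℕ) (l : Fin w) (hl : 1 ≤ s l) :
    ∑ i, T (s i) = (∑ i, T ((Function.update s l (s l - 1)) i)) + s l := by
  obtain ⟨b, hb⟩ : ∃ b, s l = b + 1 := ⟨s l - 1, by omega⟩
  rw [← Finset.add_sum_erase _ (fun i => T (s i)) (mem_univ l),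
    ← Finset.add_sum_erase _ (fun i => T ((Function.update s l (s l - 1)) i)) (mem_univ l)]
  have h2 : ∑ i ∈ univ.erase l, T ((Function.update s l (s l - 1)) i) =
      ∑ i ∈ univ.erase l, T (s i) :=
    Finset.sum_congr rfl fun i hi => by rw [Function.update_of_ne (Finset.ne_of_mem_erase hi)]
  rw [h2, Function.update_self, hb, Nat.add_sub_cancel, T_succ]
  omega

private lemma v1_suma (a : ι → ℕ) (k : ι) (hk : 2 ≤ a k) :
    ∑ j, a j = (∑ j, (Function.update a k (a k - 2)) j) + 2 := by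
  rw [← Finset.add_sum_erase _ _ (mem_univ k),
    ← Finset.add_sum_erase _ (Function.update a k (a k - 2)) (mem_univ k)]
  have h2 : ∑ i ∈ univ.erase k, (Function.update a k (a k - 2)) i = ∑ i ∈ univ.erase k, a i :=
    Finset.sum_congr rfl fun i hi => by rw [Function.update_of_ne (Finset.ne_of_mem_erase hi)]
  rw [h2, Function.update_self]
  omega

/-- All `a k ≤ 1`: `Linf = (1 + τ) |R_0(a)|` (here `≥`), `|R_0(a)| ≥ φ_h(∑ a)` by `CC n w` (`a` is
`w`-bounded, `c` full), `1 + τ ≥ gg w (∑ s) ≥ gg (w h) (∑ s)` (`gg_parts`, `gg_anti`) and `ph_mul`. -/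
lemma U_flat (hn : Rough n) (hw : 1 ≤ w) (hC : CC n w) (c : ι → ZMod n) (hF : Full w c)
    (s : Fin w → ℕ) (a : ι → ℕ) (ha : ∀ k, a k ≤ 1) :
    ∃ h, h ∣ n ∧ ph w h (∑ l, s l + ∑ k, a k) ≤ Linf (∑ l, T (s l)) c a := by
  have hB : Bdd w c a := by
    refine ⟨hF.1, fun x => ?_⟩
    by_cases hx : x = 0
    · subst hx
      have h0 : ∑ k ∈ cls c 0, a k = 0 := by
        refine Finset.sum_eq_zero fun k hk => ?_
        exfalso
        rcases v1_mem_cls c 0 k hk with h | h
        · exact hF.1 k h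
        · exact hF.1 k (by rw [h, neg_zero])
      rw [h0]
      exact Nat.zero_le _
    · calc ∑ k ∈ cls c x, a k ≤ ∑ _k ∈ cls c x, 1 := Finset.sum_le_sum fun k _ => ha k
        _ = (cls c x).card := by rw [Finset.sum_const, smul_eq_mul, mul_one]
        _ = w := hF.2 x hx
        _ ≤ w := le_rfl
  obtain ⟨h, hd, hle⟩ := hC ι c a hB
  have hh : 1 ≤ h := Nat.pos_of_dvd_of_pos hd (NeZero.pos n)
  refine ⟨h, hd, ?_⟩
  have h1 := ph_mul w h (∑ k, a k) (∑ l, s l) hw hh
  have h2 : gg (w * h) (∑ l, s l) ≤ 1 + ∑ l, T (s l) :=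
    (gg_anti _ hw (Nat.le_mul_of_pos_right w hh)).trans (gg_parts w hw s)
  rw [add_comm (∑ l, s l)]
  calc ph w h (∑ k, a k + ∑ l, s l) ≤ ph w h (∑ k, a k) * gg (w * h) (∑ l, s l) := h1
    _ ≤ (R c a 0).card * (1 + ∑ l, T (s l)) := Nat.mul_le_mul hle h2
    _ = (1 + ∑ l, T (s l)) * (R c a 0).card := mul_comm _ _
    _ ≤ Linf (∑ l, T (s l)) c a := by
      unfold Linf
      exact Nat.le_add_right _ _

/-- Remove one element of the zero part, crude version (`ph_step`, `Linf_tau`): multiplied by `w`,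
`w Linf = w Linf' + w s_l |R_0(a)| ≥ w φ_h(m-1) + 2 m + w ≥ w φ_h(m)`. -/
lemma U_b1 (hn : Rough n) (hw : 1 ≤ w) (c : ι → ZMod n) (s : Fin w → ℕ) (a : ι → ℕ) (l : Fin w)
    (hl : 1 ≤ s l)
    (IH : ∃ h, h ∣ n ∧ ph w h (∑ i, (Function.update s l (s l - 1)) i + ∑ k, a k) ≤
      Linf (∑ i, T ((Function.update s l (s l - 1)) i)) c a)
    (hg : 2 * (∑ i, s i + ∑ k, a k) + w ≤ w * (s l * (R c a 0).card)) :
    ∃ h, h ∣ n ∧ ph w h (∑ i, s i + ∑ k, a k) ≤ Linf (∑ i, T (s i)) c a := by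
  obtain ⟨h, hd, hle⟩ := IH
  refine ⟨h, hd, ?_⟩
  rw [v1_sumT s l hl, Linf_tau]
  rw [v1_sum s l hl] at hg ⊢
  set S := ∑ i, (Function.update s l (s l - 1)) i with hS
  set A := ∑ k, a k with hA
  have e1 : S + 1 + A = S + A + 1 := by omega
  rw [e1] at hg ⊢
  have h1 := ph_step w h (S + A) hw (rough_odd (rough_dvd hn hd))
  refine Nat.le_of_mul_le_mul_left ?_ hw
  rw [Nat.mul_add]
  have h2 := Nat.mul_le_mul_left w hle
  omega

/-- Remove one element of the zero part, sharp version (`ph_step_sharp`): `|R_0(a)| = n`,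
`s_l ≥ α + 1`. -/
lemma U_b1s (hn : Rough n) (hw : 1 ≤ w) (c : ι → ZMod n) (s : Fin w → ℕ) (a : ι → ℕ) (l : Fin w)
    (hl : (2 * (∑ i, s i + ∑ k, a k) + w + w * n) / (2 * w * n) + 1 ≤ s l)
    (IH : ∃ h, h ∣ n ∧ ph w h (∑ i, (Function.update s l (s l - 1)) i + ∑ k, a k) ≤
      Linf (∑ i, T ((Function.update s l (s l - 1)) i)) c a)
    (hR : (R c a 0).card = n) :
    ∃ h, h ∣ n ∧ ph w h (∑ i, s i + ∑ k, a k) ≤ Linf (∑ i, T (s i)) c a := by
  obtain ⟨h, hd, hle⟩ := IH
  refine ⟨h, hd, ?_⟩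
  have hl1 : 1 ≤ s l := le_trans (Nat.le_add_left _ _) hl
  rw [v1_sumT s l hl1, Linf_tau, hR]
  rw [v1_sum s l hl1] at hl ⊢
  set S := ∑ i, (Function.update s l (s l - 1)) i with hS
  set A := ∑ k, a k with hA
  have e1 : S + 1 + A = S + A + 1 := by omega
  rw [e1] at hl ⊢
  have h1 := ph_step_sharp w h n (S + A) hw (rough_odd hn) hd
  set α := (2 * (S + A + 1) + w + w * n) / (2 * w * n) with hα
  have h3 : (2 * α + 1) * n ≤ 2 * (s l * n) := by
    calc (2 * α + 1) * n ≤ (2 * s l) * n := Nat.mul_le_mul_right n (by omega)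
      _ = 2 * (s l * n) := by ring
  omega

/-- Peel an entry, crude version (`Linf_peel`, `ph_step` twice): `w (φ_h(m) - φ_h(m-2)) ≤ 2 (2 m + w)`. -/
lemma U_b2 (hn : Rough n) (hw : 1 ≤ w) (c : ι → ZMod n) (s : Fin w → ℕ) (a : ι → ℕ) (k : ι)
    (hk : 2 ≤ a k)
    (IH : ∃ h, h ∣ n ∧ ph w h (∑ i, s i + ∑ j, (Function.update a k (a k - 2)) j) ≤
      Linf (∑ i, T (s i)) c (Function.update a k (a k - 2)))
    (hg : 2 * (2 * (∑ i, s i + ∑ j, a j) + w) ≤
      w * ((a k - 1) * (R c (Function.update a k (a k - 2)) 0).card)) :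
    ∃ h, h ∣ n ∧ ph w h (∑ i, s i + ∑ j, a j) ≤ Linf (∑ i, T (s i)) c a := by
  obtain ⟨h, hd, hle⟩ := IH
  refine ⟨h, hd, ?_⟩
  have hp := Linf_peel (∑ i, T (s i)) c a k hk
  rw [v1_suma a k hk] at hg ⊢
  set A := ∑ j, (Function.update a k (a k - 2)) j with hA
  set S := ∑ i, s i with hS
  have e1 : S + (A + 2) = S + A + 1 + 1 := by omega
  rw [e1] at hg ⊢
  have hodd := rough_odd (rough_dvd hn hd)
  have h1 := ph_step w h (S + A) hw hodd
  have h2 := ph_step w h (S + A + 1) hw hodd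
  refine Nat.le_of_mul_le_mul_left ?_ hw
  have h3 := Nat.mul_le_mul_left w hle
  have h4 := Nat.mul_le_mul_left w ((Nat.le_add_right _ _).trans hp)
  rw [Nat.mul_add] at h4
  omega

/-- Peel an entry, sharp version (`ph_step2_sharp`): `|R_0(a')| = n`, `a k ≥ 2 α + 2`. -/
lemma U_b2s (hn : Rough n) (hw : 1 ≤ w) (c : ι → ZMod n) (s : Fin w → ℕ) (a : ι → ℕ) (k : ι)
    (hk : 2 * ((2 * (∑ i, s i + ∑ j, a j) + w + w * n) / (2 * w * n)) + 2 ≤ a k)
    (IH : ∃ h, h ∣ n ∧ ph w h (∑ i, s i + ∑ j, (Function.update a k (a k - 2)) j) ≤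
      Linf (∑ i, T (s i)) c (Function.update a k (a k - 2)))
    (hR : (R c (Function.update a k (a k - 2)) 0).card = n) :
    ∃ h, h ∣ n ∧ ph w h (∑ i, s i + ∑ j, a j) ≤ Linf (∑ i, T (s i)) c a := by
  obtain ⟨h, hd, hle⟩ := IH
  refine ⟨h, hd, ?_⟩
  have hk2 : 2 ≤ a k := le_trans (Nat.le_add_left _ _) hk
  have hp := (Nat.le_add_right _ _).trans (Linf_peel (∑ i, T (s i)) c a k hk2)
  rw [hR] at hp
  rw [v1_suma a k hk2] at hk ⊢
  set A := ∑ j, (Function.update a k (a k - 2)) j with hA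
  set S := ∑ i, s i with hS
  have e1 : S + (A + 2) = S + A + 2 := by omega
  rw [e1] at hk ⊢
  have h1 := ph_step2_sharp w h n (S + A) hw (rough_odd hn) hd
  set α := (2 * (S + A + 2) + w + w * n) / (2 * w * n) with hα
  have h3 : (2 * α + 1) * n ≤ (a k - 1) * n := Nat.mul_le_mul_right n (by omega)
  omega

end RG
end

section

set_option autoImplicit false

open Finset Pointwise

namespace RG

open SPR (T two_T T_succ le_T T_mono T_zero eight_T)

variable {N : ℕ} [NeZero N] {ι : Type} [Fintype ι] [DecidableEq ι]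

/-- `w = 1`, big entries sufficient: `q ≤ T a0 + Γ(big a) + 1`, `T a0 + 1 ≤ q`.  `EXB` with
`r = q - 1 - T a0`: `5 (a0 + ∑ d) ≤ (2 T a0 + 4) + 2 r + 10 √r + 10 ≤ 2 (q-1) + 14 + 10 √q ≤ 5 (q-1)/2`
(`5 a0 ≤ 2 T a0 + 4`); `TFQ` with `w = 1`. -/
lemma T4i (q : ℕ) (hq1 : 10000 ≤ q) (hqo : q % 2 = 1) (hNo : N % 2 = 1) (hC : CC N q)
    (c : ι → ZMod N) (hF : Full 1 c) (a0 : ℕ) (a : ι → ℕ) (ha : ∀ k, a k ≤ q)
    (h1 : T a0 + 1 ≤ q) (h2 : q ≤ T a0 + Gam (big a) + 1) :
    ∃ h, h ∣ N * q ∧ ph 1 h (a0 + ∑ k, a k) ≤ LL q (T a0) c a := by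
  obtain ⟨d, hd1, hd2, hd3⟩ := EXB a (q - 1 - T a0) (by omega)
  have hT : 5 * a0 ≤ 2 * T a0 + 4 := by
    rw [two_T]
    zify
    nlinarith [sq_nonneg ((a0 : ℤ) - 2)]
  have hs := Nat.sqrt_le (q - 1 - T a0)
  generalize Nat.sqrt (q - 1 - T a0) = s at hd3 hs
  have hs1 : 20 * s + 28 ≤ q - 1 := by
    by_contra hcon
    push Not at hcon
    have h3 : 200 ≤ s := by omega
    have h4 : 200 * s ≤ s * s := Nat.mul_le_mul_right s h3
    omega
  have key := TFQ q 1 hq1 hqo hNo le_rfl (by rw [one_mul]; exact hC) c hF (fun _ => a0) a d ha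
    (fun k => (hd1 k).trans (big_le' a k)) (by rw [Fin.sum_univ_one]; omega)
    (by rw [Fin.sum_univ_one]; omega)
  rw [Fin.sum_univ_one, Fin.sum_univ_one] at key
  exact key

/-- `w = 1`, `m ≥ 3 q`: `EXD` for `sml a` with `r = q - 1 - T a0 - Γ(big a)`, `d = big a + g'`
(`Gam_add`), `a0 + ∑ d ≤ 2 (q-1)` (`a0 ≤ T a0`, `big_sum`), `FQ`: `LL ≥ q |R_0(sml a - g')|`; `CC N 9` for the
entries `≤ 9` (`full_bdd`), `t = m - a0 - ∑ d ≥ q`; `ph9` or `ph9'` (a divisor `h ≠ 1` of `N` is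
`≥ q`). -/
lemma T4ii (q : ℕ) (hq1 : 10000 ≤ q) (hqo : q % 2 = 1) (hNo : N % 2 = 1)
    (hge : ∀ h, h ∣ N → h ≠ 1 → q ≤ h) (hC : CC N 9)
    (c : ι → ZMod N) (hF : Full 1 c) (a0 : ℕ) (a : ι → ℕ)
    (h1 : T a0 + Gam (big a) + 1 ≤ q) (h2 : q ≤ 1 + T a0 + Gam a) (hm : 3 * q ≤ a0 + ∑ k, a k) :
    ∃ h, h ∣ N * q ∧ ph 1 h (a0 + ∑ k, a k) ≤ LL q (T a0) c a := by
  have hbs := Gam_big_sml a
  obtain ⟨g', hg1, hg2, hg3⟩ := EXD (sml a) (q - 1 - T a0 - Gam (big a)) (by omega)
  obtain ⟨g, hg⟩ : ∃ g : ι → ℕ, g = fun k => sml a k - g' k := ⟨_, rfl⟩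
  have hag : a = (big a + g') + g := by
    funext k
    have e1 := congrFun (big_add_sml a) k
    have e2 := hg1 k
    rw [Pi.add_apply] at e1
    rw [hg, Pi.add_apply, Pi.add_apply]
    show a k = big a k + g' k + (sml a k - g' k)
    omega
  have hsa : ∑ k, a k = ∑ k, big a k + ∑ k, g' k + ∑ k, g k := by
    rw [← Finset.sum_add_distrib, ← Finset.sum_add_distrib]
    refine Finset.sum_congr rfl fun k _ => ?_
    have := congrFun hag k
    rw [Pi.add_apply, Pi.add_apply] at this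
    exact this
  have hg9 : ∀ k, g k ≤ 9 := fun k => by
    rw [hg]
    exact (Nat.sub_le _ _).trans (sml_le a k)
  have hGd := Gam_add (big a) g'
  have h3 := FQ q (T a0) c (big a + g') g (by omega)
  rw [← hag] at h3
  have hB : Bdd (1 * 9) c g := full_bdd 9 c hF g hg9
  rw [one_mul] at hB
  obtain ⟨h, hh, h4⟩ := hC ι c g hB
  have hbig := big_sum a
  have ha0 := le_T a0
  have hm2 : a0 + ∑ k, a k ≤ ∑ k, g k + 2 * (q - 1) := by
    rw [hsa]
    omega
  have ht : q ≤ ∑ k, g k := by omega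
  by_cases hh1 : h = 1
  · subst hh1
    refine ⟨q, Dvd.intro_left N rfl, ?_⟩
    exact ((ph9' q (∑ k, g k) _ hq1 hqo ht hm2).trans (Nat.mul_le_mul_left q h4)).trans h3
  · have hqh := hge h hh hh1
    have hho : h % 2 = 1 := by
      by_contra hcon
      have h5 : 2 ∣ h := by omega
      have h6 : 2 ∣ N := h5.trans hh
      omega
    refine ⟨q * h, ?_, ?_⟩
    · rw [mul_comm N q]
      exact Nat.mul_dvd_mul_left q hh
    · exact ((ph9 q h (∑ k, g k) _ hq1 hqo hqh hho hm2).trans (Nat.mul_le_mul_left q h4)).trans h3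

end RG
end

section

set_option autoImplicit false

open Finset Pointwise

namespace RG

open SPR (T two_T T_succ le_T T_mono T_zero eight_T)

private lemma w7_num (u v : ℕ) (hv : u + v ≤ v * v + 1) :
    1 + T (u + v) ≤ (1 + u) * (1 + T v) := by
  have h1 := two_T (u + v)
  have h2 := two_T v
  nlinarith [Nat.mul_le_mul_left u hv]

/-- Few elements outside a proper subgroup `L`.  `u = outs L c a`, `v = ins L c a`, `m = u + v`.
`R_prod` (level `0`): `(1 + u) |R_0(ain)| ≤ |R_0(a)|`; `CC |L| 1` for `ain` (`sub_config`; `ain ≤ a` is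
`1`-bounded): `|R_0(ain)| ≥ φ_h(v)`, `h ∣ |L| ∣ n`.  `h ≠ 1`: `h ≥ minFac n > u`, `gg h u = 1 + u`,
`ph_mul`.  `h = 1`: `(1 + u)(1 + T v) ≥ 1 + T(u + v)` because `u + v ≤ v^2 + 1`. -/
theorem Tper {n : ℕ} [NeZero n] (hn : Rough n) {ι : Type} [Fintype ι] [DecidableEq ι]
    (c : ι → ZMod n) (a : ι → ℕ) (hB : Bdd 1 c a) (L : AddSubgroup (ZMod n))
    (hL : CC (Nat.card L) 1) (hu : 1 + outs L c a ≤ n.minFac)
    (hv : outs L c a + ins L c a ≤ ins L c a * ins L c a + 1) :
    ∃ h, h ∣ n ∧ ph 1 h (∑ k, a k) ≤ (R c a 0).card := by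
  classical
  have : NeZero (Nat.card L) := ⟨Nat.card_pos.ne'⟩
  obtain ⟨ι', i1, i2, c', e, -, hb⟩ := sub_config (w := 1) L c
  obtain ⟨b1, -, b3, b4⟩ := hb (ain L c a) (fun k hk => by unfold ain; rw [if_neg hk])
  have hle : ∀ k, ain L c a k ≤ a k := by
    intro k
    unfold ain
    split_ifs
    · exact le_rfl
    · exact Nat.zero_le _
  have hBa : Bdd 1 c (ain L c a) :=
    ⟨hB.1, fun x => (Finset.sum_le_sum fun k _ => hle k).trans (hB.2 x)⟩
  obtain ⟨h, hh, hph⟩ := hL ι' c' (fun k => ain L c a (e k)) (b4 hBa)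
  have hKn : Nat.card L ∣ n := by
    have := L.card_addSubgroup_dvd_card
    rwa [Nat.card_zmod] at this
  have hhn : h ∣ n := hh.trans hKn
  have hio := ins_add_outs L c a
  rw [b1, b3, sum_ain] at hph
  have hprod := R_prod L c a 0 hu
  have hn0 : 0 < n := hn.1
  have hh0 : 1 ≤ h := Nat.pos_of_dvd_of_pos hhn hn0
  refine ⟨h, hhn, ?_⟩
  rw [← hio]
  by_cases h1 : h = 1
  · subst h1
    rw [ph_h_one, gg_one] at hph ⊢
    rw [add_comm (ins L c a)]
    exact ((w7_num _ _ hv).trans (Nat.mul_le_mul_left _ hph)).trans hprod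
  · have hmin : n.minFac ≤ h := Nat.minFac_le_of_dvd (by omega) hhn
    have hlt : outs L c a < h := by omega
    have hg : gg (1 * h) (outs L c a) = 1 + outs L c a := by
      unfold gg
      rw [one_mul, Nat.div_eq_of_lt hlt, Nat.mod_eq_of_lt hlt, T_zero]
      ring
    calc ph 1 h (ins L c a + outs L c a)
        ≤ ph 1 h (ins L c a) * gg (1 * h) (outs L c a) := ph_mul 1 h _ _ le_rfl hh0
      _ = (1 + outs L c a) * ph 1 h (ins L c a) := by rw [hg, mul_comm]
      _ ≤ (1 + outs L c a) * (R c (ain L c a) 0).card := Nat.mul_le_mul_left _ hph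
      _ ≤ _ := hprod

end RG
end

section

set_option autoImplicit false

open Finset Pointwise

namespace RG

open SPR (T two_T T_succ le_T T_mono T_zero eight_T)

variable {n w : ℕ} [NeZero n] {ι : Type} [Fintype ι] [DecidableEq ι]

/-- Subgroup case: at most `5` elements of `a` outside the proper subgroup `K`. `UU |K| w` for `ain`
(`sub_config`), `Linf_prod`, `ph_prod`. (`u = 0`: `ain = a`.) -/
theorem U_sub (hn : Rough n) (h1 : 1 < n) (hw : 1 ≤ w) (c : ι → ZMod n) (hF : Full w c)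
    (s : Fin w → ℕ) (a : ι → ℕ) (K : AddSubgroup (ZMod n))
    (hU : UU (Nat.card K) w) (hm : 9999 * w ≤ 2 * (∑ i, s i + ∑ j, a j)) (hu : outs K c a ≤ 5) :
    ∃ h, h ∣ n ∧ ph w h (∑ i, s i + ∑ j, a j) ≤ Linf (∑ i, T (s i)) c a := by
  classical
  have : NeZero (Nat.card K) := ⟨Nat.card_pos.ne'⟩
  obtain ⟨ι', i1, i2, c', e, hF', hb⟩ := sub_config (w := w) K c
  obtain ⟨b1, b2, -, -⟩ := hb (ain K c a) (fun k hk => by unfold ain; rw [if_neg hk])
  obtain ⟨h, hh, hle⟩ := hU ι' c' (fun k => ain K c a (e k)) s (hF' hF)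
  have hKn : Nat.card K ∣ n := by
    have := K.card_addSubgroup_dvd_card
    rwa [Nat.card_zmod] at this
  have hhn : h ∣ n := hh.trans hKn
  have hio := ins_add_outs K c a
  have hmin := rough_minFac hn h1
  rw [b1, b2, sum_ain] at hle
  have hsum : ∑ i, s i + ins K c a = ∑ i, s i + ∑ j, a j - outs K c a := by omega
  rw [hsum] at hle
  have hodd := rough_odd (rough_dvd hn hhn)
  have hh1 : h = 1 ∨ 10000 ≤ h := by
    rcases Nat.eq_or_lt_of_le (show 1 ≤ h by
      rcases Nat.eq_zero_or_pos h with h0 | h0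
      · rw [h0] at hodd; omega
      · exact h0) with h0 | h0
    · exact Or.inl h0.symm
    · exact Or.inr (rough_ge (rough_dvd hn hhn) h0)
  refine ⟨h, hhn, ?_⟩
  calc ph w h (∑ i, s i + ∑ j, a j)
      ≤ (1 + outs K c a) * ph w h (∑ i, s i + ∑ j, a j - outs K c a) :=
        ph_prod w h _ _ hw hodd hh1 hm hu
    _ ≤ (1 + outs K c a) * Linf (∑ i, T (s i)) c (ain K c a) := Nat.mul_le_mul_left _ hle
    _ ≤ Linf (∑ i, T (s i)) c a := Linf_prod K c a _ (by omega)

end RG
end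

section

set_option autoImplicit false

open Finset Pointwise

namespace RG

open SPR (T two_T T_succ le_T T_mono T_zero eight_T)

variable {n w : ℕ} [NeZero n] {ι : Type} [Fintype ι] [DecidableEq ι]

private lemma mem_Ys' (c : ι → ZMod n) (a : ι → ℕ) (y : ZMod n) :
    y ∈ Ys c a ↔ (y = 0 ∨ ∃ k ∈ cls c y, a k % 2 = 0 ∧ a k ≠ 0) := by
  simp [Ys]

private lemma mem_cls' (c : ι → ZMod n) (x : ZMod n) (k : ι) :
    k ∈ cls c x ↔ (c k = x ∨ c k = -x) := by
  simp [cls]

private lemma zero_mem_od (c : ι → ZMod n) (a : ι → ℕ) : (0 : ZMod n) ∈ R c (od a) 0 := by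
  rw [mem_R]
  refine ⟨fun _ => 0, fun k => Nat.zero_le _, ?_, Nat.zero_le _⟩
  unfold pos
  simp

private lemma neg_ne_self (hn : n % 2 = 1) {x : ZMod n} (hx : x ≠ 0) : x ≠ -x := by
  intro h
  apply hx
  have h2 : x + x = 0 := by
    nth_rewrite 2 [h]
    exact add_neg_cancel x
  have h3 : (2 : ZMod n) * x = 0 := by rw [two_mul]; exact h2
  have hu : IsUnit (2 : ZMod n) := by
    have : IsUnit ((2 : ℕ) : ZMod n) := by
      rw [ZMod.isUnit_iff_coprime]
      exact (Nat.coprime_two_left).2 (Nat.odd_iff.2 hn)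
    exact_mod_cast this
  exact (hu.mul_right_eq_zero).1 h3

open Classical in
private lemma card_Ys (hn : n % 2 = 1) (c : ι → ZMod n) (hF : Full w c) (a : ι → ℕ) :
    2 * ee a ≤ w * ((Ys c a).erase 0).card := by
  set E := Finset.univ.filter (fun k => a k % 2 = 0 ∧ a k ≠ 0) with hE
  have h1 := Finset.sum_card_bipartiteAbove_eq_sum_card_bipartiteBelow
    (s := E) (t := (Ys c a).erase 0) (fun (k : ι) (y : ZMod n) => c k = y ∨ c k = -y)
  have h2 : ∀ k ∈ E, 2 ≤ (((Ys c a).erase 0).bipartiteAbove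
      (fun (k : ι) (y : ZMod n) => c k = y ∨ c k = -y) k).card := by
    intro k hk
    have hk' := (Finset.mem_filter.1 hk).2
    have hck := hF.1 k
    have hne := neg_ne_self hn hck
    have h3 : ({c k, -c k} : Finset (ZMod n)) ⊆ ((Ys c a).erase 0).bipartiteAbove
        (fun (k : ι) (y : ZMod n) => c k = y ∨ c k = -y) k := by
      intro y hy
      rw [Finset.mem_insert, Finset.mem_singleton] at hy
      rw [Finset.mem_bipartiteAbove, Finset.mem_erase]
      have hcls : c k = y ∨ c k = -y := by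
        rcases hy with rfl | rfl
        · exact Or.inl rfl
        · right; rw [neg_neg]
      refine ⟨⟨?_, ?_⟩, hcls⟩
      · rcases hy with rfl | rfl
        · exact hck
        · exact neg_ne_zero.2 hck
      · rw [mem_Ys']
        exact Or.inr ⟨k, (mem_cls' _ _ _).2 hcls, hk'⟩
    have h4 := Finset.card_le_card h3
    rwa [Finset.card_pair hne] at h4
  have h5 : ∀ y ∈ (Ys c a).erase 0, (E.bipartiteBelow
      (fun (k : ι) (y : ZMod n) => c k = y ∨ c k = -y) y).card ≤ w := by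
    intro y hy
    rw [← hF.2 y (Finset.mem_erase.1 hy).1]
    refine Finset.card_le_card fun k hk => ?_
    rw [Finset.mem_bipartiteBelow] at hk
    exact (mem_cls' _ _ _).2 hk.2
  have h6 := Finset.card_nsmul_le_sum E _ 2 h2
  rw [smul_eq_mul, h1] at h6
  have h7 := Finset.sum_le_card_nsmul _ _ w h5
  rw [smul_eq_mul] at h7
  have hEe : E.card = ee a := by rw [hE, ee]
  have h8 := h6.trans h7
  rw [hEe] at h8
  calc 2 * ee a = ee a * 2 := mul_comm _ _
    _ ≤ _ := h8
    _ = _ := mul_comm _ _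

/-- More than `n/4` classes contain an even nonzero entry: `R_{Γ-2} = ℤ/n`.

Proof.  `4 ee a ≥ w (n + 4)`: the number `r` of classes with an even nonzero entry is
`≥ ee a / w ≥ (n+4)/4`, `|Y| = 1 + 2 r ≥ n/2 + 3`.  Every `u` has `≥ 2 |Y| - n ≥ 2` representations
`u = y + y'` (ordered, `y, y' ∈ Y`), at most one with `y = y'` (`n` odd).  `Y_add2` with `t = 0`. -/
theorem halfE (hn : Rough n) (h1 : 1 < n) (hw : 1 ≤ w) (c : ι → ZMod n)
    (hF : Full w c) (a : ι → ℕ) (he : w * (n + 4) ≤ 4 * ee a) :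
    R c a (Gam a - 2) = univ := by
  classical
  have hodd := rough_odd hn
  have h2 := card_Ys hodd c hF a
  have h0 : (0 : ZMod n) ∈ Ys c a := by
    rw [mem_Ys']
    exact Or.inl rfl
  set y0 := ((Ys c a).erase 0).card with hy0
  have h3 : n + 4 ≤ 2 * y0 := by
    have h4 : w * (n + 4) ≤ w * (2 * y0) := by
      calc w * (n + 4) ≤ 4 * ee a := he
        _ = 2 * (2 * ee a) := by ring
        _ ≤ 2 * (w * y0) := Nat.mul_le_mul_left _ h2
        _ = w * (2 * y0) := by ring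
    exact Nat.le_of_mul_le_mul_left h4 hw
  have hYcard : (Ys c a).card = y0 + 1 := by
    rw [hy0, Finset.card_erase_of_mem h0]
    have := Finset.card_pos.2 ⟨_, h0⟩
    omega
  rw [Finset.eq_univ_iff_forall]
  intro x
  set u := x - bs c a with hu
  -- representations of `u`
  set P := (Ys c a).filter fun y => u - y ∈ Ys c a with hP
  have hPcard : 2 ≤ P.card := by
    have h4 : ((Ys c a).image fun y => u - y).card = (Ys c a).card :=
      Finset.card_image_of_injective _ fun y y' h => by simpa using h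
    have h5 : (Ys c a) ∩ ((Ys c a).image fun y => u - y) ⊆ P := by
      intro y hy
      rw [Finset.mem_inter, Finset.mem_image] at hy
      obtain ⟨h6, y', h7, h8⟩ := hy
      rw [hP, Finset.mem_filter]
      refine ⟨h6, ?_⟩
      rw [← h8, sub_sub_cancel]
      exact h7
    have h6 := Finset.card_union_add_card_inter (Ys c a) ((Ys c a).image fun y => u - y)
    have h7 : ((Ys c a) ∪ ((Ys c a).image fun y => u - y)).card ≤ n := by
      have := Finset.card_le_univ ((Ys c a) ∪ ((Ys c a).image fun y => u - y))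
      rwa [ZMod.card] at this
    have h8 := Finset.card_le_card h5
    omega
  obtain ⟨y1, hy1, y2, hy2, hne⟩ := Finset.one_lt_card.1 (show 1 < P.card by omega)
  have hex : ∃ y ∈ P, y ≠ u - y := by
    by_contra hcon
    push Not at hcon
    have e1 := hcon y1 hy1
    have e2 := hcon y2 hy2
    apply neg_ne_self hodd (sub_ne_zero.2 hne)
    have e3 : y1 + y1 = u := by nth_rewrite 2 [e1]; ring
    have e4 : y2 + y2 = u := by nth_rewrite 2 [e2]; ring
    have e5 : (y1 - y2) + (y1 - y2) = 0 := by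
      have : (y1 - y2) + (y1 - y2) = (y1 + y1) - (y2 + y2) := by ring
      rw [this, e3, e4, sub_self]
    exact eq_neg_of_add_eq_zero_left e5
  obtain ⟨y, hy, hyne⟩ := hex
  rw [hP, Finset.mem_filter] at hy
  have hfin := Y_add2 c a 0 y (u - y) (zero_mem_od c a) hy.1 hy.2 hyne
  have e : bs c a + 0 + y + (u - y) = x := by rw [hu]; ring
  rwa [e] at hfin

/-- `|Y| ≥ n - A0 - 2` for one zero entry (`Ys_compl1`), and `Y ⊆ R_{Γ-1}` up to translation. -/
lemma RG1_ge (hw : 1 ≤ w) (c : ι → ZMod n) (hF : Full w c) (a : ι → ℕ) (hz : zz a = 1) :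
    n ≤ (R c a (Gam a - 1)).card + (allodd c a).card + 2 := by
  classical
  obtain ⟨x0, hx0⟩ := Ys_compl1 w hw c hF a hz
  have h1 : (Finset.univ : Finset (ZMod n)) ⊆ Ys c a ∪ (allodd c a ∪ {x0, -x0}) := by
    intro y _
    by_contra hy
    rw [Finset.mem_union, Finset.mem_union, Finset.mem_insert, Finset.mem_singleton] at hy
    push Not at hy
    exact hy.1 (hx0 y hy.2.1 hy.2.2.1 hy.2.2.2)
  have h2 := Finset.card_le_card h1
  rw [Finset.card_univ, ZMod.card] at h2
  have h3 := Finset.card_union_le (Ys c a) (allodd c a ∪ {x0, -x0})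
  have h4 := Finset.card_union_le (allodd c a) ({x0, -x0} : Finset (ZMod n))
  have h5 : ({x0, -x0} : Finset (ZMod n)).card ≤ 2 := Finset.card_le_two
  have h6 : (Ys c a).card ≤ (R c a (Gam a - 1)).card := by
    refine Finset.card_le_card_of_injOn (fun y => bs c a + y) (fun y hy => ?_)
      fun y _ y' _ h => by simpa using h
    have := Y_add c a 0 y (zero_mem_od c a) hy
    rwa [add_zero] at this
  omega

end RG
end

section

set_option autoImplicit false

open Finset Pointwise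

namespace RG

open SPR (T two_T T_succ le_T T_mono T_zero eight_T)

variable {n w : ℕ} [NeZero n] {ι : Type} [Fintype ι] [DecidableEq ι]

/-- The basic facts (from `N2`, `N3`): `m = ∑ s + ∑ a`, `M = 2 m + w ≥ w n`,
`α = (M + w n)/(2 w n) ≥ 1`, `y = M - 2 α w n`, `S = SS s a α`, `x = w + 2 oo`. -/
lemma facts2 (hn : Rough n) (hw : 1 ≤ w) (c : ι → ZMod n) (hF : Full w c) (s : Fin w → ℕ)
    (a : ι → ℕ) (hM : w * n ≤ 2 * (∑ l, s l + ∑ k, a k) + w) :
    ∃ (M y S : ℤ) (al : ℕ), 1 ≤ al ∧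
      al = (2 * (∑ l, s l + ∑ k, a k) + w + w * n) / (2 * w * n) ∧
      M = 2 * ((∑ l, s l + ∑ k, a k : ℕ) : ℤ) + w ∧ y = M - 2 * al * w * n ∧
      w * (8 * (n : ℤ) * (1 + (∑ l, T (s l) : ℕ) + Gam a)) =
        8 * w * n + (M ^ 2 - y ^ 2) + w * (n * (S - (w + 2 * oo a))) ∧
      w * (8 * (ph w n (∑ l, s l + ∑ k, a k) : ℤ)) = 8 * w * n + (M ^ 2 - y ^ 2) ∧
      2 * |y| ≤ S + (w + 2 * oo a) ∧ -(w * n : ℤ) ≤ y ∧ y < w * n ∧
      (w + 2 * oo a : ℤ) ≤ S ∧ (8 : ℤ) ∣ S - (w + 2 * oo a) ∧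
      (w + 2 * oo a : ℤ) + 8 * zz a ≤ S := by
  have hodd := rough_odd hn
  have hn0 : 0 < n := hn.1
  obtain ⟨m, hm⟩ : ∃ m, m = ∑ l, s l + ∑ k, a k := ⟨_, rfl⟩
  rw [← hm] at hM
  obtain ⟨al, hal⟩ : ∃ al, al = (2 * m + w + w * n) / (2 * w * n) := ⟨_, rfl⟩
  have hpos : 0 < 2 * w * n := by positivity
  have hι := card_full hodd c hF
  have g1 : (2 * w * n) * al ≤ 2 * m + w + w * n := by rw [hal]; exact Nat.mul_div_le _ _
  have g2 : 2 * m + w + w * n < (2 * w * n) * (al + 1) := by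
    rw [hal]; exact Nat.lt_mul_div_succ _ hpos
  have hal1 : 1 ≤ al := by
    rw [hal, Nat.le_div_iff_mul_le hpos]
    have e : 1 * (2 * w * n) = w * n + w * n := by ring
    rw [e]
    omega
  refine ⟨2 * ((m : ℕ) : ℤ) + w, 2 * ((m : ℕ) : ℤ) + w - 2 * al * w * n, SS s a al, al, hal1, ?_, ?_,
    rfl, ?_, ?_, ?_, ?_, ?_, SS_ge s a al, SS_mod s a al, SS_z s a al (by exact_mod_cast hal1)⟩
  · rw [← hm]; exact hal
  · rw [← hm]
  · have := SS_identity n hι s a al
    rw [← hm] at this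
    exact this
  · have := ph_eq w n m hw hodd
    rw [← hal] at this
    rw [← hm, this]
    ring
  · have := SS_y n hι s a al
    rw [← hm] at this
    exact this
  · zify at g1
    linarith
  · zify at g2
    linarith

/-- `R_Γ = ℤ/n`: `Linf ≥ n W ≥ φ_n(m)`. -/
lemma P2_rho (hn : Rough n) (hw : 1 ≤ w) (c : ι → ZMod n) (hF : Full w c) (s : Fin w → ℕ)
    (a : ι → ℕ) (hM : w * n ≤ 2 * (∑ l, s l + ∑ k, a k) + w) (hR : (R c a (Gam a)).card = n) :
    ph w n (∑ l, s l + ∑ k, a k) ≤ Linf (∑ l, T (s l)) c a := by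
  obtain ⟨M, y, S, al, hal1, _, _, _, h1, h2, _, _, _, h3, _, _⟩ := facts2 hn hw c hF s a hM
  have hn0 : 0 < n := hn.1
  have hv : ∀ v, v ≤ Gam a → (R c a v).card = n := by
    intro v hv
    apply le_antisymm
    · calc (R c a v).card ≤ Fintype.card (ZMod n) := Finset.card_le_univ _
        _ = n := ZMod.card n
    · calc n = (R c a (Gam a)).card := hR.symm
        _ ≤ _ := Finset.card_le_card (R_anti c a hv)
  have hEE : EE c a = Gam a * n := by
    unfold EE
    rw [Finset.sum_congr rfl (g := fun _ => n) fun v hv' => hv v (Finset.mem_Icc.1 hv').2]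
    rw [Finset.sum_const, Nat.card_Icc, smul_eq_mul]
    simp
  unfold Linf
  rw [hEE, hv 0 (Nat.zero_le _)]
  have hw' : (0 : ℤ) < w := by exact_mod_cast hw
  have h4 : (w : ℤ) * (8 * (ph w n (∑ l, s l + ∑ k, a k) : ℤ)) ≤
      w * (8 * (n : ℤ) * (1 + (∑ l, T (s l) : ℕ) + Gam a)) := by
    rw [h1, h2]
    have : 0 ≤ (w : ℤ) * (n * (S - (w + 2 * oo a))) :=
      mul_nonneg hw'.le (mul_nonneg (Int.natCast_nonneg n) (by linarith))
    linarith
  have h5 := le_of_mul_le_mul_left h4 hw'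
  have h6 : ((ph w n (∑ l, s l + ∑ k, a k) : ℕ) : ℤ) ≤
      (((1 + ∑ l, T (s l)) * n + Gam a * n : ℕ) : ℤ) := by
    push_cast at h5 ⊢
    linarith
  exact_mod_cast h6

end RG
end

section

set_option autoImplicit false

open Finset Pointwise

namespace RG

open SPR (T two_T T_succ le_T T_mono T_zero eight_T)

variable {n w : ℕ} [NeZero n] {ι : Type} [Fintype ι] [DecidableEq ι]

/-- If peeling fails (`hF1`, `hF2`), `R_0(a')`, `a' = update a k (a k - 2)`, is not aperiodic.  Here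
`a k ≥ 2` is maximal, `m = ∑ s + ∑ a`, `9999 w ≤ 2 m`.

Proof.  Suppose `stb (R_0(a')) = 0`.  `σ' = ∑ a'`, `m = μ0 + σ' + 2`, `μ0 = ∑ s ≤ w max s`.  By `kn1`
`|R_0(a')| ≥ 1 + σ'`; `|R_0(a)| ≥ |R_0(a')|` and `|R_0(a)| ≥ 3` (it contains `0, c_k, 2 c_k`, distinct since
`n` is odd).  `w ≤ 2 m / 9999`, so `2 m + w ≤ 2.0003 m`.  By `hF2`, `μ0 |R_0(a)| < 2 m + w` if `μ0 ≥ 1`:
so `μ0 (1 + σ') < 2.0003 m` and `3 μ0 < 2.0003 m`; `σ' = m - 2 - μ0` is then `≥ m/3 - 2`; the
concave function `μ (m - 1 - μ)` exceeds `2.0003 m` for `5 ≤ μ ≤ 0.67 m`, hence `μ0 ≤ 4`,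
`σ' ≥ m - 6`.  `hF1`: `w (a k - 1) |R_0(a')| < 2 (2 m + w) ≤ 4.0006 m` with `|R_0(a')| ≥ 1 + σ' ≥ m - 5`
gives `w (a k - 1) ≤ 4`, `w a_k ≤ 8`.  Now `blk` with `κ = 20` (`1 + T 20 = 211`) and bound `w a_k ≤ 8`
(`a'` is `w a_k`-bounded): `2 |R_0(a')| ≥ 21 σ' + 2 - 21 * 8 * 19`, so `|R_0(a')| ≥ 10 m`
(`m ≥ 4999`): contradiction to `hF1`. -/
theorem fail_K0 (hn : Rough n) (h1 : 1 < n) (hw : 1 ≤ w) (hD : DD n) (c : ι → ZMod n)
    (hF : Full w c) (s : Fin w → ℕ) (a : ι → ℕ) (k : ι) (hk : 2 ≤ a k) (hmax : ∀ j, a j ≤ a k)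
    (hm : 9999 * w ≤ 2 * (∑ i, s i + ∑ j, a j))
    (hF1 : w * ((a k - 1) * (R c (Function.update a k (a k - 2)) 0).card) <
      2 * (2 * (∑ i, s i + ∑ j, a j) + w))
    (hF2 : ∀ l, 1 ≤ s l → w * (s l * (R c a 0).card) < 2 * (∑ i, s i + ∑ j, a j) + w)
    (hst : stb (R c (Function.update a k (a k - 2)) 0) = ⊥) : False := by
  classical
  have hmf : 10000 ≤ n.minFac := rough_minFac hn h1
  set a' : ι → ℕ := Function.update a k (a k - 2) with ha'
  have ha'le : ∀ i, a' i ≤ a i := by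
    intro i
    rw [ha']
    by_cases h : i = k
    · subst h
      rw [Function.update_self]
      omega
    · rw [Function.update_of_ne h]
  have hsum : ∑ i, a' i + 2 = ∑ i, a i := by
    have e1 : ∑ i, a i = a k + ∑ i ∈ Finset.univ.erase k, a i := by
      rw [Finset.add_sum_erase _ _ (Finset.mem_univ k)]
    have e2 : ∑ i, a' i = a' k + ∑ i ∈ Finset.univ.erase k, a' i := by
      rw [Finset.add_sum_erase _ _ (Finset.mem_univ k)]
    have e3 : ∑ i ∈ Finset.univ.erase k, a' i = ∑ i ∈ Finset.univ.erase k, a i := by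
      refine Finset.sum_congr rfl ?_
      intro i hi
      rw [ha', Function.update_of_ne (Finset.ne_of_mem_erase hi)]
    have e4 : a' k = a k - 2 := by rw [ha', Function.update_self]
    omega
  -- the lower bound by one
  have hx1 : 1 + ∑ i, a' i ≤ (R c a' 0).card := by
    have h := kn1 c a'
    rw [hst] at h
    have hc1 : Nat.card (⊥ : AddSubgroup (ZMod n)) = 1 := by simp
    have hc2 : outs (⊥ : AddSubgroup (ZMod n)) c a' = ∑ i, a' i := by
      unfold outs
      rw [Finset.filter_true_of_mem]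
      intro i _
      rw [AddSubgroup.mem_bot]
      exact hF.1 i
    rw [hc1, hc2, one_mul] at h
    exact h
  have hxX : (R c a' 0).card ≤ (R c a 0).card := Finset.card_le_card (R_mono c a' a ha'le)
  have hX3 : 3 ≤ (R c a 0).card := by
    have h := R_ge_sum n c hF.1 (Pi.single k 2)
    have e1 : ∑ i, (Pi.single k 2 : ι → ℕ) i = 2 := by
      rw [Finset.sum_pi_single']
      simp
    rw [e1] at h
    have e2 : (R c (Pi.single k 2) 0).card ≤ (R c a 0).card := by
      refine Finset.card_le_card (R_mono c _ a ?_)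
      intro i
      by_cases h : i = k
      · subst h
        rw [Pi.single_eq_same]
        exact hk
      · rw [Pi.single_eq_of_ne h]
        exact Nat.zero_le _
    have e3 : min n.minFac (1 + 2) = 3 := by
      rw [min_eq_right (by omega)]
    omega
  set x := (R c a' 0).card with hx
  set X := (R c a 0).card with hX
  set σ := ∑ i, a' i with hσ
  set S := ∑ i, s i with hS
  set A := ∑ j, a j with hA
  have hAσ : A = σ + 2 := hsum.symm
  -- the sum of the s
  have hS0 : 1 ≤ S → S * X < 2 * (S + A) + w := by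
    intro h
    obtain ⟨l, -, hl⟩ := Finset.exists_max_image (Finset.univ : Finset (Fin w)) s
      ⟨⟨0, hw⟩, Finset.mem_univ _⟩
    have hSl : S ≤ w * s l := by
      calc S = ∑ i, s i := rfl
        _ ≤ ∑ _i : Fin w, s l := Finset.sum_le_sum fun i _ => hl i (Finset.mem_univ i)
        _ = w * s l := by rw [Finset.sum_const, Finset.card_univ, Fintype.card_fin, smul_eq_mul]
    have hl1 : 1 ≤ s l := by
      by_contra hcon
      have : s l = 0 := by omega
      rw [this] at hSl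
      omega
    have := hF2 l hl1
    calc S * X ≤ (w * s l) * X := Nat.mul_le_mul_right _ hSl
      _ = w * (s l * X) := by ring
      _ < _ := this
  have hS4 : S ≤ 4 := by
    by_contra hcon
    have h5 : 5 ≤ S := by omega
    have h6 := hS0 (by omega)
    have h7 : 3 * S < 2 * (S + A) + w := by nlinarith
    have h8 : S * (1 + σ) < 2 * (S + A) + w := by
      calc S * (1 + σ) ≤ S * X := Nat.mul_le_mul_left _ (hx1.trans hxX)
        _ < _ := h6
    -- `m = S + A`
    have h9 : 100 * S ≤ 67 * (S + A) := by omega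
    have h10 : 5000 ≤ S + A := by omega
    zify at h5 h6 h7 h8 h9 h10 hm hAσ ⊢
    nlinarith [mul_nonneg (sub_nonneg.2 h5) (sub_nonneg.2 h9)]
  have hm5 : 5000 ≤ S + A := by omega
  have hxm : S + A ≤ x + 5 := by omega
  -- `w (a k - 1) ≤ 4`
  obtain ⟨b, hb⟩ : ∃ b, a k = b + 1 := ⟨a k - 1, by omega⟩
  have hb1 : 1 ≤ b := by omega
  have hF1' : w * b * x < 2 * (2 * (S + A) + w) := by
    have : a k - 1 = b := by omega
    rw [this] at hF1
    calc w * b * x = w * (b * x) := by ring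
      _ < _ := hF1
  have hwb : w * b ≤ 4 := by
    by_contra hcon
    have h5 : 5 ≤ w * b := by omega
    have h6 : 5 * x ≤ w * b * x := Nat.mul_le_mul_right _ h5
    omega
  have hwa : w * a k ≤ 8 := by
    rw [hb, mul_add, mul_one]
    have : w * 1 ≤ w * b := Nat.mul_le_mul_left _ hb1
    omega
  have hB : Bdd 8 c a' := by
    refine ⟨hF.1, fun y => ?_⟩
    by_cases hy : y = 0
    · have : cls c y = ∅ := by
        rw [Finset.eq_empty_iff_forall_notMem]
        intro i hi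
        have h : c i = y ∨ c i = -y := by
          simp only [cls, Finset.mem_filter, Finset.mem_univ, true_and] at hi
          exact hi
        rcases h with h | h
        · exact hF.1 i (h.trans hy)
        · rw [hy, neg_zero] at h
          exact hF.1 i h
      rw [this, Finset.sum_empty]
      exact Nat.zero_le _
    · calc ∑ i ∈ cls c y, a' i ≤ ∑ _i ∈ cls c y, a k :=
            Finset.sum_le_sum fun i _ => (ha'le i).trans (hmax i)
        _ = (cls c y).card * a k := by rw [Finset.sum_const, smul_eq_mul]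
        _ = w * a k := by rw [hF.2 y hy]
        _ ≤ 8 := hwa
  have hblk := blk n 20 8 hD (by norm_num) (by
    have : T 20 = 210 := by decide
    rw [this]
    omega) c a' hB hst
  have hx2 : x ≤ w * b * x := by
    have : 1 ≤ w * b := Nat.mul_pos hw hb1
    nlinarith
  omega

end RG
end

section

set_option autoImplicit false

open Finset Pointwise

namespace RG

open SPR (T two_T T_succ le_T T_mono T_zero eight_T)

variable {n w : ℕ} [NeZero n] {ι : Type} [Fintype ι] [DecidableEq ι]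

omit [DecidableEq ι] in
private lemma p3b_allodd {c : ι → ZMod n} {a : ι → ℕ} {w : ℕ} (hw : 1 ≤ w) (hF : Full w c)
    {x : ZMod n} (hx : x ∈ allodd c a) : ∃ k, (c k = x ∨ c k = -x) ∧ a k % 2 = 1 := by
  classical
  unfold allodd at hx
  simp only [Finset.mem_filter, Finset.mem_univ, true_and] at hx
  have h1 := hF.2 x hx.1
  have h2 : (cls c x).Nonempty := by
    rw [← Finset.card_pos, h1]
    omega
  obtain ⟨k, hk⟩ := h2
  refine ⟨k, ?_, hx.2 k hk⟩
  unfold cls at hk
  simp only [Finset.mem_filter, Finset.mem_univ, true_and] at hk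
  exact hk

/-- `stb X0 = K ≠ 0` and `|X0| ≤ A0 + 2`: then `X0 = K` and `allodd ⊆ K`.

Proof.  `k' = |K| ≥ 10000`, `t = outs K c (od a)`; `kn1`: `k' (1 + t) ≤ |X0|`.  The elements of `allodd`
outside `K` come from odd entries outside `K`: at most `2 t`; those in `K` are nonzero: `A0 ≤ k' - 1 + 2 t`.
So `k' (1 + t) ≤ k' + 1 + 2 t`, hence `t = 0`: all odd entries are in `K` (so `X0 ⊆ K`, `allodd ⊆ K`),
and `0 ∈ X0` with `X0` `K`-periodic gives `X0 = K`. -/
lemma rho_per (hn : Rough n) (h1 : 1 < n) (hw : 1 ≤ w) (c : ι → ZMod n)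
    (hF : Full w c) (a : ι → ℕ) (hst : stb (R c (od a) 0) ≠ ⊥)
    (hle : (R c (od a) 0).card ≤ (allodd c a).card + 2) :
    (∀ x, x ∈ R c (od a) 0 ↔ x ∈ stb (R c (od a) 0)) ∧
      (∀ x ∈ allodd c a, x ∈ stb (R c (od a) 0)) := by
  classical
  have hkn := kn1 c (od a)
  obtain ⟨K, hK⟩ : ∃ K, K = stb (R c (od a) 0) := ⟨_, rfl⟩
  rw [← hK] at hkn hst ⊢
  -- the size of `K`
  have hKd : Nat.card K ∣ n := card_sub_dvd K
  have hK1 : 1 < Nat.card K := by
    have h2 : 0 < Nat.card K := Nat.card_pos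
    by_contra hcon
    have h3 : Nat.card K = 1 := by omega
    exact hst (AddSubgroup.card_eq_one.1 h3)
  have hK2 : 10000 ≤ Nat.card K := rough_ge (rough_dvd hn hKd) hK1
  set S : Finset ι := Finset.univ.filter (fun k => c k ∉ K ∧ a k % 2 = 1) with hS
  have hout : outs K c (od a) = S.card := by
    unfold outs od
    rw [hS, Finset.card_filter, Finset.sum_filter]
    refine Finset.sum_congr rfl fun k _ => ?_
    by_cases h2 : c k ∉ K
    · by_cases h3 : a k % 2 = 1
      · rw [if_pos h2, if_pos ⟨h2, h3⟩, h3]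
      · rw [if_pos h2, if_neg (fun h => h3 h.2)]
        omega
    · rw [if_neg h2, if_neg (fun h => h2 h.1)]
  -- the elements of `allodd`
  have hin : ((allodd c a).filter (fun x => x ∈ K)).card + 1 ≤ Nat.card K := by
    have h2 : Nat.card K = (Finset.univ.filter (fun x : ZMod n => x ∈ K)).card := by
      rw [Nat.card_eq_fintype_card, Fintype.card_subtype]
    rw [h2]
    have h3 : insert (0 : ZMod n) ((allodd c a).filter (fun x => x ∈ K)) ⊆
        Finset.univ.filter (fun x : ZMod n => x ∈ K) := by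
      intro x hx
      rcases Finset.mem_insert.1 hx with rfl | hx
      · exact Finset.mem_filter.2 ⟨Finset.mem_univ _, K.zero_mem⟩
      · exact Finset.mem_filter.2 ⟨Finset.mem_univ _, (Finset.mem_filter.1 hx).2⟩
    have h4 := Finset.card_le_card h3
    rw [Finset.card_insert_of_notMem] at h4
    · exact h4
    · intro h5
      have h6 := (Finset.mem_filter.1 h5).1
      unfold allodd at h6
      simp only [Finset.mem_filter, Finset.mem_univ, true_and] at h6
      exact h6.1 rfl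
  have hex : ((allodd c a).filter (fun x => ¬ x ∈ K)).card ≤ 2 * S.card := by
    have h2 : (allodd c a).filter (fun x => ¬ x ∈ K) ⊆ S.image c ∪ S.image (fun k => - c k) := by
      intro x hx
      obtain ⟨hx1, hx2⟩ := Finset.mem_filter.1 hx
      obtain ⟨k, hk, hk2⟩ := p3b_allodd hw hF hx1
      have hkS : k ∈ S := by
        rw [hS, Finset.mem_filter]
        refine ⟨Finset.mem_univ _, fun hck => hx2 ?_, hk2⟩
        rcases hk with hk | hk
        · rw [← hk]; exact hck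
        · rw [hk] at hck
          exact (neg_mem_iff).1 hck
      rw [Finset.mem_union]
      rcases hk with hk | hk
      · exact Or.inl (Finset.mem_image.2 ⟨k, hkS, hk⟩)
      · exact Or.inr (Finset.mem_image.2 ⟨k, hkS, by rw [hk, neg_neg]⟩)
    have h3 := Finset.card_le_card h2
    have h4 := Finset.card_union_le (S.image c) (S.image (fun k => - c k))
    have h5 : (S.image c).card ≤ S.card := Finset.card_image_le
    have h6 : (S.image (fun k => - c k)).card ≤ S.card := Finset.card_image_le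
    omega
  have hsplit : ((allodd c a).filter (fun x => x ∈ K)).card +
      ((allodd c a).filter (fun x => ¬ x ∈ K)).card = (allodd c a).card :=
    Finset.card_filter_add_card_filter_not _
  rw [hout] at hkn
  have hS0 : S.card = 0 := by
    by_contra hcon
    have h2 : 1 ≤ S.card := by omega
    have h3 : 10000 * S.card ≤ Nat.card K * S.card := Nat.mul_le_mul_right _ hK2
    have h4 : Nat.card K * (1 + S.card) = Nat.card K + Nat.card K * S.card := by ring
    omega
  have hSe : S = ∅ := Finset.card_eq_zero.1 hS0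
  have hodd : ∀ k, c k ∉ K → a k % 2 = 0 := by
    intro k hk
    by_contra hcon
    have h2 : k ∈ S := by
      rw [hS, Finset.mem_filter]
      exact ⟨Finset.mem_univ _, hk, by omega⟩
    rw [hSe] at h2
    exact Finset.notMem_empty _ h2
  constructor
  · intro x
    constructor
    · intro hx
      rw [mem_R] at hx
      obtain ⟨j, hj, rfl, -⟩ := hx
      unfold pos
      refine K.sum_mem fun k _ => ?_
      by_cases hk : c k ∈ K
      · exact K.nsmul_mem hk _
      · have h2 := hj k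
        unfold od at h2
        rw [hodd k hk] at h2
        have h3 : j k = 0 := by omega
        rw [h3, zero_smul]
        exact K.zero_mem
    · intro hx
      rw [hK, mem_stb] at hx
      have h2 := (hx 0).2 (zero_mem_R c (od a))
      rwa [zero_add] at h2
  · intro x hx
    by_contra hcon
    obtain ⟨k, hk, hk2⟩ := p3b_allodd hw hF hx
    have h2 : c k ∉ K := by
      intro hck
      apply hcon
      rcases hk with hk | hk
      · rw [← hk]; exact hck
      · rw [hk] at hck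
        exact (neg_mem_iff).1 hck
    have := hodd k h2
    omega

end RG
end

section

set_option autoImplicit false

open Finset Pointwise

namespace RG

open SPR (T two_T T_succ le_T T_mono T_zero eight_T)

variable {n w : ℕ} [NeZero n] {ι : Type} [Fintype ι] [DecidableEq ι]

omit [DecidableEq ι] [NeZero n] in
private lemma p3a_mem_cls (c : ι → ZMod n) (x : ZMod n) (k : ι) :
    k ∈ cls c x ↔ c k = x ∨ c k = -x := by
  unfold cls
  simp only [Finset.mem_filter, Finset.mem_univ, true_and]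

/-- Size of `X0 = R_0(od a)` (subset sums of the odd entries) against `A0 = |allodd|`, `stb X0 = 0`.

`A0 = 2 q0`, let `f` be the indicator of one odd entry in each of the `q0` all-odd classes (`w ≥ 1`),
`f ≤ od a`, so `R_0(f)` is aperiodic (`stb_le`), `|R_0(f)| ≤ |X0|`.  `blk` with `κ = 20` and bound `1`:
`21 q0 + 2 ≤ 2 |X0| + 21 * 19`; `DD` for `min(q0, 20)` of these entries: `|X0| ≥ 1 + T(min(q0, 20))`.
If `|X0| ≤ A0 + 2 = 2 q0 + 2` then `q0 ≤ 23` by the first, and then `q0 ≤ 3` by the second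
(`1 + T 4 = 11 > 10`; `1 + T 20 = 211 > 48`), and `1 + oo ≤ |X0| ≤ 8` by `kn1` with trivial stabilizer. -/
lemma rho_aper (hn : Rough n) (h1 : 1 < n) (hw : 1 ≤ w) (hD : DD n) (c : ι → ZMod n)
    (hF : Full w c) (a : ι → ℕ) (hst : stb (R c (od a) 0) = ⊥)
    (hle : (R c (od a) 0).card ≤ (allodd c a).card + 2) :
    (allodd c a).card ≤ 6 ∧ oo a ≤ 7 := by
  classical
  have hodd := rough_odd hn
  have hmf := rough_minFac hn h1
  -- entries of the all-odd classes
  have hall : ∀ x, x ∈ allodd c a ↔ x ≠ 0 ∧ ∀ k ∈ cls c x, a k % 2 = 1 := by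
    intro x
    unfold allodd
    simp only [Finset.mem_filter, Finset.mem_univ, true_and]
  have hclsneg : ∀ x, cls c (-x) = cls c x := by
    intro x
    ext k
    rw [p3a_mem_cls, p3a_mem_cls, neg_neg]
    exact or_comm
  have hallneg : ∀ x, x ∈ allodd c a → -x ∈ allodd c a := by
    intro x hx
    rw [hall] at hx ⊢
    refine ⟨neg_ne_zero.2 hx.1, ?_⟩
    rw [hclsneg]
    exact hx.2
  set b : ι → ℕ := fun k => if c k ∈ allodd c a then 1 else 0 with hb
  have hb1 : ∀ k, b k ≤ 1 := by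
    intro k
    simp only [hb]
    split_ifs <;> omega
  have hB : Bdd w c b := by
    refine ⟨hF.1, fun x => ?_⟩
    have e1 : ∑ k ∈ cls c x, b k ≤ ∑ _k ∈ cls c x, 1 := Finset.sum_le_sum fun k _ => hb1 k
    rw [Finset.sum_const, smul_eq_mul, mul_one] at e1
    by_cases hx : x = 0
    · have e2 : cls c x = ∅ := by
        apply Finset.eq_empty_of_forall_notMem
        intro k hk
        rw [p3a_mem_cls, hx, neg_zero, or_self] at hk
        exact hF.1 k hk
      rw [e2, Finset.card_empty] at e1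
      rw [e2]
      omega
    · rw [hF.2 x hx] at e1
      exact e1
  have hdouble : w * (allodd c a).card ≤ 2 * ∑ k, b k := by
    have e1 : w * (allodd c a).card = ∑ x ∈ allodd c a, (cls c x).card := by
      rw [Finset.sum_congr rfl fun x hx => hF.2 x ((hall x).1 hx).1, Finset.sum_const, smul_eq_mul,
        mul_comm]
    have e2 : ∀ x ∈ allodd c a, (cls c x).card = ∑ k, if (c k = x ∨ c k = -x) then 1 else 0 := by
      intro x _
      rw [← Finset.card_filter]
      congr 1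
      ext k
      rw [p3a_mem_cls]
      simp only [Finset.mem_filter, Finset.mem_univ, true_and]
    rw [e1, Finset.sum_congr rfl e2, Finset.sum_comm, Finset.mul_sum]
    refine Finset.sum_le_sum fun k _ => ?_
    by_cases hk : c k ∈ allodd c a
    · have e3 : b k = 1 := by simp only [hb, if_pos hk]
      rw [e3, ← Finset.card_filter]
      have e4 : (allodd c a).filter (fun x => c k = x ∨ c k = -x) ⊆ {c k, - c k} := by
        intro x hx
        rw [Finset.mem_filter] at hx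
        rw [Finset.mem_insert, Finset.mem_singleton]
        rcases hx.2 with h | h
        · exact Or.inl h.symm
        · exact Or.inr (by rw [h, neg_neg])
      refine (Finset.card_le_card e4).trans ?_
      exact Finset.card_le_two
    · have e3 : b k = 0 := by simp only [hb, if_neg hk]
      rw [e3, mul_zero]
      refine le_of_eq (Finset.sum_eq_zero fun x hx => ?_)
      rw [if_neg]
      rintro (h | h)
      · exact hk (h ▸ hx)
      · exact hk (h ▸ hallneg x hx)
  obtain ⟨A, hA⟩ : ∃ A, A = (allodd c a).card := ⟨_, rfl⟩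
  obtain ⟨r, hr⟩ : ∃ r, r = (A + 1) / 2 := ⟨_, rfl⟩
  rw [← hA] at hdouble hle ⊢
  -- one odd entry in each class
  obtain ⟨J, hJc, hJ1, hJ2⟩ : ∃ J : Finset ι, J.card = r ∧ (∀ k ∈ J, 1 ≤ b k) ∧
      ∀ k ∈ J, ∀ k' ∈ J, (c k = c k' ∨ c k = -c k') → k = k' := by
    rcases Nat.eq_zero_or_pos A with h0 | h0
    · refine ⟨∅, ?_, by simp, by simp⟩
      rw [hr, h0, Finset.card_empty]
    · refine exists_distinct c b hB r ?_
      have e1 : 2 * (r - 1) < A := by omega
      have e2 : w * (2 * (r - 1)) < w * A := Nat.mul_lt_mul_of_pos_left e1 (by omega)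
      have e3 : w * (2 * (r - 1)) = 2 * (w * (r - 1)) := by ring
      omega
  set f : ι → ℕ := fun k => if k ∈ J then 1 else 0 with hf
  have hfa : ∀ k, f k ≤ od a k := by
    intro k
    by_cases hk : k ∈ J
    · have e1 := hJ1 k hk
      have e2 : c k ∈ allodd c a := by
        by_contra h
        simp only [hb, if_neg h] at e1
        omega
      have e3 := ((hall _).1 e2).2 k ((p3a_mem_cls c _ k).2 (Or.inl rfl))
      simp only [hf, if_pos hk]
      unfold od
      omega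
    · simp only [hf, if_neg hk]
      exact Nat.zero_le _
  have hsf : ∑ k, f k = r := by
    simp only [hf]
    rw [Finset.sum_ite_mem, Finset.univ_inter, Finset.sum_const, hJc, smul_eq_mul, mul_one]
  have hBf : Bdd 1 c f := by
    refine ⟨hF.1, fun x => ?_⟩
    have e1 : ∑ k ∈ cls c x, f k = (cls c x ∩ J).card := by
      simp only [hf]
      rw [Finset.sum_ite_mem, Finset.sum_const, smul_eq_mul, mul_one]
    rw [e1, Finset.card_le_one]
    intro k hk' k' hk''
    rw [Finset.mem_inter] at hk' hk''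
    refine hJ2 k hk'.2 k' hk''.2 ?_
    have e2 : c k = x ∨ c k = -x := (p3a_mem_cls c x k).1 hk'.1
    have e3 : c k' = x ∨ c k' = -x := (p3a_mem_cls c x k').1 hk''.1
    rcases e2 with e2 | e2 <;> rcases e3 with e3 | e3 <;> rw [e2, e3] <;> simp
  have hstf : stb (R c f 0) = ⊥ := le_bot_iff.1 (hst ▸ stb_le c f (od a) hfa)
  have hcard : (R c f 0).card ≤ (R c (od a) 0).card :=
    Finset.card_le_card (R_mono c f (od a) hfa)
  have hT20 : T 20 = 210 := by decide
  have hb2 := blk n 20 1 hD (by norm_num) (by rw [hT20]; omega) c f hBf hstf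
  rw [hsf] at hb2
  have hr23 : r ≤ 23 := by omega
  have hDf := hD ι c f hBf
  rw [hsf] at hDf
  have hTr : 2 * T r = r * (r + 1) := two_T r
  have hTr2 : r * (r + 1) ≤ 23 * 24 := Nat.mul_le_mul hr23 (by omega)
  rw [min_eq_right (by omega)] at hDf
  have hr3 : r ≤ 3 := by
    by_contra hcon
    have e1 : 4 ≤ r := by omega
    have e2 : r * 5 ≤ r * (r + 1) := Nat.mul_le_mul_left _ (by omega)
    omega
  refine ⟨by omega, ?_⟩
  have hkn := kn1 c (od a)
  rw [hst, AddSubgroup.card_bot, one_mul] at hkn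
  have hout : outs (⊥ : AddSubgroup (ZMod n)) c (od a) = oo a := by
    rw [← sum_od]
    unfold outs
    rw [Finset.filter_true_of_mem]
    intro k _
    rw [AddSubgroup.mem_bot]
    exact hF.1 k
  rw [hout] at hkn
  omega

end RG
end

section

set_option autoImplicit false

open Finset Pointwise

namespace RG

open SPR (T two_T T_succ le_T T_mono T_zero eight_T)

variable {n w : ℕ} [NeZero n] {ι : Type} [Fintype ι] [DecidableEq ι]

/-- `|X0| < n` implies that there are few odd entries: `50 o ≤ w n`.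

Proof.  `CC n w` for `od a`: `φ_h(o) ≤ |X0| < n`, `h ∣ n`, so `h < n`.  `h = 1`: `gg w o < n`, by `gg_quad`
`o^2 ≤ 2 w n`, and `(50 o)^2 ≤ 5000 w n ≤ (w n)^2`.  `10000 ≤ h ≤ n/10000`: with
`t = o - w (h-1)/2` (natural), `h (1 + t) ≤ φ_h(o) < n`, so `o ≤ w h/2 + n/h ≤ w n/20000 + n/10000`. -/
theorem odd_few (hn : Rough n) (h1 : 1 < n) (hw : 1 ≤ w) (hC : CC n w) (c : ι → ZMod n)
    (hF : Full w c) (a : ι → ℕ) (hX : (R c (od a) 0).card < n) : 50 * oo a ≤ w * n := by
  obtain ⟨h, hh, hle⟩ := hC ι c (od a) (od_bdd (rough_odd hn) c hF a)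
  rw [sum_od] at hle
  have hlt : ph w h (oo a) < n := lt_of_le_of_lt hle hX
  have hpos : 0 < h := Nat.pos_of_dvd_of_pos hh hn.1
  have hge : h ≤ ph w h (oo a) := ph_ge w h (oo a) hw hpos
  have hn4 : 10000 ≤ n := rough_ge hn h1
  generalize oo a = o at *
  have hwn : n ≤ w * n := Nat.le_mul_of_pos_left n hw
  rcases Nat.lt_or_ge 1 h with h2 | h2
  · have h3 : 10000 ≤ h := rough_ge (rough_dvd hn hh) h2
    have h4 : 10000 * h ≤ n := rough_proper hn hh (lt_of_le_of_lt hge hlt)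
    have h5 : 1 + (o - w * ((h - 1) / 2)) ≤ gg (w * h) (o - w * ((h - 1) / 2)) :=
      gg_ge _ _ (Nat.mul_pos hw hpos)
    have h6 : h * (1 + (o - w * ((h - 1) / 2))) < n := by
      refine lt_of_le_of_lt ?_ hlt
      unfold ph
      exact Nat.mul_le_mul_left h h5
    have h7 : 10000 * (o - w * ((h - 1) / 2)) ≤ h * (1 + (o - w * ((h - 1) / 2))) :=
      Nat.mul_le_mul h3 (by omega)
    have h8 : w * ((h - 1) / 2) * 2 ≤ w * h := by
      rw [mul_assoc]
      exact Nat.mul_le_mul_left w (by omega)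
    have h9 : w * (10000 * h) ≤ w * n := Nat.mul_le_mul_left w h4
    have h10 : w * (10000 * h) = 10000 * (w * h) := by ring
    omega
  · have h3 : h = 1 := by omega
    rw [h3, ph_h_one] at hlt
    have h4 := gg_quad w o hw
    have h5 : 2 * w * gg w o ≤ 2 * w * n := Nat.mul_le_mul_left _ hlt.le
    have h6 : o * o ≤ 2 * (w * n) := by
      have : 2 * w * n = 2 * (w * n) := by ring
      omega
    by_contra hc
    push Not at hc
    have h7 : (w * n) * (w * n) < (50 * o) * (50 * o) := Nat.mul_lt_mul'' hc hc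
    have h8 : 10000 * (w * n) ≤ (w * n) * (w * n) := Nat.mul_le_mul_right _ (by omega)
    have h9 : (50 * o) * (50 * o) = 2500 * (o * o) := by ring
    omega

end RG
end
end
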